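import Pool.Agent.H94.GP.Mat

/-!
# Blk: the two blocks of the lifted certificate form

`floc` is the local form, quadratic in `(a, ξ, η)` and in `(σ; α, p, q) ∈ ℝ × ℂ^3`. `2 floc` is the sum of the values of two matrices `B1`, `B2`
(upper triangular rows) at the vectors of products `v1`, `v2`; `K` are free skew parts. `X1`, `X2` are the same matrices with entries
expressions (`Ex`). (Generated by a program.)
-/

set_option autoImplicit false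

namespace Pool.Agent.H94.GP

/-- the sixteen products -/
noncomputable def Cj (σ : ℝ) (α p q : ℂ) : Fin 16 → ℂ :=
  ![σ ^ 2, σ * α, σ * p, σ * q, α * (starRingEnd ℂ) α, α ^ 2, α * (starRingEnd ℂ) p, α * p,
    (starRingEnd ℂ) α * q, α * q, p * (starRingEnd ℂ) p, p ^ 2, (starRingEnd ℂ) p * q, p * q,
    q * (starRingEnd ℂ) q, q ^ 2]

/-- their weights -/
def kj : Fin 16 → ℕ := ![0, 2, 1, 3, 0, 4, 1, 3, 1, 5, 0, 2, 2, 4, 0, 6]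

/-- the local form -/
noncomputable def floc (T R S X : Fin 16 → ℝ) (a ξ η σ : ℝ) (α p q : ℂ) : ℝ :=
  ∑ j, (a ^ 2 * (T j * (Cj σ α p q j).re)
    - 2 * a * (ξ * (R j * (Cj σ α p q j).re) + η * (S j * (Cj σ α p q j).im))
    + (ξ ^ 2 + η ^ 2) * (X j * (Cj σ α p q j).re))

/-- products, even block -/
noncomputable def v1 (a ξ η σ : ℝ) (α p q : ℂ) : List ℝ :=
  [a * σ, a * α.re, a * p.re, a * q.re, ξ * σ, ξ * α.re, ξ * p.re, ξ * q.re, η * α.im, η * p.im, η * q.im]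

/-- products, odd block -/
noncomputable def v2 (a ξ η σ : ℝ) (α p q : ℂ) : List ℝ :=
  [a * α.im, a * p.im, a * q.im, ξ * α.im, ξ * p.im, ξ * q.im, η * σ, η * α.re, η * p.re, η * q.re]

/-- even block -/
noncomputable def B1 (T R S X : Fin 16 → ℝ) (K : Fin 33 → ℝ) : List (List ℝ) :=
  [[2 * T 0, T 1, T 2, T 3, -(2 * R 0), -(R 1) + K 0, -(R 2) + K 1, -(R 3) + K 2, -(S 1) + K 9, -(S 2) + K 10, -(S 3) + K 11],
   [2 * T 4 + 2 * T 5, T 6 + T 7, T 8 + T 9, -(R 1) - K 0, -(2 * R 4) - 2 * R 5, -(R 6) - R 7 + K 3, -(R 8) - R 9 + K 4, -(2 * S 5) + K 12, S 6 - S 7 + K 13, -(S 8) - S 9 + K 14],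
   [2 * T 10 + 2 * T 11, T 12 + T 13, -(R 2) - K 1, -(R 6) - R 7 - K 3, -(2 * R 10) - 2 * R 11, -(R 12) - R 13 + K 5, -(S 6) - S 7 + K 15, -(2 * S 11) + K 16, -(S 12) - S 13 + K 17],
   [2 * T 14 + 2 * T 15, -(R 3) - K 2, -(R 8) - R 9 - K 4, -(R 12) - R 13 - K 5, -(2 * R 14) - 2 * R 15, S 8 - S 9 + K 18, S 12 - S 13 + K 19, -(2 * S 15) + K 20],
   [2 * X 0, X 1, X 2, X 3, K 21, K 22, K 23],
   [2 * X 4 + 2 * X 5, X 6 + X 7, X 8 + X 9, K 24, K 25, K 26],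
   [2 * X 10 + 2 * X 11, X 12 + X 13, K 27, K 28, K 29],
   [2 * X 14 + 2 * X 15, K 30, K 31, K 32],
   [2 * X 4 - 2 * X 5, X 6 - X 7, X 8 - X 9],
   [2 * X 10 - 2 * X 11, X 12 - X 13],
   [2 * X 14 - 2 * X 15]]

/-- odd block -/
noncomputable def B2 (T R S X : Fin 16 → ℝ) (K : Fin 33 → ℝ) : List (List ℝ) :=
  [[2 * T 4 - 2 * T 5, T 6 - T 7, T 8 - T 9, -(2 * R 4) + 2 * R 5, -(R 6) + R 7 + K 6, -(R 8) + R 9 + K 7, -(S 1) - K 9, -(2 * S 5) - K 12, -(S 6) - S 7 - K 15, S 8 - S 9 - K 18],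
   [2 * T 10 - 2 * T 11, T 12 - T 13, -(R 6) + R 7 - K 6, -(2 * R 10) + 2 * R 11, -(R 12) + R 13 + K 8, -(S 2) - K 10, S 6 - S 7 - K 13, -(2 * S 11) - K 16, S 12 - S 13 - K 19],
   [2 * T 14 - 2 * T 15, -(R 8) + R 9 - K 7, -(R 12) + R 13 - K 8, -(2 * R 14) + 2 * R 15, -(S 3) - K 11, -(S 8) - S 9 - K 14, -(S 12) - S 13 - K 17, -(2 * S 15) - K 20],
   [2 * X 4 - 2 * X 5, X 6 - X 7, X 8 - X 9, -(K 21), -(K 24), -(K 27), -(K 30)],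
   [2 * X 10 - 2 * X 11, X 12 - X 13, -(K 22), -(K 25), -(K 28), -(K 31)],
   [2 * X 14 - 2 * X 15, -(K 23), -(K 26), -(K 29), -(K 32)],
   [2 * X 0, X 1, X 2, X 3],
   [2 * X 4 + 2 * X 5, X 6 + X 7, X 8 + X 9],
   [2 * X 10 + 2 * X 11, X 12 + X 13],
   [2 * X 14 + 2 * X 15]]

/-- even block of expressions -/
def X1 (T R S X : Fin 16 → Ex) (K : Fin 33 → Ex) : List (List Ex) :=
  [[(.smul (2) (T 0)), (T 1), (T 2), (T 3), (.smul (-2) (R 0)), (.add (.smul (-1) (R 1)) (K 0)), (.add (.smul (-1) (R 2)) (K 1)), (.add (.smul (-1) (R 3)) (K 2)), (.add (.smul (-1) (S 1)) (K 9)), (.add (.smul (-1) (S 2)) (K 10)), (.add (.smul (-1) (S 3)) (K 11))],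
   [(.add (.smul (2) (T 4)) (.smul (2) (T 5))), (.add (T 6) (T 7)), (.add (T 8) (T 9)), (.add (.smul (-1) (R 1)) (.smul (-1) (K 0))), (.add (.smul (-2) (R 4)) (.smul (-2) (R 5))), (.add (.add (.smul (-1) (R 6)) (.smul (-1) (R 7))) (K 3)), (.add (.add (.smul (-1) (R 8)) (.smul (-1) (R 9))) (K 4)), (.add (.smul (-2) (S 5)) (K 12)), (.add (.add (S 6) (.smul (-1) (S 7))) (K 13)), (.add (.add (.smul (-1) (S 8)) (.smul (-1) (S 9))) (K 14))],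
   [(.add (.smul (2) (T 10)) (.smul (2) (T 11))), (.add (T 12) (T 13)), (.add (.smul (-1) (R 2)) (.smul (-1) (K 1))), (.add (.add (.smul (-1) (R 6)) (.smul (-1) (R 7))) (.smul (-1) (K 3))), (.add (.smul (-2) (R 10)) (.smul (-2) (R 11))), (.add (.add (.smul (-1) (R 12)) (.smul (-1) (R 13))) (K 5)), (.add (.add (.smul (-1) (S 6)) (.smul (-1) (S 7))) (K 15)), (.add (.smul (-2) (S 11)) (K 16)), (.add (.add (.smul (-1) (S 12)) (.smul (-1) (S 13))) (K 17))],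
   [(.add (.smul (2) (T 14)) (.smul (2) (T 15))), (.add (.smul (-1) (R 3)) (.smul (-1) (K 2))), (.add (.add (.smul (-1) (R 8)) (.smul (-1) (R 9))) (.smul (-1) (K 4))), (.add (.add (.smul (-1) (R 12)) (.smul (-1) (R 13))) (.smul (-1) (K 5))), (.add (.smul (-2) (R 14)) (.smul (-2) (R 15))), (.add (.add (S 8) (.smul (-1) (S 9))) (K 18)), (.add (.add (S 12) (.smul (-1) (S 13))) (K 19)), (.add (.smul (-2) (S 15)) (K 20))],
   [(.smul (2) (X 0)), (X 1), (X 2), (X 3), (K 21), (K 22), (K 23)],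
   [(.add (.smul (2) (X 4)) (.smul (2) (X 5))), (.add (X 6) (X 7)), (.add (X 8) (X 9)), (K 24), (K 25), (K 26)],
   [(.add (.smul (2) (X 10)) (.smul (2) (X 11))), (.add (X 12) (X 13)), (K 27), (K 28), (K 29)],
   [(.add (.smul (2) (X 14)) (.smul (2) (X 15))), (K 30), (K 31), (K 32)],
   [(.add (.smul (2) (X 4)) (.smul (-2) (X 5))), (.add (X 6) (.smul (-1) (X 7))), (.add (X 8) (.smul (-1) (X 9)))],
   [(.add (.smul (2) (X 10)) (.smul (-2) (X 11))), (.add (X 12) (.smul (-1) (X 13)))],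
   [(.add (.smul (2) (X 14)) (.smul (-2) (X 15)))]]

/-- odd block of expressions -/
def X2 (T R S X : Fin 16 → Ex) (K : Fin 33 → Ex) : List (List Ex) :=
  [[(.add (.smul (2) (T 4)) (.smul (-2) (T 5))), (.add (T 6) (.smul (-1) (T 7))), (.add (T 8) (.smul (-1) (T 9))), (.add (.smul (-2) (R 4)) (.smul (2) (R 5))), (.add (.add (.smul (-1) (R 6)) (R 7)) (K 6)), (.add (.add (.smul (-1) (R 8)) (R 9)) (K 7)), (.add (.smul (-1) (S 1)) (.smul (-1) (K 9))), (.add (.smul (-2) (S 5)) (.smul (-1) (K 12))), (.add (.add (.smul (-1) (S 6)) (.smul (-1) (S 7))) (.smul (-1) (K 15))), (.add (.add (S 8) (.smul (-1) (S 9))) (.smul (-1) (K 18)))],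
   [(.add (.smul (2) (T 10)) (.smul (-2) (T 11))), (.add (T 12) (.smul (-1) (T 13))), (.add (.add (.smul (-1) (R 6)) (R 7)) (.smul (-1) (K 6))), (.add (.smul (-2) (R 10)) (.smul (2) (R 11))), (.add (.add (.smul (-1) (R 12)) (R 13)) (K 8)), (.add (.smul (-1) (S 2)) (.smul (-1) (K 10))), (.add (.add (S 6) (.smul (-1) (S 7))) (.smul (-1) (K 13))), (.add (.smul (-2) (S 11)) (.smul (-1) (K 16))), (.add (.add (S 12) (.smul (-1) (S 13))) (.smul (-1) (K 19)))],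
   [(.add (.smul (2) (T 14)) (.smul (-2) (T 15))), (.add (.add (.smul (-1) (R 8)) (R 9)) (.smul (-1) (K 7))), (.add (.add (.smul (-1) (R 12)) (R 13)) (.smul (-1) (K 8))), (.add (.smul (-2) (R 14)) (.smul (2) (R 15))), (.add (.smul (-1) (S 3)) (.smul (-1) (K 11))), (.add (.add (.smul (-1) (S 8)) (.smul (-1) (S 9))) (.smul (-1) (K 14))), (.add (.add (.smul (-1) (S 12)) (.smul (-1) (S 13))) (.smul (-1) (K 17))), (.add (.smul (-2) (S 15)) (.smul (-1) (K 20)))],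
   [(.add (.smul (2) (X 4)) (.smul (-2) (X 5))), (.add (X 6) (.smul (-1) (X 7))), (.add (X 8) (.smul (-1) (X 9))), (.smul (-1) (K 21)), (.smul (-1) (K 24)), (.smul (-1) (K 27)), (.smul (-1) (K 30))],
   [(.add (.smul (2) (X 10)) (.smul (-2) (X 11))), (.add (X 12) (.smul (-1) (X 13))), (.smul (-1) (K 22)), (.smul (-1) (K 25)), (.smul (-1) (K 28)), (.smul (-1) (K 31))],
   [(.add (.smul (2) (X 14)) (.smul (-2) (X 15))), (.smul (-1) (K 23)), (.smul (-1) (K 26)), (.smul (-1) (K 29)), (.smul (-1) (K 32))],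
   [(.smul (2) (X 0)), (X 1), (X 2), (X 3)],
   [(.add (.smul (2) (X 4)) (.smul (2) (X 5))), (.add (X 6) (X 7)), (.add (X 8) (X 9))],
   [(.add (.smul (2) (X 10)) (.smul (2) (X 11))), (.add (X 12) (X 13))],
   [(.add (.smul (2) (X 14)) (.smul (2) (X 15)))]]

theorem X1_ev (D : ℕ) (f : ℕ → ℝ → ℝ) (s : ℝ) (T R S X : Fin 16 → Ex) (K : Fin 33 → Ex) :
    (X1 T R S X K).map (List.map (fun x => x.ev D f s))
      = B1 (fun j => (T j).ev D f s) (fun j => (R j).ev D f s) (fun j => (S j).ev D f s)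
        (fun j => (X j).ev D f s) (fun j => (K j).ev D f s) := by
  simp only [X1, B1, List.map_cons, List.map_nil, Ex.ev]
  simp only [List.cons.injEq, and_true, true_and]
  refine ⟨?_, ?_, ?_, ?_, ?_, ?_, ?_, ?_, ?_, ?_, ?_⟩ <;> (try push_cast) <;> (try ring_nf) <;> (try simp)

theorem X2_ev (D : ℕ) (f : ℕ → ℝ → ℝ) (s : ℝ) (T R S X : Fin 16 → Ex) (K : Fin 33 → Ex) :
    (X2 T R S X K).map (List.map (fun x => x.ev D f s))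
      = B2 (fun j => (T j).ev D f s) (fun j => (R j).ev D f s) (fun j => (S j).ev D f s)
        (fun j => (X j).ev D f s) (fun j => (K j).ev D f s) := by
  simp only [X2, B2, List.map_cons, List.map_nil, Ex.ev]
  simp only [List.cons.injEq, and_true, true_and]
  refine ⟨?_, ?_, ?_, ?_, ?_, ?_, ?_, ?_, ?_, ?_⟩ <;> (try push_cast) <;> (try ring_nf) <;> (try simp)

theorem sum16 (f : Fin 16 → ℝ) : ∑ j, f j = f 0 + f 1 + f 2 + f 3 + f 4 + f 5 + f 6 + f 7 + f 8 + f 9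
    + f 10 + f 11 + f 12 + f 13 + f 14 + f 15 := by
  simp only [Fin.sum_univ_castSucc, Fin.sum_univ_zero]
  simp

theorem blk_id (T R S X : Fin 16 → ℝ) (K : Fin 33 → ℝ) (a ξ η σ : ℝ) (α p q : ℂ) :
    2 * floc T R S X a ξ η σ α p q
      = qf (B1 T R S X K) (v1 a ξ η σ α p q) + qf (B2 T R S X K) (v2 a ξ η σ α p q) := by
  rcases α with ⟨α1, α2⟩
  rcases p with ⟨p1, p2⟩
  rcases q with ⟨q1, q2⟩
  have e0 : Cj σ ⟨α1, α2⟩ ⟨p1, p2⟩ ⟨q1, q2⟩ 0 = ⟨σ ^ 2, 0⟩ := by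
    apply Complex.ext <;> simp [Cj, sq] <;> ring
  have e1 : Cj σ ⟨α1, α2⟩ ⟨p1, p2⟩ ⟨q1, q2⟩ 1 = ⟨σ * α1, σ * α2⟩ := by
    apply Complex.ext <;> simp [Cj, sq] <;> ring
  have e2 : Cj σ ⟨α1, α2⟩ ⟨p1, p2⟩ ⟨q1, q2⟩ 2 = ⟨σ * p1, σ * p2⟩ := by
    apply Complex.ext <;> simp [Cj, sq] <;> ring
  have e3 : Cj σ ⟨α1, α2⟩ ⟨p1, p2⟩ ⟨q1, q2⟩ 3 = ⟨σ * q1, σ * q2⟩ := by
    apply Complex.ext <;> simp [Cj, sq] <;> ring
  have e4 : Cj σ ⟨α1, α2⟩ ⟨p1, p2⟩ ⟨q1, q2⟩ 4 = ⟨α1 ^ 2 + α2 ^ 2, 0⟩ := by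
    apply Complex.ext <;> simp [Cj, sq] <;> ring
  have e5 : Cj σ ⟨α1, α2⟩ ⟨p1, p2⟩ ⟨q1, q2⟩ 5 = ⟨α1 ^ 2 - α2 ^ 2, 2 * α1 * α2⟩ := by
    apply Complex.ext <;> simp [Cj, sq] <;> ring
  have e6 : Cj σ ⟨α1, α2⟩ ⟨p1, p2⟩ ⟨q1, q2⟩ 6 = ⟨α1 * p1 + α2 * p2, α2 * p1 - α1 * p2⟩ := by
    apply Complex.ext <;> simp [Cj, sq] <;> ring
  have e7 : Cj σ ⟨α1, α2⟩ ⟨p1, p2⟩ ⟨q1, q2⟩ 7 = ⟨α1 * p1 - α2 * p2, α1 * p2 + α2 * p1⟩ := by
    apply Complex.ext <;> simp [Cj, sq] <;> ring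
  have e8 : Cj σ ⟨α1, α2⟩ ⟨p1, p2⟩ ⟨q1, q2⟩ 8 = ⟨α1 * q1 + α2 * q2, α1 * q2 - α2 * q1⟩ := by
    apply Complex.ext <;> simp [Cj, sq] <;> ring
  have e9 : Cj σ ⟨α1, α2⟩ ⟨p1, p2⟩ ⟨q1, q2⟩ 9 = ⟨α1 * q1 - α2 * q2, α1 * q2 + α2 * q1⟩ := by
    apply Complex.ext <;> simp [Cj, sq] <;> ring
  have e10 : Cj σ ⟨α1, α2⟩ ⟨p1, p2⟩ ⟨q1, q2⟩ 10 = ⟨p1 ^ 2 + p2 ^ 2, 0⟩ := by
    apply Complex.ext <;> simp [Cj, sq] <;> ring
  have e11 : Cj σ ⟨α1, α2⟩ ⟨p1, p2⟩ ⟨q1, q2⟩ 11 = ⟨p1 ^ 2 - p2 ^ 2, 2 * p1 * p2⟩ := by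
    apply Complex.ext <;> simp [Cj, sq] <;> ring
  have e12 : Cj σ ⟨α1, α2⟩ ⟨p1, p2⟩ ⟨q1, q2⟩ 12 = ⟨p1 * q1 + p2 * q2, p1 * q2 - p2 * q1⟩ := by
    apply Complex.ext <;> simp [Cj, sq] <;> ring
  have e13 : Cj σ ⟨α1, α2⟩ ⟨p1, p2⟩ ⟨q1, q2⟩ 13 = ⟨p1 * q1 - p2 * q2, p1 * q2 + p2 * q1⟩ := by
    apply Complex.ext <;> simp [Cj, sq] <;> ring
  have e14 : Cj σ ⟨α1, α2⟩ ⟨p1, p2⟩ ⟨q1, q2⟩ 14 = ⟨q1 ^ 2 + q2 ^ 2, 0⟩ := by
    apply Complex.ext <;> simp [Cj, sq] <;> ring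
  have e15 : Cj σ ⟨α1, α2⟩ ⟨p1, p2⟩ ⟨q1, q2⟩ 15 = ⟨q1 ^ 2 - q2 ^ 2, 2 * q1 * q2⟩ := by
    apply Complex.ext <;> simp [Cj, sq] <;> ring
  rw [floc, sum16, e0, e1, e2, e3, e4, e5, e6, e7, e8, e9, e10, e11, e12, e13, e14, e15]
  simp only [B1, B2, v1, v2, qf, rowv, dotl]
  ring

end Pool.Agent.H94.GP
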