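import Pool.Agent.H94.GP.LpA
import Pool.Agent.H94.GP.Blk

/-!
# LpB: piecewise radial functions of class `C^1`, bounds

* `pw_contDiff`: `contDiff_one_iff_deriv`; at `s < 1`, `1 < s < S`, `s > S` clear; at `1` and `S` the one-sided derivatives agree (`HasDerivWithinAt` on `Iic`, `Ici`, `HasDerivWithinAt.union`),
  and `deriv` is continuous there (the two pieces of the derivative agree at the point). See the proof of `contDiff_Fp` in `ER` for a model.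
* `nB_Cj`: `‖Cj σ α p q j‖ ≤ nB`: `|ab| ≤ (a^2 + b^2)/2`.
* `Psi_bound`: `|hM C k x| ≤ ‖C‖ ‖x‖^k` (`‖zb x‖ = ‖x‖`), `pd0_term`, `pd1_term`; `X j`, `deriv (X j)` are bounded on `[0,S]` and vanish beyond (`deriv` at `S` by continuity).
-/

set_option autoImplicit false

open MeasureTheory Pool.Agent.H94.ER Pool.Agent.H94.SP

namespace Pool.Agent.H94.GP

theorem LpB_fd (f g : ℝ → ℝ) (f' g' : ℝ →L[ℝ] ℝ) (c : ℝ) (hf : HasFDerivAt f f' c)
    (hg : HasFDerivAt g g' c) (h0 : f c = g c) (h1 : f' = g') :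
    HasFDerivAt (fun t => if t ≤ c then f t else g t) f' c := by
  have h2 : HasFDerivWithinAt (fun t => if t ≤ c then f t else g t) f' (Set.Iic c) c :=
    hf.hasFDerivWithinAt.congr (fun t ht => if_pos ht) (if_pos le_rfl)
  have h3 : HasFDerivWithinAt (fun t => if t ≤ c then f t else g t) f' (Set.Ici c) c := by
    rw [h1]
    refine hg.hasFDerivWithinAt.congr (fun t ht => ?_) ?_
    · rcases eq_or_lt_of_le (Set.mem_Ici.1 ht) with h4 | h4
      · rw [← h4, if_pos le_rfl, h0]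
      · exact if_neg (not_le.2 h4)
    · rw [if_pos le_rfl, h0]
  have h4 := h2.union h3
  rw [Set.Iic_union_Ici, hasFDerivWithinAt_univ] at h4
  exact h4

theorem LpB_at (f g : ℝ → ℝ) (c : ℝ) (hf : ContDiffAt ℝ 1 f c) (hg : ContDiffAt ℝ 1 g c)
    (h0 : f c = g c) (h1 : deriv f c = deriv g c) :
    ContDiffAt ℝ 1 (fun t => if t ≤ c then f t else g t) c := by
  obtain ⟨f', u, hu, hcf, hdf⟩ := contDiffAt_one_iff.1 hf
  obtain ⟨g', v, hv, hcg, hdg⟩ := contDiffAt_one_iff.1 hg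
  have huv : u ∩ v ∈ nhds c := Filter.inter_mem hu hv
  obtain ⟨ε, hε, hball⟩ := Metric.nhds_basis_closedBall.mem_iff.1 huv
  rw [Real.closedBall_eq_Icc] at hball
  have hcu : c ∈ u := (hball ⟨by linarith, by linarith⟩).1
  have hcv : c ∈ v := (hball ⟨by linarith, by linarith⟩).2
  have hfg : f' c = g' c := by
    have a1 := (hdf c hcu).hasDerivAt.deriv
    have a2 := (hdg c hcv).hasDerivAt.deriv
    ext
    rw [← a1, ← a2, h1]
  rw [contDiffAt_one_iff]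
  refine ⟨fun t => if t ≤ c then f' t else g' t, Set.Icc (c - ε) (c + ε),
    Icc_mem_nhds (by linarith) (by linarith), ?_, ?_⟩
  · have e : Set.Icc (c - ε) (c + ε) = Set.Icc (c - ε) c ∪ Set.Icc c (c + ε) :=
      (Set.Icc_union_Icc_eq_Icc (by linarith) (by linarith)).symm
    rw [e]
    refine ContinuousOn.union_of_isClosed ?_ ?_ isClosed_Icc isClosed_Icc
    · refine (hcf.mono fun t ht => (hball ⟨ht.1, by linarith [ht.2]⟩).1).congr fun t ht => ?_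
      exact if_pos ht.2
    · refine (hcg.mono fun t ht => (hball ⟨by linarith [ht.1], ht.2⟩).2).congr fun t ht => ?_
      rcases eq_or_lt_of_le ht.1 with h4 | h4
      · rw [← h4]
        simp only [le_refl, if_true]
        exact hfg
      · exact if_neg (not_le.2 h4)
  · intro t ht
    rcases lt_trichotomy t c with h | h | h
    · simp only [if_pos h.le]
      refine (hdf t (hball ht).1).congr_of_eventuallyEq ?_
      filter_upwards [Iio_mem_nhds h] with s hs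
      exact if_pos (le_of_lt hs)
    · subst h
      simp only [le_refl, if_true]
      exact LpB_fd f g (f' t) (g' t) t (hdf t hcu) (hdg t hcv) h0 hfg
    · simp only [if_neg (not_le.2 h)]
      refine (hdg t (hball ht).2).congr_of_eventuallyEq ?_
      filter_upwards [Ioi_mem_nhds h] with s hs
      exact if_neg (not_le.2 hs)

theorem LpB_glue (f g : ℝ → ℝ) (c s : ℝ) (hf : s ≤ c → ContDiffAt ℝ 1 f s)
    (hg : c ≤ s → ContDiffAt ℝ 1 g s) (h0 : f c = g c) (h1 : deriv f c = deriv g c) :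
    ContDiffAt ℝ 1 (fun t => if t ≤ c then f t else g t) s := by
  rcases lt_trichotomy s c with h | h | h
  · refine (hf h.le).congr_of_eventuallyEq ?_
    filter_upwards [Iio_mem_nhds h] with t ht
    exact if_pos (le_of_lt ht)
  · subst h
    exact LpB_at f g s (hf le_rfl) (hg le_rfl) h0 h1
  · refine (hg h.le).congr_of_eventuallyEq ?_
    filter_upwards [Ioi_mem_nhds h] with t ht
    exact if_neg (not_le.2 ht)

theorem pw_contDiff (f g : ℝ → ℝ) (S : ℝ) (hS : 1 < S) (hf : ∀ s, s ≤ 1 → ContDiffAt ℝ 1 f s)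
    (hg : ∀ s, 1 ≤ s → s ≤ S → ContDiffAt ℝ 1 g s) (h1 : f 1 = g 1) (h1' : deriv f 1 = deriv g 1)
    (h2 : g S = 0) (h2' : deriv g S = 0) : ContDiff ℝ 1 (pw f g S) := by
  rw [contDiff_iff_contDiffAt]
  intro s
  have hin : ∀ t, 1 ≤ t → ContDiffAt ℝ 1 (fun t => if t ≤ S then g t else (0 : ℝ)) t := by
    intro t ht
    refine LpB_glue g (fun _ => 0) S t (fun h => hg t ht h) (fun _ => contDiffAt_const) h2 ?_
    rw [h2', deriv_const]
  have hd : deriv (fun t => if t ≤ S then g t else (0 : ℝ)) 1 = deriv g 1 := by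
    refine Filter.EventuallyEq.deriv_eq ?_
    filter_upwards [Iio_mem_nhds hS] with t ht
    exact if_pos (le_of_lt ht)
  have h := LpB_glue f (fun t => if t ≤ S then g t else (0 : ℝ)) 1 s (fun h => hf s h)
    (fun h => hin s h) (by rw [if_pos hS.le, h1]) (by rw [hd, h1'])
  exact h

/-- size of the parameters -/
noncomputable def nB (σ : ℝ) (α p q : ℂ) : ℝ := σ ^ 2 + ‖α‖ ^ 2 + ‖p‖ ^ 2 + ‖q‖ ^ 2

theorem nB_Cj (σ : ℝ) (α p q : ℂ) (j : Fin 16) : ‖Cj σ α p q j‖ ≤ nB σ α p q := by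
  have key : ∀ x y z w : ℝ, 0 ≤ x → 0 ≤ y → 0 ≤ z → 0 ≤ w →
      x * x ≤ x ^ 2 + y ^ 2 + z ^ 2 + w ^ 2 ∧ x * y ≤ x ^ 2 + y ^ 2 + z ^ 2 + w ^ 2 ∧
      x * z ≤ x ^ 2 + y ^ 2 + z ^ 2 + w ^ 2 ∧ x * w ≤ x ^ 2 + y ^ 2 + z ^ 2 + w ^ 2 ∧
      y * y ≤ x ^ 2 + y ^ 2 + z ^ 2 + w ^ 2 ∧ y * z ≤ x ^ 2 + y ^ 2 + z ^ 2 + w ^ 2 ∧
      y * w ≤ x ^ 2 + y ^ 2 + z ^ 2 + w ^ 2 ∧ z * z ≤ x ^ 2 + y ^ 2 + z ^ 2 + w ^ 2 ∧
      z * w ≤ x ^ 2 + y ^ 2 + z ^ 2 + w ^ 2 ∧ w * w ≤ x ^ 2 + y ^ 2 + z ^ 2 + w ^ 2 := by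
    intro x y z w _ _ _ _
    refine ⟨?_, ?_, ?_, ?_, ?_, ?_, ?_, ?_, ?_, ?_⟩ <;>
      nlinarith [sq_nonneg (x - y), sq_nonneg (x - z), sq_nonneg (x - w), sq_nonneg (y - z),
        sq_nonneg (y - w), sq_nonneg (z - w), sq_nonneg (x + y), sq_nonneg (z + w),
        sq_nonneg x, sq_nonneg y, sq_nonneg z, sq_nonneg w]
  obtain ⟨k1, k2, k3, k4, k5, k6, k7, k8, k9, k10⟩ :=
    key |σ| ‖α‖ ‖p‖ ‖q‖ (abs_nonneg _) (norm_nonneg _) (norm_nonneg _) (norm_nonneg _)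
  rw [sq_abs] at k1 k2 k3 k4 k5 k6 k7 k8 k9 k10
  have hs : ‖(σ : ℂ)‖ = |σ| := by rw [Complex.norm_real, Real.norm_eq_abs]
  unfold nB
  fin_cases j <;> simp only [Cj, Fin.reduceFinMk, Fin.zero_eta, Fin.isValue, Fin.mk_one,
    Matrix.cons_val, Matrix.cons_val_zero, Matrix.cons_val_one, norm_mul, hs,
    RCLike.norm_conj, sq] <;> rw [sq, sq, sq, sq] at k1 k2 k3 k4 k5 k6 k7 k8 k9 k10
  all_goals first | exact k1 | exact k2 | exact k3 | exact k4 | exact k5 | exact k6 | exact k7 | exact k8 | exact k9 | exact k10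

theorem LpB_nB_nonneg (σ : ℝ) (α p q : ℂ) : 0 ≤ nB σ α p q := by
  unfold nB
  positivity

theorem contDiff_Psi (X : Fin 16 → ℝ → ℝ) (hX : ∀ j, ContDiff ℝ 1 (X j)) (σ : ℝ) (α p q : ℂ) :
    ContDiff ℝ 1 (fun x : E 2 => ∑ j, X j (‖x‖ ^ 2) * hM (Cj σ α p q j) (kj j) x) := by
  refine ContDiff.sum fun j _ => ?_
  exact ((hX j).comp (contDiff_norm_sq ℝ)).mul (contDiff_hM _ _ 1)

theorem LpB_split (C : ℂ) (k : ℕ) (x : E 2) :
    hM C k x = C.re * hM 1 k x + -C.im * hN 1 k x := by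
  unfold hM hN
  rw [Complex.mul_re, one_mul]
  ring

theorem LpB_bd (X : ℝ → ℝ) (hX : ContDiff ℝ 1 X) (S : ℝ) (hX0 : ∀ s, S ≤ s → X s = 0)
    (P : E 2 → ℝ) (hP : ContDiff ℝ 1 P) :
    ∃ B : ℝ, 0 ≤ B ∧ ∀ x : E 2, |X (‖x‖ ^ 2) * P x| ≤ B ∧
      ∀ i, |pd i (fun y : E 2 => X (‖y‖ ^ 2) * P y) x| ≤ B := by
  have hC : ContDiff ℝ 1 (fun x : E 2 => X (‖x‖ ^ 2) * P x) :=
    (hX.comp (contDiff_norm_sq ℝ)).mul hP
  have hS : HasCompactSupport (fun x : E 2 => X (‖x‖ ^ 2) * P x) := by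
    refine HasCompactSupport.of_support_subset_isCompact
      (isCompact_closedBall (0 : E 2) (Real.sqrt S)) ?_
    intro x hx
    rw [Metric.mem_closedBall, dist_zero_right]
    by_contra h
    push Not at h
    refine hx ?_
    change X (‖x‖ ^ 2) * P x = 0
    rw [hX0 _ (Real.lt_sq_of_sqrt_lt h).le, zero_mul]
  obtain ⟨B, hB⟩ := hS.exists_bound_of_continuous hC.continuous
  have hD : ∀ i : Fin 2, ∃ D : ℝ, ∀ x : E 2, ‖pd i (fun y : E 2 => X (‖y‖ ^ 2) * P y) x‖ ≤ D :=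
    fun i => (hasCompactSupport_pd i _ hS).exists_bound_of_continuous (continuous_pd i _ hC)
  choose D hD using hD
  have hB0 : 0 ≤ B := (norm_nonneg _).trans (hB 0)
  have hD0 : ∀ i, 0 ≤ D i := fun i => (norm_nonneg _).trans (hD i 0)
  refine ⟨B + ∑ i, D i, add_nonneg hB0 (Finset.sum_nonneg fun i _ => hD0 i),
    fun x => ⟨?_, fun i => ?_⟩⟩
  · refine (hB x).trans ?_
    linarith [Finset.sum_nonneg fun i (_ : i ∈ Finset.univ) => hD0 i]
  · refine (hD i x).trans ?_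
    linarith [Finset.single_le_sum (fun j _ => hD0 j) (Finset.mem_univ i)]

theorem Psi_bound (X : Fin 16 → ℝ → ℝ) (hX : ∀ j, ContDiff ℝ 1 (X j)) (S : ℝ)
    (hX0 : ∀ j s, S ≤ s → X j s = 0) :
    ∃ B : ℝ, 0 ≤ B ∧ ∀ (σ : ℝ) (α p q : ℂ) (x : E 2),
      |∑ j, X j (‖x‖ ^ 2) * hM (Cj σ α p q j) (kj j) x| ≤ B * nB σ α p q ∧
      ∀ i, |pd i (fun y : E 2 => ∑ j, X j (‖y‖ ^ 2) * hM (Cj σ α p q j) (kj j) y) x|
        ≤ B * nB σ α p q := by
  have hA := fun j => LpB_bd (X j) (hX j) S (hX0 j) (hM 1 (kj j)) (contDiff_hM 1 (kj j) 1)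
  have hN' := fun j => LpB_bd (X j) (hX j) S (hX0 j) (hN 1 (kj j)) (contDiff_hN 1 (kj j) 1)
  choose A hA0 hA1 using hA
  choose D hD0 hD1 using hN'
  refine ⟨∑ j, (A j + D j), Finset.sum_nonneg fun j _ => add_nonneg (hA0 j) (hD0 j),
    fun σ α p q x => ?_⟩
  have hn := LpB_nB_nonneg σ α p q
  have hterm : ∀ (C : ℂ) (u v a d : ℝ), ‖C‖ ≤ nB σ α p q → |u| ≤ a → |v| ≤ d →
      |C.re * u + -C.im * v| ≤ (a + d) * nB σ α p q := by
    intro C u v a d hC hu hv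
    have a1 : |C.re| ≤ nB σ α p q := (Complex.abs_re_le_norm C).trans hC
    have a2 : |C.im| ≤ nB σ α p q := (Complex.abs_im_le_norm C).trans hC
    refine (abs_add_le _ _).trans ?_
    rw [abs_mul, abs_mul, abs_neg, add_mul]
    have b1 : |C.re| * |u| ≤ nB σ α p q * a := mul_le_mul a1 hu (abs_nonneg _) hn
    have b2 : |C.im| * |v| ≤ nB σ α p q * d := mul_le_mul a2 hv (abs_nonneg _) hn
    linarith
  have hfun : (fun y : E 2 => ∑ j, X j (‖y‖ ^ 2) * hM (Cj σ α p q j) (kj j) y)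
      = fun y : E 2 => ∑ j, ((Cj σ α p q j).re * (X j (‖y‖ ^ 2) * hM 1 (kj j) y)
        + -(Cj σ α p q j).im * (X j (‖y‖ ^ 2) * hN 1 (kj j) y)) := by
    funext y
    refine Finset.sum_congr rfl fun j _ => ?_
    rw [LpB_split]
    ring
  have hdM : ∀ j (y : E 2), DifferentiableAt ℝ (fun y : E 2 => X j (‖y‖ ^ 2) * hM 1 (kj j) y) y :=
    fun j y => (((hX j).comp (contDiff_norm_sq ℝ)).mul (contDiff_hM 1 (kj j) 1)).differentiable
      one_ne_zero y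
  have hdN : ∀ j (y : E 2), DifferentiableAt ℝ (fun y : E 2 => X j (‖y‖ ^ 2) * hN 1 (kj j) y) y :=
    fun j y => (((hX j).comp (contDiff_norm_sq ℝ)).mul (contDiff_hN 1 (kj j) 1)).differentiable
      one_ne_zero y
  constructor
  · have h := congrFun hfun x
    rw [h, Finset.sum_mul]
    refine (Finset.abs_sum_le_sum_abs _ _).trans (Finset.sum_le_sum fun j _ => ?_)
    exact hterm _ _ _ _ _ (nB_Cj σ α p q j) (hA1 j x).1 (hD1 j x).1
  · intro i
    rw [hfun, pd_sum Finset.univ i (fun j (y : E 2) =>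
      (Cj σ α p q j).re * (X j (‖y‖ ^ 2) * hM 1 (kj j) y)
        + -(Cj σ α p q j).im * (X j (‖y‖ ^ 2) * hN 1 (kj j) y)) x
      (fun j _ => ((hdM j x).const_mul _).add ((hdN j x).const_mul _)), Finset.sum_mul]
    refine (Finset.abs_sum_le_sum_abs _ _).trans (Finset.sum_le_sum fun j _ => ?_)
    rw [pd_add i (fun y : E 2 => (Cj σ α p q j).re * (X j (‖y‖ ^ 2) * hM 1 (kj j) y))
      (fun y : E 2 => -(Cj σ α p q j).im * (X j (‖y‖ ^ 2) * hN 1 (kj j) y)) x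
      ((hdM j x).const_mul _) ((hdN j x).const_mul _), pd_const_mul, pd_const_mul]
    exact hterm _ _ _ _ _ (nB_Cj σ α p q j) ((hA1 j x).2 i) ((hD1 j x).2 i)

end Pool.Agent.H94.GP
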