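import Pool.Agent.H94.GP.ZoB

/-!
# ZoC: the zone `1 ≤ r^2 ≤ 13/4`, plain fields, from the checks on sixteen subintervals
-/

set_option autoImplicit false

open Pool.Agent.H94.ER Pool.Agent.H94.SP

namespace Pool.Agent.H94.GP

/-- model of `pf l 1` -/
def kx0 (l : List ℤ) : TM := ⟨[1000000000 * l.sum], 0⟩

/-- model of `9/4 (pf l)'(1) + 2 pf l 1` -/
def ku (l : List ℤ) : TM := ⟨[250000000 * (9 * (pder l).sum + 8 * l.sum)], 0⟩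

theorem pev_one (l : List ℤ) : pev l 1 = (l.sum : ℤ) := by
  induction l with
  | nil => simp [pev]
  | cons a l ih =>
    simp only [pev, ih, List.sum_cons]
    push_cast
    ring

theorem ok_kx0 (l : List ℤ) : (kx0 l).ok DD (fun _ => pf l 1) := by
  refine ok_const _ _ ?_
  simp only [pf, pev_one]
  push_cast
  ring

theorem ok_ku (l : List ℤ) : (ku l).ok DD (fun _ => 9 / 4 * pf (pder l) 1 + 2 * pf l 1) := by
  refine ok_const _ _ ?_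
  simp only [pf, pev_one]
  push_cast
  ring

/-- check on one subinterval -/
def zoc (m c2 c6 c8 μ0 μ1 μ2 μ3 w0 w1 f : ℤ) (X A Z oX oA oZ : Fin 16 → List ℤ) (oK : Fin 33 → List ℤ)
    (n : ℕ) (a b c : ℤ) : Bool :=
  gc1 (fun j => mT m c2 c6 c8 μ0 μ1 μ2 μ3 w0 w1 f (kx0 (X j)) (ku (X j)) (kx0 (A j)) (kx0 (Z j)) (oX j) (oA j)
      (oZ j) j)
    (fun j => mR (kj j) (mQX (kx0 (X j)) (ku (X j)) (oX j)) (mQXd (ku (X j)) (oX j)) (mQA (kx0 (A j)) (oA j))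
      (mQA (kx0 (Z j)) (oZ j)))
    (fun j => mS (kj j) (mQX (kx0 (X j)) (ku (X j)) (oX j)) (mQA (kx0 (A j)) (oA j)))
    (fun j => rpw (kj j) (mQX (kx0 (X j)) (ku (X j)) (oX j))) (mK oK) n a b c
  && gc2 (fun j => mT m c2 c6 c8 μ0 μ1 μ2 μ3 w0 w1 f (kx0 (X j)) (ku (X j)) (kx0 (A j)) (kx0 (Z j)) (oX j) (oA j)
      (oZ j) j)
    (fun j => mR (kj j) (mQX (kx0 (X j)) (ku (X j)) (oX j)) (mQXd (ku (X j)) (oX j)) (mQA (kx0 (A j)) (oA j))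
      (mQA (kx0 (Z j)) (oZ j)))
    (fun j => mS (kj j) (mQX (kx0 (X j)) (ku (X j)) (oX j)) (mQA (kx0 (A j)) (oA j)))
    (fun j => rpw (kj j) (mQX (kx0 (X j)) (ku (X j)) (oX j))) (mK oK) n a b c

/-- the outside fields -/
noncomputable def gX (X oX : Fin 16 → List ℤ) (j : Fin 16) (s : ℝ) : ℝ :=
  fX (pf (X j) 1) (9 / 4 * pf (pder (X j)) 1 + 2 * pf (X j) 1) (oX j) s
/-- derivative -/
noncomputable def gXd (X oX : Fin 16 → List ℤ) (j : Fin 16) (s : ℝ) : ℝ :=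
  fXd (pf (X j) 1) (9 / 4 * pf (pder (X j)) 1 + 2 * pf (X j) 1) (oX j) s
/-- the outside fields -/
noncomputable def gA (A oA : Fin 16 → List ℤ) (j : Fin 16) (s : ℝ) : ℝ := fA (pf (A j) 1) (oA j) s
/-- derivative -/
noncomputable def gAd (A oA : Fin 16 → List ℤ) (j : Fin 16) (s : ℝ) : ℝ := fAd (pf (A j) 1) (oA j) s

theorem ZoC_var (r : ℝ) (h1 : 1 ≤ r) (h2 : r ^ 2 < 13 / 4) :
    ∃ i : ℕ, i < 16 ∧ (((40000 + 2007 * (i : ℤ) : ℤ)) : ℝ) ≤ ((80000 : ℤ) : ℝ) * (r / 2)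
      ∧ ((80000 : ℤ) : ℝ) * (r / 2) ≤ (((40000 + 2007 * (i : ℤ) : ℤ)) : ℝ) + ((2007 : ℤ) : ℝ) := by
  have h3 : r < 1803 / 1000 := by nlinarith
  have h4 : r < 180278 / 100000 := by nlinarith
  have hy : 0 ≤ (80000 * (r / 2) - 40000) / 2007 := by
    apply div_nonneg _ (by norm_num)
    linarith
  have hf1 := Nat.floor_le hy
  have hf2 := Nat.lt_floor_add_one ((80000 * (r / 2) - 40000) / 2007)
  refine ⟨⌊(80000 * (r / 2) - 40000) / 2007⌋₊, ?_, ?_, ?_⟩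
  · rw [Nat.floor_lt hy, div_lt_iff₀ (by norm_num)]
    push_cast
    linarith
  · rw [le_div_iff₀ (by norm_num)] at hf1
    push_cast
    linarith
  · rw [div_lt_iff₀ (by norm_num)] at hf2
    push_cast
    linarith

theorem zo_all (m c2 c6 c8 μ0 μ1 μ2 μ3 w0 w1 f : ℤ) (X A Z oX oA oZ : Fin 16 → List ℤ)
    (oK : Fin 33 → List ℤ) (n : ℕ) (hn : 0 < n)
    (h : ∀ i : ℕ, i < 16 → zoc m c2 c6 c8 μ0 μ1 μ2 μ3 w0 w1 f X A Z oX oA oZ oK n (40000 + 2007 * (i : ℤ)) 2007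
      80000 = true)
    (r : ℝ) (hr1 : 1 ≤ r) (hr2 : r ^ 2 < 13 / 4) (a ξ η σ : ℝ) (α p q : ℂ) :
    0 ≤ floc (fun j => ((Qj gam (r ^ 2) (1 / r ^ 2) (-(1 / (r ^ 2) ^ 2)) ((f / 1000000) / r)
            (-((f / 1000000) / (2 * r ^ 3))) j
          + (Ec (m / 1000000) (c2 / 1000000) (c6 / 1000000) (c8 / 1000000) (μ0 / 1000000) (μ1 / 1000000)
              (μ2 / 1000000) (μ3 / 1000000) (gc (r ^ 2)) (r ^ 2) j + Spz w0 w1 j))
            - bz 2 * gX X oX j (r ^ 2)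
            - (2 * kj j * gAd A oA j (r ^ 2) + 2 * r ^ 2 * gAd Z oZ j (r ^ 2)
              + (kj j + 2) * gA Z oZ j (r ^ 2))) * r ^ kj j)
          (fun j => (kj j * gA A oA j (r ^ 2) + r ^ 2 * gA Z oZ j (r ^ 2) - r ^ 2 * gXd X oX j (r ^ 2)
            - 1 / 2 * kj j * gX X oX j (r ^ 2)) * r ^ kj j / r)
          (fun j => kj j * (gA A oA j (r ^ 2) - 1 / 2 * gX X oX j (r ^ 2)) * r ^ kj j / r)
          (fun j => gX X oX j (r ^ 2) * r ^ kj j) a ξ η σ α p q := by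
  obtain ⟨i, hi, hi1, hi2⟩ := ZoC_var r hr1 hr2
  obtain ⟨x, rfl⟩ : ∃ x, r = 2 * x := ⟨r / 2, by ring⟩
  have e2x : 2 * x / 2 = x := by ring
  rw [e2x] at hi1 hi2
  have hx : 0 < x := by linarith
  have he : 0 < ee x := by
    unfold ee tt
    nlinarith
  have hh := h i hi
  unfold zoc at hh
  rw [Bool.and_eq_true] at hh
  obtain ⟨hh1, hh2⟩ := hh
  have hi16 : (i : ℤ) < 16 := by exact_mod_cast hi
  have okT : ∀ j, (mT m c2 c6 c8 μ0 μ1 μ2 μ3 w0 w1 f (kx0 (X j)) (ku (X j)) (kx0 (A j)) (kx0 (Z j)) (oX j)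
      (oA j) (oZ j) j).ok DD (zoT m c2 c6 c8 μ0 μ1 μ2 μ3 w0 w1 f (pf (X j) 1)
        (9 / 4 * pf (pder (X j)) 1 + 2 * pf (X j) 1) (pf (A j) 1) (pf (Z j) 1) (oX j) (oA j) (oZ j) j) :=
    fun j => ok_mT _ _ _ _ _ _ _ _ _ _ _ _ _ _ _ _ _ _ _ _ _ _ (ok_kx0 _) (ok_ku _) (ok_kx0 _) (ok_kx0 _) j
  have okX : ∀ j, (mQX (kx0 (X j)) (ku (X j)) (oX j)).ok DD
      (oQX (pf (X j) 1) (9 / 4 * pf (pder (X j)) 1 + 2 * pf (X j) 1) (oX j)) :=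
    fun j => ok_mQX _ _ _ _ (ok_kx0 _) (ok_ku _) _
  have okXd : ∀ j, (mQXd (ku (X j)) (oX j)).ok DD
      (oQXd (9 / 4 * pf (pder (X j)) 1 + 2 * pf (X j) 1) (oX j)) := fun j => ok_mQXd _ _ (ok_ku _) _
  have okA : ∀ j, (mQA (kx0 (A j)) (oA j)).ok DD (oQA (pf (A j) 1) (oA j)) := fun j => ok_mQA _ _ (ok_kx0 _) _
  have okZ : ∀ j, (mQA (kx0 (Z j)) (oZ j)).ok DD (oQA (pf (Z j) 1) (oZ j)) := fun j => ok_mQA _ _ (ok_kx0 _) _
  have okR := fun j => ok_mR (kj j) _ _ _ _ _ _ _ _ (okX j) (okXd j) (okA j) (okZ j)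
  have okS := fun j => ok_mS (kj j) _ _ _ _ (okX j) (okA j)
  have okXX := fun j => ok_rpw DD (kj j) _ _ (okX j)
  have k1 := gk1 _ _ _ _ _ _ _ _ _ _ okT okR okS okXX (ok_mK oK) n hn _ _ _ (by positivity) (by norm_num)
    (by norm_num) (by omega) hh1 x hi1 hi2
    (v1 (a / (2 * x)) (ee x * ξ) (ee x * η) σ α p q) rfl
  have k2 := gk2 _ _ _ _ _ _ _ _ _ _ okT okR okS okXX (ok_mK oK) n hn _ _ _ (by positivity) (by norm_num)
    (by norm_num) (by omega) hh2 x hi1 hi2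
    (v2 (a / (2 * x)) (ee x * ξ) (ee x * η) σ α p q) rfl
  rw [floc_scale3 _ _ _ _ a ξ η σ α p q (2 * x) (ee x) (by positivity) he.ne']
  have e := blk_id (fun j => zoT m c2 c6 c8 μ0 μ1 μ2 μ3 w0 w1 f (pf (X j) 1)
        (9 / 4 * pf (pder (X j)) 1 + 2 * pf (X j) 1) (pf (A j) 1) (pf (Z j) 1) (oX j) (oA j) (oZ j) j x)
    (fun j => oR (kj j) (oQX (pf (X j) 1) (9 / 4 * pf (pder (X j)) 1 + 2 * pf (X j) 1) (oX j))
      (oQXd (9 / 4 * pf (pder (X j)) 1 + 2 * pf (X j) 1) (oX j)) (oQA (pf (A j) 1) (oA j))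
      (oQA (pf (Z j) 1) (oZ j)) x)
    (fun j => oS (kj j) (oQX (pf (X j) 1) (9 / 4 * pf (pder (X j)) 1 + 2 * pf (X j) 1) (oX j))
      (oQA (pf (A j) 1) (oA j)) x)
    (fun j => (2 * x) ^ kj j * oQX (pf (X j) 1) (9 / 4 * pf (pder (X j)) 1 + 2 * pf (X j) 1) (oX j) x)
    (fun i => zoK oK i x) (a / (2 * x)) (ee x * ξ) (ee x * η) σ α p q
  have hpos : 0 ≤ floc (fun j => zoT m c2 c6 c8 μ0 μ1 μ2 μ3 w0 w1 f (pf (X j) 1)
        (9 / 4 * pf (pder (X j)) 1 + 2 * pf (X j) 1) (pf (A j) 1) (pf (Z j) 1) (oX j) (oA j) (oZ j) j x)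
    (fun j => oR (kj j) (oQX (pf (X j) 1) (9 / 4 * pf (pder (X j)) 1 + 2 * pf (X j) 1) (oX j))
      (oQXd (9 / 4 * pf (pder (X j)) 1 + 2 * pf (X j) 1) (oX j)) (oQA (pf (A j) 1) (oA j))
      (oQA (pf (Z j) 1) (oZ j)) x)
    (fun j => oS (kj j) (oQX (pf (X j) 1) (9 / 4 * pf (pder (X j)) 1 + 2 * pf (X j) 1) (oX j))
      (oQA (pf (A j) 1) (oA j)) x)
    (fun j => (2 * x) ^ kj j * oQX (pf (X j) 1) (9 / 4 * pf (pder (X j)) 1 + 2 * pf (X j) 1) (oX j) x)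
    (a / (2 * x)) (ee x * ξ) (ee x * η) σ α p q := by linarith
  refine hpos.trans_eq (floc_congr _ _ _ _ _ _ _ _ _ _ _ _ _ _ _ (fun j => ?_) (fun j => ?_)
    (fun j => ?_) (fun j => ?_))
  · exact (zoT_eq m c2 c6 c8 μ0 μ1 μ2 μ3 w0 w1 f _ _ _ _ _ _ _ j x hx).symm
  · exact (zoR_eq _ _ _ _ _ _ _ _ x hx he.ne').symm
  · exact (zoS_eq _ _ _ _ _ _ x hx he.ne').symm
  · exact (zoX_eq _ _ _ _ x he.ne').symm

end Pool.Agent.H94.GP
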