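import Pool.Agent.H94.GP.HmA
import Pool.Agent.H94.SP.VfA

/-!
# LpA: piecewise radial functions, Lipschitz fields

* `pw_lip`: on `[0,1]` and `[1,S]` the functions have bounded derivatives (`ContDiffAt` on a compact interval: `deriv` is continuous, see `VfA_lin` in
  `SP/VfA.lean`), beyond `S` the function is `0`; the three pieces agree at `1` and `S`; add the estimates over the pieces.
* `rad_lip`: `R = √S`. If `‖x‖, ‖y‖ ≤ R`: `|h(‖x‖^2) P x - h(‖y‖^2) P y| ≤ K 2R ‖x-y‖ sup|P| + sup|h| L ‖x-y‖` (`P` is Lipschitz on the closed ball: bounded `fderiv`, convex;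
  `h` is bounded on `[0,S]`). If `‖x‖ ≤ R ≤ ‖y‖`: there is a point `w` of norm `R` on the segment, where the function vanishes, `‖x - w‖ ≤ ‖x - y‖` (see the proof of
  `Vf_lipschitz` in `SP/VfA.lean`). Both `≥ R`: `0`.
* `fld_lip`, `sum_fld_lip`: coordinates `fld_0`, `fld_1`; a map into `E 2` is Lipschitz if its two coordinates are (`‖v‖ ≤ |v 0| + |v 1|`); finite sums.
-/

set_option autoImplicit false

open MeasureTheory Pool.Agent.H94.ER Pool.Agent.H94.SP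

namespace Pool.Agent.H94.GP

/-- piecewise function of `s ≥ 0`: `f` up to `1`, `g` up to `S`, then `0` -/
noncomputable def pw (f g : ℝ → ℝ) (S s : ℝ) : ℝ := if s ≤ 1 then f s else if s ≤ S then g s else 0

/-- Lipschitz on `[0, ∞)` -/
def LipR (h : ℝ → ℝ) : Prop := ∃ K : ℝ, 0 ≤ K ∧ ∀ s t, 0 ≤ s → 0 ≤ t → |h s - h t| ≤ K * |s - t|

theorem LpA_c1 (h : ℝ → ℝ) (a b : ℝ) (hab : a ≤ b)
    (hh : ∀ s, a ≤ s → s ≤ b → ContDiffAt ℝ 1 h s) :
    ∃ K : ℝ, 0 ≤ K ∧ ∀ s t, a ≤ s → s ≤ b → a ≤ t → t ≤ b → |h s - h t| ≤ K * |s - t| := by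
  have hcont : ContinuousOn (fun s => deriv h s) (Set.Icc a b) := by
    intro s hs
    have h2 : ContDiffAt ℝ 0 (fderiv ℝ h) s := (hh s hs.1 hs.2).fderiv_right (by norm_num)
    have h3 : ContinuousAt (fun t => fderiv ℝ h t 1) s := h2.continuousAt.clm_apply continuousAt_const
    have h4 : (fun s => deriv h s) = fun t => fderiv ℝ h t 1 := by
      funext t
      rw [fderiv_apply_one_eq_deriv]
    rw [h4]
    exact h3.continuousWithinAt
  obtain ⟨K, hK⟩ := isCompact_Icc.exists_bound_of_continuousOn hcont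
  have hK0 : 0 ≤ K := (norm_nonneg _).trans (hK a ⟨le_rfl, hab⟩)
  refine ⟨K, hK0, fun s t hs hs1 ht ht1 => ?_⟩
  have h5 := (convex_Icc a b).norm_image_sub_le_of_norm_deriv_le
    (fun t ht => (hh t ht.1 ht.2).differentiableAt one_ne_zero) hK (x := t) (y := s) ⟨ht, ht1⟩
    ⟨hs, hs1⟩
  rw [Real.norm_eq_abs, Real.norm_eq_abs] at h5
  exact h5

theorem LpA_glue (p : ℝ → ℝ) (K : ℝ) (I : Set ℝ) (c : ℝ) (hc : c ∈ I)
    (h1 : ∀ s t, s ∈ I → t ∈ I → s ≤ c → t ≤ c → |p s - p t| ≤ K * |s - t|)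
    (h2 : ∀ s t, s ∈ I → t ∈ I → c ≤ s → c ≤ t → |p s - p t| ≤ K * |s - t|) :
    ∀ s t, s ∈ I → t ∈ I → |p s - p t| ≤ K * |s - t| := by
  have hmix : ∀ s t, s ∈ I → t ∈ I → s ≤ c → c ≤ t → |p s - p t| ≤ K * |s - t| := by
    intro s t hs ht hsc hct
    have a1 := h1 s c hs hc hsc le_rfl
    have a2 := h2 c t hc ht le_rfl hct
    have a3 : |p s - p t| ≤ |p s - p c| + |p c - p t| := abs_sub_le _ _ _
    have a4 : |s - t| = |s - c| + |c - t| := by
      rw [abs_of_nonpos (by linarith : s - t ≤ 0), abs_of_nonpos (by linarith : s - c ≤ 0),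
        abs_of_nonpos (by linarith : c - t ≤ 0)]
      ring
    rw [a4, mul_add]
    linarith
  intro s t hs ht
  rcases le_total s c with h | h <;> rcases le_total t c with h' | h'
  · exact h1 s t hs ht h h'
  · exact hmix s t hs ht h h'
  · rw [abs_sub_comm, abs_sub_comm s t]
    exact hmix t s ht hs h' h
  · exact h2 s t hs ht h h'

theorem pw_lip (f g : ℝ → ℝ) (S : ℝ) (hS : 1 < S) (hf : ∀ s, 0 ≤ s → s ≤ 1 → ContDiffAt ℝ 1 f s)
    (hg : ∀ s, 1 ≤ s → s ≤ S → ContDiffAt ℝ 1 g s) (h1 : f 1 = g 1) (h2 : g S = 0) :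
    LipR (pw f g S) := by
  obtain ⟨K1, hK1, hf1⟩ := LpA_c1 f 0 1 zero_le_one hf
  obtain ⟨K2, hK2, hg1⟩ := LpA_c1 g 1 S hS.le hg
  have e1 : ∀ s, s ≤ 1 → pw f g S s = f s := by
    intro s hs
    unfold pw
    rw [if_pos hs]
  have e2 : ∀ s, 1 ≤ s → s ≤ S → pw f g S s = g s := by
    intro s hs hs2
    unfold pw
    rcases hs.lt_or_eq with h | h
    · rw [if_neg (not_le.2 h), if_pos hs2]
    · rw [← h, if_pos le_rfl, h1]
  have e3 : ∀ s, S ≤ s → pw f g S s = 0 := by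
    intro s hs
    rcases hs.lt_or_eq with h | h
    · unfold pw
      rw [if_neg (not_le.2 (by linarith)), if_neg (not_le.2 h)]
    · rw [← h, e2 S hS.le le_rfl, h2]
  refine ⟨K1 + K2, by positivity, ?_⟩
  have hA := LpA_glue (pw f g S) (K1 + K2) {s | 0 ≤ s ∧ s ≤ S} 1 ⟨zero_le_one, hS.le⟩
    (fun s t hs ht hs1 ht1 => by
      rw [e1 s hs1, e1 t ht1]
      refine (hf1 s t hs.1 hs1 ht.1 ht1).trans (mul_le_mul_of_nonneg_right ?_ (abs_nonneg _))
      linarith)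
    (fun s t hs ht hs1 ht1 => by
      rw [e2 s hs1 hs.2, e2 t ht1 ht.2]
      refine (hg1 s t hs1 hs.2 ht1 ht.2).trans (mul_le_mul_of_nonneg_right ?_ (abs_nonneg _))
      linarith)
  have hB := LpA_glue (pw f g S) (K1 + K2) {s | 0 ≤ s} S (by
      change 0 ≤ S
      linarith)
    (fun s t hs ht hs1 ht1 => hA s t ⟨hs, hs1⟩ ⟨ht, ht1⟩)
    (fun s t _ _ hs1 ht1 => by
      rw [e3 s hs1, e3 t ht1, sub_zero, abs_zero]
      positivity)
  exact fun s t hs ht => hB s t hs ht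

theorem LpA_ball (F : E 2 → ℝ) (R C : ℝ) (hC : 0 ≤ C)
    (hlip : ∀ x y : E 2, ‖x‖ ≤ R → ‖y‖ ≤ R → |F x - F y| ≤ C * ‖x - y‖)
    (hout : ∀ x : E 2, R ≤ ‖x‖ → F x = 0) : LipschitzWith C.toNNReal F := by
  have hmix : ∀ x y : E 2, ‖x‖ ≤ R → R ≤ ‖y‖ → |F x - F y| ≤ C * ‖x - y‖ := by
    intro x y hx hy
    have hc : ContinuousOn (fun t : ℝ => ‖x + t • (y - x)‖) (Set.Icc 0 1) := by
      have : Continuous (fun t : ℝ => ‖x + t • (y - x)‖) := by fun_prop
      exact this.continuousOn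
    have h2 := intermediate_value_Icc (zero_le_one' ℝ) hc
    have h3 : R ∈ Set.Icc ‖x + (0 : ℝ) • (y - x)‖ ‖x + (1 : ℝ) • (y - x)‖ := by
      rw [zero_smul, add_zero, one_smul, add_sub_cancel]
      exact ⟨hx, hy⟩
    obtain ⟨t, ht, ht2⟩ := h2 h3
    replace ht2 : ‖x + t • (y - x)‖ = R := ht2
    have h4 := hlip x (x + t • (y - x)) hx ht2.le
    have h5 : F (x + t • (y - x)) = 0 := hout _ ht2.ge
    rw [hout y hy, ← h5]
    refine h4.trans (mul_le_mul_of_nonneg_left ?_ hC)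
    have h6 : x - (x + t • (y - x)) = t • (x - y) := by
      rw [← neg_sub x y, smul_neg]
      abel
    rw [h6, norm_smul, Real.norm_eq_abs, abs_of_nonneg ht.1]
    calc t * ‖x - y‖ ≤ 1 * ‖x - y‖ := mul_le_mul_of_nonneg_right ht.2 (norm_nonneg _)
      _ = ‖x - y‖ := one_mul _
  refine LipschitzWith.of_dist_le_mul fun x y => ?_
  rw [Real.dist_eq, dist_eq_norm, Real.coe_toNNReal C hC]
  rcases le_total ‖x‖ R with hx | hx <;> rcases le_total ‖y‖ R with hy | hy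
  · exact hlip x y hx hy
  · exact hmix x y hx hy
  · rw [abs_sub_comm, norm_sub_rev x y]
    exact hmix y x hy hx
  · rw [hout x hx, hout y hy, sub_zero, abs_zero]
    positivity

theorem LpA_c1ball (P : E 2 → ℝ) (hP : ContDiff ℝ 1 P) (R : ℝ) (hR : 0 ≤ R) :
    ∃ M L : ℝ, 0 ≤ M ∧ 0 ≤ L ∧ (∀ x : E 2, ‖x‖ ≤ R → |P x| ≤ M) ∧
      ∀ x y : E 2, ‖x‖ ≤ R → ‖y‖ ≤ R → |P x - P y| ≤ L * ‖x - y‖ := by
  obtain ⟨M, hM⟩ := (isCompact_closedBall (0 : E 2) R).exists_bound_of_continuousOn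
    hP.continuous.continuousOn
  have hcont : Continuous (fun x => fderiv ℝ P x) := hP.continuous_fderiv one_ne_zero
  obtain ⟨L, hL⟩ := (isCompact_closedBall (0 : E 2) R).exists_bound_of_continuousOn
    hcont.continuousOn
  have h0 : (0 : E 2) ∈ Metric.closedBall (0 : E 2) R := Metric.mem_closedBall_self hR
  refine ⟨M, L, (norm_nonneg _).trans (hM 0 h0), (norm_nonneg _).trans (hL 0 h0), ?_, ?_⟩
  · intro x hx
    have := hM x (mem_closedBall_zero_iff.2 hx)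
    rwa [Real.norm_eq_abs] at this
  · intro x y hx hy
    have h1 := (convex_closedBall (0 : E 2) R).norm_image_sub_le_of_norm_fderiv_le (𝕜 := ℝ)
      (fun z _ => (hP.differentiable one_ne_zero) z) hL
      (mem_closedBall_zero_iff.2 hy) (mem_closedBall_zero_iff.2 hx)
    rwa [Real.norm_eq_abs] at h1

theorem rad_lip (h : ℝ → ℝ) (hh : LipR h) (S : ℝ) (hS : 0 < S) (h0 : ∀ s, S ≤ s → h s = 0)
    (P : E 2 → ℝ) (hP : ContDiff ℝ 1 P) : ∃ K : NNReal, LipschitzWith K (fun x => h (‖x‖ ^ 2) * P x) := by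
  obtain ⟨K, hK, hlip⟩ := hh
  obtain ⟨R, hR⟩ : ∃ R, R = Real.sqrt S := ⟨_, rfl⟩
  have hR0 : 0 ≤ R := by rw [hR]; exact Real.sqrt_nonneg _
  have hRS : R ^ 2 = S := by rw [hR]; exact Real.sq_sqrt hS.le
  obtain ⟨M, L, hM, hL, hPM, hPL⟩ := LpA_c1ball P hP R hR0
  refine ⟨_, LpA_ball _ R (K * (2 * R) * M + K * S * L) (by positivity) ?_ ?_⟩
  · intro x y hx hy
    have hx2 : ‖x‖ ^ 2 ≤ S := by
      rw [← hRS]
      exact pow_le_pow_left₀ (norm_nonneg _) hx 2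
    have hy2 : ‖y‖ ^ 2 ≤ S := by
      rw [← hRS]
      exact pow_le_pow_left₀ (norm_nonneg _) hy 2
    have a1 : |h (‖x‖ ^ 2) - h (‖y‖ ^ 2)| ≤ K * (2 * R) * ‖x - y‖ := by
      refine (hlip _ _ (by positivity) (by positivity)).trans ?_
      rw [mul_assoc]
      refine mul_le_mul_of_nonneg_left ?_ hK
      have b1 : ‖x‖ ^ 2 - ‖y‖ ^ 2 = (‖x‖ + ‖y‖) * (‖x‖ - ‖y‖) := by ring
      rw [b1, abs_mul, abs_of_nonneg (by positivity : 0 ≤ ‖x‖ + ‖y‖)]
      exact mul_le_mul (by linarith) (abs_norm_sub_norm_le x y) (abs_nonneg _) (by positivity)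
    have a2 : |h (‖y‖ ^ 2)| ≤ K * S := by
      have b1 := hlip (‖y‖ ^ 2) S (by positivity) hS.le
      rw [h0 S le_rfl, sub_zero] at b1
      refine b1.trans (mul_le_mul_of_nonneg_left ?_ hK)
      rw [abs_le]
      constructor
      · have : 0 ≤ ‖y‖ ^ 2 := by positivity
        linarith
      · linarith
    have a3 : h (‖x‖ ^ 2) * P x - h (‖y‖ ^ 2) * P y =
        (h (‖x‖ ^ 2) - h (‖y‖ ^ 2)) * P x + h (‖y‖ ^ 2) * (P x - P y) := by ring
    rw [a3]
    refine (abs_add_le _ _).trans ?_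
    rw [abs_mul, abs_mul, add_mul]
    refine add_le_add ?_ ?_
    · calc |h (‖x‖ ^ 2) - h (‖y‖ ^ 2)| * |P x| ≤ K * (2 * R) * ‖x - y‖ * M :=
            mul_le_mul a1 (hPM x hx) (abs_nonneg _) (by positivity)
        _ = _ := by ring
    · calc |h (‖y‖ ^ 2)| * |P x - P y| ≤ K * S * (L * ‖x - y‖) :=
            mul_le_mul a2 (hPL x y hx hy) (abs_nonneg _) (by positivity)
        _ = _ := by ring
  · intro x hx
    have : S ≤ ‖x‖ ^ 2 := by
      rw [← hRS]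
      exact pow_le_pow_left₀ hR0 hx 2
    change h (‖x‖ ^ 2) * P x = 0
    rw [h0 _ this, zero_mul]

theorem LpA_vec (G : E 2 → E 2) (h0 : ∃ K : NNReal, LipschitzWith K (fun x => G x 0))
    (h1 : ∃ K : NNReal, LipschitzWith K (fun x => G x 1)) : ∃ K : NNReal, LipschitzWith K G := by
  obtain ⟨K0, hK0⟩ := h0
  obtain ⟨K1, hK1⟩ := h1
  refine ⟨K0 + K1, LipschitzWith.of_dist_le_mul fun x y => ?_⟩
  have a0 := hK0.dist_le_mul x y
  have a1 := hK1.dist_le_mul x y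
  rw [Real.dist_eq] at a0 a1
  have a2 : ∀ v : E 2, ‖v‖ ≤ |v 0| + |v 1| := by
    intro v
    refine le_of_sq_le_sq ?_ (by positivity)
    rw [nsq2 v, add_sq, sq_abs, sq_abs]
    have : 0 ≤ |v 0| * |v 1| := by positivity
    linarith
  rw [dist_eq_norm (G x) (G y)]
  refine (a2 _).trans ?_
  rw [PiLp.sub_apply, PiLp.sub_apply]
  push_cast
  rw [add_mul]
  exact add_le_add a0 a1

theorem LpA_add (F G : E 2 → ℝ) (hF : ∃ K : NNReal, LipschitzWith K F)
    (hG : ∃ K : NNReal, LipschitzWith K G) : ∃ K : NNReal, LipschitzWith K (fun x => F x + G x) := by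
  obtain ⟨K0, hK0⟩ := hF
  obtain ⟨K1, hK1⟩ := hG
  exact ⟨K0 + K1, hK0.add hK1⟩

theorem LpA_coord (j : Fin 2) : ContDiff ℝ 1 (fun y : E 2 => y j) :=
  (EuclideanSpace.proj j : E 2 →L[ℝ] ℝ).contDiff

theorem fld_lip (A D : ℝ → ℝ) (hA : LipR A) (hD : LipR D) (S : ℝ) (hS : 0 < S)
    (hA0 : ∀ s, S ≤ s → A s = 0) (hD0 : ∀ s, S ≤ s → D s = 0) (C : ℂ) (k : ℕ) :
    ∃ K : NNReal, LipschitzWith K (fld A D C k) := by
  refine LpA_vec _ ?_ ?_
  · have e : (fun x => fld A D C k x 0) = fun x : E 2 =>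
        A (‖x‖ ^ 2) * (k * hM C (k - 1) x) + D (‖x‖ ^ 2) * (hM C k x * x 0) := by
      funext x
      rw [fld_0]
      ring
    rw [e]
    exact LpA_add _ _
      (rad_lip A hA S hS hA0 _ (contDiff_const.mul (contDiff_hM C (k - 1) 1)))
      (rad_lip D hD S hS hD0 _ ((contDiff_hM C k 1).mul (LpA_coord 0)))
  · have e : (fun x => fld A D C k x 1) = fun x : E 2 =>
        A (‖x‖ ^ 2) * (k * hN C (k - 1) x) + D (‖x‖ ^ 2) * (hM C k x * x 1) := by
      funext x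
      rw [fld_1]
      ring
    rw [e]
    exact LpA_add _ _
      (rad_lip A hA S hS hA0 _ (contDiff_const.mul (contDiff_hN C (k - 1) 1)))
      (rad_lip D hD S hS hD0 _ ((contDiff_hM C k 1).mul (LpA_coord 1)))

theorem sum_fld_lip (n : ℕ) (A D : Fin n → ℝ → ℝ) (hA : ∀ j, LipR (A j)) (hD : ∀ j, LipR (D j))
    (S : ℝ) (hS : 0 < S) (hA0 : ∀ j s, S ≤ s → A j s = 0) (hD0 : ∀ j s, S ≤ s → D j s = 0)
    (C : Fin n → ℂ) (k : Fin n → ℕ) :
    ∃ K : NNReal, LipschitzWith K (fun x => ∑ j, fld (A j) (D j) (C j) (k j) x) := by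
  have h : ∀ s : Finset (Fin n), ∃ K : NNReal,
      LipschitzWith K (fun x => ∑ j ∈ s, fld (A j) (D j) (C j) (k j) x) := by
    intro s
    induction s using Finset.induction_on with
    | empty =>
      refine ⟨0, ?_⟩
      simp only [Finset.sum_empty]
      exact LipschitzWith.const 0
    | insert j s hj ih =>
      obtain ⟨K0, hK0⟩ := ih
      obtain ⟨K1, hK1⟩ := fld_lip (A j) (D j) (hA j) (hD j) S hS (hA0 j) (hD0 j) (C j) (k j)
      refine ⟨K1 + K0, ?_⟩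
      simp only [Finset.sum_insert hj]
      exact hK1.add hK0
  exact h Finset.univ

end Pool.Agent.H94.GP
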