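import Pool.Agent.H94.GP.AsC
import Pool.Agent.H94.SP.Asm

/-!
# AsD: from domains with `dirEig Ω 1 ≤ bz 2` to all domains

Exactly as `Asm_step`, `upper_sym`, `main_sym` in `SP/Asm.lean`, without the symmetry.
-/

set_option autoImplicit false

open MeasureTheory Pool.Agent.H94.ER Pool.Agent.H94.SP

open scoped Pointwise

namespace Pool.Agent.H94.GP

theorem AsD_step (H : ∀ Ω : Set (E 2), IsOpen Ω → Ω.Nonempty → dirEig Ω 1 ≤ bz 2 → dirEig Ω 4 ≤ bz 6)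
    (Ω : Set (E 2)) (hΩ : IsOpen Ω) (hne : Ω.Nonempty)
    (c : ℝ) (hc : dirEig Ω 1 < c) : dirEig Ω 4 * bz 2 ≤ bz 6 * c := by
  have hb : 0 < bz 2 := bz_pos 2 le_rfl
  have hc0 : 0 < c := (dirEig_nonneg Ω 1).trans_lt hc
  have hcb : 0 < c / bz 2 := div_pos hc0 hb
  have ha : 0 < √(c / bz 2) := Real.sqrt_pos.2 hcb
  have ha2 : √(c / bz 2) ^ 2 = c / bz 2 := Real.sq_sqrt hcb.le
  have h1 : dirEig (√(c / bz 2) • Ω) 1 ≤ bz 2 := by
    rw [dirEig_smul (by norm_num) Ω 1 _ ha, ha2, div_le_iff₀ hcb, mul_div_assoc', mul_comm,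
      mul_div_assoc, div_self hb.ne', mul_one]
    exact hc.le
  have h2 := H (√(c / bz 2) • Ω) (hΩ.smul₀ ha.ne') (hne.smul_set) h1
  rw [dirEig_smul (by norm_num) Ω 4 _ ha, ha2, div_le_iff₀ hcb, mul_div_assoc',
    le_div_iff₀ hb] at h2
  exact h2

theorem AsD_upper (H : ∀ Ω : Set (E 2), IsOpen Ω → Ω.Nonempty → dirEig Ω 1 ≤ bz 2 → dirEig Ω 4 ≤ bz 6)
    (Ω : Set (E 2)) (hΩ : IsOpen Ω) (hne : Ω.Nonempty) :
    dirEig Ω 4 * bz 2 ≤ bz 6 * dirEig Ω 1 := by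
  have hb : 0 < bz 6 := bz_pos _ (by norm_num)
  have h1 : ∀ c, dirEig Ω 1 < c → dirEig Ω 4 * bz 2 / bz 6 ≤ c := fun c hc => by
    rw [div_le_iff₀ hb, mul_comm c]
    exact AsD_step H Ω hΩ hne c hc
  have h2 := le_of_forall_gt_imp_ge_of_dense h1
  rw [div_le_iff₀ hb] at h2
  linarith

theorem main_all (H : ∀ Ω : Set (E 2), IsOpen Ω → Ω.Nonempty → dirEig Ω 1 ≤ bz 2 → dirEig Ω 4 ≤ bz 6)
    (Ω : Set (E 2)) (hΩ : IsOpen Ω) (hne : Ω.Nonempty) :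
    0 < dirEig (uball 2) 1 ∧
      dirEig Ω 4 * dirEig (uball 2) 1 ≤ dirEig (uball 2) 4 * dirEig Ω 1 := by
  have h2c : ((2 : ℕ) : ℝ) = 2 := by norm_num
  have hb : 0 < bz 2 := bz_pos 2 le_rfl
  have h1 : dirEig (uball 2) 1 ≤ bz 2 := by
    have h := ball_eig_one_le (N := 2) le_rfl
    rwa [h2c] at h
  have h2 : bz 2 ≤ dirEig (uball 2) 1 := by
    have h := le_ball_eig_one (N := 2) le_rfl
    rwa [h2c] at h
  have h3 : bz 6 ≤ dirEig (uball 2) 4 := by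
    have h := le_ball_eig (N := 2) le_rfl
    rw [h2c, show (2 : ℝ) + 4 = 6 by norm_num] at h
    exact h
  have h4 := AsD_upper H Ω hΩ hne
  have h5 := dirEig_nonneg Ω 1
  have h6 := dirEig_nonneg Ω 4
  refine ⟨lt_of_lt_of_le hb h2, ?_⟩
  calc dirEig Ω 4 * dirEig (uball 2) 1
      ≤ dirEig Ω 4 * bz 2 := by gcongr
    _ ≤ bz 6 * dirEig Ω 1 := h4
    _ ≤ dirEig (uball 2) 4 * dirEig Ω 1 := by gcongr

end Pool.Agent.H94.GP
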