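import Pool.Agent.H94.ER.CeA

/-!
# CqA: the certificate inequality, general form

`H` of class `C^1`, `V` Lipschitz. If almost everywhere the quadratic form
`a^2 (q - lam H - div V) - 2 a b·(V - ∇H/2) + |b|^2 H` in `(a, b)` is nonnegative, then for `u ∈ C^1_c`
`lam ∫ H u^2 - ∫ ∇u · ∇(H u) ≤ ∫ u^2 q`.
-/

set_option autoImplicit false

open MeasureTheory Pool.Agent.H94.ER

namespace Pool.Agent.H94.GP

variable {N : ℕ}

theorem cert_q (H : E N → ℝ) (hH : ContDiff ℝ 1 H) (V : E N → E N) (K : NNReal)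
    (hV : LipschitzWith K V) (q : E N → ℝ) (hq : Continuous q) (lam : ℝ)
    (hpt : ∀ᵐ x : E N, ∀ (a : ℝ) (b : Fin N → ℝ),
      0 ≤ a ^ 2 * (q x - lam * H x - ∑ i, pd i (fun y => V y i) x)
        - 2 * a * (∑ i, b i * (V x i - 1 / 2 * pd i H x)) + (∑ i, b i ^ 2) * H x)
    (u : E N → ℝ) (hu : ContDiff ℝ 1 u) (huc : HasCompactSupport u) :
    lam * (∫ x, H x * u x ^ 2) - ∫ x, dot u (fun y => H y * u y) x ≤ ∫ x, u x ^ 2 * q x := by
  have hu2 : ContDiff ℝ 1 (fun x => u x ^ 2) := hu.pow 2
  have hu2c : HasCompactSupport (fun x => u x ^ 2) :=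
    huc.comp_left (g := fun t : ℝ => t ^ 2) (by norm_num)
  have hVl : ∀ i, ∃ K' : NNReal, LipschitzWith K' (fun y => V y i) := fun i =>
    ⟨_, (EuclideanSpace.proj i : E N →L[ℝ] ℝ).lipschitz.comp hV⟩
  have hI1 : ∀ i, Integrable (fun x => u x ^ 2 * pd i (fun y => V y i) x) := fun i => by
    obtain ⟨K', hK'⟩ := hVl i
    exact CeA_integrable _ hu2.continuous hu2c _ K' hK' i
  have hibp : ∀ i, ∫ x, u x ^ 2 * pd i (fun y => V y i) x =
      - ∫ x, pd i (fun y => u y ^ 2) x * V x i := fun i => by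
    obtain ⟨K', hK'⟩ := hVl i
    exact CeA_ibp _ hu2 hu2c _ K' hK' i
  have hI2 : ∀ i, Integrable (fun x => pd i (fun y => u y ^ 2) x * V x i) := fun i => by
    obtain ⟨K', hK'⟩ := hVl i
    exact ((continuous_pd i _ hu2).mul hK'.continuous).integrable_of_hasCompactSupport
      ((hasCompactSupport_pd i _ hu2c).mul_right)
  have hI5 : Integrable (fun x => dot u (fun y => H y * u y) x) :=
    (continuous_dot u _ hu (hH.mul hu)).integrable_of_hasCompactSupport
      (hasCompactSupport_dot u _ huc)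
  have hI7 : Integrable (fun x => H x * u x ^ 2) :=
    (hH.continuous.mul hu2.continuous).integrable_of_hasCompactSupport hu2c.mul_left
  have hI8 : Integrable (fun x => u x ^ 2 * q x) :=
    (hu2.continuous.mul hq).integrable_of_hasCompactSupport hu2c.mul_right
  have hI9 : Integrable (fun x => ∑ i, (u x ^ 2 * pd i (fun y => V y i) x
      + pd i (fun y => u y ^ 2) x * V x i)) :=
    integrable_finsetSum Finset.univ fun i _ => (hI1 i).add (hI2 i)
  have h0 : ∫ x, ∑ i, (u x ^ 2 * pd i (fun y => V y i) x + pd i (fun y => u y ^ 2) x * V x i) = 0 := by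
    have h1 : ∫ x, ∑ i, (u x ^ 2 * pd i (fun y => V y i) x + pd i (fun y => u y ^ 2) x * V x i)
        = ∑ i, ∫ x, (u x ^ 2 * pd i (fun y => V y i) x + pd i (fun y => u y ^ 2) x * V x i) :=
      integral_finsetSum Finset.univ fun i _ => (hI1 i).add (hI2 i)
    rw [h1]
    refine Finset.sum_eq_zero fun i _ => ?_
    have h2 : ∫ x, (u x ^ 2 * pd i (fun y => V y i) x + pd i (fun y => u y ^ 2) x * V x i)
        = (∫ x, u x ^ 2 * pd i (fun y => V y i) x) + ∫ x, pd i (fun y => u y ^ 2) x * V x i :=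
      integral_add (hI1 i) (hI2 i)
    rw [h2, hibp i]
    ring
  have hmain : ∫ x, ((lam * (H x * u x ^ 2) - dot u (fun y => H y * u y) x)
      + ∑ i, (u x ^ 2 * pd i (fun y => V y i) x + pd i (fun y => u y ^ 2) x * V x i))
      ≤ ∫ x, u x ^ 2 * q x := by
    refine integral_mono_ae (((hI7.const_mul lam).sub hI5).add hI9) hI8 ?_
    filter_upwards [hpt] with x hx
    have h1 := hx (u x) (fun i => pd i u x)
    have hud : DifferentiableAt ℝ u x := (hu.differentiable one_ne_zero) x
    have hHd : DifferentiableAt ℝ H x := (hH.differentiable one_ne_zero) x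
    have h2 : ∀ i, pd i (fun y => u y ^ 2) x = 2 * u x * pd i u x := by
      intro i
      have : (fun y => u y ^ 2) = fun y => u y * u y := funext fun y => sq _
      rw [this, pd_mul i u u x hud hud]
      ring
    have h3 : ∀ i, pd i (fun y => H y * u y) x = H x * pd i u x + pd i H x * u x := fun i =>
      pd_mul i H u x hHd hud
    have e1 : dot u (fun y => H y * u y) x
        = (∑ i, pd i u x ^ 2) * H x + u x * ∑ i, pd i u x * pd i H x := by
      rw [dot, Finset.sum_mul, Finset.mul_sum, ← Finset.sum_add_distrib]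
      refine Finset.sum_congr rfl fun i _ => ?_
      rw [h3]
      ring
    have e2 : ∑ i, (u x ^ 2 * pd i (fun y => V y i) x + pd i (fun y => u y ^ 2) x * V x i)
        = u x ^ 2 * (∑ i, pd i (fun y => V y i) x) + 2 * u x * ∑ i, pd i u x * V x i := by
      rw [Finset.mul_sum, Finset.mul_sum, ← Finset.sum_add_distrib]
      refine Finset.sum_congr rfl fun i _ => ?_
      rw [h2]
      ring
    have e3 : ∑ i, pd i u x * (V x i - 1 / 2 * pd i H x)
        = (∑ i, pd i u x * V x i) - 1 / 2 * ∑ i, pd i u x * pd i H x := by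
      rw [Finset.mul_sum, ← Finset.sum_sub_distrib]
      refine Finset.sum_congr rfl fun i _ => ?_
      ring
    simp only [e1, e2]
    rw [e3] at h1
    linarith
  have e4 : ∫ x, ((lam * (H x * u x ^ 2) - dot u (fun y => H y * u y) x)
      + ∑ i, (u x ^ 2 * pd i (fun y => V y i) x + pd i (fun y => u y ^ 2) x * V x i))
      = ((∫ x, lam * (H x * u x ^ 2)) - ∫ x, dot u (fun y => H y * u y) x)
        + ∫ x, ∑ i, (u x ^ 2 * pd i (fun y => V y i) x + pd i (fun y => u y ^ 2) x * V x i) := by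
    rw [← integral_sub (hI7.const_mul lam) hI5]
    exact integral_add ((hI7.const_mul lam).sub hI5) hI9
  rw [e4, h0, add_zero, integral_const_mul] at hmain
  exact hmain

end Pool.Agent.H94.GP
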