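import Pool.Agent.H94.ER.BaB

/-!
# HmA: harmonics `M = Re (C zb^k)`, `N = Im (C zb^k)`, `zb = x_0 - i x_1`, and equivariant vector fields
-/

set_option autoImplicit false

open MeasureTheory Pool.Agent.H94.ER

namespace Pool.Agent.H94.GP

/-- complex conjugate of the point -/
noncomputable def zb (x : E 2) : ℂ := ⟨x 0, -(x 1)⟩

/-- `Re (C zb^k)` -/
noncomputable def hM (C : ℂ) (k : ℕ) (x : E 2) : ℝ := (C * zb x ^ k).re

/-- `Im (C zb^k)` -/
noncomputable def hN (C : ℂ) (k : ℕ) (x : E 2) : ℝ := (C * zb x ^ k).im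

/-- gradient of `hM` -/
noncomputable def hG (C : ℂ) (k : ℕ) (x : E 2) : E 2 := !₂[k * hM C (k - 1) x, k * hN C (k - 1) x]

/-- `zb` as a linear map -/
noncomputable def zbL : E 2 →L[ℝ] ℂ :=
  (EuclideanSpace.proj (0 : Fin 2) : E 2 →L[ℝ] ℝ).smulRight (1 : ℂ)
    - (EuclideanSpace.proj (1 : Fin 2) : E 2 →L[ℝ] ℝ).smulRight Complex.I

theorem zbL_apply (x : E 2) : zbL x = zb x := by
  apply Complex.ext <;> simp [zbL, zb]

theorem zbL_single0 : zbL (EuclideanSpace.single 0 1) = 1 := by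
  rw [zbL_apply]
  apply Complex.ext <;> simp [zb]

theorem zbL_single1 : zbL (EuclideanSpace.single 1 1) = -Complex.I := by
  rw [zbL_apply]
  apply Complex.ext <;> simp [zb]

theorem hasFDerivAt_zb (x : E 2) : HasFDerivAt zb zbL x := by
  have h : zb = fun x => zbL x := funext fun x => (zbL_apply x).symm
  rw [h]
  exact zbL.hasFDerivAt

theorem contDiff_zb (n : ℕ) : ContDiff ℝ n zb := by
  have h : zb = fun x => zbL x := funext fun x => (zbL_apply x).symm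
  rw [h]
  exact zbL.contDiff

theorem hasFDerivAt_pow (C : ℂ) (k : ℕ) (x : E 2) :
    HasFDerivAt (fun y => C * zb y ^ k) ((C * (k * zb x ^ (k - 1))) • zbL) x := by
  have h := ((hasFDerivAt_zb x).pow k).const_mul C
  refine h.congr_fderiv ?_
  ext v
  simp
  ring

theorem contDiff_hM (C : ℂ) (k n : ℕ) : ContDiff ℝ n (hM C k) := by
  have h : ContDiff ℝ n (fun y : E 2 => C * zb y ^ k) := contDiff_const.mul ((contDiff_zb n).pow k)
  exact Complex.reCLM.contDiff.comp h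

theorem contDiff_hN (C : ℂ) (k n : ℕ) : ContDiff ℝ n (hN C k) := by
  have h : ContDiff ℝ n (fun y : E 2 => C * zb y ^ k) := contDiff_const.mul ((contDiff_zb n).pow k)
  exact Complex.imCLM.contDiff.comp h

theorem hasFDerivAt_hM (C : ℂ) (k : ℕ) (x : E 2) :
    HasFDerivAt (hM C k) (Complex.reCLM.comp ((C * (k * zb x ^ (k - 1))) • zbL)) x :=
  (Complex.reCLM.hasFDerivAt (x := C * zb x ^ k)).comp x (hasFDerivAt_pow C k x)

theorem hasFDerivAt_hN (C : ℂ) (k : ℕ) (x : E 2) :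
    HasFDerivAt (hN C k) (Complex.imCLM.comp ((C * (k * zb x ^ (k - 1))) • zbL)) x :=
  (Complex.imCLM.hasFDerivAt (x := C * zb x ^ k)).comp x (hasFDerivAt_pow C k x)

theorem pd0_hM (C : ℂ) (k : ℕ) (x : E 2) : pd 0 (hM C k) x = k * hM C (k - 1) x := by
  unfold pd
  rw [(hasFDerivAt_hM C k x).fderiv]
  simp only [ContinuousLinearMap.comp_apply, ContinuousLinearMap.smul_apply, zbL_single0]
  simp only [smul_eq_mul, mul_one, Complex.reCLM_apply]
  rw [show C * ((k : ℂ) * zb x ^ (k - 1)) = ((k : ℝ) : ℂ) * (C * zb x ^ (k - 1)) by push_cast; ring,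
    Complex.re_ofReal_mul]
  rfl

theorem pd1_hM (C : ℂ) (k : ℕ) (x : E 2) : pd 1 (hM C k) x = k * hN C (k - 1) x := by
  unfold pd
  rw [(hasFDerivAt_hM C k x).fderiv]
  simp only [ContinuousLinearMap.comp_apply, ContinuousLinearMap.smul_apply, zbL_single1]
  simp only [smul_eq_mul, Complex.reCLM_apply]
  rw [show C * ((k : ℂ) * zb x ^ (k - 1)) * -Complex.I
    = ((k : ℝ) : ℂ) * ((C * zb x ^ (k - 1)) * -Complex.I) by push_cast; ring,
    Complex.re_ofReal_mul]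
  simp only [hN, mul_neg, Complex.neg_re, Complex.mul_I_re, neg_neg]

theorem pd0_hN (C : ℂ) (k : ℕ) (x : E 2) : pd 0 (hN C k) x = k * hN C (k - 1) x := by
  unfold pd
  rw [(hasFDerivAt_hN C k x).fderiv]
  simp only [ContinuousLinearMap.comp_apply, ContinuousLinearMap.smul_apply, zbL_single0]
  simp only [smul_eq_mul, mul_one, Complex.imCLM_apply]
  rw [show C * ((k : ℂ) * zb x ^ (k - 1)) = ((k : ℝ) : ℂ) * (C * zb x ^ (k - 1)) by push_cast; ring,
    Complex.im_ofReal_mul]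
  rfl

theorem pd1_hN (C : ℂ) (k : ℕ) (x : E 2) : pd 1 (hN C k) x = -(k * hM C (k - 1) x) := by
  unfold pd
  rw [(hasFDerivAt_hN C k x).fderiv]
  simp only [ContinuousLinearMap.comp_apply, ContinuousLinearMap.smul_apply, zbL_single1]
  simp only [smul_eq_mul, Complex.imCLM_apply]
  rw [show C * ((k : ℂ) * zb x ^ (k - 1)) * -Complex.I
    = ((k : ℝ) : ℂ) * ((C * zb x ^ (k - 1)) * -Complex.I) by push_cast; ring,
    Complex.im_ofReal_mul]
  simp only [hM, mul_neg, Complex.neg_im, Complex.mul_I_im]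

/-- Euler identities -/
theorem euler_r (C : ℂ) (k : ℕ) (x : E 2) :
    x 0 * (k * hM C (k - 1) x) + x 1 * (k * hN C (k - 1) x) = k * hM C k x := by
  rcases k with _ | k
  · simp
  · simp only [Nat.add_sub_cancel, hM, hN, pow_succ, ← mul_assoc, Complex.mul_re (C * zb x ^ k)]
    simp only [zb]
    ring

theorem euler_t (C : ℂ) (k : ℕ) (x : E 2) :
    -(x 1) * (k * hM C (k - 1) x) + x 0 * (k * hN C (k - 1) x) = k * hN C k x := by
  rcases k with _ | k
  · simp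
  · simp only [Nat.add_sub_cancel, hM, hN, pow_succ, ← mul_assoc, Complex.mul_im (C * zb x ^ k)]
    simp only [zb]
    ring

theorem nsq2 (x : E 2) : ‖x‖ ^ 2 = x 0 ^ 2 + x 1 ^ 2 := by
  rw [EuclideanSpace.norm_sq_eq]
  simp [Fin.sum_univ_two]

/-- derivative of a radial function -/
theorem hasFDerivAt_rad (X : ℝ → ℝ) (X' : ℝ) (x : E 2) (h : HasDerivAt X X' (‖x‖ ^ 2)) :
    HasFDerivAt (fun y : E 2 => X (‖y‖ ^ 2)) ((2 * X') • (innerSL ℝ x : E 2 →L[ℝ] ℝ)) x := by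
  have h1 := (hasStrictFDerivAt_norm_sq x).hasFDerivAt
  have h2 := h.comp_hasFDerivAt x h1
  refine h2.congr_fderiv ?_
  ext v
  simp
  ring

theorem pd_rad (X : ℝ → ℝ) (X' : ℝ) (x : E 2) (h : HasDerivAt X X' (‖x‖ ^ 2)) (i : Fin 2) :
    pd i (fun y : E 2 => X (‖y‖ ^ 2)) x = 2 * X' * x i := by
  unfold pd
  rw [(hasFDerivAt_rad X X' x h).fderiv]
  simp [innerSL_apply_apply, EuclideanSpace.inner_single_right]

theorem differentiableAt_rad (X : ℝ → ℝ) (X' : ℝ) (x : E 2) (h : HasDerivAt X X' (‖x‖ ^ 2)) :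
    DifferentiableAt ℝ (fun y : E 2 => X (‖y‖ ^ 2)) x := (hasFDerivAt_rad X X' x h).differentiableAt

theorem differentiable_hM (C : ℂ) (k : ℕ) (x : E 2) : DifferentiableAt ℝ (hM C k) x :=
  (hasFDerivAt_hM C k x).differentiableAt

theorem differentiable_hN (C : ℂ) (k : ℕ) (x : E 2) : DifferentiableAt ℝ (hN C k) x :=
  (hasFDerivAt_hN C k x).differentiableAt

/-- gradient of `X(s) M` -/
theorem pd0_term (X : ℝ → ℝ) (X' : ℝ) (C : ℂ) (k : ℕ) (x : E 2) (h : HasDerivAt X X' (‖x‖ ^ 2)) :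
    pd 0 (fun y : E 2 => X (‖y‖ ^ 2) * hM C k y) x
      = X (‖x‖ ^ 2) * (k * hM C (k - 1) x) + 2 * X' * x 0 * hM C k x := by
  rw [pd_mul 0 _ _ x (differentiableAt_rad X X' x h) (differentiable_hM C k x), pd_rad X X' x h,
    pd0_hM]

theorem pd1_term (X : ℝ → ℝ) (X' : ℝ) (C : ℂ) (k : ℕ) (x : E 2) (h : HasDerivAt X X' (‖x‖ ^ 2)) :
    pd 1 (fun y : E 2 => X (‖y‖ ^ 2) * hM C k y) x
      = X (‖x‖ ^ 2) * (k * hN C (k - 1) x) + 2 * X' * x 1 * hM C k x := by
  rw [pd_mul 1 _ _ x (differentiableAt_rad X X' x h) (differentiable_hM C k x), pd_rad X X' x h,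
    pd1_hM]

/-- the field `A(s) ∇M + D(s) M x` -/
noncomputable def fld (A D : ℝ → ℝ) (C : ℂ) (k : ℕ) (x : E 2) : E 2 :=
  A (‖x‖ ^ 2) • hG C k x + (D (‖x‖ ^ 2) * hM C k x) • x

theorem fld_0 (A D : ℝ → ℝ) (C : ℂ) (k : ℕ) (x : E 2) :
    fld A D C k x 0 = A (‖x‖ ^ 2) * (k * hM C (k - 1) x) + D (‖x‖ ^ 2) * hM C k x * x 0 := by
  simp [fld, hG]

theorem fld_1 (A D : ℝ → ℝ) (C : ℂ) (k : ℕ) (x : E 2) :
    fld A D C k x 1 = A (‖x‖ ^ 2) * (k * hN C (k - 1) x) + D (‖x‖ ^ 2) * hM C k x * x 1 := by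
  simp [fld, hG]

theorem HmA_coord (i j : Fin 2) (x : E 2) : pd i (fun y : E 2 => y j) x = if i = j then 1 else 0 := by
  unfold pd
  have h : HasFDerivAt (fun y : E 2 => y j) (EuclideanSpace.proj j : E 2 →L[ℝ] ℝ) x :=
    (EuclideanSpace.proj j : E 2 →L[ℝ] ℝ).hasFDerivAt
  rw [h.fderiv]
  simp [Pi.single_apply, eq_comm]

theorem differentiable_coord (j : Fin 2) (x : E 2) : DifferentiableAt ℝ (fun y : E 2 => y j) x :=
  (EuclideanSpace.proj j : E 2 →L[ℝ] ℝ).hasFDerivAt.differentiableAt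

theorem fld_differentiable (A D : ℝ → ℝ) (A' D' : ℝ) (C : ℂ) (k : ℕ) (x : E 2)
    (hA : HasDerivAt A A' (‖x‖ ^ 2)) (hD : HasDerivAt D D' (‖x‖ ^ 2)) (i : Fin 2) :
    DifferentiableAt ℝ (fun y => fld A D C k y i) x := by
  fin_cases i
  · simp only [Fin.zero_eta, fld_0]
    exact ((differentiableAt_rad A A' x hA).mul ((differentiableAt_const _).mul
      (differentiable_hM C (k - 1) x))).add (((differentiableAt_rad D D' x hD).mul
      (differentiable_hM C k x)).mul (differentiable_coord 0 x))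
  · simp only [Fin.mk_one, fld_1]
    exact ((differentiableAt_rad A A' x hA).mul ((differentiableAt_const _).mul
      (differentiable_hN C (k - 1) x))).add (((differentiableAt_rad D D' x hD).mul
      (differentiable_hM C k x)).mul (differentiable_coord 1 x))

/-- divergence of the field -/
theorem fld_div (A D : ℝ → ℝ) (A' D' : ℝ) (C : ℂ) (k : ℕ) (x : E 2)
    (hA : HasDerivAt A A' (‖x‖ ^ 2)) (hD : HasDerivAt D D' (‖x‖ ^ 2)) :
    ∑ i, pd i (fun y => fld A D C k y i) x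
      = (2 * k * A' + 2 * ‖x‖ ^ 2 * D' + (k + 2) * D (‖x‖ ^ 2)) * hM C k x := by
  have dA := differentiableAt_rad A A' x hA
  have dD := differentiableAt_rad D D' x hD
  have dM := differentiable_hM C k x
  have dM1 := differentiable_hM C (k - 1) x
  have dN1 := differentiable_hN C (k - 1) x
  have e0 : pd 0 (fun y => fld A D C k y 0) x
      = A (‖x‖ ^ 2) * (k * pd 0 (hM C (k - 1)) x) + 2 * A' * x 0 * (k * hM C (k - 1) x)
        + (D (‖x‖ ^ 2) * hM C k x * 1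
          + (D (‖x‖ ^ 2) * (k * hM C (k - 1) x) + 2 * D' * x 0 * hM C k x) * x 0) := by
    simp only [fld_0]
    have d1 : DifferentiableAt ℝ (fun y : E 2 => (k : ℝ) * hM C (k - 1) y) x :=
      (differentiableAt_const _).mul dM1
    have d2 : DifferentiableAt ℝ (fun y : E 2 => D (‖y‖ ^ 2) * hM C k y) x := dD.mul dM
    have d3 : DifferentiableAt ℝ (fun y : E 2 => y 0) x := differentiable_coord 0 x
    have a1 := pd_mul 0 (fun y : E 2 => A (‖y‖ ^ 2)) (fun y : E 2 => (k : ℝ) * hM C (k - 1) y) x dA d1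
    have a2 := pd_mul 0 (fun y : E 2 => D (‖y‖ ^ 2) * hM C k y) (fun y : E 2 => y 0) x d2 d3
    have a3 := pd_add 0 (fun y : E 2 => A (‖y‖ ^ 2) * ((k : ℝ) * hM C (k - 1) y))
      (fun y : E 2 => D (‖y‖ ^ 2) * hM C k y * y 0) x (dA.mul d1) (d2.mul d3)
    have a4 := pd0_term D D' C k x hD
    have a5 := pd_rad A A' x hA 0
    have a6 : pd 0 (fun y : E 2 => (k : ℝ) * hM C (k - 1) y) x = k * pd 0 (hM C (k - 1)) x :=
      pd_const_mul 0 _ _ x
    have a7 := HmA_coord 0 0 x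
    rw [a3, a1, a2, a4, a5, a6, a7]
    simp
  have e1 : pd 1 (fun y => fld A D C k y 1) x
      = A (‖x‖ ^ 2) * (k * pd 1 (hN C (k - 1)) x) + 2 * A' * x 1 * (k * hN C (k - 1) x)
        + (D (‖x‖ ^ 2) * hM C k x * 1
          + (D (‖x‖ ^ 2) * (k * hN C (k - 1) x) + 2 * D' * x 1 * hM C k x) * x 1) := by
    simp only [fld_1]
    have d1 : DifferentiableAt ℝ (fun y : E 2 => (k : ℝ) * hN C (k - 1) y) x :=
      (differentiableAt_const _).mul dN1
    have d2 : DifferentiableAt ℝ (fun y : E 2 => D (‖y‖ ^ 2) * hM C k y) x := dD.mul dM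
    have d3 : DifferentiableAt ℝ (fun y : E 2 => y 1) x := differentiable_coord 1 x
    have a1 := pd_mul 1 (fun y : E 2 => A (‖y‖ ^ 2)) (fun y : E 2 => (k : ℝ) * hN C (k - 1) y) x dA d1
    have a2 := pd_mul 1 (fun y : E 2 => D (‖y‖ ^ 2) * hM C k y) (fun y : E 2 => y 1) x d2 d3
    have a3 := pd_add 1 (fun y : E 2 => A (‖y‖ ^ 2) * ((k : ℝ) * hN C (k - 1) y))
      (fun y : E 2 => D (‖y‖ ^ 2) * hM C k y * y 1) x (dA.mul d1) (d2.mul d3)
    have a4 := pd1_term D D' C k x hD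
    have a5 := pd_rad A A' x hA 1
    have a6 : pd 1 (fun y : E 2 => (k : ℝ) * hN C (k - 1) y) x = k * pd 1 (hN C (k - 1)) x :=
      pd_const_mul 1 _ _ x
    have a7 := HmA_coord 1 1 x
    rw [a3, a1, a2, a4, a5, a6, a7]
    simp
  rw [Fin.sum_univ_two, e0, e1, pd0_hM, pd1_hN]
  have h1 := euler_r C k x
  have h2 := nsq2 x
  rw [h2]
  linear_combination (2 * A' + D (x 0 ^ 2 + x 1 ^ 2)) * h1

end Pool.Agent.H94.GP
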