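import Pool.Agent.H94.GP.Blk
import Pool.Agent.H94.GP.HmA

/-!
# Frm: the pointwise form in the local frame

At `x ≠ 0` put `r = ‖x‖`, `c = zb x / r`, `b = ξ x/r + η x^⊥/r`, `α' = α c^2`, `p' = p c`, `q' = q c^3`.
-/

set_option autoImplicit false

open Pool.Agent.H94.ER

namespace Pool.Agent.H94.GP

theorem Cj_rot (σ : ℝ) (α p q c : ℂ) (hc : c * (starRingEnd ℂ) c = 1) (j : Fin 16) :
    Cj σ (α * c ^ 2) (p * c) (q * c ^ 3) j = Cj σ α p q j * c ^ kj j := by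
  fin_cases j <;>
    simp only [Cj, kj, map_mul, map_pow, Fin.zero_eta, Fin.mk_one, Fin.reduceFinMk, Matrix.cons_val,
      Matrix.cons_val_zero, Matrix.cons_val_one, pow_zero, mul_one, pow_one]
  · ring
  · ring
  · ring
  · linear_combination (α * (starRingEnd ℂ) α * (c * (starRingEnd ℂ) c + 1)) * hc
  · ring
  · linear_combination (α * (starRingEnd ℂ) p * c) * hc
  · ring
  · linear_combination ((starRingEnd ℂ) α * q * c * (c * (starRingEnd ℂ) c + 1)) * hc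
  · ring
  · linear_combination (p * (starRingEnd ℂ) p) * hc
  · ring
  · linear_combination ((starRingEnd ℂ) p * q * c ^ 2) * hc
  · ring
  · linear_combination (q * (starRingEnd ℂ) q * ((c * (starRingEnd ℂ) c) ^ 2 + c * (starRingEnd ℂ) c + 1)) * hc
  · ring

theorem zb_norm (x : E 2) : zb x * (starRingEnd ℂ) (zb x) = ((‖x‖ ^ 2 : ℝ) : ℂ) := by
  rw [nsq2, Complex.mul_conj, Complex.normSq_apply]
  simp only [zb]
  push_cast
  ring

theorem frame (x : E 2) (hx : x ≠ 0) (σ : ℝ) (α p q : ℂ) (τ A D X X' : Fin 16 → ℝ) (a : ℝ)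
    (b : Fin 2 → ℝ) : ∃ (ξ η : ℝ) (α' p' q' : ℂ), ‖α'‖ = ‖α‖ ∧ ‖p'‖ = ‖p‖ ∧ ‖q'‖ = ‖q‖ ∧
      a ^ 2 * (∑ j, τ j * hM (Cj σ α p q j) (kj j) x)
        - 2 * a * (b 0 * ((∑ j, (A j * (kj j * hM (Cj σ α p q j) (kj j - 1) x)
              + D j * hM (Cj σ α p q j) (kj j) x * x 0))
            - 1 / 2 * ∑ j, (X j * (kj j * hM (Cj σ α p q j) (kj j - 1) x)
              + 2 * X' j * x 0 * hM (Cj σ α p q j) (kj j) x))
          + b 1 * ((∑ j, (A j * (kj j * hN (Cj σ α p q j) (kj j - 1) x)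
              + D j * hM (Cj σ α p q j) (kj j) x * x 1))
            - 1 / 2 * ∑ j, (X j * (kj j * hN (Cj σ α p q j) (kj j - 1) x)
              + 2 * X' j * x 1 * hM (Cj σ α p q j) (kj j) x)))
        + (b 0 ^ 2 + b 1 ^ 2) * (∑ j, X j * hM (Cj σ α p q j) (kj j) x)
      = floc (fun j => τ j * ‖x‖ ^ kj j)
          (fun j => (kj j * A j + ‖x‖ ^ 2 * D j - ‖x‖ ^ 2 * X' j - 1 / 2 * kj j * X j) * ‖x‖ ^ kj j / ‖x‖)
          (fun j => kj j * (A j - 1 / 2 * X j) * ‖x‖ ^ kj j / ‖x‖)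
          (fun j => X j * ‖x‖ ^ kj j) a ξ η σ α' p' q' := by
  have hr : 0 < ‖x‖ := norm_pos_iff.2 hx
  have hrc : ((‖x‖ : ℝ) : ℂ) ≠ 0 := by exact_mod_cast hr.ne'
  set r := ‖x‖ with hrdef
  set c : ℂ := zb x / r with hc
  have hcc : c * (starRingEnd ℂ) c = 1 := by
    rw [hc, map_div₀, Complex.conj_ofReal, div_mul_div_comm, zb_norm, ← hrdef]
    push_cast
    field_simp
  have hz : zb x = r * c := by rw [hc]; field_simp
  have hcn : ‖c‖ = 1 := by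
    have h1 : ((‖c‖ ^ 2 : ℝ) : ℂ) = 1 := by
      rw [← hcc, Complex.mul_conj, Complex.normSq_eq_norm_sq]
    have h2 : ‖c‖ ^ 2 = 1 := by exact_mod_cast h1
    have h3 := norm_nonneg c
    nlinarith
  refine ⟨(x 0 * b 0 + x 1 * b 1) / r, (-(x 1) * b 0 + x 0 * b 1) / r, α * c ^ 2, p * c, q * c ^ 3,
    by simp [hcn], by simp [hcn], by simp [hcn], ?_⟩
  have hM' : ∀ j, hM (Cj σ α p q j) (kj j) x
      = r ^ kj j * (Cj σ (α * c ^ 2) (p * c) (q * c ^ 3) j).re := by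
    intro j
    rw [Cj_rot _ _ _ _ _ hcc, hM, hz, mul_pow,
      show Cj σ α p q j * (((r : ℝ) : ℂ) ^ kj j * c ^ kj j)
        = ((r ^ kj j : ℝ) : ℂ) * (Cj σ α p q j * c ^ kj j) by push_cast; ring, Complex.re_ofReal_mul]
  have hN' : ∀ j, hN (Cj σ α p q j) (kj j) x
      = r ^ kj j * (Cj σ (α * c ^ 2) (p * c) (q * c ^ 3) j).im := by
    intro j
    rw [Cj_rot _ _ _ _ _ hcc, hN, hz, mul_pow,
      show Cj σ α p q j * (((r : ℝ) : ℂ) ^ kj j * c ^ kj j)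
        = ((r ^ kj j : ℝ) : ℂ) * (Cj σ α p q j * c ^ kj j) by push_cast; ring, Complex.im_ofReal_mul]
  have hrr : x 0 ^ 2 + x 1 ^ 2 = r ^ 2 := (nsq2 x).symm
  rw [floc, Finset.mul_sum, Finset.mul_sum, Finset.mul_sum, ← Finset.sum_sub_distrib,
    ← Finset.sum_sub_distrib, Finset.mul_sum, Finset.mul_sum, ← Finset.sum_add_distrib, Finset.mul_sum,
    ← Finset.sum_sub_distrib, Finset.mul_sum, ← Finset.sum_add_distrib]
  refine Finset.sum_congr rfl fun j _ => ?_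
  have h1 := euler_r (Cj σ α p q j) (kj j) x
  have h2 := euler_t (Cj σ α p q j) (kj j) x
  rw [hM'] at h1
  rw [hN'] at h2
  rw [hM']
  set M1 := hM (Cj σ α p q j) (kj j - 1) x
  set N1 := hN (Cj σ α p q j) (kj j - 1) x
  set m := (Cj σ (α * c ^ 2) (p * c) (q * c ^ 3) j).re
  set n := (Cj σ (α * c ^ 2) (p * c) (q * c ^ 3) j).im
  set k : ℝ := (kj j : ℝ)
  set w := r ^ kj j
  have c1 : b 0 * (k * M1) + b 1 * (k * N1)
      = ((x 0 * b 0 + x 1 * b 1) * (k * (w * m)) + (-(x 1) * b 0 + x 0 * b 1) * (k * (w * n))) / r ^ 2 := by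
    rw [eq_div_iff (by positivity), ← hrr, ← h1, ← h2]
    ring
  have c3 : b 0 ^ 2 + b 1 ^ 2
      = ((x 0 * b 0 + x 1 * b 1) / r) ^ 2 + ((-(x 1) * b 0 + x 0 * b 1) / r) ^ 2 := by
    rw [div_pow, div_pow, ← add_div, eq_div_iff (by positivity), ← hrr]
    ring
  rw [← c3]
  have c4 : (x 0 * b 0 + x 1 * b 1) / r * ((k * A j + r ^ 2 * D j - r ^ 2 * X' j - 1 / 2 * k * X j) * w / r * m)
      + (-(x 1) * b 0 + x 0 * b 1) / r * (k * (A j - 1 / 2 * X j) * w / r * n)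
      = (A j - 1 / 2 * X j) * (b 0 * (k * M1) + b 1 * (k * N1))
        + (D j - X' j) * (w * m) * (x 0 * b 0 + x 1 * b 1) := by
    rw [c1]
    field_simp
    ring
  rw [c4]
  ring

end Pool.Agent.H94.GP
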