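import Pool.Agent.H94.GP.GcA
import Pool.Agent.H94.GP.Frm

/-!
# PlA: centring and second moments of an admissible function, in the harmonics

* `adm_lin`: `hM C 1 x = C.re x_0 + C.im x_1` (`zb x = x_0 - i x_1`), so `gc(‖x‖^2) hM C 1 x = C.re tf gc 0 x + C.im tf gc 1 x`.
* `adm_sq`: with `z = x_0 + i x_1`: `s (‖P‖^2 + ‖Q‖^2) + 2 Re(conj P · Q · zb^2) = |P z + Q zb|^2 = (v·x)^2 + (v'·x)^2`, `v = (P.re + Q.re, Q.im - P.im)`, `v' = (P.im + Q.im, P.re - Q.re)`,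
  `|v|^2 + |v'|^2 = 2 (‖P‖^2 + ‖Q‖^2)`. `Adm` for the unit vectors `v/|v|` gives `kap ∫ u^2 (gc (v·x))^2 ≤ (1 + ε) |v|^2` (also if `v = 0`).
* `adm_mult`: `μ3^2 ≤ μ1 μ2`: if `μ1 = 0` then `μ3 = 0`; otherwise `P = √μ1 p`, `Q = (μ3/√μ1) q` gives the terms `μ1 ‖p‖^2`, `(μ3^2/μ1) ‖q‖^2`, `μ3 M`, and the remaining `(μ2 - μ3^2/μ1) ‖q‖^2 ≥ 0` is
  `P = 0`, `Q = √(..) q`; `μ0 ‖α‖^2`: `P = √μ0 α`, `Q = 0`.
-/

set_option autoImplicit false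

open MeasureTheory Pool.Agent.H94.ER Pool.Agent.H94.SP

namespace Pool.Agent.H94.GP

private theorem PlA_gc_cont : Continuous fun x : E 2 => gc (‖x‖ ^ 2) := by
  unfold gc
  have h1 : Continuous fun x : E 2 => √(1 + ‖x‖ ^ 2 / 100000000) := by fun_prop
  refine continuous_const.div h1 fun x => ?_
  have h2 : (0 : ℝ) < 1 + ‖x‖ ^ 2 / 100000000 := by positivity
  exact (Real.sqrt_pos.2 h2).ne'

private theorem PlA_int {u g : E 2 → ℝ} (hu : Continuous u) (hc : HasCompactSupport u) (hg : Continuous g) :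
    Integrable (fun x => u x ^ 2 * g x) := by
  have h1 : Continuous fun x => u x ^ 2 * g x := (hu.pow 2).mul hg
  refine h1.integrable_of_hasCompactSupport ?_
  refine hc.mono' (fun x hx => subset_tsupport u ?_)
  rw [Function.mem_support] at hx ⊢
  intro h0
  exact hx (by rw [h0]; ring)

private theorem PlA_hM1 (C : ℂ) (x : E 2) : hM C 1 x = C.re * x 0 + C.im * x 1 := by
  simp only [hM, zb, pow_one, Complex.mul_re]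
  ring

private theorem PlA_hM2_cont (C : ℂ) : Continuous (hM C 2) := (contDiff_hM C 2 0).continuous

private theorem PlA_test {ε : ℝ} {u : E 2 → ℝ} (hu : Adm ε u) : Continuous u ∧ HasCompactSupport u := by
  obtain ⟨⟨Ω, L1, ht, _⟩, _⟩ := hu
  exact ⟨ht.1.continuous, ht.2.1⟩

theorem adm_lin (ε : ℝ) (u : E 2 → ℝ) (hu : Adm ε u) (C : ℂ) :
    ∫ x, u x ^ 2 * (gc (‖x‖ ^ 2) * hM C 1 x) = 0 := by
  obtain ⟨huc, hus⟩ := PlA_test hu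
  have h0 := hu.2.2.2.1 0
  have h1 := hu.2.2.2.1 1
  have c0 : Continuous (tf gc 0 : E 2 → ℝ) := by
    unfold tf
    exact PlA_gc_cont.mul (by fun_prop)
  have c1 : Continuous (tf gc 1 : E 2 → ℝ) := by
    unfold tf
    exact PlA_gc_cont.mul (by fun_prop)
  have e : (fun x : E 2 => u x ^ 2 * (gc (‖x‖ ^ 2) * hM C 1 x)) =
      fun x => C.re * (u x ^ 2 * tf gc 0 x) + C.im * (u x ^ 2 * tf gc 1 x) := by
    funext x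
    rw [PlA_hM1]
    simp only [tf]
    ring
  rw [e, integral_add ((PlA_int huc hus c0).const_mul _) ((PlA_int huc hus c1).const_mul _),
    integral_const_mul, integral_const_mul, h0, h1]
  ring

/-- the Poincare inequality for the linear functions of any norm -/
private theorem PlA_vec {ε : ℝ} {u : E 2 → ℝ} (hu : Adm ε u) (a b : ℝ) :
    kap * (∫ x, u x ^ 2 * (gc (‖x‖ ^ 2) ^ 2 * (a * x 0 + b * x 1) ^ 2)) ≤ (1 + ε) * (a ^ 2 + b ^ 2) := by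
  by_cases hab : a ^ 2 + b ^ 2 = 0
  · have ha : a = 0 := by nlinarith [sq_nonneg a, sq_nonneg b]
    have hb : b = 0 := by nlinarith [sq_nonneg a, sq_nonneg b]
    subst ha
    subst hb
    simp
  · have hpos : 0 < a ^ 2 + b ^ 2 := lt_of_le_of_ne (by positivity) (Ne.symm hab)
    have hr : 0 < √(a ^ 2 + b ^ 2) := Real.sqrt_pos.2 hpos
    set r := √(a ^ 2 + b ^ 2) with hrd
    have hr2 : r ^ 2 = a ^ 2 + b ^ 2 := Real.sq_sqrt hpos.le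
    let e : E 2 := !₂[a / r, b / r]
    have e0 : e 0 = a / r := rfl
    have e1 : e 1 = b / r := rfl
    have he : ‖e‖ = 1 := by
      have h1 : ‖e‖ ^ 2 = 1 := by
        rw [nsq2, e0, e1, div_pow, div_pow, ← add_div, hr2, div_self hpos.ne']
      have h2 : (0 : ℝ) ≤ ‖e‖ := norm_nonneg _
      nlinarith
    have h3 := hu.2.2.2.2 e he
    have h4 : (fun x : E 2 => u x ^ 2 * (gc (‖x‖ ^ 2) ^ 2 * (a * x 0 + b * x 1) ^ 2)) =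
        fun x => r ^ 2 * (u x ^ 2 * (gc (‖x‖ ^ 2) * inner ℝ x e) ^ 2) := by
      funext x
      have h5 : inner ℝ x e = x 0 * e 0 + x 1 * e 1 := by
        rw [PiLp.inner_apply]
        simp [Fin.sum_univ_two]
        ring
      rw [h5, e0, e1]
      field_simp
    rw [h4, integral_const_mul, ← hr2]
    have h6 : 0 ≤ r ^ 2 := by positivity
    calc kap * (r ^ 2 * ∫ x, u x ^ 2 * (gc (‖x‖ ^ 2) * inner ℝ x e) ^ 2)
        = r ^ 2 * (kap * ∫ x, u x ^ 2 * (gc (‖x‖ ^ 2) * inner ℝ x e) ^ 2) := by ring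
      _ ≤ r ^ 2 * (1 + ε) := mul_le_mul_of_nonneg_left h3 h6
      _ = (1 + ε) * r ^ 2 := by ring

theorem adm_sq (ε : ℝ) (hε : 0 ≤ ε) (u : E 2 → ℝ) (hu : Adm ε u) (P Q : ℂ) :
    kap * (∫ x, u x ^ 2 * (gc (‖x‖ ^ 2) ^ 2 * (‖x‖ ^ 2 * (‖P‖ ^ 2 + ‖Q‖ ^ 2)
      + 2 * hM ((starRingEnd ℂ) P * Q) 2 x))) ≤ 2 * (1 + ε) * (‖P‖ ^ 2 + ‖Q‖ ^ 2) := by
  obtain ⟨huc, hus⟩ := PlA_test hu
  have nP : ‖P‖ ^ 2 = P.re ^ 2 + P.im ^ 2 := by rw [Complex.sq_norm, Complex.normSq_apply]; ring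
  have nQ : ‖Q‖ ^ 2 = Q.re ^ 2 + Q.im ^ 2 := by rw [Complex.sq_norm, Complex.normSq_apply]; ring
  have h1 := PlA_vec hu (P.re + Q.re) (Q.im - P.im)
  have h2 := PlA_vec hu (P.im + Q.im) (P.re - Q.re)
  have e : (fun x : E 2 => u x ^ 2 * (gc (‖x‖ ^ 2) ^ 2 * (‖x‖ ^ 2 * (‖P‖ ^ 2 + ‖Q‖ ^ 2)
      + 2 * hM ((starRingEnd ℂ) P * Q) 2 x))) = fun x =>
      u x ^ 2 * (gc (‖x‖ ^ 2) ^ 2 * ((P.re + Q.re) * x 0 + (Q.im - P.im) * x 1) ^ 2) +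
        u x ^ 2 * (gc (‖x‖ ^ 2) ^ 2 * ((P.im + Q.im) * x 0 + (P.re - Q.re) * x 1) ^ 2) := by
    funext x
    have h3 : ‖x‖ ^ 2 * (‖P‖ ^ 2 + ‖Q‖ ^ 2) + 2 * hM ((starRingEnd ℂ) P * Q) 2 x =
        ((P.re + Q.re) * x 0 + (Q.im - P.im) * x 1) ^ 2 +
          ((P.im + Q.im) * x 0 + (P.re - Q.re) * x 1) ^ 2 := by
      rw [nP, nQ, nsq2]
      simp only [hM, zb, pow_two, Complex.mul_re, Complex.mul_im, Complex.conj_re, Complex.conj_im]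
      ring
    rw [h3]
    ring
  have c : ∀ a b : ℝ, Continuous fun x : E 2 => gc (‖x‖ ^ 2) ^ 2 * (a * x 0 + b * x 1) ^ 2 := by
    intro a b
    exact (PlA_gc_cont.pow 2).mul (by fun_prop)
  rw [e, integral_add (PlA_int huc hus (c _ _)) (PlA_int huc hus (c _ _)), mul_add, nP, nQ]
  nlinarith [h1, h2]

theorem adm_mult (ε : ℝ) (hε : 0 ≤ ε) (u : E 2 → ℝ) (hu : Adm ε u) (μ0 μ1 μ2 μ3 : ℝ) (h0 : 0 ≤ μ0)
    (h1 : 0 ≤ μ1) (h2 : 0 ≤ μ2) (h3 : μ3 ^ 2 ≤ μ1 * μ2) (α p q : ℂ) :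
    -(2 * ε * (μ0 * ‖α‖ ^ 2 + μ1 * ‖p‖ ^ 2 + μ2 * ‖q‖ ^ 2))
      ≤ ∫ x, u x ^ 2 * ((2 - kap * (gc (‖x‖ ^ 2) ^ 2 * ‖x‖ ^ 2)) * (μ0 * ‖α‖ ^ 2 + μ1 * ‖p‖ ^ 2 + μ2 * ‖q‖ ^ 2)
        - 2 * μ3 * (kap * (gc (‖x‖ ^ 2) ^ 2 * hM ((starRingEnd ℂ) p * q) 2 x))) := by
  obtain ⟨huc, hus⟩ := PlA_test hu
  have cA : Continuous fun x : E 2 => gc (‖x‖ ^ 2) ^ 2 * ‖x‖ ^ 2 := (PlA_gc_cont.pow 2).mul (by fun_prop)
  have cB : ∀ C : ℂ, Continuous fun x : E 2 => gc (‖x‖ ^ 2) ^ 2 * hM C 2 x := fun C =>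
    (PlA_gc_cont.pow 2).mul (PlA_hM2_cont C)
  have iA := PlA_int huc hus cA
  have iB := fun C => PlA_int huc hus (cB C)
  have iU : Integrable (fun x : E 2 => u x ^ 2) := by
    have := PlA_int huc hus (continuous_const (y := (1 : ℝ)))
    simpa using this
  have hU : ∫ x, u x ^ 2 = 1 := hu.2.1
  set A := ∫ x, u x ^ 2 * (gc (‖x‖ ^ 2) ^ 2 * ‖x‖ ^ 2) with hA
  set B := ∫ x, u x ^ 2 * (gc (‖x‖ ^ 2) ^ 2 * hM ((starRingEnd ℂ) p * q) 2 x) with hB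
  -- the square root of the multiplier
  obtain ⟨m, t, hm, hmt, ht⟩ : ∃ m t : ℝ, m ^ 2 = μ1 ∧ m * t = μ3 ∧ t ^ 2 ≤ μ2 := by
    rcases h1.eq_or_lt with h | h
    · refine ⟨0, 0, by rw [← h]; ring, ?_, by simpa using h2⟩
      have : μ3 ^ 2 ≤ 0 := by rw [← h] at h3; simpa using h3
      have h5 : μ3 = 0 := by nlinarith [sq_nonneg μ3]
      rw [h5]
      ring
    · have hs : 0 < √μ1 := Real.sqrt_pos.2 h
      have hs2 : √μ1 ^ 2 = μ1 := Real.sq_sqrt h1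
      refine ⟨√μ1, μ3 / √μ1, hs2, by field_simp, ?_⟩
      rw [div_pow, hs2, div_le_iff₀ h]
      linarith
  have key1 := adm_sq ε hε u hu ((m : ℂ) * p) ((t : ℂ) * q)
  have key2 := adm_sq ε hε u hu 0 1
  have e1 : (fun x : E 2 => u x ^ 2 * (gc (‖x‖ ^ 2) ^ 2 * (‖x‖ ^ 2 * (‖(m : ℂ) * p‖ ^ 2 + ‖(t : ℂ) * q‖ ^ 2)
      + 2 * hM ((starRingEnd ℂ) ((m : ℂ) * p) * ((t : ℂ) * q)) 2 x))) = fun x =>
      (μ1 * ‖p‖ ^ 2 + t ^ 2 * ‖q‖ ^ 2) * (u x ^ 2 * (gc (‖x‖ ^ 2) ^ 2 * ‖x‖ ^ 2)) +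
        (2 * μ3) * (u x ^ 2 * (gc (‖x‖ ^ 2) ^ 2 * hM ((starRingEnd ℂ) p * q) 2 x)) := by
    funext x
    have h5 : hM ((starRingEnd ℂ) ((m : ℂ) * p) * ((t : ℂ) * q)) 2 x = μ3 * hM ((starRingEnd ℂ) p * q) 2 x := by
      rw [hM, hM, ← hmt, map_mul, Complex.conj_ofReal,
        show (m : ℂ) * (starRingEnd ℂ) p * ((t : ℂ) * q) * zb x ^ 2 =
          ((m * t : ℝ) : ℂ) * ((starRingEnd ℂ) p * q * zb x ^ 2) by push_cast; ring, Complex.re_ofReal_mul]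
    rw [h5, norm_mul, norm_mul, mul_pow, mul_pow, Complex.norm_real, Complex.norm_real, Real.norm_eq_abs,
      Real.norm_eq_abs, sq_abs, sq_abs, hm]
    ring
  have n1 : ‖(m : ℂ) * p‖ ^ 2 + ‖(t : ℂ) * q‖ ^ 2 = μ1 * ‖p‖ ^ 2 + t ^ 2 * ‖q‖ ^ 2 := by
    rw [norm_mul, norm_mul, mul_pow, mul_pow, Complex.norm_real, Complex.norm_real, Real.norm_eq_abs,
      Real.norm_eq_abs, sq_abs, sq_abs, hm]
  rw [e1, n1, integral_add (iA.const_mul _) ((iB _).const_mul _), integral_const_mul, integral_const_mul,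
    ← hA, ← hB] at key1
  have e2 : (fun x : E 2 => u x ^ 2 * (gc (‖x‖ ^ 2) ^ 2 * (‖x‖ ^ 2 * (‖(0 : ℂ)‖ ^ 2 + ‖(1 : ℂ)‖ ^ 2)
      + 2 * hM ((starRingEnd ℂ) (0 : ℂ) * 1) 2 x))) = fun x =>
      u x ^ 2 * (gc (‖x‖ ^ 2) ^ 2 * ‖x‖ ^ 2) := by
    funext x
    simp [hM]
  rw [e2, ← hA] at key2
  have key2' : kap * A ≤ 2 * (1 + ε) := by simpa using key2
  set S := μ0 * ‖α‖ ^ 2 + μ1 * ‖p‖ ^ 2 + μ2 * ‖q‖ ^ 2 with hS
  have e3 : (fun x : E 2 => u x ^ 2 * ((2 - kap * (gc (‖x‖ ^ 2) ^ 2 * ‖x‖ ^ 2)) * S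
        - 2 * μ3 * (kap * (gc (‖x‖ ^ 2) ^ 2 * hM ((starRingEnd ℂ) p * q) 2 x)))) = fun x =>
      ((2 * S) * u x ^ 2 + (-(kap * S)) * (u x ^ 2 * (gc (‖x‖ ^ 2) ^ 2 * ‖x‖ ^ 2))) +
        (-(2 * μ3 * kap)) * (u x ^ 2 * (gc (‖x‖ ^ 2) ^ 2 * hM ((starRingEnd ℂ) p * q) 2 x)) := by
    funext x
    ring
  have j1 : Integrable (fun x : E 2 => (2 * S) * u x ^ 2) := iU.const_mul _
  have j2 : Integrable (fun x : E 2 => (-(kap * S)) * (u x ^ 2 * (gc (‖x‖ ^ 2) ^ 2 * ‖x‖ ^ 2))) :=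
    iA.const_mul _
  have j3 : Integrable (fun x : E 2 => (2 * S) * u x ^ 2 +
      (-(kap * S)) * (u x ^ 2 * (gc (‖x‖ ^ 2) ^ 2 * ‖x‖ ^ 2))) := j1.add j2
  rw [e3, integral_add j3 ((iB _).const_mul _), integral_add j1 j2, integral_const_mul, integral_const_mul,
    integral_const_mul, hU, ← hA, ← hB]
  have k1 : 0 ≤ (μ2 - t ^ 2) * ‖q‖ ^ 2 := mul_nonneg (by linarith) (by positivity)
  have k2 : 0 ≤ μ0 * ‖α‖ ^ 2 := by positivity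
  have k3 := mul_le_mul_of_nonneg_left key2' k1
  have k4 := mul_le_mul_of_nonneg_left key2' k2
  have k5 : S = μ0 * ‖α‖ ^ 2 + (μ1 * ‖p‖ ^ 2 + t ^ 2 * ‖q‖ ^ 2) + (μ2 - t ^ 2) * ‖q‖ ^ 2 := by
    rw [hS]
    ring
  rw [k5]
  nlinarith [k3, k4, key1]

end Pool.Agent.H94.GP
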