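import Pool.Agent.H94.GP.DefG
import Pool.Agent.H94.SP.Tau

/-!
# RmA: the remainder for an admissible function

`v = H u` is a test function on `Ω` (`u` is), `∫ u v = ∫ H u^2 ≥ 0`, `energy v ≤ B^2 · 2 (bz 2 + 1 + 2)`
(as in `SP/Tau.lean` `tau_bound`: `|∇(H u)|^2 ≤ 2 (H^2 |∇u|^2 + u^2 |∇H|^2)`). So
`∫ ∇u·∇v ≤ L1 ∫ H u^2 + ε √(energy v) ≤ bz 2 ∫ H u^2 + ε B √(2 (bz 2 + 1 + 2))`.
-/

set_option autoImplicit false

open MeasureTheory Pool.Agent.H94.ER Pool.Agent.H94.SP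

namespace Pool.Agent.H94.GP

theorem rem_bound (ε : ℝ) (hε : 0 ≤ ε) (u : E 2 → ℝ) (hu : Adm ε u) (H : E 2 → ℝ)
    (hH : ContDiff ℝ 1 H) (hH0 : ∀ x, 0 ≤ H x) (B : ℝ) (hB0 : 0 ≤ B)
    (hB : ∀ x, |H x| ≤ B ∧ ∀ i, |pd i H x| ≤ B) :
    -(ε * (B * √(2 * (bz 2 + 1 + 2)))) ≤ bz 2 * (∫ x, H x * u x ^ 2) - ∫ x, dot u (fun y => H y * u y) x := by
  obtain ⟨⟨Ω, L1, ht, hL0, hL1, hEL⟩, hmass, hen, -, -⟩ := hu
  have hv : IsTest Ω (fun y => H y * u y) := ht.mul_left _ hH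
  have h1 := energy_mul_le u H ht.1 ht.2.1 hH B hB
  rw [hmass, mul_one] at h1
  have hbz : 0 ≤ bz 2 := hL0.trans hL1
  have h2 : energy (fun y => H y * u y) ≤ B ^ 2 * (2 * (bz 2 + 1 + 2)) := by
    refine h1.trans ?_
    have h3 : energy u + ((2 : ℕ) : ℝ) ≤ bz 2 + 1 + 2 := by
      push_cast
      linarith
    calc 2 * B ^ 2 * (energy u + ((2 : ℕ) : ℝ)) ≤ 2 * B ^ 2 * (bz 2 + 1 + 2) :=
          mul_le_mul_of_nonneg_left h3 (by positivity)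
      _ = _ := by ring
  have h3 : √(energy (fun y => H y * u y)) ≤ B * √(2 * (bz 2 + 1 + 2)) := by
    refine (Real.sqrt_le_sqrt h2).trans (le_of_eq ?_)
    rw [Real.sqrt_mul (by positivity), Real.sqrt_sq hB0]
  have h4 := (abs_le.1 (hEL _ hv)).2
  have h5 := mul_le_mul_of_nonneg_left h3 hε
  have h7 : ∫ x, u x * (H x * u x) = ∫ x, H x * u x ^ 2 := by
    refine integral_congr_ae (Filter.Eventually.of_forall fun x => ?_)
    show u x * (H x * u x) = H x * u x ^ 2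
    ring
  have h8 : 0 ≤ ∫ x, H x * u x ^ 2 :=
    integral_nonneg fun x => mul_nonneg (hH0 x) (sq_nonneg _)
  rw [h7] at h4
  have h9 := mul_le_mul_of_nonneg_right hL1 h8
  linarith

end Pool.Agent.H94.GP
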