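import Pool.Agent.H94.GP.LpB
import Pool.Agent.H94.GP.PlA
import Pool.Agent.H94.GP.RmA
import Pool.Agent.H94.GP.CqA
import Pool.Agent.H94.SP.Ode

/-!
# CtA: from the pointwise inequality to the integral inequality

For fixed `(σ; α, p, q)` put `M j x = hM (Cj σ α p q j) (kj j) x`, `H = ∑ X j(s) M j`, `V = ∑ fld (A j) (D j)`,
`q = gam (Wre^2 + Wim^2) - dot Wre Wre - dot Wim Wim - m (‖α‖^2 + ‖p‖^2 + ‖q‖^2) - gc (c2 M 2 + c6 M 6 + c8 M 8) - [(2 - kap gc^2 s) (μ0 ‖α‖^2 + μ1 ‖p‖^2 + μ2 ‖q‖^2) - 2 μ3 kap gc^2 M 12]`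
(`kj 2 = kj 6 = kj 8 = 1`, `kj 12 = 2`). The hypothesis `hpt` is the hypothesis of `cert_q` with `lam = bz 2` (`b : Fin 2 → ℝ`); `H ≥ 0` everywhere follows from it (`a = 0`, `b = (1, 0)`: a.e.,
then by continuity). `cert_q`, `rem_bound` (`B nB` from `Psi_bound`): `-ε B' nB ≤ ∫ u^2 q`, and `∫ u^2 (..) = QQ + QQ - m (..) - 0 - (..)` by `adm_lin` (with `C = c2 Cj 2 + c6 Cj 6 + c8 Cj 8`,
`hM` is linear in `C`) and `adm_mult`. All functions are continuous (`contDiff_nFp`, `hφ`; `gc(‖x‖^2)` continuous). `‖α‖^2 + .. ≤ nB`.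
-/

set_option autoImplicit false

open MeasureTheory Pool.Agent.H94.ER Pool.Agent.H94.SP

namespace Pool.Agent.H94.GP

/-- the function to be bounded from below -/
noncomputable def qfun (φ : ℝ → ℝ) (m c2 c6 c8 μ0 μ1 μ2 μ3 σ : ℝ) (α p q : ℂ) (x : E 2) : ℝ :=
  gam * (Wre nFp φ σ α p q x ^ 2 + Wim nFp φ σ α p q x ^ 2)
    - dot (Wre nFp φ σ α p q) (Wre nFp φ σ α p q) x - dot (Wim nFp φ σ α p q) (Wim nFp φ σ α p q) x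
    - m * (‖α‖ ^ 2 + ‖p‖ ^ 2 + ‖q‖ ^ 2)
    - gc (‖x‖ ^ 2) * (c2 * hM (Cj σ α p q 2) 1 x + c6 * hM (Cj σ α p q 6) 1 x + c8 * hM (Cj σ α p q 8) 1 x)
    - ((2 - kap * (gc (‖x‖ ^ 2) ^ 2 * ‖x‖ ^ 2)) * (μ0 * ‖α‖ ^ 2 + μ1 * ‖p‖ ^ 2 + μ2 * ‖q‖ ^ 2)
        - 2 * μ3 * (kap * (gc (‖x‖ ^ 2) ^ 2 * hM ((starRingEnd ℂ) p * q) 2 x)))

theorem CtA_coord (j : Fin 2) : ContDiff ℝ 1 (fun x : E 2 => x j) :=
  (EuclideanSpace.proj j : E 2 →L[ℝ] ℝ).contDiff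

theorem CtA_rad (F : ℝ → ℝ) (hF : ContDiff ℝ 1 F) : ContDiff ℝ 1 (fun x : E 2 => F (‖x‖ ^ 2)) :=
  hF.comp (contDiff_norm_sq ℝ)

theorem CtA_tf (F : ℝ → ℝ) (hF : ContDiff ℝ 1 F) (j : Fin 2) : ContDiff ℝ 1 (fun x : E 2 => tf F j x) :=
  (CtA_rad F hF).mul (CtA_coord j)

theorem CtA_Wre (F φ : ℝ → ℝ) (hF : ContDiff ℝ 1 F) (hφ : ContDiff ℝ 1 φ) (σ : ℝ) (α p q : ℂ) :
    ContDiff ℝ 1 (Wre F φ σ α p q) := by
  have h0 := CtA_coord 0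
  have h1 := CtA_coord 1
  have h2 : ContDiff ℝ 1 (fun x : E 2 => F (‖x‖ ^ 2) * (x 0 ^ 2 - x 1 ^ 2)) :=
    (CtA_rad F hF).mul ((h0.pow 2).sub (h1.pow 2))
  exact (((contDiff_const.mul h2).add contDiff_const).add (contDiff_const.mul (CtA_tf φ hφ 0))).add
    (contDiff_const.mul (CtA_tf φ hφ 1))

theorem CtA_Wim (F φ : ℝ → ℝ) (hF : ContDiff ℝ 1 F) (hφ : ContDiff ℝ 1 φ) (σ : ℝ) (α p q : ℂ) :
    ContDiff ℝ 1 (Wim F φ σ α p q) := by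
  have h0 := CtA_coord 0
  have h1 := CtA_coord 1
  have h2 : ContDiff ℝ 1 (fun x : E 2 => F (‖x‖ ^ 2) * (2 * x 0 * x 1)) :=
    (CtA_rad F hF).mul ((contDiff_const.mul h0).mul h1)
  exact (((contDiff_const.mul h2).add contDiff_const).add (contDiff_const.mul (CtA_tf φ hφ 0))).add
    (contDiff_const.mul (CtA_tf φ hφ 1))

theorem CtA_gc : Continuous (fun x : E 2 => gc (‖x‖ ^ 2)) := by
  unfold gc
  refine continuous_const.div ?_ fun x => ?_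
  · exact (continuous_const.add ((continuous_norm.pow 2).div_const _)).sqrt
  · have : (0 : ℝ) < 1 + ‖x‖ ^ 2 / 100000000 := by positivity
    exact (Real.sqrt_pos.2 this).ne'

theorem CtA_hM (C : ℂ) (k : ℕ) : Continuous (hM C k) := (contDiff_hM C k 1).continuous

/-- linearity in the coefficient -/
theorem CtA_lin (c2 c6 c8 : ℝ) (C2 C6 C8 : ℂ) (k : ℕ) (x : E 2) :
    c2 * hM C2 k x + c6 * hM C6 k x + c8 * hM C8 k x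
      = hM ((c2 : ℂ) * C2 + (c6 : ℂ) * C6 + (c8 : ℂ) * C8) k x := by
  unfold hM
  rw [add_mul, add_mul, Complex.add_re, Complex.add_re, mul_assoc, mul_assoc, mul_assoc,
    Complex.re_ofReal_mul, Complex.re_ofReal_mul, Complex.re_ofReal_mul]

/-- the term with the multipliers -/
noncomputable def CtA_mult (μ0 μ1 μ2 μ3 : ℝ) (α p q : ℂ) (x : E 2) : ℝ :=
  (2 - kap * (gc (‖x‖ ^ 2) ^ 2 * ‖x‖ ^ 2)) * (μ0 * ‖α‖ ^ 2 + μ1 * ‖p‖ ^ 2 + μ2 * ‖q‖ ^ 2)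
        - 2 * μ3 * (kap * (gc (‖x‖ ^ 2) ^ 2 * hM ((starRingEnd ℂ) p * q) 2 x))

theorem CtA_mult_cont (μ0 μ1 μ2 μ3 : ℝ) (α p q : ℂ) : Continuous (CtA_mult μ0 μ1 μ2 μ3 α p q) := by
  unfold CtA_mult
  have h1 := CtA_gc
  have h2 := CtA_hM ((starRingEnd ℂ) p * q) 2
  have h3 : Continuous (fun x : E 2 => ‖x‖ ^ 2) := continuous_norm.pow 2
  exact ((continuous_const.sub (continuous_const.mul ((h1.pow 2).mul h3))).mul continuous_const).sub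
    (continuous_const.mul (continuous_const.mul ((h1.pow 2).mul h2)))

theorem CtA_qeq (φ : ℝ → ℝ) (m c2 c6 c8 μ0 μ1 μ2 μ3 σ : ℝ) (α p q : ℂ) (x : E 2) :
    qfun φ m c2 c6 c8 μ0 μ1 μ2 μ3 σ α p q x
      = gam * Wre nFp φ σ α p q x ^ 2 + gam * Wim nFp φ σ α p q x ^ 2
    - dot (Wre nFp φ σ α p q) (Wre nFp φ σ α p q) x - dot (Wim nFp φ σ α p q) (Wim nFp φ σ α p q) x
    - m * (‖α‖ ^ 2 + ‖p‖ ^ 2 + ‖q‖ ^ 2)
    - gc (‖x‖ ^ 2) * hM ((c2 : ℂ) * Cj σ α p q 2 + (c6 : ℂ) * Cj σ α p q 6 + (c8 : ℂ) * Cj σ α p q 8) 1 x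
    - CtA_mult μ0 μ1 μ2 μ3 α p q x := by
  unfold qfun CtA_mult
  rw [← CtA_lin]
  ring

theorem CtA_qcont (φ : ℝ → ℝ) (hφ : ContDiff ℝ 1 φ) (m c2 c6 c8 μ0 μ1 μ2 μ3 σ : ℝ) (α p q : ℂ) :
    Continuous (qfun φ m c2 c6 c8 μ0 μ1 μ2 μ3 σ α p q) := by
  have e : qfun φ m c2 c6 c8 μ0 μ1 μ2 μ3 σ α p q = _ := funext fun x =>
    CtA_qeq φ m c2 c6 c8 μ0 μ1 μ2 μ3 σ α p q x
  rw [e]
  have hr := CtA_Wre nFp φ contDiff_nFp hφ σ α p q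
  have hi := CtA_Wim nFp φ contDiff_nFp hφ σ α p q
  exact (((((((continuous_const.mul (hr.continuous.pow 2)).add (continuous_const.mul (hi.continuous.pow 2))).sub
    (continuous_dot _ _ hr hr)).sub (continuous_dot _ _ hi hi)).sub continuous_const).sub
    (CtA_gc.mul (CtA_hM _ 1))).sub (CtA_mult_cont μ0 μ1 μ2 μ3 α p q))

/-- the integral of the function -/
theorem CtA_int (φ : ℝ → ℝ) (hφ : ContDiff ℝ 1 φ) (m c2 c6 c8 μ0 μ1 μ2 μ3 : ℝ) (ε : ℝ) (u : E 2 → ℝ)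
    (hu : Adm ε u) (σ : ℝ) (α p q : ℂ) :
    ∫ x, u x ^ 2 * qfun φ m c2 c6 c8 μ0 μ1 μ2 μ3 σ α p q x
      = QQ u gam (Wre nFp φ σ α p q) + QQ u gam (Wim nFp φ σ α p q)
        - m * (‖α‖ ^ 2 + ‖p‖ ^ 2 + ‖q‖ ^ 2) - ∫ x, u x ^ 2 * CtA_mult μ0 μ1 μ2 μ3 α p q x := by
  obtain ⟨⟨Ω, L1, hT, -, -, -⟩, hm, -, -, -⟩ := id hu
  have hlin := adm_lin ε u hu ((c2 : ℂ) * Cj σ α p q 2 + (c6 : ℂ) * Cj σ α p q 6 + (c8 : ℂ) * Cj σ α p q 8)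
  have hu2 : Continuous (fun x => u x ^ 2) := hT.1.continuous.pow 2
  have hu2c : HasCompactSupport (fun x => u x ^ 2) :=
    hT.2.1.comp_left (g := fun t : ℝ => t ^ 2) (by norm_num)
  have hI : ∀ f : E 2 → ℝ, Continuous f → Integrable (fun x => u x ^ 2 * f x) := fun f hf =>
    (hu2.mul hf).integrable_of_hasCompactSupport hu2c.mul_right
  have hr := CtA_Wre nFp φ contDiff_nFp hφ σ α p q
  have hi := CtA_Wim nFp φ contDiff_nFp hφ σ α p q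
  have i1 := hI (fun x => Wre nFp φ σ α p q x ^ 2) (hr.continuous.pow 2)
  have i2 := hI (fun x => Wim nFp φ σ α p q x ^ 2) (hi.continuous.pow 2)
  have i3 := hI (fun x => dot (Wre nFp φ σ α p q) (Wre nFp φ σ α p q) x) (continuous_dot _ _ hr hr)
  have i4 := hI (fun x => dot (Wim nFp φ σ α p q) (Wim nFp φ σ α p q) x) (continuous_dot _ _ hi hi)
  have i5 : Integrable (fun x => u x ^ 2) := hu2.integrable_of_hasCompactSupport hu2c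
  have i6 := hI (fun x => gc (‖x‖ ^ 2) *
    hM ((c2 : ℂ) * Cj σ α p q 2 + (c6 : ℂ) * Cj σ α p q 6 + (c8 : ℂ) * Cj σ α p q 8) 1 x)
    (CtA_gc.mul (CtA_hM _ 1))
  have i7 := hI (fun x => CtA_mult μ0 μ1 μ2 μ3 α p q x) (CtA_mult_cont μ0 μ1 μ2 μ3 α p q)
  have k1 : Integrable (fun x => gam * (u x ^ 2 * Wre nFp φ σ α p q x ^ 2)) := i1.const_mul gam
  have k2 : Integrable (fun x => gam * (u x ^ 2 * Wim nFp φ σ α p q x ^ 2)) := i2.const_mul gam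
  have k3 : Integrable (fun x => gam * (u x ^ 2 * Wre nFp φ σ α p q x ^ 2)
    + gam * (u x ^ 2 * Wim nFp φ σ α p q x ^ 2)) := k1.add k2
  have k4 : Integrable (fun x => gam * (u x ^ 2 * Wre nFp φ σ α p q x ^ 2)
    + gam * (u x ^ 2 * Wim nFp φ σ α p q x ^ 2)
    - u x ^ 2 * dot (Wre nFp φ σ α p q) (Wre nFp φ σ α p q) x) := k3.sub i3
  have k5 : Integrable (fun x => gam * (u x ^ 2 * Wre nFp φ σ α p q x ^ 2)
    + gam * (u x ^ 2 * Wim nFp φ σ α p q x ^ 2)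
    - u x ^ 2 * dot (Wre nFp φ σ α p q) (Wre nFp φ σ α p q) x
    - u x ^ 2 * dot (Wim nFp φ σ α p q) (Wim nFp φ σ α p q) x) := k4.sub i4
  have k6 : Integrable (fun x => (m * (‖α‖ ^ 2 + ‖p‖ ^ 2 + ‖q‖ ^ 2)) * u x ^ 2) := i5.const_mul _
  have k7 : Integrable (fun x => gam * (u x ^ 2 * Wre nFp φ σ α p q x ^ 2)
    + gam * (u x ^ 2 * Wim nFp φ σ α p q x ^ 2)
    - u x ^ 2 * dot (Wre nFp φ σ α p q) (Wre nFp φ σ α p q) x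
    - u x ^ 2 * dot (Wim nFp φ σ α p q) (Wim nFp φ σ α p q) x
    - (m * (‖α‖ ^ 2 + ‖p‖ ^ 2 + ‖q‖ ^ 2)) * u x ^ 2) := k5.sub k6
  have k8 : Integrable (fun x => gam * (u x ^ 2 * Wre nFp φ σ α p q x ^ 2)
    + gam * (u x ^ 2 * Wim nFp φ σ α p q x ^ 2)
    - u x ^ 2 * dot (Wre nFp φ σ α p q) (Wre nFp φ σ α p q) x
    - u x ^ 2 * dot (Wim nFp φ σ α p q) (Wim nFp φ σ α p q) x
    - (m * (‖α‖ ^ 2 + ‖p‖ ^ 2 + ‖q‖ ^ 2)) * u x ^ 2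
    - u x ^ 2 * (gc (‖x‖ ^ 2) *
    hM ((c2 : ℂ) * Cj σ α p q 2 + (c6 : ℂ) * Cj σ α p q 6 + (c8 : ℂ) * Cj σ α p q 8) 1 x)) := k7.sub i6
  have e : (fun x => u x ^ 2 * qfun φ m c2 c6 c8 μ0 μ1 μ2 μ3 σ α p q x) =
      fun x => gam * (u x ^ 2 * Wre nFp φ σ α p q x ^ 2)
    + gam * (u x ^ 2 * Wim nFp φ σ α p q x ^ 2)
    - u x ^ 2 * dot (Wre nFp φ σ α p q) (Wre nFp φ σ α p q) x
    - u x ^ 2 * dot (Wim nFp φ σ α p q) (Wim nFp φ σ α p q) x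
    - (m * (‖α‖ ^ 2 + ‖p‖ ^ 2 + ‖q‖ ^ 2)) * u x ^ 2
    - u x ^ 2 * (gc (‖x‖ ^ 2) *
    hM ((c2 : ℂ) * Cj σ α p q 2 + (c6 : ℂ) * Cj σ α p q 6 + (c8 : ℂ) * Cj σ α p q 8) 1 x)
    - u x ^ 2 * CtA_mult μ0 μ1 μ2 μ3 α p q x := by
    funext x
    rw [CtA_qeq]
    ring
  rw [e, integral_sub k8 i7, integral_sub k7 i6, integral_sub k5 k6, integral_sub k4 i4, integral_sub k3 i3,
    integral_add k1 k2, integral_const_mul, integral_const_mul, integral_const_mul, hlin]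
  have hm' : ∫ x, u x ^ 2 = 1 := hm
  rw [hm']
  unfold QQ
  ring

theorem CtA_nonneg (H : E 2 → ℝ) (hH : Continuous H) (h : ∀ᵐ x : E 2, 0 ≤ H x) (x : E 2) : 0 ≤ H x := by
  have h1 : Dense {x : E 2 | 0 ≤ H x} := MeasureTheory.Measure.dense_of_ae h
  have h2 : IsClosed {x : E 2 | 0 ≤ H x} := isClosed_le continuous_const hH
  have h3 : {x : E 2 | 0 ≤ H x} = Set.univ := by
    rw [← h2.closure_eq]
    exact h1.closure_eq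
  have : x ∈ {x : E 2 | 0 ≤ H x} := by rw [h3]; exact Set.mem_univ x
  exact this

theorem CtA_fin {a b c d r1 r2 S2 N B s μ0 μ1 μ2 ε nA nP nQ nS : ℝ} (hε : 0 ≤ ε)
    (hμ0 : 0 ≤ μ0) (hμ1 : 0 ≤ μ1) (hμ2 : 0 ≤ μ2) (hnA : 0 ≤ nA) (hnP : 0 ≤ nP) (hnQ : 0 ≤ nQ) (hnS : 0 ≤ nS)
    (hN : N = nS + nA + nP + nQ) (hS2 : S2 = μ0 * nA + μ1 * nP + μ2 * nQ)
    (h1 : -(ε * (B * N * s)) ≤ a) (h2 : a ≤ b + c - d - r1) (h3 : -(2 * ε * S2) ≤ r1) (hr2 : r2 = d) :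
    r2 - ε * ((B * s + 2 * (μ0 + μ1 + μ2)) * N) ≤ b + c := by
  have h4 : S2 ≤ (μ0 + μ1 + μ2) * N := by
    rw [hS2, hN]
    have a1 := mul_nonneg hμ0 hnP
    have a2 := mul_nonneg hμ0 hnQ
    have a3 := mul_nonneg hμ1 hnA
    have a4 := mul_nonneg hμ1 hnQ
    have a5 := mul_nonneg hμ2 hnA
    have a6 := mul_nonneg hμ2 hnP
    have a7 := mul_nonneg hμ0 hnS
    have a8 := mul_nonneg hμ1 hnS
    have a9 := mul_nonneg hμ2 hnS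
    nlinarith
  have h5 : 2 * ε * S2 ≤ 2 * ε * ((μ0 + μ1 + μ2) * N) := mul_le_mul_of_nonneg_left h4 (by linarith)
  have h6 : ε * ((B * s + 2 * (μ0 + μ1 + μ2)) * N) = ε * (B * N * s) + 2 * ε * ((μ0 + μ1 + μ2) * N) := by ring
  rw [h6, hr2]
  linarith

theorem cert_int (φ : ℝ → ℝ) (hφ : ContDiff ℝ 1 φ) (m c2 c6 c8 μ0 μ1 μ2 μ3 : ℝ) (h0 : 0 ≤ μ0)
    (h1 : 0 ≤ μ1) (h2 : 0 ≤ μ2) (h3 : μ3 ^ 2 ≤ μ1 * μ2)
    (X A D : Fin 16 → ℝ → ℝ) (S : ℝ) (hS : 0 < S) (hX : ∀ j, ContDiff ℝ 1 (X j))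
    (hX0 : ∀ j s, S ≤ s → X j s = 0) (hA : ∀ j, LipR (A j)) (hD : ∀ j, LipR (D j))
    (hA0 : ∀ j s, S ≤ s → A j s = 0) (hD0 : ∀ j s, S ≤ s → D j s = 0) :
    ∃ K : ℝ, 0 ≤ K ∧ ∀ (ε : ℝ) (u : E 2 → ℝ), 0 ≤ ε → Adm ε u → ∀ (σ : ℝ) (α p q : ℂ),
      (∀ᵐ x : E 2, ∀ (a : ℝ) (b : Fin 2 → ℝ),
        0 ≤ a ^ 2 * (qfun φ m c2 c6 c8 μ0 μ1 μ2 μ3 σ α p q x
            - bz 2 * (∑ j, X j (‖x‖ ^ 2) * hM (Cj σ α p q j) (kj j) x)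
            - ∑ i, pd i (fun y => (∑ j, fld (A j) (D j) (Cj σ α p q j) (kj j) y : E 2) i) x)
          - 2 * a * (∑ i, b i * ((∑ j, fld (A j) (D j) (Cj σ α p q j) (kj j) x : E 2) i
            - 1 / 2 * pd i (fun y : E 2 => ∑ j, X j (‖y‖ ^ 2) * hM (Cj σ α p q j) (kj j) y) x))
          + (∑ i, b i ^ 2) * (∑ j, X j (‖x‖ ^ 2) * hM (Cj σ α p q j) (kj j) x)) →
      m * (‖α‖ ^ 2 + ‖p‖ ^ 2 + ‖q‖ ^ 2) - ε * (K * nB σ α p q)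
        ≤ QQ u gam (Wre nFp φ σ α p q) + QQ u gam (Wim nFp φ σ α p q) := by
  obtain ⟨B, hB0, hB⟩ := Psi_bound X hX S hX0
  refine ⟨B * √(2 * (bz 2 + 1 + 2)) + 2 * (μ0 + μ1 + μ2), by positivity, ?_⟩
  intro ε u hε hu σ α p q hpt
  have hT : ContDiff ℝ 1 u ∧ HasCompactSupport u := by
    obtain ⟨⟨Ω, L1, hT, -, -, -⟩, -, -, -, -⟩ := id hu
    exact ⟨hT.1, hT.2.1⟩
  have hH := contDiff_Psi X hX σ α p q
  have hH0 : ∀ x : E 2, 0 ≤ ∑ j, X j (‖x‖ ^ 2) * hM (Cj σ α p q j) (kj j) x := by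
    refine CtA_nonneg _ hH.continuous ?_
    filter_upwards [hpt] with x hx
    have h := hx 0 (fun i => if i = 0 then 1 else 0)
    simpa using h
  obtain ⟨K, hK⟩ := sum_fld_lip 16 A D hA hD S hS hA0 hD0 (Cj σ α p q) kj
  have hq := CtA_qcont φ hφ m c2 c6 c8 μ0 μ1 μ2 μ3 σ α p q
  have h4 := cert_q (fun x : E 2 => ∑ j, X j (‖x‖ ^ 2) * hM (Cj σ α p q j) (kj j) x) hH
    (fun x => ∑ j, fld (A j) (D j) (Cj σ α p q j) (kj j) x) K hK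
    (qfun φ m c2 c6 c8 μ0 μ1 μ2 μ3 σ α p q) hq (bz 2) hpt u hT.1 hT.2
  have hnB : 0 ≤ nB σ α p q := by unfold nB; positivity
  have h5 := rem_bound ε hε u hu (fun x : E 2 => ∑ j, X j (‖x‖ ^ 2) * hM (Cj σ α p q j) (kj j) x) hH hH0
    (B * nB σ α p q) (mul_nonneg hB0 hnB) (fun x => hB σ α p q x)
  have h6 := adm_mult ε hε u hu μ0 μ1 μ2 μ3 h0 h1 h2 h3 α p q
  have h7 := CtA_int φ hφ m c2 c6 c8 μ0 μ1 μ2 μ3 ε u hu σ α p q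
  rw [h7] at h4
  exact CtA_fin (nA := ‖α‖ ^ 2) (nP := ‖p‖ ^ 2) (nQ := ‖q‖ ^ 2) (nS := σ ^ 2) hε h0 h1 h2
    (by positivity) (by positivity) (by positivity) (by positivity) rfl rfl h5 h4 h6 rfl

end Pool.Agent.H94.GP
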