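import Pool.Agent.H94.GP.ZiB

/-! # Kc2b: kernel checks, region II, inside, intervals 4 to 7 -/

set_option autoImplicit false
set_option maxRecDepth 100000

namespace Pool.Agent.H94.GP

theorem kc2_4 : (zic1 tQ tE2 dX2 dA2 dZ2 dK2 8 4 1 16 && zic2 tQ tE2 dX2 dA2 dZ2 dK2 8 4 1 16) = true := by
  decide +kernel

theorem kc2_5 : (zic1 tQ tE2 dX2 dA2 dZ2 dK2 8 5 1 16 && zic2 tQ tE2 dX2 dA2 dZ2 dK2 8 5 1 16) = true := by
  decide +kernel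

theorem kc2_6 : (zic1 tQ tE2 dX2 dA2 dZ2 dK2 8 6 1 16 && zic2 tQ tE2 dX2 dA2 dZ2 dK2 8 6 1 16) = true := by
  decide +kernel

theorem kc2_7 : (zic1 tQ tE2 dX2 dA2 dZ2 dK2 8 7 1 16 && zic2 tQ tE2 dX2 dA2 dZ2 dK2 8 7 1 16) = true := by
  decide +kernel

end Pool.Agent.H94.GP
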