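import Pool.Agent.H94.GP.ZiB

/-! # Kc3d: kernel checks, region III, inside, intervals 12 to 15 -/

set_option autoImplicit false
set_option maxRecDepth 100000

namespace Pool.Agent.H94.GP

theorem kc3_12 : (zic1 tQ tE3 dX3 dA3 dZ3 dK3 8 12 1 16 && zic2 tQ tE3 dX3 dA3 dZ3 dK3 8 12 1 16) = true := by
  decide +kernel

theorem kc3_13 : (zic1 tQ tE3 dX3 dA3 dZ3 dK3 8 13 1 16 && zic2 tQ tE3 dX3 dA3 dZ3 dK3 8 13 1 16) = true := by
  decide +kernel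

theorem kc3_14 : (zic1 tQ tE3 dX3 dA3 dZ3 dK3 8 14 1 16 && zic2 tQ tE3 dX3 dA3 dZ3 dK3 8 14 1 16) = true := by
  decide +kernel

theorem kc3_15 : (zic1 tQ tE3 dX3 dA3 dZ3 dK3 8 15 1 16 && zic2 tQ tE3 dX3 dA3 dZ3 dK3 8 15 1 16) = true := by
  decide +kernel

end Pool.Agent.H94.GP
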