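import Pool.Agent.H94.GP.Dto

/-! # Ko2a: kernel checks, region II, outside, intervals 0 to 3 -/

set_option autoImplicit false
set_option maxRecDepth 100000

namespace Pool.Agent.H94.GP

theorem ko2_0 : zo2 0 = true := by
  decide +kernel

theorem ko2_1 : zo2 1 = true := by
  decide +kernel

theorem ko2_2 : zo2 2 = true := by
  decide +kernel

theorem ko2_3 : zo2 3 = true := by
  decide +kernel

end Pool.Agent.H94.GP
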