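import Pool.Agent.H94.GP.Dto

/-! # Ko2b: kernel checks, region II, outside, intervals 4 to 7 -/

set_option autoImplicit false
set_option maxRecDepth 100000

namespace Pool.Agent.H94.GP

theorem ko2_4 : zo2 4 = true := by
  decide +kernel

theorem ko2_5 : zo2 5 = true := by
  decide +kernel

theorem ko2_6 : zo2 6 = true := by
  decide +kernel

theorem ko2_7 : zo2 7 = true := by
  decide +kernel

end Pool.Agent.H94.GP
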