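import Pool.Agent.H94.GP.Dto

/-! # Ko2c: kernel checks, region II, outside, intervals 8 to 11 -/

set_option autoImplicit false
set_option maxRecDepth 100000

namespace Pool.Agent.H94.GP

theorem ko2_8 : zo2 8 = true := by
  decide +kernel

theorem ko2_9 : zo2 9 = true := by
  decide +kernel

theorem ko2_10 : zo2 10 = true := by
  decide +kernel

theorem ko2_11 : zo2 11 = true := by
  decide +kernel

end Pool.Agent.H94.GP
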