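import Pool.Agent.H94.GP.Dto

/-! # Ko2d: kernel checks, region II, outside, intervals 12 to 15 -/

set_option autoImplicit false
set_option maxRecDepth 100000

namespace Pool.Agent.H94.GP

theorem ko2_12 : zo2 12 = true := by
  decide +kernel

theorem ko2_13 : zo2 13 = true := by
  decide +kernel

theorem ko2_14 : zo2 14 = true := by
  decide +kernel

theorem ko2_15 : zo2 15 = true := by
  decide +kernel

end Pool.Agent.H94.GP
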