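import Pool.Agent.H94.GP.Dto

/-! # Ko3a: kernel checks, region III, outside, intervals 0 to 3 -/

set_option autoImplicit false
set_option maxRecDepth 100000

namespace Pool.Agent.H94.GP

theorem ko3_0 : zo3 0 = true := by
  decide +kernel

theorem ko3_1 : zo3 1 = true := by
  decide +kernel

theorem ko3_2 : zo3 2 = true := by
  decide +kernel

theorem ko3_3 : zo3 3 = true := by
  decide +kernel

end Pool.Agent.H94.GP
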