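import Pool.Agent.H94.GP.Dto

/-! # Ko3b: kernel checks, region III, outside, intervals 4 to 7 -/

set_option autoImplicit false
set_option maxRecDepth 100000

namespace Pool.Agent.H94.GP

theorem ko3_4 : zo3 4 = true := by
  decide +kernel

theorem ko3_5 : zo3 5 = true := by
  decide +kernel

theorem ko3_6 : zo3 6 = true := by
  decide +kernel

theorem ko3_7 : zo3 7 = true := by
  decide +kernel

end Pool.Agent.H94.GP
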