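import Pool.Agent.H94.GP.Dto

/-! # Ko3d: kernel checks, region III, outside, intervals 12 to 15 -/

set_option autoImplicit false
set_option maxRecDepth 100000

namespace Pool.Agent.H94.GP

theorem ko3_12 : zo3 12 = true := by
  decide +kernel

theorem ko3_13 : zo3 13 = true := by
  decide +kernel

theorem ko3_14 : zo3 14 = true := by
  decide +kernel

theorem ko3_15 : zo3 15 = true := by
  decide +kernel

end Pool.Agent.H94.GP
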