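import Pool.Agent.H94.GP.DefG

/-!
# AsA: elementary facts on the form `QQ`

* `QQ_const`: `∫ u^2 = mass u = 1`, `pd i (c + w) = pd i w`, expand the square: `QQ u κ (c0 + w) = κ (c0^2 + 2 c0 m) + QQ u κ w`, `m = mn u w`,
  the same with `c0 = -m`. Integrability: continuous times compactly supported (`SP/PpB.lean` `PpB_integrable`, `SP/Blk.lean`).
* `QQ_smul`: `pd_const_mul`.
* `pick`: if `R1 c d s < 0` for some `(c, d, s)`: if `s = 0`, the hypothesis with `c' = d' = 0` and `R2 0 0 0 = 0` (homogeneity with `t = 0`) is a contradiction.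
  If `s ≠ 0`: for every `c' d' s'` : if `s' = 0` use `R1 0 0 0 = 0`; else scale `(c', d', s')` by `s/s'`: `0 ≤ R1 c d s + R2 (c' s/s') (d' s/s') s`, so
  `R2 (..) > 0` and `R2 c' d' s' = (s'/s)^2 R2 (..) ≥ 0`.
-/

set_option autoImplicit false

open MeasureTheory Pool.Agent.H94.ER Pool.Agent.H94.SP

namespace Pool.Agent.H94.GP

theorem AsA_int (u g : E 2 → ℝ) (hu : Continuous u) (hc : HasCompactSupport u) (hg : Continuous g) :
    Integrable (fun x => u x ^ 2 * g x) := by
  refine Continuous.integrable_of_hasCompactSupport ((hu.pow 2).mul hg) ?_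
  refine HasCompactSupport.mul_right ?_
  have h : (fun x => u x ^ 2) = fun x => u x * u x := by
    funext x; ring
  rw [h]
  exact hc.mul_right

theorem AsA_one (u : E 2 → ℝ) (hu : Continuous u) (hc : HasCompactSupport u) :
    Integrable (fun x => u x ^ 2) := by
  have h := AsA_int u (fun _ => 1) hu hc continuous_const
  simpa using h

theorem AsA_sq (u : E 2 → ℝ) (hu : ContDiff ℝ 1 u) (hc : HasCompactSupport u) (hm : mass u = 1)
    (c : ℝ) (w : E 2 → ℝ) (hw : Continuous w) :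
    ∫ x, u x ^ 2 * (w x + c) ^ 2 = (∫ x, u x ^ 2 * w x ^ 2) + 2 * c * mn u w + c ^ 2 := by
  have i1 := AsA_int u (fun x => w x ^ 2) hu.continuous hc (hw.pow 2)
  have i2 := AsA_int u w hu.continuous hc hw
  have i3 := AsA_one u hu.continuous hc
  have e1 : (fun x => u x ^ 2 * (w x + c) ^ 2) =
      fun x => (u x ^ 2 * w x ^ 2 + 2 * c * (u x ^ 2 * w x)) + c ^ 2 * u x ^ 2 := by
    funext x
    ring
  have i2' : Integrable (fun x => 2 * c * (u x ^ 2 * w x)) := i2.const_mul _
  have i3' : Integrable (fun x => c ^ 2 * u x ^ 2) := i3.const_mul _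
  have i12 : Integrable (fun x => u x ^ 2 * w x ^ 2 + 2 * c * (u x ^ 2 * w x)) := i1.add i2'
  rw [e1, integral_add i12 i3', integral_add i1 i2', integral_const_mul, integral_const_mul]
  unfold mass at hm
  rw [hm]
  unfold mn
  ring

theorem AsA_dot (c : ℝ) (w : E 2 → ℝ) (x : E 2) :
    dot (fun x => w x + c) (fun x => w x + c) x = dot w w x := by
  have h : ∀ i, pd i (fun x => w x + c) x = pd i w x := by
    intro i
    unfold pd
    rw [fderiv_add_const]
  unfold dot
  simp only [h]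

theorem QQ_const (u : E 2 → ℝ) (hu : ContDiff ℝ 1 u) (hc : HasCompactSupport u) (hm : mass u = 1)
    (κ c0 : ℝ) (w : E 2 → ℝ) (hw : ContDiff ℝ 1 w) :
    QQ u κ (fun x => c0 + w x) = κ * (c0 + mn u w) ^ 2 + QQ u κ (fun x => w x - mn u w) := by
  have e1 : (fun x => c0 + w x) = fun x => w x + c0 := by
    funext x
    ring
  have e2 : (fun x => w x - mn u w) = fun x => w x + -mn u w := by
    funext x
    ring
  rw [e1, e2]
  unfold QQ
  simp only [AsA_dot]
  rw [AsA_sq u hu hc hm c0 w hw.continuous, AsA_sq u hu hc hm (-mn u w) w hw.continuous]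
  ring

theorem QQ_smul (u : E 2 → ℝ) (κ t : ℝ) (w : E 2 → ℝ) :
    QQ u κ (fun x => t * w x) = t ^ 2 * QQ u κ w := by
  unfold QQ
  have e1 : ∀ x, u x ^ 2 * (t * w x) ^ 2 = t ^ 2 * (u x ^ 2 * w x ^ 2) := fun x => by ring
  have e2 : ∀ x, u x ^ 2 * dot (fun x => t * w x) (fun x => t * w x) x = t ^ 2 * (u x ^ 2 * dot w w x) := by
    intro x
    unfold dot
    simp only [pd_const_mul]
    rw [Finset.mul_sum, Finset.mul_sum, Finset.mul_sum]
    refine Finset.sum_congr rfl fun i _ => ?_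
    ring
  simp only [e1, e2]
  rw [integral_const_mul, integral_const_mul]
  ring

theorem mn_add (u : E 2 → ℝ) (hu : ContDiff ℝ 1 u) (hc : HasCompactSupport u)
    (w v : E 2 → ℝ) (hw : Continuous w) (hv : Continuous v) :
    mn u (fun x => w x + v x) = mn u w + mn u v := by
  unfold mn
  rw [← integral_add (AsA_int u w hu.continuous hc hw) (AsA_int u v hu.continuous hc hv)]
  refine integral_congr_ae (Filter.Eventually.of_forall fun x => ?_)
  show u x ^ 2 * (w x + v x) = u x ^ 2 * w x + u x ^ 2 * v x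
  ring

theorem mn_smul (u : E 2 → ℝ) (t : ℝ) (w : E 2 → ℝ) : mn u (fun x => t * w x) = t * mn u w := by
  unfold mn
  rw [← integral_const_mul]
  refine integral_congr_ae (Filter.Eventually.of_forall fun x => ?_)
  show u x ^ 2 * (t * w x) = t * (u x ^ 2 * w x)
  ring

theorem mn_abs (u : E 2 → ℝ) (hu : ContDiff ℝ 1 u) (hc : HasCompactSupport u) (hm : mass u = 1)
    (w : E 2 → ℝ) (hw : Continuous w) (M : ℝ) (hM : ∀ x, |w x| ≤ M) : |mn u w| ≤ M := by
  have i1 := AsA_one u hu.continuous hc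
  have h1 : ‖∫ x, u x ^ 2 * w x‖ ≤ ∫ x, M * u x ^ 2 := by
    refine norm_integral_le_of_norm_le (i1.const_mul M) (Filter.Eventually.of_forall fun x => ?_)
    rw [Real.norm_eq_abs, abs_mul, abs_of_nonneg (sq_nonneg (u x)), mul_comm]
    exact mul_le_mul_of_nonneg_right (hM x) (sq_nonneg _)
  rw [integral_const_mul] at h1
  unfold mass at hm
  rw [hm, mul_one, Real.norm_eq_abs] at h1
  exact h1

theorem pick (R1 R2 : ℝ → ℝ → ℝ → ℝ)
    (h1 : ∀ t c d s, R1 (t * c) (t * d) (t * s) = t ^ 2 * R1 c d s)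
    (h2 : ∀ t c d s, R2 (t * c) (t * d) (t * s) = t ^ 2 * R2 c d s)
    (h : ∀ c d c' d' s, 0 ≤ R1 c d s + R2 c' d' s) :
    (∀ c d s, 0 ≤ R1 c d s) ∨ (∀ c d s, 0 ≤ R2 c d s) := by
  by_contra hcon
  push Not at hcon
  obtain ⟨⟨c, d, s, hr1⟩, ⟨c', d', s', hr2⟩⟩ := hcon
  have z1 : R1 0 0 0 = 0 := by
    have := h1 0 0 0 0
    simpa using this
  have z2 : R2 0 0 0 = 0 := by
    have := h2 0 0 0 0
    simpa using this
  by_cases hs : s = 0
  · subst hs
    have := h c d 0 0 0
    linarith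
  by_cases hs' : s' = 0
  · subst hs'
    have := h 0 0 c' d' 0
    linarith
  have h3 := h c d (s / s' * c') (s / s' * d') s
  have h4 := h2 (s / s') c' d' s'
  rw [div_mul_cancel₀ s hs'] at h4
  rw [h4] at h3
  have h5 : 0 < (s / s') ^ 2 := by positivity
  have h6 := mul_neg_of_pos_of_neg h5 hr2
  linarith

end Pool.Agent.H94.GP
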