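import Pool.Agent.H94.GP.AsA
import Pool.Agent.H94.SP.EvB
import Pool.Agent.H94.SP.NG

/-!
# AsB: one of the two four-dimensional spaces works

`κ = gam + δ`. For real `c, d, σ` put `w = σ g + c tf φ 0 + d tf φ 1` (`g = Ga` or `Gb`), `R_g c d σ = QQ u κ (w - mn u w) - β/2 (σ^2 + c^2 + d^2)`, `β = (min (δ k) m)/4`.
1. Let `c, d` (for `Ga`) and `c', d'` (for `Gb`) and `σ` be given; `p = ((c + d')/2, (c' - d)/2)`, `q = ((c - d')/2, (c' + d)/2)` (real and imaginary part),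
   `α = (- mn u w, - mn u w')`. Then `Wre nFp φ σ α p q = w - mn u w`, `Wim nFp φ σ α p q = w' - mn u w'` (definitions; `Ga`, `Gb`).
2. `QQ u κ w = QQ u gam w + δ ∫ u^2 w^2`. By `hcert` the sum of the two centred forms is
   `≥ (m - θ)(‖α‖^2 + ‖p‖^2 + ‖q‖^2) - θ σ^2 + δ ∫ u^2 (Wre^2 + Wim^2)`. Pointwise `Wre^2 + Wim^2 ≥ σ^2 (Ga^2 + Gb^2)/2 - (X^2 + Y^2)`, `X = Wre - σ Ga = α.re + (p.re + q.re) tf φ 0 + (q.im - p.im) tf φ 1`, ..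
   (`(a + b)^2 ≥ a^2/2 - b^2`), `X^2 + Y^2 ≤ 3 (‖α‖^2 + 2 b^2 (‖p‖^2 + ‖q‖^2)) ≤ 6 (1 + b^2) (‖α‖^2 + ‖p‖^2 + ‖q‖^2)`
   (`(p.re + q.re)^2 + (p.im + q.im)^2 ≤ 2 (‖p‖^2 + ‖q‖^2)`, the same for the other pair). With `hk`, `hδ2`, `hθ1`, `hθ2`:
   sum `≥ (δ k/2 - θ) σ^2 + (m - θ - 6 δ (1 + b^2)) (..) ≥ (δ k/4) σ^2 + (m/4)(‖α‖^2 + ‖p‖^2 + ‖q‖^2) ≥ β (σ^2 + ‖p‖^2 + ‖q‖^2)`, and
   `‖p‖^2 + ‖q‖^2 = (c^2 + d^2 + c'^2 + d'^2)/2`. So `R_Ga c d σ + R_Gb c' d' σ ≥ 0`. (`β (σ^2 + S/2) = β/2 (2 σ^2 + S)`.)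
3. `pick` (homogeneity: `QQ_smul`, `mn_smul`). For the chosen `g`: `QQ_const`: with `X = c0 + mn u w`,
   `QQ u κ (c0 + w) ≥ κ X^2 + β/2 (c1^2 + c2^2 + c3^2)`; `|mn u w| ≤ |c1| + b (|c2| + |c3|)` (`mn_abs`, `|g| ≤ 1`: from `nFp_abs` as in `SP/EvA.lean` `tg_abs`), so
   `c0^2 ≤ 2 X^2 + 6 (1 + b^2) S`, `S = c1^2 + c2^2 + c3^2`, and `η ≤ gam/2`, `η (7 + 6 b^2) ≤ β/2`.
-/

set_option autoImplicit false

open MeasureTheory Pool.Agent.H94.ER Pool.Agent.H94.SP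

namespace Pool.Agent.H94.GP

theorem AsB_Ga : ContDiff ℝ 1 Ga := by
  have h1 : ContDiff ℝ 1 (fun y : E 2 => nFp (‖y‖ ^ 2)) := contDiff_nFp.comp (contDiff_norm_sq ℝ)
  have h2 : ContDiff ℝ 1 (fun y : E 2 => y 0 ^ 2 - y 1 ^ 2) :=
    ((trd_coord_contDiff 0).pow 2).sub ((trd_coord_contDiff 1).pow 2)
  exact h1.mul h2

theorem AsB_Gb : ContDiff ℝ 1 Gb := by
  have h1 : ContDiff ℝ 1 (fun y : E 2 => nFp (‖y‖ ^ 2)) := contDiff_nFp.comp (contDiff_norm_sq ℝ)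
  have h2 : ContDiff ℝ 1 (fun y : E 2 => 2 * y 0 * y 1) :=
    (contDiff_const.mul (trd_coord_contDiff 0)).mul (trd_coord_contDiff 1)
  exact h1.mul h2

theorem AsB_Ga_abs (x : E 2) : |Ga x| ≤ 1 := by
  have h1 := nFp_abs (‖x‖ ^ 2) (sq_nonneg _)
  have h2 : |x 0 ^ 2 - x 1 ^ 2| ≤ ‖x‖ ^ 2 := by
    rw [EvA_nsq, abs_le]
    constructor <;> nlinarith [sq_nonneg (x 0), sq_nonneg (x 1)]
  unfold Ga
  rw [abs_mul]
  exact (mul_le_mul_of_nonneg_left h2 (abs_nonneg _)).trans h1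

theorem AsB_Gb_abs (x : E 2) : |Gb x| ≤ 1 := by
  have h1 := nFp_abs (‖x‖ ^ 2) (sq_nonneg _)
  have h2 : |2 * x 0 * x 1| ≤ ‖x‖ ^ 2 := by
    rw [EvA_nsq, abs_le]
    constructor <;> nlinarith [sq_nonneg (x 0 + x 1), sq_nonneg (x 0 - x 1)]
  unfold Gb
  rw [abs_mul]
  exact (mul_le_mul_of_nonneg_left h2 (abs_nonneg _)).trans h1

/-- the trial function without constant -/
noncomputable def AsB_w (φ : ℝ → ℝ) (g : E 2 → ℝ) (c d s : ℝ) (x : E 2) : ℝ :=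
  s * g x + c * tf φ 0 x + d * tf φ 1 x

theorem AsB_w_cd (φ : ℝ → ℝ) (hφ : ContDiff ℝ 1 φ) (g : E 2 → ℝ) (hg : ContDiff ℝ 1 g)
    (c d s : ℝ) : ContDiff ℝ 1 (AsB_w φ g c d s) :=
  ((contDiff_const.mul hg).add (contDiff_const.mul (contDiff_tf φ hφ 0))).add
    (contDiff_const.mul (contDiff_tf φ hφ 1))

theorem AsB_w_smul (φ : ℝ → ℝ) (g : E 2 → ℝ) (t c d s : ℝ) :
    AsB_w φ g (t * c) (t * d) (t * s) = fun x => t * AsB_w φ g c d s x := by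
  funext x
  unfold AsB_w
  ring

/-- the form -/
noncomputable def AsB_R (φ : ℝ → ℝ) (u : E 2 → ℝ) (κ β : ℝ) (g : E 2 → ℝ) (c d s : ℝ) : ℝ :=
  QQ u κ (fun x => AsB_w φ g c d s x - mn u (AsB_w φ g c d s)) - β / 2 * (s ^ 2 + c ^ 2 + d ^ 2)

theorem AsB_R_smul (φ : ℝ → ℝ) (u : E 2 → ℝ) (κ β : ℝ) (g : E 2 → ℝ) (t c d s : ℝ) :
    AsB_R φ u κ β g (t * c) (t * d) (t * s) = t ^ 2 * AsB_R φ u κ β g c d s := by
  unfold AsB_R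
  rw [AsB_w_smul, mn_smul]
  have h1 : (fun x => t * AsB_w φ g c d s x - t * mn u (AsB_w φ g c d s)) =
      fun x => t * (AsB_w φ g c d s x - mn u (AsB_w φ g c d s)) := by
    funext x
    ring
  rw [h1, QQ_smul u κ t (fun x => AsB_w φ g c d s x - mn u (AsB_w φ g c d s))]
  ring

theorem AsB_QQ (u : E 2 → ℝ) (δ : ℝ) (w : E 2 → ℝ) :
    QQ u (gam + δ) w = QQ u gam w + δ * ∫ x, u x ^ 2 * w x ^ 2 := by
  unfold QQ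
  ring

theorem AsB_pt {b G G' T0 T1 a a' c d c' d' s : ℝ} (hb0 : 0 ≤ b) (h0 : |T0| ≤ b) (h1 : |T1| ≤ b) :
    s ^ 2 / 2 * (G ^ 2 + G' ^ 2) - 6 * (1 + b ^ 2) *
      ((a ^ 2 + a' ^ 2) + (c ^ 2 + d ^ 2 + c' ^ 2 + d' ^ 2) / 2) ≤
      (s * G + a + c * T0 + d * T1) ^ 2 + (s * G' + a' + c' * T0 + d' * T1) ^ 2 := by
  have h2 : T0 ^ 2 ≤ b ^ 2 := by rw [← sq_abs T0]; exact pow_le_pow_left₀ (abs_nonneg _) h0 2
  have h3 : T1 ^ 2 ≤ b ^ 2 := by rw [← sq_abs T1]; exact pow_le_pow_left₀ (abs_nonneg _) h1 2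
  have k1 : ∀ A X : ℝ, A ^ 2 / 2 - X ^ 2 ≤ (A + X) ^ 2 := fun A X => by
    nlinarith [sq_nonneg (A / 2 + X), sq_nonneg (A + 2 * X)]
  have k2 : ∀ e f g : ℝ, (e + f * T0 + g * T1) ^ 2 ≤ 3 * (e ^ 2 + f ^ 2 * b ^ 2 + g ^ 2 * b ^ 2) := by
    intro e f g
    have e1 : (e + f * T0 + g * T1) ^ 2 ≤ 3 * (e ^ 2 + (f * T0) ^ 2 + (g * T1) ^ 2) := by
      nlinarith [sq_nonneg (e - f * T0), sq_nonneg (e - g * T1), sq_nonneg (f * T0 - g * T1)]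
    have e2 : f ^ 2 * T0 ^ 2 ≤ f ^ 2 * b ^ 2 := mul_le_mul_of_nonneg_left h2 (sq_nonneg f)
    have e3 : g ^ 2 * T1 ^ 2 ≤ g ^ 2 * b ^ 2 := mul_le_mul_of_nonneg_left h3 (sq_nonneg g)
    rw [mul_pow, mul_pow] at e1
    linarith
  have e1 := k1 (s * G) (a + c * T0 + d * T1)
  have e2 := k1 (s * G') (a' + c' * T0 + d' * T1)
  have e3 := k2 a c d
  have e4 := k2 a' c' d'
  have e5 : 0 ≤ (a ^ 2 + a' ^ 2) * b ^ 2 := by positivity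
  have e6 : 0 ≤ c ^ 2 + d ^ 2 + c' ^ 2 + d' ^ 2 := by positivity
  nlinarith [sq_nonneg a, sq_nonneg a']

theorem AsB_sum (φ : ℝ → ℝ) (hφ : ContDiff ℝ 1 φ) (b : ℝ) (hb0 : 0 ≤ b)
    (hb : ∀ (j : Fin 2) (x : E 2), |tf φ j x| ≤ b) (m k δ θ : ℝ)
    (hδ : 0 < δ) (hδ2 : 12 * δ * (1 + b ^ 2) ≤ m)
    (hθ1 : θ ≤ δ * k / 4) (hθ2 : θ ≤ m / 4)
    (u : E 2 → ℝ) (hu : ContDiff ℝ 1 u) (hc : HasCompactSupport u) (hmass : mass u = 1)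
    (hk : k ≤ ∫ x, u x ^ 2 * (Ga x ^ 2 + Gb x ^ 2))
    (hcert : ∀ (σ : ℝ) (α p q : ℂ),
      m * (‖α‖ ^ 2 + ‖p‖ ^ 2 + ‖q‖ ^ 2) - θ * (σ ^ 2 + ‖α‖ ^ 2 + ‖p‖ ^ 2 + ‖q‖ ^ 2)
        ≤ QQ u gam (Wre nFp φ σ α p q) + QQ u gam (Wim nFp φ σ α p q))
    (c d c' d' s : ℝ) :
    0 ≤ AsB_R φ u (gam + δ) (min (δ * k) m / 4) Ga c d s +
      AsB_R φ u (gam + δ) (min (δ * k) m / 4) Gb c' d' s := by
  obtain ⟨a, ha⟩ : ∃ a, a = -mn u (AsB_w φ Ga c d s) := ⟨_, rfl⟩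
  obtain ⟨a', ha'⟩ : ∃ a, a = -mn u (AsB_w φ Gb c' d' s) := ⟨_, rfl⟩
  have hre : Wre nFp φ s ⟨a, a'⟩ ⟨(c + d') / 2, (c' - d) / 2⟩ ⟨(c - d') / 2, (c' + d) / 2⟩ =
      fun x => AsB_w φ Ga c d s x - mn u (AsB_w φ Ga c d s) := by
    funext x
    have e : mn u (AsB_w φ Ga c d s) = -a := by rw [ha, neg_neg]
    rw [e]
    unfold Wre AsB_w Ga
    ring
  have him : Wim nFp φ s ⟨a, a'⟩ ⟨(c + d') / 2, (c' - d) / 2⟩ ⟨(c - d') / 2, (c' + d) / 2⟩ =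
      fun x => AsB_w φ Gb c' d' s x - mn u (AsB_w φ Gb c' d' s) := by
    funext x
    have e : mn u (AsB_w φ Gb c' d' s) = -a' := by rw [ha', neg_neg]
    rw [e]
    unfold Wim AsB_w Gb
    ring
  have hC := hcert s ⟨a, a'⟩ ⟨(c + d') / 2, (c' - d) / 2⟩ ⟨(c - d') / 2, (c' + d) / 2⟩
  rw [hre, him, Complex.sq_norm, Complex.sq_norm, Complex.sq_norm, Complex.normSq_mk,
    Complex.normSq_mk, Complex.normSq_mk] at hC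
  obtain ⟨W, hW⟩ : ∃ W : E 2 → ℝ, W = fun x => AsB_w φ Ga c d s x - mn u (AsB_w φ Ga c d s) :=
    ⟨_, rfl⟩
  obtain ⟨W', hW'⟩ : ∃ W : E 2 → ℝ, W = fun x => AsB_w φ Gb c' d' s x - mn u (AsB_w φ Gb c' d' s) :=
    ⟨_, rfl⟩
  have hWc : Continuous W := by
    rw [hW]
    exact (AsB_w_cd φ hφ Ga AsB_Ga c d s).continuous.sub continuous_const
  have hWc' : Continuous W' := by
    rw [hW']
    exact (AsB_w_cd φ hφ Gb AsB_Gb c' d' s).continuous.sub continuous_const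
  have hGa : Continuous Ga := AsB_Ga.continuous
  have hGb : Continuous Gb := AsB_Gb.continuous
  -- the integral
  have hI : s ^ 2 / 2 * k - 6 * (1 + b ^ 2) *
      ((a ^ 2 + a' ^ 2) + (c ^ 2 + d ^ 2 + c' ^ 2 + d' ^ 2) / 2) ≤
      (∫ x, u x ^ 2 * W x ^ 2) + ∫ x, u x ^ 2 * W' x ^ 2 := by
    obtain ⟨K, hK⟩ : ∃ K, K = 6 * (1 + b ^ 2) *
      ((a ^ 2 + a' ^ 2) + (c ^ 2 + d ^ 2 + c' ^ 2 + d' ^ 2) / 2) := ⟨_, rfl⟩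
    rw [← hK]
    have i1 : Integrable fun x => u x ^ 2 * W x ^ 2 := TrE_integrable u hu hc _ (hWc.pow 2)
    have i2 : Integrable fun x => u x ^ 2 * W' x ^ 2 := TrE_integrable u hu hc _ (hWc'.pow 2)
    have i3 : Integrable fun x => u x ^ 2 * (Ga x ^ 2 + Gb x ^ 2) :=
      TrE_integrable u hu hc _ ((hGa.pow 2).add (hGb.pow 2))
    have i4 : Integrable fun x => u x ^ 2 * (1 : ℝ) := TrE_integrable u hu hc _ continuous_const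
    have hm1 : ∫ x, u x ^ 2 * (1 : ℝ) = 1 := by
      simp only [mul_one]
      exact hmass
    rw [← integral_add i1 i2]
    have h1 : ∫ x, (s ^ 2 / 2 * (u x ^ 2 * (Ga x ^ 2 + Gb x ^ 2)) - K * (u x ^ 2 * 1)) ≤
        ∫ x, (u x ^ 2 * W x ^ 2 + u x ^ 2 * W' x ^ 2) := by
      refine integral_mono ((i3.const_mul _).sub (i4.const_mul _)) (i1.add i2) fun x => ?_
      have h2 := AsB_pt (G := Ga x) (G' := Gb x) (a := a) (a' := a') (c := c) (d := d) (c' := c')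
        (d' := d') (s := s) hb0 (hb 0 x) (hb 1 x)
      rw [← hK] at h2
      have e1 : W x = s * Ga x + a + c * tf φ 0 x + d * tf φ 1 x := by
        rw [hW, ha]
        simp only [AsB_w]
        ring
      have e2 : W' x = s * Gb x + a' + c' * tf φ 0 x + d' * tf φ 1 x := by
        rw [hW', ha']
        simp only [AsB_w]
        ring
      rw [← e1, ← e2] at h2
      have h3 := mul_le_mul_of_nonneg_left h2 (sq_nonneg (u x))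
      show s ^ 2 / 2 * (u x ^ 2 * (Ga x ^ 2 + Gb x ^ 2)) - K * (u x ^ 2 * 1) ≤
        u x ^ 2 * W x ^ 2 + u x ^ 2 * W' x ^ 2
      linarith
    rw [integral_sub (i3.const_mul _) (i4.const_mul _), integral_const_mul, integral_const_mul,
      hm1] at h1
    have h4 : s ^ 2 / 2 * k ≤ s ^ 2 / 2 * ∫ x, u x ^ 2 * (Ga x ^ 2 + Gb x ^ 2) :=
      mul_le_mul_of_nonneg_left hk (by positivity)
    linarith
  unfold AsB_R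
  rw [← hW, ← hW', AsB_QQ, AsB_QQ]
  rw [← hW, ← hW'] at hC
  have hδI := mul_le_mul_of_nonneg_left hI hδ.le
  obtain ⟨β, hβ⟩ : ∃ β, β = min (δ * k) m / 4 := ⟨_, rfl⟩
  have hβ1 : 4 * β ≤ δ * k := by
    have := min_le_left (δ * k) m
    linarith
  have hβ2 : 4 * β ≤ m := by
    have := min_le_right (δ * k) m
    linarith
  rw [← hβ]
  have hA : 0 ≤ a ^ 2 + a' ^ 2 := by positivity
  have hS : 0 ≤ (c ^ 2 + d ^ 2 + c' ^ 2 + d' ^ 2) / 2 := by positivity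
  obtain ⟨A, hAd⟩ : ∃ A, A = a ^ 2 + a' ^ 2 := ⟨_, rfl⟩
  obtain ⟨S, hSd⟩ : ∃ S, S = (c ^ 2 + d ^ 2 + c' ^ 2 + d' ^ 2) / 2 := ⟨_, rfl⟩
  have e1 : a * a + a' * a' + ((c + d') / 2 * ((c + d') / 2) + (c' - d) / 2 * ((c' - d) / 2)) +
      ((c - d') / 2 * ((c - d') / 2) + (c' + d) / 2 * ((c' + d) / 2)) = A + S := by
    rw [hAd, hSd]
    ring
  have e2 : s ^ 2 + (a * a + a' * a') +
      ((c + d') / 2 * ((c + d') / 2) + (c' - d) / 2 * ((c' - d) / 2)) +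
      ((c - d') / 2 * ((c - d') / 2) + (c' + d) / 2 * ((c' + d) / 2)) = s ^ 2 + (A + S) := by
    rw [hAd, hSd]
    ring
  rw [e1, e2] at hC
  rw [← hAd, ← hSd] at hδI
  rw [← hAd] at hA
  rw [← hSd] at hS
  have e3 : β / 2 * (s ^ 2 + c ^ 2 + d ^ 2) + β / 2 * (s ^ 2 + c' ^ 2 + d' ^ 2) =
      β * (s ^ 2 + S) := by
    rw [hSd]
    ring
  have f1 : 0 ≤ (m - 12 * δ * (1 + b ^ 2)) * (A + S) := mul_nonneg (by linarith) (by linarith)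
  have f2 : 0 ≤ (m / 4 - θ) * (A + S) := mul_nonneg (by linarith) (by linarith)
  have f3 : 0 ≤ (δ * k / 4 - θ) * s ^ 2 := mul_nonneg (by linarith) (sq_nonneg s)
  have f4 : 0 ≤ (δ * k - 4 * β) * s ^ 2 := mul_nonneg (by linarith) (sq_nonneg s)
  have f5 : 0 ≤ (m - 4 * β) * S := mul_nonneg (by linarith) hS
  have f6 : 0 ≤ m * A := by
    have : 0 ≤ m := by
      have : 0 ≤ 12 * δ * (1 + b ^ 2) := by positivity
      linarith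
    positivity
  nlinarith

theorem AsB_fin (φ : ℝ → ℝ) (hφ : ContDiff ℝ 1 φ) (b : ℝ) (hb0 : 0 ≤ b)
    (hb : ∀ (j : Fin 2) (x : E 2), |tf φ j x| ≤ b) (δ β : ℝ) (hδ : 0 < δ) (hβ : 0 < β)
    (u : E 2 → ℝ) (hu : ContDiff ℝ 1 u) (hc : HasCompactSupport u) (hmass : mass u = 1)
    (g : E 2 → ℝ) (hg : ContDiff ℝ 1 g) (hg1 : ∀ x, |g x| ≤ 1)
    (hR : ∀ c d s, 0 ≤ AsB_R φ u (gam + δ) (β / 4) g c d s) (c0 c1 c2 c3 : ℝ) :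
    min (gam / 2) (β / (8 * (7 + 6 * b ^ 2))) * (c0 ^ 2 + c1 ^ 2 + c2 ^ 2 + c3 ^ 2)
        ≤ QQ u (gam + δ) (fun x => c0 + (c1 * g x + c2 * tf φ 0 x + c3 * tf φ 1 x)) := by
  have hgam : 0 < gam := by
    have := gam_lo
    linarith
  have h1 := QQ_const u hu hc hmass (gam + δ) c0 (AsB_w φ g c2 c3 c1) (AsB_w_cd φ hφ g hg c2 c3 c1)
  have h2 : (fun x => c0 + AsB_w φ g c2 c3 c1 x) =
      fun x => c0 + (c1 * g x + c2 * tf φ 0 x + c3 * tf φ 1 x) := rfl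
  rw [← h2, h1]
  have h3 := hR c2 c3 c1
  unfold AsB_R at h3
  have hM : |mn u (AsB_w φ g c2 c3 c1)| ≤ |c1| + |c2| * b + |c3| * b := by
    refine mn_abs u hu hc hmass _ (AsB_w_cd φ hφ g hg c2 c3 c1).continuous _ fun x => ?_
    unfold AsB_w
    refine (abs_add_le _ _).trans (add_le_add ((abs_add_le _ _).trans (add_le_add ?_ ?_)) ?_)
    · rw [abs_mul]
      have := mul_le_mul_of_nonneg_left (hg1 x) (abs_nonneg c1)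
      linarith
    · rw [abs_mul]
      exact mul_le_mul_of_nonneg_left (hb 0 x) (abs_nonneg c2)
    · rw [abs_mul]
      exact mul_le_mul_of_nonneg_left (hb 1 x) (abs_nonneg c3)
  obtain ⟨M, hMd⟩ : ∃ M, M = mn u (AsB_w φ g c2 c3 c1) := ⟨_, rfl⟩
  rw [← hMd] at hM h3 ⊢
  obtain ⟨S, hS⟩ : ∃ S, S = c1 ^ 2 + c2 ^ 2 + c3 ^ 2 := ⟨_, rfl⟩
  have hS0 : 0 ≤ S := by rw [hS]; positivity
  have hM2 : M ^ 2 ≤ 3 * (1 + b ^ 2) * S := by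
    have e1 : M ^ 2 ≤ (|c1| + |c2| * b + |c3| * b) ^ 2 := by
      rw [← sq_abs M]
      exact pow_le_pow_left₀ (abs_nonneg _) hM 2
    have e2 : (|c1| + |c2| * b + |c3| * b) ^ 2 ≤
        3 * (|c1| ^ 2 + (|c2| * b) ^ 2 + (|c3| * b) ^ 2) := by
      nlinarith [sq_nonneg (|c1| - |c2| * b), sq_nonneg (|c1| - |c3| * b),
        sq_nonneg (|c2| * b - |c3| * b)]
    rw [mul_pow, mul_pow, sq_abs, sq_abs, sq_abs] at e2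
    have e3 : 0 ≤ b ^ 2 * c1 ^ 2 := by positivity
    rw [hS]
    nlinarith [sq_nonneg c2, sq_nonneg c3]
  obtain ⟨η, hη⟩ : ∃ η, η = min (gam / 2) (β / (8 * (7 + 6 * b ^ 2))) := ⟨_, rfl⟩
  rw [← hη]
  have hη0 : 0 < η := by
    rw [hη]
    exact lt_min (by positivity) (by positivity)
  have hη1 : 2 * η ≤ gam := by
    have := min_le_left (gam / 2) (β / (8 * (7 + 6 * b ^ 2)))
    rw [← hη] at this
    linarith
  have hη2 : η * (7 + 6 * b ^ 2) ≤ β / 8 := by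
    have h4 := min_le_right (gam / 2) (β / (8 * (7 + 6 * b ^ 2)))
    rw [← hη, le_div_iff₀ (by positivity)] at h4
    linarith
  have hc0 : c0 ^ 2 ≤ 2 * (c0 + M) ^ 2 + 6 * (1 + b ^ 2) * S := by
    nlinarith [sq_nonneg (c0 + 2 * M)]
  have g1 : η * c0 ^ 2 ≤ η * (2 * (c0 + M) ^ 2 + 6 * (1 + b ^ 2) * S) :=
    mul_le_mul_of_nonneg_left hc0 hη0.le
  have g2 : 2 * η * (c0 + M) ^ 2 ≤ gam * (c0 + M) ^ 2 :=
    mul_le_mul_of_nonneg_right hη1 (sq_nonneg _)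
  have g3 : η * (7 + 6 * b ^ 2) * S ≤ β / 8 * S := mul_le_mul_of_nonneg_right hη2 hS0
  have g4 : 0 ≤ δ * (c0 + M) ^ 2 := by positivity
  have g5 : η * (c0 ^ 2 + c1 ^ 2 + c2 ^ 2 + c3 ^ 2) = η * c0 ^ 2 + η * S := by rw [hS]; ring
  have g6 : β / 4 / 2 * (c1 ^ 2 + c2 ^ 2 + c3 ^ 2) = β / 8 * S := by rw [hS]; ring
  rw [g6] at h3
  rw [g5]
  linarith

theorem block_exists (φ : ℝ → ℝ) (hφ : ContDiff ℝ 1 φ) (b : ℝ) (hb0 : 0 ≤ b)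
    (hb : ∀ (j : Fin 2) (x : E 2), |tf φ j x| ≤ b) (m k δ θ : ℝ)
    (hm0 : 0 < m) (hk0 : 0 < k) (hδ : 0 < δ) (hδ2 : 12 * δ * (1 + b ^ 2) ≤ m) (hθ0 : 0 ≤ θ)
    (hθ1 : θ ≤ δ * k / 4) (hθ2 : θ ≤ m / 4)
    (u : E 2 → ℝ) (hu : ContDiff ℝ 1 u) (hc : HasCompactSupport u) (hmass : mass u = 1)
    (hk : k ≤ ∫ x, u x ^ 2 * (Ga x ^ 2 + Gb x ^ 2))
    (hcert : ∀ (σ : ℝ) (α p q : ℂ),
      m * (‖α‖ ^ 2 + ‖p‖ ^ 2 + ‖q‖ ^ 2) - θ * (σ ^ 2 + ‖α‖ ^ 2 + ‖p‖ ^ 2 + ‖q‖ ^ 2)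
        ≤ QQ u gam (Wre nFp φ σ α p q) + QQ u gam (Wim nFp φ σ α p q)) :
    ∃ g : E 2 → ℝ, (g = Ga ∨ g = Gb) ∧ ∀ c0 c1 c2 c3 : ℝ,
      min (gam / 2) (min (δ * k) m / (8 * (7 + 6 * b ^ 2))) * (c0 ^ 2 + c1 ^ 2 + c2 ^ 2 + c3 ^ 2)
        ≤ QQ u (gam + δ) (fun x => c0 + (c1 * g x + c2 * tf φ 0 x + c3 * tf φ 1 x)) := by
  have hβ : 0 < min (δ * k) m := lt_min (by positivity) hm0
  rcases pick (AsB_R φ u (gam + δ) (min (δ * k) m / 4) Ga)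
    (AsB_R φ u (gam + δ) (min (δ * k) m / 4) Gb)
    (fun t c d s => AsB_R_smul φ u _ _ Ga t c d s) (fun t c d s => AsB_R_smul φ u _ _ Gb t c d s)
    (fun c d c' d' s => AsB_sum φ hφ b hb0 hb m k δ θ hδ hδ2 hθ1 hθ2 u hu hc hmass hk hcert
      c d c' d' s) with h | h
  · exact ⟨Ga, Or.inl rfl, AsB_fin φ hφ b hb0 hb δ _ hδ hβ u hu hc hmass Ga AsB_Ga AsB_Ga_abs h⟩
  · exact ⟨Gb, Or.inr rfl, AsB_fin φ hφ b hb0 hb δ _ hδ hβ u hu hc hmass Gb AsB_Gb AsB_Gb_abs h⟩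

end Pool.Agent.H94.GP
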