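import Pool.Agent.H94.GP.DefG
import Pool.Agent.H94.SP.PpB

/-!
# GcA: facts on the centring profile

`gc s = 1/√(1 + s/10^8)` is used for `s = ‖x‖^2 ≥ 0`; it is `C^1` near `s > -10^8`; it is positive everywhere because `√` of the argument ... for `s ≤ -10^8` the value of
`gc` is `1/0 = 0`: `exists_centre` needs a continuous positive `F : ℝ → ℝ`, so apply it to `F s = 1/√(1 + |s|/10^8)`, which agrees with `gc` on `s ≥ 0` (`tf gc j x = tf F j x`).
Coercivity: `F s ≥ 1/√(1 + s/10^8) ≥ 1/(1 + s/10^8)` .. or antiderivative `2·10^8 √(1 + s/10^8)`.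
* `gc_hasDerivAt`: derivative `-(1/200000000) gc^3`.
* `contDiff_gc_tf`: `x ↦ gc(‖x‖^2)` is `C^1` (`1 + ‖x‖^2/10^8 > 0`), times the coordinate.
* `we` is the function `gc(‖x‖^2) (x·e)`: `|we| ≤ 100` (`(x·e)^2 ≤ ‖x‖^2 = s`, `s/(1 + s/10^8) ≤ 10^8`); `pd i we = gc e_i + 2 gc' x_i (x·e)`,
  `|∇we|^2 = gc^2 + 4 gc gc' (x·e)^2 + 4 gc'^2 s (x·e)^2 ≤ gc^2 ≤ 1` because `gc' ≤ 0` and `gc + gc' s ≥ 0` (`gc + s gc' = gc (1 - (s/200000000)/(1 + s/10^8)) ≥ 0`).
-/

set_option autoImplicit false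

open MeasureTheory Pool.Agent.H94.ER Pool.Agent.H94.SP

namespace Pool.Agent.H94.GP

theorem GcA_D (s : ℝ) (h : 0 ≤ s) : 0 < 1 + s / 100000000 := by positivity

theorem gc_pos (s : ℝ) (h : 0 ≤ s) : 0 < gc s := by
  unfold gc
  exact one_div_pos.2 (Real.sqrt_pos.2 (GcA_D s h))

theorem gc_hasDerivAt (s : ℝ) (h : 0 ≤ s) : HasDerivAt gc (-(1 / 200000000) * gc s ^ 3) s := by
  have hD := GcA_D s h
  have hs : 0 < √(1 + s / 100000000) := Real.sqrt_pos.2 hD
  have h1 : HasDerivAt (fun s : ℝ => 1 + s / 100000000) (1 / 100000000) s :=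
    ((hasDerivAt_id s).div_const 100000000).const_add 1
  have h2 := (h1.sqrt hD.ne').inv hs.ne'
  have h3 : gc = fun s : ℝ => (√(1 + s / 100000000))⁻¹ := by
    funext t
    unfold gc
    rw [one_div]
  have h4 : HasDerivAt gc (-(1 / 100000000 / (2 * √(1 + s / 100000000))) / √(1 + s / 100000000) ^ 2) s := by
    rw [h3]
    exact h2
  refine h4.congr_deriv ?_
  unfold gc
  field_simp
  norm_num

theorem gc_sq (s : ℝ) (h : 0 ≤ s) : gc s ^ 2 = 1 / (1 + s / 100000000) := by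
  unfold gc
  rw [div_pow, Real.sq_sqrt (GcA_D s h).le, one_pow]

theorem GcA_contDiff : ContDiff ℝ 1 (fun x : E 2 => gc (‖x‖ ^ 2)) := by
  unfold gc
  have h1 : ContDiff ℝ 1 (fun x : E 2 => 1 + ‖x‖ ^ 2 / 100000000) :=
    contDiff_const.add ((contDiff_norm_sq ℝ).div_const _)
  have h2 : ∀ x : E 2, 1 + ‖x‖ ^ 2 / 100000000 ≠ 0 := fun x => (GcA_D _ (sq_nonneg _)).ne'
  refine contDiff_const.div (h1.sqrt h2) ?_
  intro x
  exact (Real.sqrt_pos.2 (GcA_D _ (sq_nonneg _))).ne'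

theorem contDiff_tf_gc (j : Fin 2) : ContDiff ℝ 1 (tf gc j : E 2 → ℝ) := by
  have h : ContDiff ℝ 1 (fun x : E 2 => gc (‖x‖ ^ 2) * x j) :=
    GcA_contDiff.mul (trd_coord_contDiff j)
  exact h

theorem contDiff_we (e : E 2) : ContDiff ℝ 1 (fun x : E 2 => gc (‖x‖ ^ 2) * inner ℝ x e) :=
  GcA_contDiff.mul (contDiff_id.inner ℝ contDiff_const)

theorem GcA_inner (x y : E 2) : inner ℝ x y = x 0 * y 0 + x 1 * y 1 := by
  rw [PiLp.inner_apply, Fin.sum_univ_two]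
  simp only [RCLike.inner_apply, conj_trivial]
  ring

theorem GcA_norm (x : E 2) : ‖x‖ ^ 2 = x 0 ^ 2 + x 1 ^ 2 := by
  rw [EuclideanSpace.norm_sq_eq, Fin.sum_univ_two]
  simp only [Real.norm_eq_abs, sq_abs]

theorem GcA_pd (e x : E 2) (i : Fin 2) :
    pd i (fun y : E 2 => gc (‖y‖ ^ 2) * inner ℝ y e) x =
      gc (‖x‖ ^ 2) * e i + 2 * (-(1 / 200000000) * gc (‖x‖ ^ 2) ^ 3) * x i * inner ℝ x e := by
  have h1 := (gc_hasDerivAt (‖x‖ ^ 2) (sq_nonneg _)).comp_hasFDerivAt x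
    (hasStrictFDerivAt_norm_sq x).hasFDerivAt
  have h2 : HasFDerivAt (fun y : E 2 => (inner ℝ y e : ℝ)) (innerSL ℝ e) x := by
    have h3 : (fun y : E 2 => (inner ℝ y e : ℝ)) = fun y : E 2 => innerSL ℝ e y := by
      funext y
      rw [innerSL_apply_apply, real_inner_comm]
    rw [h3]
    exact (innerSL ℝ e).hasFDerivAt
  have h4 : HasFDerivAt (fun y : E 2 => gc (‖y‖ ^ 2) * inner ℝ y e) _ x := h1.mul h2
  unfold pd
  rw [h4.fderiv]
  simp only [ContinuousLinearMap.add_apply, ContinuousLinearMap.smul_apply, innerSL_apply_apply,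
    smul_eq_mul, EuclideanSpace.inner_single_right, Function.comp_apply, conj_trivial, one_mul,
    nsmul_eq_mul]
  push_cast
  ring

theorem we_bound (e : E 2) (he : ‖e‖ = 1) (x : E 2) :
    |gc (‖x‖ ^ 2) * inner ℝ x e| ≤ 10000 ∧
      (∀ i, |pd i (fun y : E 2 => gc (‖y‖ ^ 2) * inner ℝ y e) x| ≤ 10000) ∧
      dot (fun y : E 2 => gc (‖y‖ ^ 2) * inner ℝ y e) (fun y : E 2 => gc (‖y‖ ^ 2) * inner ℝ y e) x ≤ 1 := by
  set s : ℝ := ‖x‖ ^ 2 with hs
  set t : ℝ := inner ℝ x e with ht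
  set g : ℝ := gc s with hg
  have hs0 : 0 ≤ s := sq_nonneg _
  have hg0 : 0 < g := gc_pos s hs0
  have hD : 0 < 1 + s / 100000000 := GcA_D s hs0
  have hg2 : g ^ 2 * (1 + s / 100000000) = 1 := by
    rw [hg, gc_sq s hs0]
    field_simp
  have hts : t ^ 2 ≤ s := by
    have h1 := abs_real_inner_le_norm x e
    rw [he, mul_one] at h1
    rw [hs, ← sq_abs t]
    exact pow_le_pow_left₀ (abs_nonneg _) h1 2
  have hgs : g ^ 2 * s ≤ 100000000 := by nlinarith [sq_nonneg g]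
  have hg1 : g ^ 2 ≤ 1 := by nlinarith [mul_nonneg (sq_nonneg g) hs0]
  have hdot : dot (fun y : E 2 => gc (‖y‖ ^ 2) * inner ℝ y e)
      (fun y : E 2 => gc (‖y‖ ^ 2) * inner ℝ y e) x =
      g ^ 2 + 4 * g * (-(1 / 200000000) * g ^ 3) * t ^ 2 + 4 * (-(1 / 200000000) * g ^ 3) ^ 2 * t ^ 2 * s := by
    unfold dot
    rw [Fin.sum_univ_two, GcA_pd, GcA_pd]
    have he2 : e 0 ^ 2 + e 1 ^ 2 = 1 := by
      rw [← GcA_norm, he, one_pow]
    have hx2 : s = x 0 ^ 2 + x 1 ^ 2 := GcA_norm x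
    have hte : t = x 0 * e 0 + x 1 * e 1 := GcA_inner x e
    rw [← hs, ← ht, ← hg]
    linear_combination g ^ 2 * he2 - 4 * g * (-(1 / 200000000) * g ^ 3) * t * hte -
      4 * (-(1 / 200000000) * g ^ 3) ^ 2 * t ^ 2 * hx2
  have hdot1 : dot (fun y : E 2 => gc (‖y‖ ^ 2) * inner ℝ y e)
      (fun y : E 2 => gc (‖y‖ ^ 2) * inner ℝ y e) x ≤ 1 := by
    rw [hdot]
    have h1 : g ^ 2 + 4 * g * (-(1 / 200000000) * g ^ 3) * t ^ 2 +
        4 * (-(1 / 200000000) * g ^ 3) ^ 2 * t ^ 2 * s =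
        g ^ 2 - (1 / 50000000) * g ^ 4 * t ^ 2 * (1 - g ^ 2 * s / 200000000) := by ring
    rw [h1]
    have h2 : 0 ≤ (1 / 50000000) * g ^ 4 * t ^ 2 * (1 - g ^ 2 * s / 200000000) := by
      refine mul_nonneg (by positivity) ?_
      linarith
    linarith
  refine ⟨?_, ?_, hdot1⟩
  · refine abs_le_of_sq_le_sq ?_ (by norm_num)
    have h1 : (g * t) ^ 2 = g ^ 2 * t ^ 2 := by ring
    rw [h1]
    have h2 : g ^ 2 * t ^ 2 ≤ g ^ 2 * s := mul_le_mul_of_nonneg_left hts (sq_nonneg _)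
    linarith
  · intro i
    refine abs_le_of_sq_le_sq ?_ (by norm_num)
    have h1 : pd i (fun y : E 2 => gc (‖y‖ ^ 2) * inner ℝ y e) x ^ 2 ≤
        dot (fun y : E 2 => gc (‖y‖ ^ 2) * inner ℝ y e)
          (fun y : E 2 => gc (‖y‖ ^ 2) * inner ℝ y e) x := by
      unfold dot
      rw [Fin.sum_univ_two]
      fin_cases i
      · change pd 0 (fun y : E 2 => gc (‖y‖ ^ 2) * inner ℝ y e) x ^ 2 ≤ _
        nlinarith [sq_nonneg (pd 1 (fun y : E 2 => gc (‖y‖ ^ 2) * inner ℝ y e) x)]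
      · change pd 1 (fun y : E 2 => gc (‖y‖ ^ 2) * inner ℝ y e) x ^ 2 ≤ _
        nlinarith [sq_nonneg (pd 0 (fun y : E 2 => gc (‖y‖ ^ 2) * inner ℝ y e) x)]
    linarith

theorem we_eq (e x : E 2) : gc (‖x‖ ^ 2) * inner ℝ x e = e 0 * tf gc 0 x + e 1 * tf gc 1 x := by
  unfold tf
  rw [GcA_inner]
  ring

theorem gc_centre (u : E 2 → ℝ) (hu : Continuous u) (hc : HasCompactSupport u) (hm : mass u = 1) :
    ∃ a : E 2, ∀ j, ∫ x, u (x + a) ^ 2 * tf gc j x = 0 := by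
  set F : ℝ → ℝ := fun s => 1 / √(1 + |s| / 100000000) with hF
  have hpos : ∀ s, 0 < F s := fun s =>
    one_div_pos.2 (Real.sqrt_pos.2 (GcA_D _ (abs_nonneg s)))
  have hcont : Continuous F := by
    rw [hF]
    refine continuous_const.div ?_ fun s => (Real.sqrt_pos.2 (GcA_D _ (abs_nonneg s))).ne'
    fun_prop
  have hint : ∀ s : ℝ, 0 ≤ s → ∫ t in (0 : ℝ)..s, F t = 200000000 * √(1 + s / 100000000) - 200000000 := by
    intro s hs
    have h1 := intervalIntegral.integral_eq_sub_of_hasDerivAt (a := 0) (b := s)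
      (f := fun t => 200000000 * √(1 + t / 100000000)) (f' := F) ?_ (hcont.intervalIntegrable 0 s)
    · rw [h1]
      simp
    · intro t ht
      rw [Set.uIcc_of_le hs] at ht
      have hD := GcA_D t ht.1
      have hsq : 0 < √(1 + t / 100000000) := Real.sqrt_pos.2 hD
      have h2 : HasDerivAt (fun s : ℝ => 1 + s / 100000000) (1 / 100000000) t :=
        ((hasDerivAt_id t).div_const 100000000).const_add 1
      refine ((h2.sqrt hD.ne').const_mul 200000000).congr_deriv ?_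
      rw [hF]
      simp only [abs_of_nonneg ht.1]
      field_simp
      norm_num
  have hcoer : Filter.Tendsto (fun s => ∫ t in (0 : ℝ)..s, F t) Filter.atTop Filter.atTop := by
    have h1 : Filter.Tendsto (fun s : ℝ => 200000000 * √(1 + s / 100000000) - 200000000)
        Filter.atTop Filter.atTop := by
      refine Filter.tendsto_atTop_add_const_right _ _ ?_
      refine Filter.Tendsto.const_mul_atTop (by norm_num) ?_
      refine Real.tendsto_sqrt_atTop.comp ?_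
      refine Filter.tendsto_atTop_add_const_left _ _ ?_
      exact Filter.Tendsto.atTop_div_const (by norm_num) Filter.tendsto_id
    refine h1.congr' ?_
    filter_upwards [Filter.eventually_ge_atTop (0 : ℝ)] with s hs
    exact (hint s hs).symm
  obtain ⟨a, ha⟩ := exists_centre F hcont hpos hcoer u hu hc hm
  refine ⟨a, fun j => ?_⟩
  rw [← ha j]
  refine integral_congr_ae (Filter.Eventually.of_forall fun x => ?_)
  have h1 : gc (‖x‖ ^ 2) = F (‖x‖ ^ 2) := by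
    rw [hF]
    unfold gc
    simp only [abs_of_nonneg (sq_nonneg ‖x‖)]
  simp only [tf]
  rw [h1]

end Pool.Agent.H94.GP
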