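import Pool.Agent.H94.GP.LcA
import Pool.Agent.H94.SP.CutC

/-!
# LcB: the Poincare inequality for domains with `λ_4(Ω) > μ`

If `dirEig Ω 4 > bz 6 + δ` and `u` is a sufficiently good near minimiser (`hEL` with `ε ≤ ε0(M, η, δ)`), then
`kap Var(w) ≤ ∫ u^2 |∇w|^2 + η` for all `w ∈ C^1` with `|w|, |pd i w| ≤ M`.
Proof: suppose not. `cut_level` with `K = kap` (and `2 M` for `M`: `dot w w ≤ 2 M^2`) gives `β, δ'` (depending on `M, η` only) and `c`. Put `Ω⁺ = {x ∈ Ω | c < w x}`,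
`Ω⁻ = {x ∈ Ω | w x < c}` (open, disjoint), `v = χ(w - c) u`, a test function on `Ω⁺` (`χ = chi δ'` vanishes where `w - c ≤ δ'`: the support of `v` is a compact subset of
`Ω ∩ {w ≥ c + δ'}`), `mass v = ∫ u^2 χ(w-c)^2 ≥ β > 0` (so `Ω⁺` is nonempty). `TrA_energy` with `φ = χ ∘ (w - c)` (`dot φ φ = χ'(w-c)^2 dot w w`), `hEL` for `φ^2 u` and
`energy_mul_le` for `φ^2` (bounded with its derivatives by some `A(M)`, e.g. `0 ≤ φ ≤ 8 M`, `|pd i (φ^2)| ≤ 2 * 8M * 2M`):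
`energy v ≤ kap mass v + bz 2 * mass v + ε A₁(M)`, so (`eig_one_le`) `dirEig Ω⁺ 1 ≤ bz 2 + kap + ε A₁/β`; the same for `Ω⁻`. `ppw` as in `CutC`:
`dirEig Ω^± 2 ≤ bz 6 + (bz 4/bz 2) ε A₁/β ≤ bz 6 + δ` for `ε ≤ ε0`; `dirEig_union` gives `dirEig Ω 4 ≤ bz 6 + δ`, a contradiction.
-/

set_option autoImplicit false

open MeasureTheory Pool.Agent.H94.ER Pool.Agent.H94.SP

namespace Pool.Agent.H94.GP

/-- the part of `Ω` where `g > 0` -/
def LcB_pos (g : E 2 → ℝ) (Ω : Set (E 2)) : Set (E 2) := {x | x ∈ Ω ∧ 0 < g x}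

theorem LcB_open (g : E 2 → ℝ) (hg : Continuous g) (Ω : Set (E 2)) (hΩ : IsOpen Ω) : IsOpen (LcB_pos g Ω) := by
  have h : LcB_pos g Ω = Ω ∩ {x | 0 < g x} := rfl
  rw [h]
  exact hΩ.inter (isOpen_lt continuous_const hg)

theorem LcB_contDiff (δ : ℝ) (hδ : 0 < δ) (g : E 2 → ℝ) (hg : ContDiff ℝ 1 g) :
    ContDiff ℝ 1 (fun x => chi δ (g x)) := (chi_contDiff δ hδ).comp hg

theorem LcB_pd (δ : ℝ) (hδ : 0 < δ) (g : E 2 → ℝ) (hg : ContDiff ℝ 1 g) (x : E 2) (i : Fin 2) :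
    pd i (fun x => chi δ (g x)) x = deriv (chi δ) (g x) * pd i g x := by
  have h2 : HasFDerivAt g (fderiv ℝ g x) x := (hg.differentiable one_ne_zero x).hasFDerivAt
  have h3 : HasDerivAt (chi δ) (deriv (chi δ) (g x)) (g x) :=
    ((chi_contDiff δ hδ).differentiable one_ne_zero _).hasDerivAt
  have h4 := h3.comp_hasFDerivAt x h2
  unfold pd
  have h5 : (fun x => chi δ (g x)) = chi δ ∘ g := rfl
  rw [h5, h4.fderiv]
  simp

theorem LcB_dot (δ : ℝ) (hδ : 0 < δ) (g : E 2 → ℝ) (hg : ContDiff ℝ 1 g) (x : E 2) :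
    dot (fun x => chi δ (g x)) (fun x => chi δ (g x)) x = deriv (chi δ) (g x) ^ 2 * dot g g x := by
  unfold dot
  rw [Finset.mul_sum]
  refine Finset.sum_congr rfl fun i _ => ?_
  rw [LcB_pd δ hδ g hg x i]
  ring

theorem LcB_test (δ : ℝ) (hδ : 0 < δ) (g : E 2 → ℝ) (hg : ContDiff ℝ 1 g) (Ω : Set (E 2)) (u : E 2 → ℝ)
    (hu : IsTest Ω u) : IsTest (LcB_pos g Ω) (fun x => chi δ (g x) * u x) := by
  have h := hu.mul_left (fun x => chi δ (g x)) (LcB_contDiff δ hδ g hg)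
  refine ⟨h.1, h.2.1, fun x hx => ⟨h.2.2 hx, ?_⟩⟩
  have hcl : IsClosed {x : E 2 | δ ≤ g x} := isClosed_le continuous_const hg.continuous
  have hsub : tsupport (fun x => chi δ (g x) * u x) ⊆ {x : E 2 | δ ≤ g x} := by
    refine closure_minimal (fun y hy => ?_) hcl
    by_contra hlt
    have hlt' : g y < δ := not_le.1 hlt
    apply hy
    show chi δ (g y) * u y = 0
    rw [chi_zero δ _ hlt'.le, zero_mul]
  have h1 : δ ≤ g x := hsub hx
  linarith

theorem LcB_step (M β δ : ℝ) (hM : 1 ≤ M) (hβ : 0 < β) (hδ : 0 < δ) (Ω : Set (E 2)) (hΩ : IsOpen Ω)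
    (u : E 2 → ℝ) (hu : IsTest Ω u) (hmass : mass u = 1) (L1 ε : ℝ) (hL1 : L1 ≤ bz 2)
    (hen : energy u ≤ bz 2 + 1) (hε : 0 ≤ ε)
    (hEL : ∀ v, IsTest Ω v → |(∫ x, dot u v x) - L1 * ∫ x, u x * v x| ≤ ε * √(energy v))
    (g : E 2 → ℝ) (hg : ContDiff ℝ 1 g) (hgb : ∀ x, |g x| ≤ 8 * M ∧ ∀ i, |pd i g x| ≤ M)
    (h1 : ∫ x, u x ^ 2 * (deriv (chi δ) (g x) ^ 2 * dot g g x) ≤ kap * ∫ x, u x ^ 2 * chi δ (g x) ^ 2)
    (h2 : β ≤ ∫ x, u x ^ 2 * chi δ (g x) ^ 2) :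
    (LcB_pos g Ω).Nonempty ∧ dirEig (LcB_pos g Ω) 2 ≤ bz 6 + 1600 * M ^ 2 * ε / β := by
  set φ : E 2 → ℝ := fun x => chi δ (g x) with hφdef
  have hφ : ContDiff ℝ 1 φ := LcB_contDiff δ hδ g hg
  have hM1 : mass (fun x => φ x * u x) = ∫ x, u x ^ 2 * chi δ (g x) ^ 2 := by
    unfold mass
    refine integral_congr_ae (Filter.Eventually.of_forall fun x => ?_)
    show (chi δ (g x) * u x) ^ 2 = u x ^ 2 * chi δ (g x) ^ 2
    ring
  rw [← hM1] at h1 h2
  have ht := LcB_test δ hδ g hg Ω u hu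
  have hne : (LcB_pos g Ω).Nonempty := by
    by_contra hne
    have h3 : ∀ x, φ x * u x = 0 := by
      intro x
      by_contra hx
      exact hne ⟨x, ht.2.2 (subset_tsupport _ hx)⟩
    have h4 : mass (fun x => φ x * u x) = 0 := by
      unfold mass
      simp_rw [h3]
      simp
    rw [h4] at h2
    linarith
  refine ⟨hne, ?_⟩
  -- the energy
  have hE := TrA_energy u φ hu.1 hu.2.1 hφ
  have hE1 : ∫ x, u x ^ 2 * dot φ φ x = ∫ x, u x ^ 2 * (deriv (chi δ) (g x) ^ 2 * dot g g x) := by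
    refine integral_congr_ae (Filter.Eventually.of_forall fun x => ?_)
    show u x ^ 2 * dot φ φ x = _
    rw [hφdef, LcB_dot δ hδ g hg x]
  have hφφ : ContDiff ℝ 1 (fun y => φ y * φ y) := hφ.mul hφ
  have hv : IsTest Ω (fun y => (φ y * φ y) * u y) := hu.mul_left _ hφφ
  have hbd : ∀ x, |φ x * φ x| ≤ 64 * M ^ 2 ∧ ∀ i, |pd i (fun y => φ y * φ y) x| ≤ 64 * M ^ 2 := by
    intro x
    have b0 : 0 ≤ φ x := chi_nonneg δ _ hδ
    have b1 : φ x ≤ 8 * M := by
      refine (chi_le δ _ hδ).trans (max_le (by linarith) ?_)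
      exact (le_abs_self _).trans (hgb x).1
    refine ⟨?_, fun i => ?_⟩
    · rw [abs_of_nonneg (mul_self_nonneg _)]
      nlinarith
    · have hφd := (hφ.differentiable one_ne_zero) x
      rw [pd_mul i φ φ x hφd hφd]
      have b2 : |pd i φ x| ≤ M := by
        rw [hφdef, LcB_pd δ hδ g hg x i, abs_mul]
        obtain ⟨c1, c2⟩ := chi_deriv δ (g x) hδ
        rw [abs_of_nonneg c1]
        have c3 := (hgb x).2 i
        have c4 := abs_nonneg (pd i g x)
        calc deriv (chi δ) (g x) * |pd i g x| ≤ 1 * |pd i g x| := mul_le_mul_of_nonneg_right c2 c4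
          _ ≤ M := by rw [one_mul]; exact c3
      have b3 : |pd i φ x * φ x + φ x * pd i φ x| = 2 * (φ x * |pd i φ x|) := by
        have : pd i φ x * φ x + φ x * pd i φ x = 2 * (φ x * pd i φ x) := by ring
        rw [this, abs_mul, abs_mul, abs_of_nonneg b0]
        norm_num
      have b4 : φ x * |pd i φ x| ≤ 8 * M * M := mul_le_mul b1 b2 (abs_nonneg _) (by linarith)
      have b5 : |pd i φ x * φ x + φ x * pd i φ x| ≤ 64 * M ^ 2 := by
        rw [b3]
        nlinarith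
      first
        | exact b5
        | (rw [add_comm]; exact b5)
  have hen1 := energy_mul_le u (fun y => φ y * φ y) hu.1 hu.2.1 hφφ (64 * M ^ 2) hbd
  rw [hmass, mul_one] at hen1
  have hbz := bz2_hi
  have hen2 : energy (fun y => (φ y * φ y) * u y) ≤ (320 * M ^ 2) ^ 2 := by
    refine hen1.trans ?_
    push_cast
    have e0 : 0 ≤ 2 * (64 * M ^ 2) ^ 2 := by positivity
    have e1 : energy u + 2 ≤ 12 := by linarith
    have e2 : 2 * (64 * M ^ 2) ^ 2 * (energy u + 2) ≤ 2 * (64 * M ^ 2) ^ 2 * 12 :=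
      mul_le_mul_of_nonneg_left e1 e0
    refine e2.trans ?_
    have e3 : 0 ≤ (M ^ 2) ^ 2 := by positivity
    nlinarith
  have hM0 : 0 ≤ 320 * M ^ 2 := by positivity
  have hsq : √(energy (fun y => (φ y * φ y) * u y)) ≤ 320 * M ^ 2 := by
    rw [← Real.sqrt_sq hM0]
    exact Real.sqrt_le_sqrt hen2
  have hEL' := (abs_le.1 (hEL _ hv)).2
  have hM4 : ∫ x, u x * ((φ x * φ x) * u x) = mass (fun x => φ x * u x) := by
    unfold mass
    refine integral_congr_ae (Filter.Eventually.of_forall fun x => ?_)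
    show u x * ((φ x * φ x) * u x) = (φ x * u x) ^ 2
    ring
  rw [hM4] at hEL'
  set m : ℝ := mass (fun x => φ x * u x) with hm
  have h5 : ε * √(energy (fun y => (φ y * φ y) * u y)) ≤ ε * (320 * M ^ 2) := mul_le_mul_of_nonneg_left hsq hε
  have h6 : L1 * m ≤ bz 2 * m := mul_le_mul_of_nonneg_right hL1 (by linarith)
  rw [hE1] at hE
  have h7 : energy (fun y => φ y * u y) ≤ (bz 2 + kap) * m + ε * (320 * M ^ 2) := by
    rw [hE]
    have h9 : (bz 2 + kap) * m = bz 2 * m + kap * m := by ring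
    rw [h9]
    linarith
  have h8 := eig_one_le (LcB_pos g Ω) _ ht
  change dirEig (LcB_pos g Ω) 1 * m ≤ energy (fun y => φ y * u y) at h8
  set Λ : ℝ := dirEig (LcB_pos g Ω) 1 with hΛ
  have h10 : Λ ≤ bz 2 + kap + 2000000 * (ε * (320 * M ^ 2) / β / 2000000) := by
    have e1 : 2000000 * (ε * (320 * M ^ 2) / β / 2000000) = ε * (320 * M ^ 2) / β := by ring
    rw [e1]
    by_contra hlt
    push Not at hlt
    have hm0 : 0 < m := lt_of_lt_of_le hβ h2
    have e2 : (bz 2 + kap + ε * (320 * M ^ 2) / β) * m < Λ * m := mul_lt_mul_of_pos_right hlt hm0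
    have e3 : 0 ≤ ε * (320 * M ^ 2) / β := by positivity
    have e4 : ε * (320 * M ^ 2) / β * β ≤ ε * (320 * M ^ 2) / β * m := mul_le_mul_of_nonneg_left h2 e3
    rw [div_mul_cancel₀ _ hβ.ne'] at e4
    nlinarith
  have h11 := CutC_piece (LcB_pos g Ω) (LcB_open g hg.continuous Ω hΩ) hne
    (ε * (320 * M ^ 2) / β / 2000000) (by positivity) h10
  refine h11.trans (le_of_eq ?_)
  ring

theorem poincare (M η δ : ℝ) (hM : 1 ≤ M) (hη : 0 < η) (hδ : 0 < δ) :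
    ∃ ε0 : ℝ, 0 < ε0 ∧ ∀ (Ω : Set (E 2)) (u : E 2 → ℝ) (L1 ε : ℝ), IsOpen Ω → IsTest Ω u → mass u = 1 →
      0 ≤ L1 → L1 ≤ bz 2 → energy u ≤ bz 2 + 1 → 0 ≤ ε → ε ≤ ε0 →
      (∀ v, IsTest Ω v → |(∫ x, dot u v x) - L1 * ∫ x, u x * v x| ≤ ε * √(energy v)) →
      bz 6 + δ < dirEig Ω 4 →
      ∀ w : E 2 → ℝ, ContDiff ℝ 1 w → (∀ x, |w x| ≤ M ∧ ∀ i, |pd i w x| ≤ M) →
        kap * ((∫ x, u x ^ 2 * w x ^ 2) - (∫ x, u x ^ 2 * w x) ^ 2) ≤ (∫ x, u x ^ 2 * dot w w x) + η := by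
  obtain ⟨β, δ', hβ, hδ', hcut⟩ := cut_level (2 * M) kap η (by linarith) (by linarith [kap_lo]) hη
  refine ⟨δ * β / (1600 * M ^ 2), by positivity, ?_⟩
  intro Ω u L1 ε hΩ hu hmass hL0 hL1 hen hε hε0 hEL h4 w hw hwb
  by_contra hcon
  push Not at hcon
  have hdot : ∀ x, dot w w x ≤ (2 * M) ^ 2 := by
    intro x
    unfold dot
    rw [Fin.sum_univ_two]
    have a0 := abs_le.1 ((hwb x).2 0)
    have a1 := abs_le.1 ((hwb x).2 1)
    nlinarith [a0.1, a0.2, a1.1, a1.2]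
  obtain ⟨c, hc, hA1, hA2, hB1, hB2⟩ := hcut u w hu.1 hu.2.1 hmass hw (fun x => by linarith [(hwb x).1]) hdot hcon
  have hc' := abs_le.1 hc
  -- the two halves
  have g1c : ContDiff ℝ 1 (fun x => w x - c) := hw.sub contDiff_const
  have g2c : ContDiff ℝ 1 (fun x => c - w x) := contDiff_const.sub hw
  have p1 : ∀ x i, pd i (fun x => w x - c) x = pd i w x := by
    intro x i
    unfold pd
    rw [fderiv_sub_const]
  have p2 : ∀ x i, pd i (fun x => c - w x) x = -pd i w x := by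
    intro x i
    unfold pd
    rw [fderiv_const_sub]
    rfl
  have d1 : ∀ x, dot (fun x => w x - c) (fun x => w x - c) x = dot w w x := by
    intro x
    unfold dot
    simp only [p1]
  have d2 : ∀ x, dot (fun x => c - w x) (fun x => c - w x) x = dot w w x := by
    intro x
    unfold dot
    simp only [p2, neg_mul_neg]
  have s1 := LcB_step M β δ' hM hβ hδ' Ω hΩ u hu hmass L1 ε hL1 hen hε hEL (fun x => w x - c) g1c
    (fun x => ⟨by
      have := abs_le.1 (hwb x).1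
      rw [abs_le]
      constructor
      · linarith [this.1, hc'.2]
      · linarith [this.2, hc'.1], fun i => by rw [p1]; exact (hwb x).2 i⟩)
    (by simp only [d1]; exact hA1) hB1
  have s2 := LcB_step M β δ' hM hβ hδ' Ω hΩ u hu hmass L1 ε hL1 hen hε hEL (fun x => c - w x) g2c
    (fun x => ⟨by
      have := abs_le.1 (hwb x).1
      rw [abs_le]
      constructor
      · linarith [this.2, hc'.1]
      · linarith [this.1, hc'.2], fun i => by rw [p2, abs_neg]; exact (hwb x).2 i⟩)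
    (by simp only [d2]; exact hA2) hB2
  have hd : Disjoint (LcB_pos (fun x => w x - c) Ω) (LcB_pos (fun x => c - w x) Ω) := by
    rw [Set.disjoint_left]
    intro x hx hx'
    have h1 : 0 < w x - c := hx.2
    have h2 : 0 < c - w x := hx'.2
    linarith
  have h := dirEig_union (N := 2) (by norm_num) Ω _ _ (fun x hx => hx.1)
    (fun x hx => hx.1) hd (LcB_open _ g1c.continuous Ω hΩ) (LcB_open _ g2c.continuous Ω hΩ)
    s1.1 s2.1 2 2 (by norm_num) (by norm_num)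
  have he : 1600 * M ^ 2 * ε / β ≤ δ := by
    rw [div_le_iff₀ hβ]
    rw [le_div_iff₀ (by positivity)] at hε0
    linarith
  have h5 := h.trans (max_le (s1.2.trans (by linarith : _ ≤ bz 6 + δ)) (s2.2.trans (by linarith : _ ≤ bz 6 + δ)))
  have h6 : dirEig Ω (2 + 2) = dirEig Ω 4 := rfl
  rw [h6] at h5
  linarith

end Pool.Agent.H94.GP
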