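import Pool.Agent.H94.GP.AsB
import Pool.Agent.H94.GP.GcA
import Pool.Agent.H94.GP.LcB
import Pool.Agent.H94.SP.PpC
import Pool.Agent.H94.SP.EvA
import Pool.Agent.H94.SP.OddB

/-!
# AsC: assembly, general planar case

Model: `SP/Asm.lean` `Asm_small` and `SP/PpC.lean` `ppw_scaled` (translation). Suppose `bz 6 + δ < dirEig Ω 4`.
Constants: `k` from `even_lower (bz 2 + 1)` (`Ga^2 + Gb^2 = Pk 2 nFp`), `θ = min (δ k/4) (m/4)`, `ε1` from `HC θ`; `ε2` from `poincare 10000 (η = ε1) δ`;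
`A ≥ max 1 b` bounding `1, Ga, Gb, tf φ j` and their partial derivatives (`Ga = tg nFp 0 0 - tg nFp 1 1`, `Gb = 2 tg nFp 0 1`, `tg_bound` as in `Asm_small`),
`η0 = min (gam/2) (min (δ k) m / (8 (7 + 6 b^2)))`; `ε > 0` below `ε1, ε2, 1` and with `ε (4·4·A^2 √(2(bz 2 + 1 + 2))) ≤ η0`.
`near_min` (`ε^2`) gives `w` on `Ω`; `gc_centre` gives `a`; `u x = w (x + a)`, a test function on `Ω' = trS a Ω` (`isTest_tr`, `mass_tr`, `energy_tr`, `dirEig_tr`, `trS_open`).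
`form_cs` for `Ω'`: the weak form with `ε`. `Adm ε1 u`: the last property from `poincare` for `gc (‖x‖^2) * inner x e` (`contDiff_we`, `we_bound`,
mean zero by `we_eq` and centring, `∫ u^2 |∇w|^2 ≤ 1`). `block_exists`, then `trial_bound` with `ι = Fin 4`, `ψ = ![1, g, tf φ 0, tf φ 1]`, `lam = bz 2`,
`κ = gam + δ`: `dirEig Ω' 4 ≤ bz 2 + gam + δ = bz 6 + δ`. Contradiction.
-/

set_option autoImplicit false

open MeasureTheory Pool.Agent.H94.ER Pool.Agent.H94.SP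

namespace Pool.Agent.H94.GP

theorem AsC_nFp_out (s : ℝ) (hs : 1 ≤ s) : nFp s = nFp 1 * s ^ (-(2 : ℝ) / 2) := by
  rw [nFp_out s hs, nFp_out 1 le_rfl, show (-(2 : ℝ) / 2) = -1 by norm_num, Real.rpow_neg_one]
  ring

theorem AsC_Ga : Ga = fun x => tg nFp 0 0 x + (-1) * tg nFp 1 1 x := by
  funext x
  unfold Ga tg
  rw [if_pos rfl, if_pos rfl]
  ring

theorem AsC_Gb : Gb = fun x => 2 * tg nFp 0 1 x := by
  funext x
  unfold Gb tg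
  rw [if_neg (by decide)]
  ring

theorem AsC_contDiff_Ga : ContDiff ℝ 1 Ga := by
  rw [AsC_Ga]
  exact (contDiff_tg nFp contDiff_nFp 0 0).add (contDiff_const.mul (contDiff_tg nFp contDiff_nFp 1 1))

theorem AsC_contDiff_Gb : ContDiff ℝ 1 Gb := by
  rw [AsC_Gb]
  exact contDiff_const.mul (contDiff_tg nFp contDiff_nFp 0 1)

theorem AsC_sq (x : E 2) : Ga x ^ 2 + Gb x ^ 2 = Pk 2 nFp (‖x‖ ^ 2) := by
  unfold Ga Gb Pk
  rw [EvA_nsq]
  ring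

theorem AsC_bound (A : ℝ) (hA : ∀ (a b : Fin 2) (x : E 2), |tg nFp a b x| ≤ A ∧ ∀ i, |pd i (tg nFp a b) x| ≤ A)
    (g : E 2 → ℝ) (hg : g = Ga ∨ g = Gb) (x : E 2) : |g x| ≤ 2 * A ∧ ∀ i, |pd i g x| ≤ 2 * A := by
  rcases hg with rfl | rfl
  · rw [AsC_Ga]
    refine ⟨?_, fun i => ?_⟩
    · show |tg nFp 0 0 x + (-1) * tg nFp 1 1 x| ≤ 2 * A
      have h0 := abs_le.1 (hA 0 0 x).1
      have h1 := abs_le.1 (hA 1 1 x).1
      rw [abs_le]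
      constructor <;> linarith [h0.1, h0.2, h1.1, h1.2]
    · have h0 := abs_le.1 ((hA 0 0 x).2 i)
      have h1 := abs_le.1 ((hA 1 1 x).2 i)
      have e : pd i (fun x => tg nFp 0 0 x + (-1) * tg nFp 1 1 x) x =
          pd i (tg nFp 0 0) x + (-1) * pd i (tg nFp 1 1) x := by
        have c0 := contDiff_tg nFp contDiff_nFp (0 : Fin 2) 0
        have c1 := contDiff_tg nFp contDiff_nFp (1 : Fin 2) 1
        have c2 : ContDiff ℝ 1 (fun x : E 2 => (-1) * tg nFp 1 1 x) := contDiff_const.mul c1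
        have e1 := pd_add i (tg nFp 0 0) (fun x : E 2 => (-1) * tg nFp 1 1 x) x
          ((c0.differentiable one_ne_zero) x) ((c2.differentiable one_ne_zero) x)
        rw [pd_const_mul] at e1
        exact e1
      rw [e, abs_le]
      constructor <;> linarith [h0.1, h0.2, h1.1, h1.2]
  · rw [AsC_Gb]
    refine ⟨?_, fun i => ?_⟩
    · show |2 * tg nFp 0 1 x| ≤ 2 * A
      rw [abs_mul, abs_two]
      linarith [(hA 0 1 x).1]
    · rw [pd_const_mul, abs_mul, abs_two]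
      linarith [(hA 0 1 x).2 i]

theorem AsC_contDiff (g : E 2 → ℝ) (hg : g = Ga ∨ g = Gb) : ContDiff ℝ 1 g := by
  rcases hg with rfl | rfl
  · exact AsC_contDiff_Ga
  · exact AsC_contDiff_Gb

/-- the inequality of `Adm` from the Poincare inequality -/
theorem AsC_poin (u : E 2 → ℝ) (hu : ContDiff ℝ 1 u) (hc : HasCompactSupport u) (hm : mass u = 1)
    (hcen : ∀ j, ∫ x, u x ^ 2 * tf gc j x = 0) (ε : ℝ) (e : E 2) (he : ‖e‖ = 1)
    (hP : ∀ w : E 2 → ℝ, ContDiff ℝ 1 w → (∀ x, |w x| ≤ 10000 ∧ ∀ i, |pd i w x| ≤ 10000) →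
        kap * ((∫ x, u x ^ 2 * w x ^ 2) - (∫ x, u x ^ 2 * w x) ^ 2) ≤ (∫ x, u x ^ 2 * dot w w x) + ε) :
    kap * (∫ x, u x ^ 2 * (gc (‖x‖ ^ 2) * inner ℝ x e) ^ 2) ≤ 1 + ε := by
  have hw := contDiff_we e
  have h1 := hP (fun x : E 2 => gc (‖x‖ ^ 2) * inner ℝ x e) hw
    (fun x => ⟨(we_bound e he x).1, (we_bound e he x).2.1⟩)
  have h2 : ∫ x, u x ^ 2 * (gc (‖x‖ ^ 2) * inner ℝ x e) = 0 := by
    have h3 := LcA_lin u hu hc (f := tf gc 0) (g := tf gc 1) (contDiff_tf_gc 0).continuous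
      (contDiff_tf_gc 1).continuous (e 0) (e 1)
    rw [hcen 0, hcen 1, mul_zero, mul_zero, add_zero] at h3
    rw [← h3]
    refine integral_congr_ae (Filter.Eventually.of_forall fun x => ?_)
    show u x ^ 2 * (gc (‖x‖ ^ 2) * inner ℝ x e) = u x ^ 2 * (e 0 * tf gc 0 x + e 1 * tf gc 1 x)
    rw [we_eq]
  have h4 : ∫ x, u x ^ 2 * dot (fun y : E 2 => gc (‖y‖ ^ 2) * inner ℝ y e)
      (fun y : E 2 => gc (‖y‖ ^ 2) * inner ℝ y e) x ≤ ∫ x, u x ^ 2 * (1 : ℝ) :=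
    LcA_mono u hu hc (continuous_dot _ _ hw hw) continuous_const (fun x => (we_bound e he x).2.2)
  rw [LcA_const u hm] at h4
  rw [h2] at h1
  have h5 : ((∫ x, u x ^ 2 * (gc (‖x‖ ^ 2) * inner ℝ x e) ^ 2) - (0 : ℝ) ^ 2) =
      ∫ x, u x ^ 2 * (gc (‖x‖ ^ 2) * inner ℝ x e) ^ 2 := by ring
  rw [h5] at h1
  linarith

/-- the form on the span of `1, g, tf φ 0, tf φ 1` -/
theorem AsC_form (φ : ℝ → ℝ) (u g : E 2 → ℝ) (κ η : ℝ)
    (h : ∀ c0 c1 c2 c3 : ℝ, η * (c0 ^ 2 + c1 ^ 2 + c2 ^ 2 + c3 ^ 2)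
        ≤ QQ u κ (fun x => c0 + (c1 * g x + c2 * tf φ 0 x + c3 * tf φ 1 x))) (c : Fin 4 → ℝ) :
    ∫ x, u x ^ 2 * dot
        (fun y => ∑ i, c i * (![fun _ => (1 : ℝ), g, tf φ 0, tf φ 1] : Fin 4 → E 2 → ℝ) i y)
        (fun y => ∑ i, c i * (![fun _ => (1 : ℝ), g, tf φ 0, tf φ 1] : Fin 4 → E 2 → ℝ) i y) x
      ≤ κ * (∫ x, u x ^ 2 * (∑ i, c i * (![fun _ => (1 : ℝ), g, tf φ 0, tf φ 1] : Fin 4 → E 2 → ℝ) i x) ^ 2)
        - η * ∑ i, c i ^ 2 := by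
  have e1 : ∀ y : E 2, ∑ i, c i * (![fun _ => (1 : ℝ), g, tf φ 0, tf φ 1] : Fin 4 → E 2 → ℝ) i y =
      c 0 + (c 1 * g y + c 2 * tf φ 0 y + c 3 * tf φ 1 y) := by
    intro y
    rw [Fin.sum_univ_four]
    show c 0 * 1 + c 1 * g y + c 2 * tf φ 0 y + c 3 * tf φ 1 y = _
    ring
  have e2 : (fun y : E 2 => ∑ i, c i * (![fun _ => (1 : ℝ), g, tf φ 0, tf φ 1] : Fin 4 → E 2 → ℝ) i y) =
      fun y => c 0 + (c 1 * g y + c 2 * tf φ 0 y + c 3 * tf φ 1 y) := funext e1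
  have e3 : (∫ x, u x ^ 2 * (∑ i, c i * (![fun _ => (1 : ℝ), g, tf φ 0, tf φ 1] : Fin 4 → E 2 → ℝ) i x) ^ 2) =
      ∫ x, u x ^ 2 * (c 0 + (c 1 * g x + c 2 * tf φ 0 x + c 3 * tf φ 1 x)) ^ 2 := by
    refine integral_congr_ae (Filter.Eventually.of_forall fun x => ?_)
    show u x ^ 2 * (∑ i, c i * (![fun _ => (1 : ℝ), g, tf φ 0, tf φ 1] : Fin 4 → E 2 → ℝ) i x) ^ 2 = _
    rw [e1]
  rw [e3, e2, Fin.sum_univ_four]
  have h1 := h (c 0) (c 1) (c 2) (c 3)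
  unfold QQ at h1
  linarith

theorem general_small (φ : ℝ → ℝ) (hφ : ContDiff ℝ 1 φ)
    (b : ℝ) (hb0 : 0 ≤ b) (hb : ∀ (j : Fin 2) (x : E 2), |tf φ j x| ≤ b ∧ ∀ i, |pd i (tf φ j) x| ≤ b)
    (m : ℝ) (hm0 : 0 < m)
    (HC : ∀ θ : ℝ, 0 < θ → ∃ ε0 : ℝ, 0 < ε0 ∧ ∀ u, Adm ε0 u → ∀ (σ : ℝ) (α p q : ℂ),
      m * (‖α‖ ^ 2 + ‖p‖ ^ 2 + ‖q‖ ^ 2) - θ * (σ ^ 2 + ‖α‖ ^ 2 + ‖p‖ ^ 2 + ‖q‖ ^ 2)
        ≤ QQ u gam (Wre nFp φ σ α p q) + QQ u gam (Wim nFp φ σ α p q))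
    (δ : ℝ) (hδ : 0 < δ) (hδ2 : 12 * δ * (1 + b ^ 2) ≤ m)
    (Ω : Set (E 2)) (hΩ : IsOpen Ω) (hne : Ω.Nonempty) (h1 : dirEig Ω 1 ≤ bz 2) :
    dirEig Ω 4 ≤ bz 6 + δ := by
  by_contra hcon
  push Not at hcon
  have h2c : ((2 : ℕ) : ℝ) = 2 := by norm_num
  have hlam : 0 < bz 2 := bz_pos 2 le_rfl
  have hgl := gam_lo
  have hg : 0 < gam := by linarith
  have hg6 : bz 6 = bz 2 + gam := by unfold gam; ring
  -- constants
  obtain ⟨k, hk, hK⟩ := even_lower (bz 2 + 1) (by linarith)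
  obtain ⟨θ, hθ⟩ : ∃ θ : ℝ, θ = min (δ * k / 4) (m / 4) := ⟨_, rfl⟩
  have hθ0 : 0 < θ := by rw [hθ]; exact lt_min (by positivity) (by positivity)
  have hθ1 : θ ≤ δ * k / 4 := by rw [hθ]; exact min_le_left _ _
  have hθ2 : θ ≤ m / 4 := by rw [hθ]; exact min_le_right _ _
  obtain ⟨ε1, hε1, hC⟩ := HC θ hθ0
  obtain ⟨ε2, hε2, hP⟩ := poincare 10000 ε1 δ (by norm_num) hε1 hδ
  obtain ⟨A2, hA20, hA2⟩ := tg_bound (N := 2) nFp contDiff_nFp AsC_nFp_out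
  obtain ⟨A, hA⟩ : ∃ A : ℝ, A = 1 + b + 2 * A2 := ⟨_, rfl⟩
  have hA0 : 0 ≤ A := by rw [hA]; positivity
  obtain ⟨R, hR⟩ : ∃ R : ℝ, R = √(2 * (bz 2 + 1 + 2)) := ⟨_, rfl⟩
  have hR0 : 0 ≤ R := by rw [hR]; exact Real.sqrt_nonneg _
  obtain ⟨η, hη⟩ : ∃ η : ℝ, η = min (gam / 2) (min (δ * k) m / (8 * (7 + 6 * b ^ 2))) := ⟨_, rfl⟩
  have hηpos : 0 < η := by
    rw [hη]
    exact lt_min (by positivity) (div_pos (lt_min (by positivity) hm0) (by positivity))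
  obtain ⟨M, hM⟩ : ∃ M : ℝ, M = 4 * 4 * A ^ 2 * R + 1 := ⟨_, rfl⟩
  have hM1 : 0 ≤ 4 * 4 * A ^ 2 * R := by positivity
  have hMpos : 0 < M := by linarith
  obtain ⟨ε, hε⟩ : ∃ ε : ℝ, ε = min (min ε1 ε2) (min 1 (η / M)) := ⟨_, rfl⟩
  have hεpos : 0 < ε := by
    rw [hε]; exact lt_min (lt_min hε1 hε2) (lt_min one_pos (div_pos hηpos hMpos))
  have hεa : ε ≤ ε1 := by rw [hε]; exact (min_le_left _ _).trans (min_le_left _ _)
  have hεb : ε ≤ ε2 := by rw [hε]; exact (min_le_left _ _).trans (min_le_right _ _)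
  have hεc : ε ≤ 1 := by rw [hε]; exact (min_le_right _ _).trans (min_le_left _ _)
  have hεM : ε * M ≤ η := by
    have h2 : ε ≤ η / M := by rw [hε]; exact (min_le_right _ _).trans (min_le_right _ _)
    calc ε * M ≤ η / M * M := mul_le_mul_of_nonneg_right h2 hMpos.le
      _ = η := div_mul_cancel₀ _ hMpos.ne'
  -- the near-minimiser
  obtain ⟨w, hw, hwm, hwe⟩ := near_min (N := 2) (by norm_num) Ω hΩ hne (ε ^ 2) (by positivity)
  have hεsq : ε ^ 2 ≤ 1 := pow_le_one₀ hεpos.le hεc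
  obtain ⟨a, ha⟩ := gc_centre w hw.1.continuous hw.2.1 hwm
  have hu : IsTest (trS a Ω) (fun x => w (x + a)) := isTest_tr a Ω w hw
  have hmass : mass (fun x => w (x + a)) = 1 := (mass_tr a w).trans hwm
  have hen : energy (fun x => w (x + a)) ≤ dirEig (trS a Ω) 1 + ε ^ 2 := by
    rw [energy_tr, dirEig_tr]
    exact hwe
  have hopen : IsOpen (trS a Ω) := trS_open a Ω hΩ
  have h1' : dirEig (trS a Ω) 1 ≤ bz 2 := by
    rw [dirEig_tr]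
    exact h1
  have h4' : bz 6 + δ < dirEig (trS a Ω) 4 := by
    rw [dirEig_tr]
    exact hcon
  obtain ⟨u, hudef⟩ : ∃ u : E 2 → ℝ, u = fun x => w (x + a) := ⟨_, rfl⟩
  obtain ⟨Ω', hΩ'⟩ : ∃ Ω' : Set (E 2), Ω' = trS a Ω := ⟨_, rfl⟩
  have ha' : ∀ j, ∫ x, u x ^ 2 * tf gc j x = 0 := by
    rw [hudef]
    exact ha
  rw [← hudef, ← hΩ'] at hu
  rw [← hudef] at hmass
  rw [← hudef, ← hΩ'] at hen
  rw [← hΩ'] at hopen h1' h4'
  have hL0 : 0 ≤ dirEig Ω' 1 := dirEig_nonneg Ω' 1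
  have hen' : energy u ≤ bz 2 + 1 := by linarith
  have hEL : ∀ v, IsTest Ω' v →
      |(∫ x, dot u v x) - dirEig Ω' 1 * ∫ x, u x * v x| ≤ ε * √(energy v) := by
    intro v hv
    have h2 := form_cs Ω' (dirEig Ω' 1) (ε ^ 2) hL0 (eig_one_le Ω') u hu
      (by rw [hmass, mul_one]; exact hen) v hv
    rwa [Real.sqrt_sq hεpos.le] at h2
  have hadm : Adm ε1 u := by
    refine ⟨⟨Ω', dirEig Ω' 1, hu, hL0, h1', fun v hv => ?_⟩, hmass, hen', ha', fun e he => ?_⟩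
    · exact (hEL v hv).trans (mul_le_mul_of_nonneg_right hεa (Real.sqrt_nonneg _))
    · exact AsC_poin u hu.1 hu.2.1 hmass ha' ε1 e he
        (hP Ω' u (dirEig Ω' 1) ε hopen hu hmass hL0 h1' hen' hεpos.le hεb hEL h4')
  have hk' : k ≤ ∫ x, u x ^ 2 * (Ga x ^ 2 + Gb x ^ 2) := by
    have h2 := hK u hu.1 hu.2.1 hmass hen'
    have h3 : (∫ x, u x ^ 2 * (Ga x ^ 2 + Gb x ^ 2)) = ∫ x, u x ^ 2 * Pk 2 nFp (‖x‖ ^ 2) := by
      refine integral_congr_ae (Filter.Eventually.of_forall fun x => ?_)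
      show u x ^ 2 * (Ga x ^ 2 + Gb x ^ 2) = u x ^ 2 * Pk 2 nFp (‖x‖ ^ 2)
      rw [AsC_sq]
    rw [h3]
    exact h2
  obtain ⟨g, hg2, hQ⟩ := block_exists φ hφ b hb0 (fun j x => (hb j x).1) m k δ θ hm0 hk hδ hδ2 hθ0.le
    hθ1 hθ2 u hu.1 hu.2.1 hmass hk' (hC u hadm)
  rw [← hη] at hQ
  have hcard : Fintype.card (Fin 4) = 4 := Fintype.card_fin 4
  have hsmall : ε * (4 * (Fintype.card (Fin 4) : ℝ) * A ^ 2 * √(2 * (bz 2 + 1 + ((2 : ℕ) : ℝ)))) ≤ η := by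
    rw [hcard, h2c, ← hR]
    push_cast
    have h2 : ε * (4 * 4 * A ^ 2 * R) ≤ ε * M := mul_le_mul_of_nonneg_left (by linarith) hεpos.le
    linarith
  have hfin := trial_bound (ι := Fin 4) (by rw [hcard]; norm_num) Ω' u hu hmass
    (dirEig Ω' 1) (bz 2) (gam + δ) η A ε hL0 h1' hen'
    (![fun _ => (1 : ℝ), g, tf φ 0, tf φ 1] : Fin 4 → E 2 → ℝ)
    (by
      intro i
      fin_cases i
      · exact contDiff_const
      · exact AsC_contDiff g hg2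
      · exact contDiff_tf φ hφ 0
      · exact contDiff_tf φ hφ 1)
    hA0
    (by
      intro i x
      fin_cases i
      · refine ⟨?_, fun j => ?_⟩
        · show |(1 : ℝ)| ≤ A
          rw [abs_one]
          linarith
        · show |pd j (fun _ => (1 : ℝ)) x| ≤ A
          rw [pd_const, abs_zero]
          exact hA0
      · exact ⟨(AsC_bound A2 hA2 g hg2 x).1.trans (by linarith),
          fun i => ((AsC_bound A2 hA2 g hg2 x).2 i).trans (by linarith)⟩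
      · exact ⟨(hb 0 x).1.trans (by linarith), fun i => ((hb 0 x).2 i).trans (by linarith)⟩
      · exact ⟨(hb 1 x).1.trans (by linarith), fun i => ((hb 1 x).2 i).trans (by linarith)⟩)
    hεpos.le hEL hηpos hsmall (AsC_form φ u g (gam + δ) η hQ)
  rw [hcard] at hfin
  rw [hg6] at h4'
  linarith

end Pool.Agent.H94.GP
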