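import Pool.Agent.H94.GP.Dt

/-!
# ZiB: the zone inside the disk from the checks on sixteen subintervals
-/

set_option autoImplicit false

open Pool.Agent.H94.ER Pool.Agent.H94.SP

namespace Pool.Agent.H94.GP

theorem zi_all (tQ tE : Fin 16 → TM) (Q E : Fin 16 → ℝ → ℝ) (hQ : ∀ j, (tQ j).ok DD (Q j))
    (hE : ∀ j, (tE j).ok DD (E j)) (X A Z : Fin 16 → List ℤ) (K : Fin 33 → List ℤ)
    (h : ∀ i : ℕ, i < 16 → (zic1 tQ tE X A Z K 8 i 1 16 && zic2 tQ tE X A Z K 8 i 1 16) = true)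
    (r : ℝ) (hr0 : 0 < r) (hr1 : r < 1) (a' ξ η σ : ℝ) (α p q : ℂ) :
    0 ≤ floc (fun j => (Q j (r ^ 2) + E j (r ^ 2) - bz 2 * pf (X j) (r ^ 2)
            - (2 * kj j * pf (pder (A j)) (r ^ 2) + 2 * r ^ 2 * pf (pder (Z j)) (r ^ 2)
              + (kj j + 2) * pf (Z j) (r ^ 2))) * r ^ kj j)
          (fun j => (kj j * pf (A j) (r ^ 2) + r ^ 2 * pf (Z j) (r ^ 2) - r ^ 2 * pf (pder (X j)) (r ^ 2)
            - 1 / 2 * kj j * pf (X j) (r ^ 2)) * r ^ kj j / r)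
          (fun j => kj j * (pf (A j) (r ^ 2) - 1 / 2 * pf (X j) (r ^ 2)) * r ^ kj j / r)
          (fun j => pf (X j) (r ^ 2) * r ^ kj j) a' ξ η σ α p q := by
  have h16 : 0 ≤ 16 * r := by positivity
  have hf1 := Nat.floor_le h16
  have hf2 := Nat.lt_floor_add_one (16 * r)
  have hf3 : ⌊16 * r⌋₊ < 16 := by
    rw [Nat.floor_lt h16]
    norm_num
    linarith
  have hh := h ⌊16 * r⌋₊ hf3
  rw [Bool.and_eq_true] at hh
  refine zi_pos tQ tE Q E hQ hE X A Z K 8 (by norm_num) (⌊16 * r⌋₊ : ℤ) 1 16 (by positivity) (by norm_num)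
    (by norm_num) (by omega) hh.1 hh.2 r hr0 ?_ ?_ a' ξ η σ α p q
  · push_cast
    exact hf1
  · push_cast
    exact hf2.le

/-- models of `E_j`, region II, inside -/
def tE2 : Fin 16 → TM := tE 100 4485088 7828978 4145505 3893639 140804 25671 (-46623) 83017 (-83018)

/-- models of `E_j`, region III, inside -/
def tE3 : Fin 16 → TM := tE 100 4864478 6141834 3320291 2304688 288556 111611 (-159138) 129289 (-65964)

end Pool.Agent.H94.GP
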