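import Pool.Agent.H94.GP.PhA
import Pool.Agent.H94.GP.ZoC
import Pool.Agent.H94.GP.ZiB
import Pool.Agent.H94.GP.AsC
import Pool.Agent.H23.GP.FarA

/-!
# AsE: regions with plain fields: from the kernel checks to the integral inequality
-/

set_option autoImplicit false

open MeasureTheory Pool.Agent.H94.ER Pool.Agent.H94.SP

namespace Pool.Agent.H94.GP

theorem floc_sp (w0 w1 : ℤ) (T R S X : Fin 16 → ℝ) (a ξ η σ : ℝ) (α p q : ℂ) (r : ℝ) :
    floc (fun j => T j + Spz w0 w1 j * r ^ kj j) R S X a ξ η σ α p q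
      = floc T R S X a ξ η σ α p q + a ^ 2 * ((w0 : ℝ) / 1000000 * σ ^ 2 + (w1 : ℝ) / 1000000 * ‖q‖ ^ 2) := by
  have h0 : (Cj σ α p q 0).re = σ ^ 2 := by
    simp only [Cj, Matrix.cons_val_zero]
    rw [← Complex.ofReal_pow, Complex.ofReal_re]
  have h14 : (Cj σ α p q 14).re = ‖q‖ ^ 2 := by
    rw [← Complex.normSq_eq_norm_sq, Complex.normSq_apply]
    simp [Cj]
  have e : ∀ j, (a ^ 2 * ((T j + Spz w0 w1 j * r ^ kj j) * (Cj σ α p q j).re)
      - 2 * a * (ξ * (R j * (Cj σ α p q j).re) + η * (S j * (Cj σ α p q j).im))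
      + (ξ ^ 2 + η ^ 2) * (X j * (Cj σ α p q j).re))
      = (a ^ 2 * (T j * (Cj σ α p q j).re)
      - 2 * a * (ξ * (R j * (Cj σ α p q j).re) + η * (S j * (Cj σ α p q j).im))
      + (ξ ^ 2 + η ^ 2) * (X j * (Cj σ α p q j).re)) + a ^ 2 * (Spz w0 w1 j * r ^ kj j * (Cj σ α p q j).re) := by
    intro j
    ring
  unfold floc
  rw [Finset.sum_congr rfl fun j _ => e j, Finset.sum_add_distrib]
  congr 1
  rw [← Finset.mul_sum, sum16]
  have k0 : kj 0 = 0 := rfl
  have k14 : kj 14 = 0 := rfl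
  have z : ∀ j : Fin 16, j ≠ 0 → j ≠ 14 → Spz w0 w1 j = 0 := fun j h1 h2 => by simp [Spz, h1, h2]
  have z0 : Spz w0 w1 0 = (w0 : ℝ) / 1000000 := by simp [Spz]
  have z14 : Spz w0 w1 14 = (w1 : ℝ) / 1000000 := by simp [Spz]
  rw [z 1 (by decide) (by decide), z 2 (by decide) (by decide), z 3 (by decide) (by decide),
    z 4 (by decide) (by decide), z 5 (by decide) (by decide), z 6 (by decide) (by decide),
    z 7 (by decide) (by decide), z 8 (by decide) (by decide), z 9 (by decide) (by decide),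
    z 10 (by decide) (by decide), z 11 (by decide) (by decide), z 12 (by decide) (by decide),
    z 13 (by decide) (by decide), z 15 (by decide) (by decide), z0, z14, k0, k14, h0, h14]
  ring

theorem nFp_in' (s : ℝ) (h : s ≤ 1) : nFp s = nF s := by
  unfold nFp nF Fp
  rw [if_pos h]

theorem nFp_der_in (s : ℝ) (h : s < 1) : HasDerivAt nFp (deriv nF s) s := by
  refine (NF_nF_diff s h.le).hasDerivAt.congr_of_eventuallyEq ?_
  filter_upwards [gt_mem_nhds h] with t ht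
  exact nFp_in' t ht.le

theorem nFp_val_out (s : ℝ) (h : 1 ≤ s) : nFp s = 1 / s := by
  rw [nFp_out s h, one_div]

theorem nFp_der_out (s : ℝ) (h : 1 < s) : HasDerivAt nFp (-(1 / s ^ 2)) s := by
  have h0 : s ≠ 0 := by linarith
  have h1 := hasDerivAt_inv h0
  have h2 : HasDerivAt nFp (-(s ^ 2)⁻¹) s := by
    refine h1.congr_of_eventuallyEq ?_
    filter_upwards [lt_mem_nhds h] with t ht
    rw [nFp_val_out t ht.le, one_div]
  rw [one_div]
  exact h2

theorem pw_in (f g : ℝ → ℝ) (S s : ℝ) (h : s ≤ 1) : pw f g S s = f s := if_pos h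

theorem pw_mid (f g : ℝ → ℝ) (S s : ℝ) (h : 1 < s) (h2 : s ≤ S) : pw f g S s = g s := by
  unfold pw
  rw [if_neg (not_le.2 h), if_pos h2]

theorem pw_far (f g : ℝ → ℝ) (S s : ℝ) (hS : 1 ≤ S) (h : S < s) : pw f g S s = 0 := by
  unfold pw
  rw [if_neg (by linarith), if_neg (not_le.2 h)]

theorem pw_der_in (f g : ℝ → ℝ) (S s f' : ℝ) (h : s < 1) (hf : HasDerivAt f f' s) :
    HasDerivAt (pw f g S) f' s := by
  refine hf.congr_of_eventuallyEq ?_
  filter_upwards [gt_mem_nhds h] with t ht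
  exact pw_in f g S t ht.le

theorem pw_der_mid (f g : ℝ → ℝ) (S s g' : ℝ) (h : 1 < s) (h2 : s < S) (hg : HasDerivAt g g' s) :
    HasDerivAt (pw f g S) g' s := by
  refine hg.congr_of_eventuallyEq ?_
  filter_upwards [lt_mem_nhds h, gt_mem_nhds h2] with t ht ht2
  exact pw_mid f g S t ht ht2.le

theorem pw_der_far (f g : ℝ → ℝ) (S s : ℝ) (hS : 1 ≤ S) (h : S < s) :
    HasDerivAt (pw f g S) 0 s := by
  refine (hasDerivAt_const s (0 : ℝ)).congr_of_eventuallyEq ?_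
  filter_upwards [lt_mem_nhds h] with t ht
  exact pw_far f g S t hS ht

/-- the pointwise form -/
noncomputable def pwf (m c2 c6 c8 μ0 μ1 μ2 μ3 : ℝ) (X A D : Fin 16 → ℝ → ℝ) (σ : ℝ) (α p q : ℂ) (x : E 2)
    (a : ℝ) (b : Fin 2 → ℝ) : ℝ :=
  a ^ 2 * (qfun phf m c2 c6 c8 μ0 μ1 μ2 μ3 σ α p q x
            - bz 2 * (∑ j, X j (‖x‖ ^ 2) * hM (Cj σ α p q j) (kj j) x)
            - ∑ i, pd i (fun y => (∑ j, fld (A j) (D j) (Cj σ α p q j) (kj j) y : E 2) i) x)
          - 2 * a * (∑ i, b i * ((∑ j, fld (A j) (D j) (Cj σ α p q j) (kj j) x : E 2) i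
            - 1 / 2 * pd i (fun y : E 2 => ∑ j, X j (‖y‖ ^ 2) * hM (Cj σ α p q j) (kj j) y) x))
          + (∑ i, b i ^ 2) * (∑ j, X j (‖x‖ ^ 2) * hM (Cj σ α p q j) (kj j) x)

/-- almost every point is in one of the three open zones -/
theorem ae_zones (P : E 2 → Prop) (h1 : ∀ x : E 2, x ≠ 0 → ‖x‖ < 1 → P x)
    (h2 : ∀ x : E 2, 1 < ‖x‖ → ‖x‖ ^ 2 < 13 / 4 → P x) (h3 : ∀ x : E 2, 13 / 4 < ‖x‖ ^ 2 → P x) :
    ∀ᵐ x : E 2, P x := by
  have s0 : ∀ᵐ x : E 2, x ≠ 0 := by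
    have : (volume : Measure (E 2)) {(0 : E 2)} = 0 := measure_singleton _
    filter_upwards [compl_mem_ae_iff.2 this] with x hx
    simpa using hx
  have s1 : ∀ r : ℝ, r ≠ 0 → ∀ᵐ x : E 2, ‖x‖ ≠ r := by
    intro r hr
    have : (volume : Measure (E 2)) (Metric.sphere (0 : E 2) r) = 0 :=
      Measure.addHaar_sphere_of_ne_zero _ _ hr
    filter_upwards [compl_mem_ae_iff.2 this] with x hx
    intro h
    exact hx (by simpa using h)
  filter_upwards [s0, s1 1 one_ne_zero, s1 (√(13 / 4)) (by positivity)] with x x0 x1 x2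
  rcases lt_or_gt_of_ne x1 with h | h
  · exact h1 x x0 h
  · rcases lt_trichotomy (‖x‖ ^ 2) (13 / 4) with h' | h' | h'
    · exact h2 x h h'
    · exfalso
      apply x2
      rw [← h', Real.sqrt_sq (norm_nonneg x)]
    · exact h3 x h'

end Pool.Agent.H94.GP
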