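import Pool.Agent.H94.GP.AsE

/-!
# AsF: the integral inequality for a region with plain fields
-/

set_option autoImplicit false

open MeasureTheory Pool.Agent.H94.ER Pool.Agent.H94.SP

namespace Pool.Agent.H94.GP

/-- fields `X` -/
noncomputable def plX (X oX : Fin 16 → List ℤ) (j : Fin 16) : ℝ → ℝ := pw (pf (X j)) (gX X oX j) (13 / 4)

/-- fields `A`, `D` -/
noncomputable def plA (A oA : Fin 16 → List ℤ) (j : Fin 16) : ℝ → ℝ := pw (pf (A j)) (gA A oA j) (13 / 4)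

theorem gX_hasDerivAt (X oX : Fin 16 → List ℤ) (j : Fin 16) (s : ℝ) :
    HasDerivAt (gX X oX j) (gXd X oX j s) s := fX_hasDerivAt _ _ _ s

theorem gA_hasDerivAt (A oA : Fin 16 → List ℤ) (j : Fin 16) (s : ℝ) :
    HasDerivAt (gA A oA j) (gAd A oA j s) s := fA_hasDerivAt _ _ s

theorem plX_contDiff (X oX : Fin 16 → List ℤ) (j : Fin 16) : ContDiff ℝ 1 (plX X oX j) := by
  refine pw_contDiff _ _ _ (by norm_num) (fun s _ => (contDiff_pf (X j) 1).contDiffAt)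
    (fun s _ _ => (contDiff_fX _ _ _ 1).contDiffAt) ?_ ?_ ?_ ?_
  · unfold gX fX
    norm_num
  · rw [(pf_hasDerivAt (X j) 1).deriv, (gX_hasDerivAt X oX j 1).deriv]
    unfold gXd fXd
    ring
  · unfold gX fX
    norm_num
  · rw [(gX_hasDerivAt X oX j _).deriv]
    unfold gXd fXd
    norm_num

theorem plX_zero (X oX : Fin 16 → List ℤ) (j : Fin 16) (s : ℝ) (h : 13 / 4 ≤ s) : plX X oX j s = 0 := by
  rcases h.lt_or_eq with h | h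
  · exact pw_far _ _ _ _ (by norm_num) h
  · rw [← h]
    unfold plX
    rw [pw_mid _ _ _ _ (by norm_num) le_rfl]
    unfold gX fX
    norm_num

theorem plA_lip (A oA : Fin 16 → List ℤ) (j : Fin 16) : LipR (plA A oA j) := by
  refine pw_lip _ _ _ (by norm_num) (fun s _ _ => (contDiff_pf (A j) 1).contDiffAt)
    (fun s _ _ => (contDiff_fA _ _ 1).contDiffAt) ?_ ?_
  · unfold gA fA
    norm_num
  · unfold gA fA
    norm_num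

theorem plA_zero (A oA : Fin 16 → List ℤ) (j : Fin 16) (s : ℝ) (h : 13 / 4 ≤ s) : plA A oA j s = 0 := by
  rcases h.lt_or_eq with h | h
  · exact pw_far _ _ _ _ (by norm_num) h
  · rw [← h]
    unfold plA
    rw [pw_mid _ _ _ _ (by norm_num) le_rfl]
    unfold gA fA
    norm_num

theorem floc_drop (w0 w1 : ℤ) (T R S X : Fin 16 → ℝ) (a ξ η σ : ℝ) (α p q : ℂ) (r : ℝ)
    (h : 0 ≤ floc (fun j => T j + Spz w0 w1 j * r ^ kj j) R S X a ξ η σ α p q)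
    (hw : (w0 : ℝ) * σ ^ 2 + (w1 : ℝ) * ‖q‖ ^ 2 ≤ 0) : 0 ≤ floc T R S X a ξ η σ α p q := by
  rw [floc_sp] at h
  have h2 : (w0 : ℝ) / 1000000 * σ ^ 2 + (w1 : ℝ) / 1000000 * ‖q‖ ^ 2 ≤ 0 := by
    have : (w0 : ℝ) / 1000000 * σ ^ 2 + (w1 : ℝ) / 1000000 * ‖q‖ ^ 2
        = ((w0 : ℝ) * σ ^ 2 + (w1 : ℝ) * ‖q‖ ^ 2) / 1000000 := by ring
    rw [this]
    exact div_nonpos_of_nonpos_of_nonneg hw (by norm_num)
  have := mul_nonpos_of_nonneg_of_nonpos (sq_nonneg a) h2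
  linarith

theorem plain_region (m c2 c6 c8 μ0 μ1 μ2 μ3 wi0 wi1 wo0 wo1 wf0 wf1 : ℤ)
    (X A Z oX oA oZ : Fin 16 → List ℤ) (K oK : Fin 33 → List ℤ)
    (Hin : ∀ i : ℕ, i < 16 → (zic1 tQ (tE m c2 c6 c8 μ0 μ1 μ2 μ3 wi0 wi1) X A Z K 8 i 1 16
      && zic2 tQ (tE m c2 c6 c8 μ0 μ1 μ2 μ3 wi0 wi1) X A Z K 8 i 1 16) = true)
    (Hout : ∀ i : ℕ, i < 16 → zoc m c2 c6 c8 μ0 μ1 μ2 μ3 wo0 wo1 180000 X A Z oX oA oZ oK 8
      (40000 + 2007 * (i : ℤ)) 2007 80000 = true)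
    (Hfar : ∀ (r : ℝ), 0 < r → 13 / 4 ≤ r ^ 2 → ∀ (a ξ η σ : ℝ) (α p q : ℂ),
      0 ≤ floc (Pool.Agent.H23.GP.Tf (m / 1000000) (c2 / 1000000) (c6 / 1000000) (c8 / 1000000) (μ0 / 1000000)
          (μ1 / 1000000) (μ2 / 1000000) (μ3 / 1000000) (wf0 / 1000000) (wf1 / 1000000)
          (((180000 : ℤ) : ℝ) / 1000000) (gc (r ^ 2)) r)
        (fun _ => 0) (fun _ => 0) (fun _ => 0) a ξ η σ α p q)
    (h0 : 0 ≤ μ0) (h1 : 0 ≤ μ1) (h2 : 0 ≤ μ2) (h3 : μ3 ^ 2 ≤ μ1 * μ2) :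
    ∃ K : ℝ, 0 ≤ K ∧ ∀ (ε : ℝ) (u : E 2 → ℝ), 0 ≤ ε → Adm ε u → ∀ (σ : ℝ) (α p q : ℂ),
      (wi0 : ℝ) * σ ^ 2 + (wi1 : ℝ) * ‖q‖ ^ 2 ≤ 0 → (wo0 : ℝ) * σ ^ 2 + (wo1 : ℝ) * ‖q‖ ^ 2 ≤ 0 →
      (wf0 : ℝ) * σ ^ 2 + (wf1 : ℝ) * ‖q‖ ^ 2 ≤ 0 →
      (m : ℝ) / 1000000 * (‖α‖ ^ 2 + ‖p‖ ^ 2 + ‖q‖ ^ 2) - ε * (K * nB σ α p q)
        ≤ QQ u gam (Wre nFp phf σ α p q) + QQ u gam (Wim nFp phf σ α p q) := by
  have r0 : (0 : ℝ) ≤ (μ0 : ℝ) / 1000000 := div_nonneg (by exact_mod_cast h0) (by norm_num)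
  have r1 : (0 : ℝ) ≤ (μ1 : ℝ) / 1000000 := div_nonneg (by exact_mod_cast h1) (by norm_num)
  have r2 : (0 : ℝ) ≤ (μ2 : ℝ) / 1000000 := div_nonneg (by exact_mod_cast h2) (by norm_num)
  have r3 : ((μ3 : ℝ) / 1000000) ^ 2 ≤ (μ1 : ℝ) / 1000000 * ((μ2 : ℝ) / 1000000) := by
    have : ((μ3 : ℝ)) ^ 2 ≤ (μ1 : ℝ) * μ2 := by exact_mod_cast h3
    have e1 : ((μ3 : ℝ) / 1000000) ^ 2 = (μ3 : ℝ) ^ 2 / 1000000000000 := by ring
    have e2 : (μ1 : ℝ) / 1000000 * ((μ2 : ℝ) / 1000000) = (μ1 : ℝ) * μ2 / 1000000000000 := by ring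
    rw [e1, e2]
    gcongr
  obtain ⟨K', hK0, hK⟩ := cert_int phf contDiff_phf (m / 1000000) (c2 / 1000000) (c6 / 1000000) (c8 / 1000000)
    (μ0 / 1000000) (μ1 / 1000000) (μ2 / 1000000) (μ3 / 1000000) r0 r1 r2 r3 (plX X oX) (plA A oA) (plA Z oZ)
    (13 / 4) (by norm_num) (plX_contDiff X oX) (plX_zero X oX) (plA_lip A oA) (plA_lip Z oZ) (plA_zero A oA)
    (plA_zero Z oZ)
  refine ⟨K', hK0, fun ε u hε hu σ α p q hwi hwo hwf => hK ε u hε hu σ α p q ?_⟩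
  refine ae_zones _ (fun x hx hx1 a b => ?_) (fun x hx hx1 a b => ?_) (fun x hx a b => ?_)
  · -- inside
    have hr0 : 0 < ‖x‖ := norm_pos_iff.2 hx
    have hs0 : 0 < ‖x‖ ^ 2 := by positivity
    have hs1 : ‖x‖ ^ 2 < 1 := by nlinarith
    obtain ⟨ξ, η, α', p', q', n1, n2, n3, h⟩ := pt_gen phf (m / 1000000) (c2 / 1000000) (c6 / 1000000)
      (c8 / 1000000) (μ0 / 1000000) (μ1 / 1000000) (μ2 / 1000000) (μ3 / 1000000) (plX X oX) (plA A oA) (plA Z oZ)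
      x hx (fun j => pf (pder (X j)) (‖x‖ ^ 2)) (fun j => pf (pder (A j)) (‖x‖ ^ 2))
      (fun j => pf (pder (Z j)) (‖x‖ ^ 2))
      (fun j => pw_der_in _ _ _ _ _ hs1 (pf_hasDerivAt _ _)) (fun j => pw_der_in _ _ _ _ _ hs1 (pf_hasDerivAt _ _))
      (fun j => pw_der_in _ _ _ _ _ hs1 (pf_hasDerivAt _ _)) _ _ (nFp_der_in _ hs1) (phf_hasDerivAt_in _ hs1)
      σ α p q a b
    rw [h]
    have key := zi_all tQ (tE m c2 c6 c8 μ0 μ1 μ2 μ3 wi0 wi1) fQj (fE m c2 c6 c8 μ0 μ1 μ2 μ3 wi0 wi1) ok_tQ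
      (ok_tE m c2 c6 c8 μ0 μ1 μ2 μ3 wi0 wi1) X A Z K Hin ‖x‖ hr0 hx1 a ξ η σ α' p' q'
    refine floc_drop wi0 wi1 _ _ _ _ a ξ η σ α' p' q' ‖x‖ ?_ (by rw [n3]; exact hwi)
    refine key.trans_eq (floc_congr _ _ _ _ _ _ _ _ _ _ _ _ _ _ _ (fun j => ?_) (fun j => ?_)
      (fun j => ?_) (fun j => ?_))
    · simp only [plX, plA, pw_in _ _ _ _ hs1.le, fQj, fE, nFp_in' _ hs1.le, phf_in _ hs1.le]
      ring
    · simp only [plX, plA, pw_in _ _ _ _ hs1.le]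
    · simp only [plX, plA, pw_in _ _ _ _ hs1.le]
    · simp only [plX, pw_in _ _ _ _ hs1.le]
  · -- outside
    have hr0 : 0 < ‖x‖ := by linarith
    have hs1 : 1 < ‖x‖ ^ 2 := by nlinarith
    have hx0 : x ≠ 0 := norm_pos_iff.1 hr0
    have hsq : √(‖x‖ ^ 2) = ‖x‖ := Real.sqrt_sq (norm_nonneg x)
    obtain ⟨ξ, η, α', p', q', n1, n2, n3, h⟩ := pt_gen phf (m / 1000000) (c2 / 1000000) (c6 / 1000000)
      (c8 / 1000000) (μ0 / 1000000) (μ1 / 1000000) (μ2 / 1000000) (μ3 / 1000000) (plX X oX) (plA A oA) (plA Z oZ)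
      x hx0 (fun j => gXd X oX j (‖x‖ ^ 2)) (fun j => gAd A oA j (‖x‖ ^ 2))
      (fun j => gAd Z oZ j (‖x‖ ^ 2))
      (fun j => pw_der_mid _ _ _ _ _ hs1 hx1 (gX_hasDerivAt _ _ _ _))
      (fun j => pw_der_mid _ _ _ _ _ hs1 hx1 (gA_hasDerivAt _ _ _ _))
      (fun j => pw_der_mid _ _ _ _ _ hs1 hx1 (gA_hasDerivAt _ _ _ _)) _ _ (nFp_der_out _ hs1)
      (phf_hasDerivAt_out _ hs1) σ α p q a b
    rw [h]
    have key := zo_all m c2 c6 c8 μ0 μ1 μ2 μ3 wo0 wo1 180000 X A Z oX oA oZ oK 8 (by norm_num) Hout ‖x‖ hx.le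
      hx1 a ξ η σ α' p' q'
    refine floc_drop wo0 wo1 _ _ _ _ a ξ η σ α' p' q' ‖x‖ ?_ (by rw [n3]; exact hwo)
    refine key.trans_eq (floc_congr _ _ _ _ _ _ _ _ _ _ _ _ _ _ _ (fun j => ?_) (fun j => ?_)
      (fun j => ?_) (fun j => ?_))
    · simp only [plX, plA, pw_mid _ _ _ _ hs1 hx1.le, nFp_val_out _ hs1.le, phf_out _ hs1, hsq]
      ring
    · simp only [plX, plA, pw_mid _ _ _ _ hs1 hx1.le]
    · simp only [plX, plA, pw_mid _ _ _ _ hs1 hx1.le]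
    · simp only [plX, pw_mid _ _ _ _ hs1 hx1.le]
  · -- far
    have hs1 : 1 < ‖x‖ ^ 2 := by linarith
    have hr0 : 0 < ‖x‖ := by
      rcases (norm_nonneg x).lt_or_eq with h | h
      · exact h
      · rw [← h] at hs1
        norm_num at hs1
    have hx0 : x ≠ 0 := norm_pos_iff.1 hr0
    have hsq : √(‖x‖ ^ 2) = ‖x‖ := Real.sqrt_sq (norm_nonneg x)
    have hS : (1 : ℝ) ≤ 13 / 4 := by norm_num
    obtain ⟨ξ, η, α', p', q', n1, n2, n3, h⟩ := pt_gen phf (m / 1000000) (c2 / 1000000) (c6 / 1000000)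
      (c8 / 1000000) (μ0 / 1000000) (μ1 / 1000000) (μ2 / 1000000) (μ3 / 1000000) (plX X oX) (plA A oA) (plA Z oZ)
      x hx0 (fun j => 0) (fun j => 0) (fun j => 0)
      (fun j => pw_der_far _ _ _ _ hS hx)
      (fun j => pw_der_far _ _ _ _ hS hx)
      (fun j => pw_der_far _ _ _ _ hS hx) _ _ (nFp_der_out _ hs1)
      (phf_hasDerivAt_out _ hs1) σ α p q a b
    rw [h]
    have key := Hfar ‖x‖ hr0 hx.le a ξ η σ α' p' q'
    refine floc_drop wf0 wf1 _ _ _ _ a ξ η σ α' p' q' ‖x‖ ?_ (by rw [n3]; exact hwf)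
    have hSp : ∀ j, Pool.Agent.H23.GP.Sp ((wf0 : ℝ) / 1000000) ((wf1 : ℝ) / 1000000) j = Spz wf0 wf1 j := by
      intro j
      fin_cases j <;> simp [Pool.Agent.H23.GP.Sp, Spz]
    refine key.trans_eq (floc_congr _ _ _ _ _ _ _ _ _ _ _ _ _ _ _ (fun j => ?_) (fun j => ?_)
      (fun j => ?_) (fun j => ?_))
    · simp only [plX, plA, pw_far _ _ _ _ hS hx, nFp_val_out _ hs1.le, phf_out _ hs1, hsq,
        Pool.Agent.H23.GP.Tf, hSp]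
      ring
    · simp only [plX, plA, pw_far _ _ _ _ hS hx]
      ring
    · simp only [plX, plA, pw_far _ _ _ _ hS hx]
      ring
    · simp only [plX, pw_far _ _ _ _ hS hx]
      ring

end Pool.Agent.H94.GP
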