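import Pool.Agent.H94.GP.Dto

/-! # Ko3c: kernel checks, region III, outside, intervals 8 to 11 -/

set_option autoImplicit false
set_option maxRecDepth 100000

namespace Pool.Agent.H94.GP

theorem ko3_8 : zo3 8 = true := by
  decide +kernel

theorem ko3_9 : zo3 9 = true := by
  decide +kernel

theorem ko3_10 : zo3 10 = true := by
  decide +kernel

theorem ko3_11 : zo3 11 = true := by
  decide +kernel

end Pool.Agent.H94.GP
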