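import Pool.Agent.H94.GP.AsF
import Pool.Agent.H94.GP.AsD
import Pool.Agent.H94.GP.Dto
import Pool.Agent.H94.GP.Kc2a
import Pool.Agent.H94.GP.Kc2b
import Pool.Agent.H94.GP.Kc2c
import Pool.Agent.H94.GP.Kc2d
import Pool.Agent.H94.GP.Kc3a
import Pool.Agent.H94.GP.Kc3b
import Pool.Agent.H94.GP.Kc3c
import Pool.Agent.H94.GP.Kc3d
import Pool.Agent.H94.GP.Ko2a
import Pool.Agent.H94.GP.Ko2b
import Pool.Agent.H94.GP.Ko2c
import Pool.Agent.H94.GP.Ko2d
import Pool.Agent.H94.GP.Ko3a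
import Pool.Agent.H94.GP.Ko3b
import Pool.Agent.H94.GP.Ko3c
import Pool.Agent.H94.GP.Ko3d
import Pool.Agent.H23.GP.FarB

/-!
# AsG: regions II and III, and the reduction of the general planar case to region I
-/

set_option autoImplicit false

open MeasureTheory Pool.Agent.H94.ER Pool.Agent.H94.SP

namespace Pool.Agent.H94.GP

attribute [local irreducible] zic1 zic2 zoc

/-- the integral inequality on the set of parameters `P` -/
def RegS (P : ℝ → ℂ → Prop) : Prop :=
  ∃ K : ℝ, 0 ≤ K ∧ ∀ (ε : ℝ) (u : E 2 → ℝ), 0 ≤ ε → Adm ε u → ∀ (σ : ℝ) (α p q : ℂ), P σ q →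
    ((100 : ℤ) : ℝ) / 1000000 * (‖α‖ ^ 2 + ‖p‖ ^ 2 + ‖q‖ ^ 2) - ε * (K * nB σ α p q)
      ≤ QQ u gam (Wre nFp phf σ α p q) + QQ u gam (Wim nFp phf σ α p q)

theorem region_II : RegS (fun σ q => σ ^ 2 ≤ ‖q‖ ^ 2 ∧ ‖q‖ ^ 2 ≤ 49 / 25 * σ ^ 2) := by
  obtain ⟨K, hK0, hK⟩ := plain_region 100 4485088 7828978 4145505 3893639 140804 25671 (-46623)
    83017 (-83018) (-5843124) 2981168 (-295571) 150182 dX2 dA2 dZ2 oX2 oA2 oZ2 dK2 oK2
    (fun i hi => by
      interval_cases i
      · exact kc2_0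
      · exact kc2_1
      · exact kc2_2
      · exact kc2_3
      · exact kc2_4
      · exact kc2_5
      · exact kc2_6
      · exact kc2_7
      · exact kc2_8
      · exact kc2_9
      · exact kc2_10
      · exact kc2_11
      · exact kc2_12
      · exact kc2_13
      · exact kc2_14
      · exact kc2_15)
    (fun i hi => by
      interval_cases i
      · exact ko2_0
      · exact ko2_1
      · exact ko2_2
      · exact ko2_3
      · exact ko2_4
      · exact ko2_5
      · exact ko2_6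
      · exact ko2_7
      · exact ko2_8
      · exact ko2_9
      · exact ko2_10
      · exact ko2_11
      · exact ko2_12
      · exact ko2_13
      · exact ko2_14
      · exact ko2_15)
    (fun r hr hr2 a ξ η σ α p q => Pool.Agent.H23.GP.far_II r hr hr2 a ξ η σ α p q)
    (by norm_num) (by norm_num) (by norm_num) (by norm_num)
  refine ⟨K, hK0, fun ε u hε hu σ α p q h => hK ε u hε hu σ α p q ?_ ?_ ?_⟩
  · obtain ⟨h1, h2⟩ := h
    push_cast
    nlinarith [sq_nonneg σ]
  · obtain ⟨h1, h2⟩ := h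
    push_cast
    nlinarith [sq_nonneg σ]
  · obtain ⟨h1, h2⟩ := h
    push_cast
    nlinarith [sq_nonneg σ]

theorem region_III : RegS (fun σ q => 49 / 25 * σ ^ 2 ≤ ‖q‖ ^ 2) := by
  obtain ⟨K, hK0, hK⟩ := plain_region 100 4864478 6141834 3320291 2304688 288556 111611 (-159138)
    129289 (-65964) 25 (-13) 749372 (-382333) dX3 dA3 dZ3 oX3 oA3 oZ3 dK3 oK3
    (fun i hi => by
      interval_cases i
      · exact kc3_0
      · exact kc3_1
      · exact kc3_2
      · exact kc3_3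
      · exact kc3_4
      · exact kc3_5
      · exact kc3_6
      · exact kc3_7
      · exact kc3_8
      · exact kc3_9
      · exact kc3_10
      · exact kc3_11
      · exact kc3_12
      · exact kc3_13
      · exact kc3_14
      · exact kc3_15)
    (fun i hi => by
      interval_cases i
      · exact ko3_0
      · exact ko3_1
      · exact ko3_2
      · exact ko3_3
      · exact ko3_4
      · exact ko3_5
      · exact ko3_6
      · exact ko3_7
      · exact ko3_8
      · exact ko3_9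
      · exact ko3_10
      · exact ko3_11
      · exact ko3_12
      · exact ko3_13
      · exact ko3_14
      · exact ko3_15)
    (fun r hr hr2 a ξ η σ α p q => Pool.Agent.H23.GP.far_III r hr hr2 a ξ η σ α p q)
    (by norm_num) (by norm_num) (by norm_num) (by norm_num)
  refine ⟨K, hK0, fun ε u hε hu σ α p q h => hK ε u hε hu σ α p q ?_ ?_ ?_⟩
  · push_cast
    nlinarith [sq_nonneg σ]
  · push_cast
    nlinarith [sq_nonneg σ]
  · push_cast
    nlinarith [sq_nonneg σ]

/-- the general planar case from region I -/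
theorem upper_of_region_I (hI : RegS (fun σ q => ‖q‖ ^ 2 ≤ σ ^ 2)) (Ω : Set (E 2)) (hΩ : IsOpen Ω)
    (hne : Ω.Nonempty) (h1 : dirEig Ω 1 ≤ bz 2) : dirEig Ω 4 ≤ bz 6 := by
  obtain ⟨K1, hK10, hK1⟩ := hI
  obtain ⟨K2, hK20, hK2⟩ := region_II
  obtain ⟨K3, hK30, hK3⟩ := region_III
  have HC : ∀ θ : ℝ, 0 < θ → ∃ ε0 : ℝ, 0 < ε0 ∧ ∀ u, Adm ε0 u → ∀ (σ : ℝ) (α p q : ℂ),
      1 / 10000 * (‖α‖ ^ 2 + ‖p‖ ^ 2 + ‖q‖ ^ 2) - θ * (σ ^ 2 + ‖α‖ ^ 2 + ‖p‖ ^ 2 + ‖q‖ ^ 2)
        ≤ QQ u gam (Wre nFp phf σ α p q) + QQ u gam (Wim nFp phf σ α p q) := by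
    intro θ hθ
    have hden : 0 < K1 + K2 + K3 + 1 := by linarith
    refine ⟨θ / (K1 + K2 + K3 + 1), by positivity, fun u hu σ α p q => ?_⟩
    have hε : 0 ≤ θ / (K1 + K2 + K3 + 1) := by positivity
    have hn : 0 ≤ nB σ α p q := LpB_nB_nonneg σ α p q
    have key : ∀ K : ℝ, K ≤ K1 + K2 + K3 + 1 →
        θ / (K1 + K2 + K3 + 1) * (K * nB σ α p q) ≤ θ * nB σ α p q := by
      intro K hK
      have : θ / (K1 + K2 + K3 + 1) * (K * nB σ α p q)
          = θ * nB σ α p q * (K / (K1 + K2 + K3 + 1)) := by ring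
      rw [this]
      have h2 : K / (K1 + K2 + K3 + 1) ≤ 1 := (div_le_one hden).2 hK
      exact mul_le_of_le_one_right (mul_nonneg hθ.le hn) h2
    have e : nB σ α p q = σ ^ 2 + ‖α‖ ^ 2 + ‖p‖ ^ 2 + ‖q‖ ^ 2 := rfl
    rw [← e]
    rcases le_or_gt (‖q‖ ^ 2) (σ ^ 2) with h | h
    · have k := hK1 _ u hε hu σ α p q h
      have k2 := key K1 (by linarith)
      push_cast at k
      linarith
    · rcases le_or_gt (‖q‖ ^ 2) (49 / 25 * σ ^ 2) with h' | h'
      · have k := hK2 _ u hε hu σ α p q ⟨h.le, h'⟩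
        have k2 := key K2 (by linarith)
        push_cast at k
        linarith
      · have k := hK3 _ u hε hu σ α p q h'.le
        have k2 := key K3 (by linarith)
        push_cast at k
        linarith
  refine le_of_forall_pos_le_add fun δ hδ => ?_
  have hs : ∀ δ' : ℝ, 0 < δ' → 12 * δ' * (1 + (10 : ℝ) ^ 2) ≤ 1 / 10000 → dirEig Ω 4 ≤ bz 6 + δ' :=
    fun δ' h0 h2 => general_small phf contDiff_phf 10 (by norm_num) phf_bound (1 / 10000) (by norm_num) HC δ' h0
      h2 Ω hΩ hne h1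
  rcases le_or_gt δ (1 / 100000000) with h | h
  · exact hs δ hδ (by linarith)
  · exact (hs (1 / 100000000) (by norm_num) (by norm_num)).trans (by linarith)

/-- the final statement from region I -/
theorem general_of_region_I (hI : RegS (fun σ q => ‖q‖ ^ 2 ≤ σ ^ 2)) (Ω : Set (E 2)) (hΩ : IsOpen Ω)
    (hne : Ω.Nonempty) :
    0 < dirEig (uball 2) 1 ∧ dirEig Ω 4 * dirEig (uball 2) 1 ≤ dirEig (uball 2) 4 * dirEig Ω 1 :=
  main_all (fun Ω h1 h2 h3 => upper_of_region_I hI Ω h1 h2 h3) Ω hΩ hne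

end Pool.Agent.H94.GP
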