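import Pool.Agent.H94.GP.Qf
import Pool.Agent.H94.SP.Defs

/-!
# DefG: definitions for the general planar case
-/

set_option autoImplicit false

open MeasureTheory Pool.Agent.H94.ER Pool.Agent.H94.SP

namespace Pool.Agent.H94.GP

/-- centring profile -/
noncomputable def gc (s : ℝ) : ℝ := 1 / √(1 + s / 100000000)

/-- first component of the trial map of degree 2 -/
noncomputable def Ga (x : E 2) : ℝ := nFp (‖x‖ ^ 2) * (x 0 ^ 2 - x 1 ^ 2)

/-- second component of the trial map of degree 2 -/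
noncomputable def Gb (x : E 2) : ℝ := nFp (‖x‖ ^ 2) * (2 * x 0 * x 1)

/-- the form `κ ∫ u^2 w^2 - ∫ u^2 |∇w|^2` -/
noncomputable def QQ (u : E 2 → ℝ) (κ : ℝ) (w : E 2 → ℝ) : ℝ :=
  κ * (∫ x, u x ^ 2 * w x ^ 2) - ∫ x, u x ^ 2 * dot w w x

/-- mean -/
noncomputable def mn (u w : E 2 → ℝ) : ℝ := ∫ x, u x ^ 2 * w x

/-- admissible functions: normalised centred near-ground states of energy about `≤ bz 2`, with the Poincaré inequality for linear functions -/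
def Adm (ε : ℝ) (u : E 2 → ℝ) : Prop :=
  (∃ (Ω : Set (E 2)) (L1 : ℝ), IsTest Ω u ∧ 0 ≤ L1 ∧ L1 ≤ bz 2 ∧
      ∀ v, IsTest Ω v → |(∫ x, dot u v x) - L1 * ∫ x, u x * v x| ≤ ε * √(energy v)) ∧
    mass u = 1 ∧ energy u ≤ bz 2 + 1 ∧ (∀ j, ∫ x, u x ^ 2 * tf gc j x = 0) ∧
    ∀ e : E 2, ‖e‖ = 1 → kap * (∫ x, u x ^ 2 * (gc (‖x‖ ^ 2) * inner ℝ x e) ^ 2) ≤ 1 + ε

end Pool.Agent.H94.GP
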