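import Pool.Agent.H94.GP.ZiA

/-!
# GkA: positivity of the two blocks on a subinterval, from global models

`gk1`, `gk2`: blocks `B1`, `B2`; `gk1t`: `B1` without the first row. `floc_scale3`: scaling of `a`, `ξ`, `η`.
-/

set_option autoImplicit false

open Pool.Agent.H94.ER Pool.Agent.H94.SP

namespace Pool.Agent.H94.GP

/-- local environment -/
def envG (tT tR tS tX : Fin 16 → TM) (tK : Fin 33 → TM) (n : ℕ) (a b c : ℤ) : ℕ → TM :=
  envL (fun j => (tT j).loc 1000000 n a b c) (fun j => (tR j).loc 1000000 n a b c)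
    (fun j => (tS j).loc 1000000 n a b c) (fun j => (tX j).loc 1000000 n a b c)
    (fun i => (tK i).loc 1000000 n a b c)

/-- check of the even block -/
def gc1 (tT tR tS tX : Fin 16 → TM) (tK : Fin 33 → TM) (n : ℕ) (a b c : ℤ) : Bool :=
  mchk D9 n n 1 (envG tT tR tS tX tK n a b c) (X1 aT aR aS aX aK)

/-- check of the even block without its first row -/
def gc1t (tT tR tS tX : Fin 16 → TM) (tK : Fin 33 → TM) (n : ℕ) (a b c : ℤ) : Bool :=
  mchk D9 n n 1 (envG tT tR tS tX tK n a b c) (X1 aT aR aS aX aK).tail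

/-- check of the odd block -/
def gc2 (tT tR tS tX : Fin 16 → TM) (tK : Fin 33 → TM) (n : ℕ) (a b c : ℤ) : Bool :=
  mchk D9 n n 1 (envG tT tR tS tX tK n a b c) (X2 aT aR aS aX aK)

theorem GkA_aux (T R S X : Fin 16 → ℝ → ℝ) (K : Fin 33 → ℝ → ℝ) (tT tR tS tX : Fin 16 → TM)
    (tK : Fin 33 → TM) (hT : ∀ j, (tT j).ok DD (T j)) (hR : ∀ j, (tR j).ok DD (R j))
    (hS : ∀ j, (tS j).ok DD (S j)) (hX : ∀ j, (tX j).ok DD (X j)) (hK : ∀ i, (tK i).ok DD (K i))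
    (n : ℕ) (a b c : ℤ) (ha : 0 ≤ a) (hb : 0 < b) (hc : 0 < c) (habc : a + b ≤ c) (i : ℕ) :
    (envG tT tR tS tX tK n a b c i).ok D9
      (envF (fun j τ => T j (((a : ℝ) + b * τ) / c)) (fun j τ => R j (((a : ℝ) + b * τ) / c))
        (fun j τ => S j (((a : ℝ) + b * τ) / c)) (fun j τ => X j (((a : ℝ) + b * τ) / c))
        (fun j τ => K j (((a : ℝ) + b * τ) / c)) i) := by
  have hDq : DD = D9 * 1000000 := by norm_num [DD, D9]
  exact envL_ok D9 _ _ _ _ _ _ _ _ _ _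
    (fun j => TM.ok_loc DD D9 1000000 n hDq (by norm_num) a b c hc ha hb.le habc _ _ (hT j))
    (fun j => TM.ok_loc DD D9 1000000 n hDq (by norm_num) a b c hc ha hb.le habc _ _ (hR j))
    (fun j => TM.ok_loc DD D9 1000000 n hDq (by norm_num) a b c hc ha hb.le habc _ _ (hS j))
    (fun j => TM.ok_loc DD D9 1000000 n hDq (by norm_num) a b c hc ha hb.le habc _ _ (hX j))
    (fun j => TM.ok_loc DD D9 1000000 n hDq (by norm_num) a b c hc ha hb.le habc _ _ (hK j)) i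

theorem GkA_var (a b c : ℤ) (hb : 0 < b) (hc : 0 < c) (x : ℝ) (h1 : (a : ℝ) ≤ c * x)
    (h2 : c * x ≤ (a : ℝ) + b) : ∃ τ : ℝ, 0 ≤ τ ∧ τ ≤ 1 ∧ ((a : ℝ) + b * τ) / c = x := by
  have hbr : (0 : ℝ) < b := by exact_mod_cast hb
  have hcr : (0 : ℝ) < c := by exact_mod_cast hc
  refine ⟨(c * x - a) / b, div_nonneg (by linarith) hbr.le, by rw [div_le_one hbr]; linarith, ?_⟩
  field_simp
  ring

theorem gk1 (T R S X : Fin 16 → ℝ → ℝ) (K : Fin 33 → ℝ → ℝ) (tT tR tS tX : Fin 16 → TM)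
    (tK : Fin 33 → TM) (hT : ∀ j, (tT j).ok DD (T j)) (hR : ∀ j, (tR j).ok DD (R j))
    (hS : ∀ j, (tS j).ok DD (S j)) (hX : ∀ j, (tX j).ok DD (X j)) (hK : ∀ i, (tK i).ok DD (K i))
    (n : ℕ) (hn : 0 < n) (a b c : ℤ) (ha : 0 ≤ a) (hb : 0 < b) (hc : 0 < c) (habc : a + b ≤ c)
    (h : gc1 tT tR tS tX tK n a b c = true) (x : ℝ) (h1 : (a : ℝ) ≤ c * x) (h2 : c * x ≤ (a : ℝ) + b)
    (v : List ℝ) (hv : v.length = 11) :
    0 ≤ qf (B1 (fun j => T j x) (fun j => R j x) (fun j => S j x) (fun j => X j x) (fun j => K j x)) v := by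
  obtain ⟨τ, t0, t1, e⟩ := GkA_var a b c hb hc x h1 h2
  have k := mat_pos D9 n n 1 (by norm_num [D9]) hn (by norm_num) _ _
    (GkA_aux T R S X K tT tR tS tX tK hT hR hS hX hK n a b c ha hb hc habc) _ h τ t0 t1 v (by rw [hv]; rfl)
  rw [B1_ev] at k
  simpa only [e] using k

theorem gk1t (T R S X : Fin 16 → ℝ → ℝ) (K : Fin 33 → ℝ → ℝ) (tT tR tS tX : Fin 16 → TM)
    (tK : Fin 33 → TM) (hT : ∀ j, (tT j).ok DD (T j)) (hR : ∀ j, (tR j).ok DD (R j))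
    (hS : ∀ j, (tS j).ok DD (S j)) (hX : ∀ j, (tX j).ok DD (X j)) (hK : ∀ i, (tK i).ok DD (K i))
    (n : ℕ) (hn : 0 < n) (a b c : ℤ) (ha : 0 ≤ a) (hb : 0 < b) (hc : 0 < c) (habc : a + b ≤ c)
    (h : gc1t tT tR tS tX tK n a b c = true) (x : ℝ) (h1 : (a : ℝ) ≤ c * x) (h2 : c * x ≤ (a : ℝ) + b)
    (v : List ℝ) (hv : v.length = 10) :
    0 ≤ qf (B1 (fun j => T j x) (fun j => R j x) (fun j => S j x) (fun j => X j x) (fun j => K j x)).tail v := by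
  obtain ⟨τ, t0, t1, e⟩ := GkA_var a b c hb hc x h1 h2
  have k := mat_pos D9 n n 1 (by norm_num [D9]) hn (by norm_num) _ _
    (GkA_aux T R S X K tT tR tS tX tK hT hR hS hX hK n a b c ha hb hc habc) _ h τ t0 t1 v (by rw [hv]; rfl)
  rw [List.map_tail, B1_ev] at k
  simpa only [e] using k

theorem gk2 (T R S X : Fin 16 → ℝ → ℝ) (K : Fin 33 → ℝ → ℝ) (tT tR tS tX : Fin 16 → TM)
    (tK : Fin 33 → TM) (hT : ∀ j, (tT j).ok DD (T j)) (hR : ∀ j, (tR j).ok DD (R j))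
    (hS : ∀ j, (tS j).ok DD (S j)) (hX : ∀ j, (tX j).ok DD (X j)) (hK : ∀ i, (tK i).ok DD (K i))
    (n : ℕ) (hn : 0 < n) (a b c : ℤ) (ha : 0 ≤ a) (hb : 0 < b) (hc : 0 < c) (habc : a + b ≤ c)
    (h : gc2 tT tR tS tX tK n a b c = true) (x : ℝ) (h1 : (a : ℝ) ≤ c * x) (h2 : c * x ≤ (a : ℝ) + b)
    (v : List ℝ) (hv : v.length = 10) :
    0 ≤ qf (B2 (fun j => T j x) (fun j => R j x) (fun j => S j x) (fun j => X j x) (fun j => K j x)) v := by
  obtain ⟨τ, t0, t1, e⟩ := GkA_var a b c hb hc x h1 h2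
  have k := mat_pos D9 n n 1 (by norm_num [D9]) hn (by norm_num) _ _
    (GkA_aux T R S X K tT tR tS tX tK hT hR hS hX hK n a b c ha hb hc habc) _ h τ t0 t1 v (by rw [hv]; rfl)
  rw [B2_ev] at k
  simpa only [e] using k

theorem floc_scale3 (T R S X : Fin 16 → ℝ) (a ξ η σ : ℝ) (α p q : ℂ) (r e : ℝ) (hr : r ≠ 0) (he : e ≠ 0) :
    floc T R S X a ξ η σ α p q
      = floc (fun j => r ^ 2 * T j) (fun j => r * R j / e) (fun j => r * S j / e) (fun j => X j / e ^ 2)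
          (a / r) (e * ξ) (e * η) σ α p q := by
  unfold floc
  refine Finset.sum_congr rfl fun j _ => ?_
  field_simp

end Pool.Agent.H94.GP
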