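import Pool.Agent.H94.SP.NB

/-!
# HpA: `bz 2` and `bz 6` to twelve digits

(true values 5.783185962946784521..., 26.374616427163390770...)
As in `SP/NB.lean` (`bz2_lo` ... there): the sign of `bj d` at the four points by `bj_taylor` (`n = 13` for `d = 2`: values about `± 5e-14`, error `< 1e-16`;
`n = 18` for `d = 6`: values about `± 5e-15`, error `< 1e-18`), and `bj_neg2`, `bj_pos`, `bj_bz`; the rough position is known from `bz2_lo`, `bz2_hi`, `bz6_lo`,
`bz6_hi` (or use the general lemmas of `NB.lean`).
-/

set_option autoImplicit false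

open Pool.Agent.H94.ER Pool.Agent.H94.SP

namespace Pool.Agent.H94.GP

theorem HpA_ten : (264 : ℝ) / 10 ≤ bz (6 + 4) := by
  refine NB_low (by norm_num) fun s h0 h1 => ?_
  have h := (abs_le.1 (bj_taylor (6 + 4) (by norm_num) 3 s h0)).1
  norm_num [Finset.sum_range_succ, Finset.prod_range_succ, BjA_c, Nat.factorial] at h ⊢
  obtain ⟨t, rfl⟩ : ∃ t, s = 264 / 10 - t := ⟨264 / 10 - s, by ring⟩
  have ht : 0 ≤ t := by linarith
  nlinarith [pow_nonneg ht 2, pow_nonneg ht 3]

theorem HpA_six : (26 : ℝ) ≤ bz (2 + 4) := by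
  have h := bz6_lo
  norm_num at h ⊢
  linarith

theorem bz2_lo' : (5783185962946284 : ℝ) / 1000000000000000 < bz 2 := by
  refine NB_lo (by norm_num) ?_ (le_trans (by norm_num) HpA_six)
  have h := (abs_le.1 (bj_taylor 2 (by norm_num) 13 (5783185962946284 / 1000000000000000) (by norm_num))).1
  norm_num [Finset.sum_range_succ, Finset.prod_range_succ, BjA_c, Nat.factorial] at h ⊢
  linarith

theorem bz2_hi' : bz 2 < (5783185962947284 : ℝ) / 1000000000000000 := by
  refine NB_hi (by norm_num) ?_
  have h := (abs_le.1 (bj_taylor 2 (by norm_num) 13 (5783185962947284 / 1000000000000000) (by norm_num))).2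
  norm_num [Finset.sum_range_succ, Finset.prod_range_succ, BjA_c, Nat.factorial] at h ⊢
  linarith

theorem bz6_lo' : (26374616427162890 : ℝ) / 1000000000000000 < bz 6 := by
  refine NB_lo (by norm_num) ?_ (le_trans (by norm_num) HpA_ten)
  have h := (abs_le.1 (bj_taylor 6 (by norm_num) 18 (26374616427162890 / 1000000000000000) (by norm_num))).1
  norm_num [Finset.sum_range_succ, Finset.prod_range_succ, BjA_c, Nat.factorial] at h ⊢
  linarith

theorem bz6_hi' : bz 6 < (26374616427163890 : ℝ) / 1000000000000000 := by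
  refine NB_hi (by norm_num) ?_
  have h := (abs_le.1 (bj_taylor 6 (by norm_num) 18 (26374616427163890 / 1000000000000000) (by norm_num))).2
  norm_num [Finset.sum_range_succ, Finset.prod_range_succ, BjA_c, Nat.factorial] at h ⊢
  linarith

end Pool.Agent.H94.GP
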