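import Pool.Agent.H94.GP.Tm

/-!
# Taylor models (scale `10^15`) of the Bessel functions of the problem

`u = uh 2`, `v = uh 6`, `ρ = F0 2 2 1 = v 1 / u 1`, `nF = v / (ρ u)`.
-/

set_option autoImplicit false

namespace Pool.Agent.H94.GP

/-- the scale -/
def DD : ℕ := 10 ^ 15

/-- `uh 2` -/
def tmu : TM :=
  ⟨[1000000000000000, -445796490736696, 76785382419940, -7164288505890, 421595220551, -17110542282,
  508325840, -11537379, 206628, -2995, 36], 100000⟩

/-- derivative of `uh 2` -/
def tmdu : TM :=
  ⟨[-445796490736696, 153570764839880, -21492865517670, 1686380882204, -85552711410, 3049955040, -80761653,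
  1653024, -26955, 360], 200000⟩

/-- `uh 6` -/
def tmv : TM :=
  ⟨[1000000000000000, -1197884702263616, 613626734403043, -182671920522004, 36099658489603, -5114744950369,
  546786726734, -45755838242, 3081920721, -170799380, 7928214, -312821, 10623, -314, 8], 100000⟩

/-- derivative of `uh 6` -/
def tmdv : TM :=
  ⟨[-1197884702263616, 1227253468806086, -548015761566012, 144398633958412, -25573724751845, 3280720360404,
  -320290867694, 24655365768, -1537194420, 79282140, -3441031, 127476, -4082, 112], 200000⟩

/-- the constant `F0 2 2 1` -/
def tmrho : TM :=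
  ⟨[423816783462329], 300000⟩

/-- `1 / uh 2` -/
def tmiu : TM :=
  ⟨[1000000000000000, 445796490736696, 121949128733213, 27298128120870, 5577718688406, 1093273824233,
  210368361306, 40157197318, 7639744699, 1451385540, 275571573, 52309738, 9928608, 1884417, 357650, 67879,
  12883, 2445, 464, 88, 17, 3, 1], 1000000⟩

/-- `nF` -/
def tmF : TM :=
  ⟨[2359510144526601, -1774559764676635, 475590100310125, -65835390278760, 5601740415298, -320077655953,
  13594229880, -368567292, 19688127, 1586253, 342853, 64406, 12233, 2322, 441, 84, 16, 3, 1], 20000000⟩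

/-- derivative of `nF` -/
def tmdF : TM :=
  ⟨[-1774559764676635, 951180200620250, -197506170836280, 22406961661192, -1600388279765, 81565379280,
  -2579971044, 157505016, 14276277, 3428530, 708466, 146796, 30186, 6174, 1260, 256, 51, 18], 100000000⟩

end Pool.Agent.H94.GP
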