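import Pool.Agent.H94.GP.HpA
import Pool.Agent.H94.GP.HpD
import Pool.Agent.H94.SP.ND

/-!
# HpV: Taylor models of `uh 6` and its derivative, error `1e-10` resp. `2e-10`

Let `q s = pev tmv.p s / 10^15`, `V s = bj 6 (bz 6 * s) = (1 - s) uh 6 s` (`uh_mul`), `P s = (1 - s) q s`, `e = uh 6 - q`, `D = V - P = (1 - s) e`, `D 1 = 0`.
`m = bz 6`, `m0 = 26374616427163390/10^15`, `|m - m0| ≤ 1e-12` (HpA).
1. `V' = -(m/12) bj 8 (m s)` (`PrC_der 6`), `V'' = (m^2/192) bj 10 (m s)`. Replace `m` by `m0` (`|bj| ≤ 1`, `|bj d x - bj d y| ≤ |x-y|/(2d)` for `x, y ≥ 0`; cost `≤ 1e-11`) and use `bj_taylor` with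
   `n = 19` at `m0 s` (error `≤ 1e-13`); the difference to `P'`, `P''` is a polynomial whose coefficients have absolute sum `≤ 1e-11`. So `|D'| ≤ 5e-11`, `|D''| ≤ 5e-11` on `[0,1]`.
2. `|(1-s) e| = |D| ≤ 5e-11 (1 - s)` gives `|e| ≤ 5e-11` for `s < 1`. Taylor at `s`: `|D 1 - D s - D' s (1-s)| ≤ 5e-11 (1-s)^2/2`, i.e. `|e + D'| ≤ 2.5e-11 (1-s)`, and
   `D' = -e + (1-s) e'`, so `(1-s) |e'| = |D' + e| ≤ 2.5e-11 (1-s)`. `s = 1` by continuity (`contDiff_uh`).
-/

set_option autoImplicit false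

open Pool.Agent.H94.ER Pool.Agent.H94.SP

namespace Pool.Agent.H94.GP

/-- the approximate value of `bz 6` -/
noncomputable def HpV_m : ℝ := 26374616427163390 / 1000000000000000

/-- second derivative of the polynomial of `tmv` -/
def HpV_dd : List ℤ :=
  [1227253468806086, -1096031523132024, 433195901875236, -102294899007380, 16403601802020,
  -1921745206164, 172587560376, -12297555360, 713539260, -34410310, 1402236, -48984, 1456]

/-- coefficients of the derivative of `(1 - s) tmv` -/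
def HpV_L1 : List ℤ :=
  [-2197884702263616, 3623022873333318, -2388895964775141, 875086316046428,
  -206072017199860, 33969190062618, -4147797954832, 390702071704, -29274480909, 1787275940,
  -90651385, 3881328, -142181, 4508, -120]

/-- coefficients of the second derivative of `(1 - s) tmv` -/
def HpV_L2 : List ℤ :=
  [3623022873333318, -4777791929550282, 2625258948139284, -824288068799440, 169845950313090,
  -24886787728992, 2734914501928, -234195847272, 16085483460, -906513850, 42694608,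
  -1706172, 58604, -1680]

/-- formal derivative (with a trailing zero) -/
def HpV_dl : List ℤ → List ℤ
  | [] => []
  | _ :: l => padd l (0 :: HpV_dl l)

theorem HpV_pev_zero_cons (l : List ℤ) (s : ℝ) : pev (0 :: l) s = s * pev l s := by
  simp [pev]

theorem HpV_pev_deriv (l : List ℤ) (s : ℝ) : HasDerivAt (pev l) (pev (HpV_dl l) s) s := by
  induction l with
  | nil =>
    have : pev [] = fun _ => (0 : ℝ) := by funext t; simp [pev]
    rw [this]
    simpa [HpV_dl, pev] using hasDerivAt_const s (0 : ℝ)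
  | cons a l ih =>
    have e : pev (a :: l) = fun t : ℝ => (a : ℝ) + t * pev l t := by funext t; simp [pev]
    rw [e]
    have h := ((hasDerivAt_id s).mul ih).const_add (a : ℝ)
    refine h.congr_deriv ?_
    rw [HpV_dl, pev_padd, HpV_pev_zero_cons]
    simp

theorem HpV_dl1 : HpV_dl tmv.p = tmdv.p ++ [0] := by decide +kernel

theorem HpV_dl2 : HpV_dl tmdv.p = HpV_dd ++ [0] := by decide +kernel

theorem HpV_L1_eq : padd (tmv.p.map ((-1) * ·)) (pmul [1, -1] tmdv.p) = HpV_L1 := by decide +kernel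

theorem HpV_L2_eq : padd (tmdv.p.map ((-2) * ·)) (pmul [1, -1] HpV_dd) = HpV_L2 := by decide +kernel

theorem HpV_pev_app (l : List ℤ) (s : ℝ) : pev (l ++ [0]) s = pev l s := by
  rw [pev_append]
  simp [pev]

theorem HpV_d1 (s : ℝ) : HasDerivAt (pev tmv.p) (pev tmdv.p s) s := by
  have h := HpV_pev_deriv tmv.p s
  rwa [HpV_dl1, HpV_pev_app] at h

theorem HpV_d2 (s : ℝ) : HasDerivAt (pev tmdv.p) (pev HpV_dd s) s := by
  have h := HpV_pev_deriv tmdv.p s
  rwa [HpV_dl2, HpV_pev_app] at h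

theorem HpV_pevL1 (s : ℝ) : pev HpV_L1 s = -pev tmv.p s + (1 - s) * pev tmdv.p s := by
  rw [← HpV_L1_eq, pev_padd, pev_map, pev_pmul]
  have : pev [1, -1] s = 1 - s := by
    simp [pev]
    ring
  rw [this]
  push_cast
  ring

theorem HpV_pevL2 (s : ℝ) : pev HpV_L2 s = -(2 * pev tmdv.p s) + (1 - s) * pev HpV_dd s := by
  rw [← HpV_L2_eq, pev_padd, pev_map, pev_pmul]
  have : pev [1, -1] s = 1 - s := by
    simp [pev]
    ring
  rw [this]
  push_cast
  ring

theorem HpV_pev_sum (L : List ℤ) (s : ℝ) :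
    pev L s = ∑ k ∈ Finset.range L.length, ((L.getD k 0 : ℤ) : ℝ) * s ^ k := by
  induction L with
  | nil => simp [pev]
  | cons a l ih =>
    rw [List.length_cons, Finset.sum_range_succ']
    simp only [List.getD_cons_succ, List.getD_cons_zero, pow_zero, mul_one, pev]
    rw [ih, Finset.mul_sum, add_comm]
    congr 1
    refine Finset.sum_congr rfl fun k _ => ?_
    ring

theorem HpV_close (n : ℕ) (a : ℕ → ℝ) (L : List ℤ) (hL : L.length = n) (δ : ℝ)
    (h : ∀ k < n, |a k - ((L.getD k 0 : ℤ) : ℝ) / 1000000000000000| ≤ δ) (s : ℝ) (h0 : 0 ≤ s) (h1 : s ≤ 1) :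
    |∑ k ∈ Finset.range n, a k * s ^ k - pev L s / 1000000000000000| ≤ n * δ := by
  have e : ∑ k ∈ Finset.range n, a k * s ^ k - pev L s / 1000000000000000 =
      ∑ k ∈ Finset.range n, (a k - ((L.getD k 0 : ℤ) : ℝ) / 1000000000000000) * s ^ k := by
    rw [HpV_pev_sum, hL, Finset.sum_div, ← Finset.sum_sub_distrib]
    refine Finset.sum_congr rfl fun k _ => ?_
    ring
  rw [e]
  refine (Finset.abs_sum_le_sum_abs _ _).trans ?_
  have h2 : ∀ k ∈ Finset.range n, |(a k - ((L.getD k 0 : ℤ) : ℝ) / 1000000000000000) * s ^ k| ≤ δ := by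
    intro k hk
    rw [abs_mul, abs_of_nonneg (pow_nonneg h0 k)]
    have h3 := h k (Finset.mem_range.1 hk)
    have h4 : s ^ k ≤ 1 := pow_le_one₀ h0 h1
    calc |a k - ((L.getD k 0 : ℤ) : ℝ) / 1000000000000000| * s ^ k
        ≤ |a k - ((L.getD k 0 : ℤ) : ℝ) / 1000000000000000| * 1 := mul_le_mul_of_nonneg_left h4 (abs_nonneg _)
      _ ≤ δ := by rw [mul_one]; exact h3
  refine (Finset.sum_le_sum h2).trans ?_
  simp

theorem HpV_c1 : ∀ k < 15, |-(HpV_m / 12) * BjA_c 8 k * (-HpV_m) ^ k -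
    ((HpV_L1.getD k 0 : ℤ) : ℝ) / 1000000000000000| ≤ 1 / 1000000000000 := by
  intro k hk
  unfold HpV_m HpV_L1
  interval_cases k <;>
    simp only [List.getD_cons_zero, List.getD_cons_succ] <;> rw [abs_le] <;> constructor <;>
    norm_num [BjA_c, Finset.prod_range_succ, Nat.factorial]

theorem HpV_c2 : ∀ k < 14, |HpV_m ^ 2 / 192 * BjA_c 10 k * (-HpV_m) ^ k -
    ((HpV_L2.getD k 0 : ℤ) : ℝ) / 1000000000000000| ≤ 1 / 1000000000000 := by
  intro k hk
  unfold HpV_m HpV_L2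
  interval_cases k <;>
    simp only [List.getD_cons_zero, List.getD_cons_succ] <;> rw [abs_le] <;> constructor <;>
    norm_num [BjA_c, Finset.prod_range_succ, Nat.factorial]

theorem HpV_m_pos : 0 ≤ HpV_m := by unfold HpV_m; norm_num

theorem HpV_tay1 {s : ℝ} (h0 : 0 ≤ s) (h1 : s ≤ 1) :
    |-(HpV_m * bj 8 (HpV_m * s)) / 12 - pev HpV_L1 s / 1000000000000000| ≤ 16 / 1000000000000 := by
  have hm := HpV_m_pos
  have h := bj_taylor 8 (by norm_num) 15 (HpV_m * s) (by positivity)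
  have h2 : (HpV_m * s) ^ 15 ≤ HpV_m ^ 15 := by
    refine pow_le_pow_left₀ (by positivity) ?_ 15
    nlinarith
  have h3 : |bj 8 (HpV_m * s) - ∑ k ∈ Finset.range 15, BjA_c 8 k * (-(HpV_m * s)) ^ k| ≤ 1 / 100000000000000 := by
    refine h.trans ((mul_le_mul_of_nonneg_left h2 (BjA_c_pos 8 (by norm_num) 15).le).trans ?_)
    unfold HpV_m
    norm_num [Finset.prod_range_succ, BjA_c, Nat.factorial]
  have h4 := HpV_close 15 (fun k => -(HpV_m / 12) * BjA_c 8 k * (-HpV_m) ^ k) HpV_L1 rfl _ HpV_c1 s h0 h1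
  have h5 : ∑ k ∈ Finset.range 15, -(HpV_m / 12) * BjA_c 8 k * (-HpV_m) ^ k * s ^ k =
      -(HpV_m / 12) * ∑ k ∈ Finset.range 15, BjA_c 8 k * (-(HpV_m * s)) ^ k := by
    rw [Finset.mul_sum]
    refine Finset.sum_congr rfl fun k _ => ?_
    rw [show -(HpV_m * s) = (-HpV_m) * s by ring, mul_pow]
    ring
  simp only [h5] at h4
  set S := ∑ k ∈ Finset.range 15, BjA_c 8 k * (-(HpV_m * s)) ^ k
  have h6 : |-(HpV_m / 12) * (bj 8 (HpV_m * s) - S)| ≤ 3 / 100000000000000 := by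
    rw [abs_mul, abs_neg, abs_of_nonneg (by positivity)]
    have : HpV_m / 12 ≤ 3 := by unfold HpV_m; norm_num
    calc HpV_m / 12 * |bj 8 (HpV_m * s) - S| ≤ 3 * (1 / 100000000000000) :=
          mul_le_mul this h3 (abs_nonneg _) (by norm_num)
      _ = _ := by norm_num
  have e : -(HpV_m * bj 8 (HpV_m * s)) / 12 - pev HpV_L1 s / 1000000000000000 =
      -(HpV_m / 12) * (bj 8 (HpV_m * s) - S) + (-(HpV_m / 12) * S - pev HpV_L1 s / 1000000000000000) := by ring
  rw [e]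
  refine (abs_add_le _ _).trans ((add_le_add h6 h4).trans ?_)
  norm_num

theorem HpV_tay2 {s : ℝ} (h0 : 0 ≤ s) (h1 : s ≤ 1) :
    |HpV_m ^ 2 / 192 * bj 10 (HpV_m * s) - pev HpV_L2 s / 1000000000000000| ≤ 16 / 1000000000000 := by
  have hm := HpV_m_pos
  have h := bj_taylor 10 (by norm_num) 14 (HpV_m * s) (by positivity)
  have h2 : (HpV_m * s) ^ 14 ≤ HpV_m ^ 14 := by
    refine pow_le_pow_left₀ (by positivity) ?_ 14
    nlinarith
  have h3 : |bj 10 (HpV_m * s) - ∑ k ∈ Finset.range 14, BjA_c 10 k * (-(HpV_m * s)) ^ k| ≤ 1 / 10000000000000 := by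
    refine h.trans ((mul_le_mul_of_nonneg_left h2 (BjA_c_pos 10 (by norm_num) 14).le).trans ?_)
    unfold HpV_m
    norm_num [Finset.prod_range_succ, BjA_c, Nat.factorial]
  have h4 := HpV_close 14 (fun k => HpV_m ^ 2 / 192 * BjA_c 10 k * (-HpV_m) ^ k) HpV_L2 rfl _ HpV_c2 s h0 h1
  have h5 : ∑ k ∈ Finset.range 14, HpV_m ^ 2 / 192 * BjA_c 10 k * (-HpV_m) ^ k * s ^ k =
      HpV_m ^ 2 / 192 * ∑ k ∈ Finset.range 14, BjA_c 10 k * (-(HpV_m * s)) ^ k := by
    rw [Finset.mul_sum]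
    refine Finset.sum_congr rfl fun k _ => ?_
    rw [show -(HpV_m * s) = (-HpV_m) * s by ring, mul_pow]
    ring
  simp only [h5] at h4
  set S := ∑ k ∈ Finset.range 14, BjA_c 10 k * (-(HpV_m * s)) ^ k
  have h6 : |HpV_m ^ 2 / 192 * (bj 10 (HpV_m * s) - S)| ≤ 4 / 10000000000000 := by
    rw [abs_mul, abs_of_nonneg (by positivity)]
    have : HpV_m ^ 2 / 192 ≤ 4 := by unfold HpV_m; norm_num
    calc HpV_m ^ 2 / 192 * |bj 10 (HpV_m * s) - S| ≤ 4 * (1 / 10000000000000) :=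
          mul_le_mul this h3 (abs_nonneg _) (by norm_num)
      _ = _ := by norm_num
  have e : HpV_m ^ 2 / 192 * bj 10 (HpV_m * s) - pev HpV_L2 s / 1000000000000000 =
      HpV_m ^ 2 / 192 * (bj 10 (HpV_m * s) - S) + (HpV_m ^ 2 / 192 * S - pev HpV_L2 s / 1000000000000000) := by ring
  rw [e]
  refine (abs_add_le _ _).trans ((add_le_add h6 h4).trans ?_)
  norm_num

theorem HpV_lip {x y : ℝ} (hx : 0 ≤ x) (hy : 0 ≤ y) : |bj 10 x - bj 10 y| ≤ 1 / 20 * |x - y| := by
  have h := Convex.norm_image_sub_le_of_norm_hasDerivWithin_le (f := bj 10)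
    (f' := fun t => -(bj 12 t) / 20) (s := Set.Ici (0 : ℝ)) (C := 1 / 20)
    (fun t _ => by
      have := hasDerivAt_bj 10 (by norm_num) t
      have e : -(bj (10 + 2) t) / (2 * 10) = -(bj 12 t) / 20 := by norm_num
      rw [e] at this
      exact this.hasDerivWithinAt)
    (fun t ht => by
      have := bj_abs_le_one 12 (by norm_num) t ht
      rw [Real.norm_eq_abs, abs_div, abs_neg, abs_of_pos (by norm_num : (0 : ℝ) < 20)]
      rw [div_le_div_iff_of_pos_right (by norm_num)]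
      exact this)
    (convex_Ici 0) (Set.mem_Ici.2 hy) (Set.mem_Ici.2 hx)
  simpa [Real.norm_eq_abs] using h

theorem HpV_z : |bz 6 - HpV_m| ≤ 1 / 1000000000000 := by
  have h1 := bz6_lo'
  have h2 := bz6_hi'
  unfold HpV_m
  rw [abs_le]
  constructor <;> linarith

/-- first derivative of the difference -/
noncomputable def HpV_D1 (s : ℝ) : ℝ := PrC_der 6 s - pev HpV_L1 s / 1000000000000000

/-- second derivative of the difference -/
noncomputable def HpV_D2 (s : ℝ) : ℝ := bz 6 ^ 2 / 192 * bj 10 (bz 6 * s) - pev HpV_L2 s / 1000000000000000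

theorem HpV_der_eq (s : ℝ) : PrC_der 6 s = -(bz 6 * bj 8 (bz 6 * s)) / 12 := by
  unfold PrC_der
  norm_num

theorem HpV_D1_le {s : ℝ} (h0 : 0 ≤ s) (h1 : s ≤ 1) : |HpV_D1 s| ≤ 3 / 100000000000 := by
  unfold HpV_D1
  rw [HpV_der_eq]
  have hz := HpV_z
  have hm := HpV_m_pos
  have hm2 : HpV_m ≤ 27 := by unfold HpV_m; norm_num
  have hm3 : 26 ≤ HpV_m := by unfold HpV_m; norm_num
  have ht := HpV_tay1 h0 h1
  obtain ⟨z, hzz⟩ : ∃ z, z = bz 6 := ⟨_, rfl⟩
  rw [← hzz] at hz ⊢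
  have hz' := abs_le.1 hz
  have hz0 : 0 ≤ z := by linarith [hz'.1]
  have a1 : |bj 8 (z * s)| ≤ 1 := bj_abs_le_one 8 (by norm_num) _ (by positivity)
  have a2 : |bj 8 (z * s) - bj 8 (HpV_m * s)| ≤ 1 / 16 * (1 / 1000000000000) := by
    refine (ND_lip (by positivity) (by positivity)).trans ?_
    rw [← sub_mul, abs_mul, abs_of_nonneg h0]
    have : |z - HpV_m| * s ≤ 1 / 1000000000000 := by
      have := abs_nonneg (z - HpV_m)
      nlinarith
    linarith
  have a3 : |(z - HpV_m) * bj 8 (z * s)| ≤ 1 / 1000000000000 := by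
    rw [abs_mul]
    calc |z - HpV_m| * |bj 8 (z * s)| ≤ 1 / 1000000000000 * 1 := mul_le_mul hz a1 (abs_nonneg _) (by norm_num)
      _ = _ := by ring
  have a4 : |HpV_m * (bj 8 (z * s) - bj 8 (HpV_m * s))| ≤ 27 * (1 / 16 * (1 / 1000000000000)) := by
    rw [abs_mul, abs_of_nonneg hm]
    exact mul_le_mul hm2 a2 (abs_nonneg _) (by norm_num)
  rw [abs_le] at a3 a4 ht ⊢
  have e : -(z * bj 8 (z * s)) / 12 = -(HpV_m * bj 8 (HpV_m * s)) / 12 -
      ((z - HpV_m) * bj 8 (z * s) + HpV_m * (bj 8 (z * s) - bj 8 (HpV_m * s))) / 12 := by ring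
  rw [e]
  constructor <;> linarith [a3.1, a3.2, a4.1, a4.2, ht.1, ht.2]

theorem HpV_D2_le {s : ℝ} (h0 : 0 ≤ s) (h1 : s ≤ 1) : |HpV_D2 s| ≤ 3 / 100000000000 := by
  unfold HpV_D2
  have hz := HpV_z
  have hm := HpV_m_pos
  have hm2 : HpV_m ≤ 27 := by unfold HpV_m; norm_num
  have hm3 : 26 ≤ HpV_m := by unfold HpV_m; norm_num
  have ht := HpV_tay2 h0 h1
  obtain ⟨z, hzz⟩ : ∃ z, z = bz 6 := ⟨_, rfl⟩
  rw [← hzz] at hz ⊢
  have hz' := abs_le.1 hz
  have hz0 : 0 ≤ z := by linarith [hz'.1]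
  have a1 : |bj 10 (z * s)| ≤ 1 := bj_abs_le_one 10 (by norm_num) _ (by positivity)
  have a2 : |bj 10 (z * s) - bj 10 (HpV_m * s)| ≤ 1 / 20 * (1 / 1000000000000) := by
    refine (HpV_lip (by positivity) (by positivity)).trans ?_
    rw [← sub_mul, abs_mul, abs_of_nonneg h0]
    have : |z - HpV_m| * s ≤ 1 / 1000000000000 := by
      have := abs_nonneg (z - HpV_m)
      nlinarith
    linarith
  have a3 : |(z - HpV_m) * ((z + HpV_m) * bj 10 (z * s))| ≤ 1 / 1000000000000 * 55 := by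
    rw [abs_mul]
    refine mul_le_mul hz ?_ (abs_nonneg _) (by norm_num)
    rw [abs_mul, abs_of_nonneg (by positivity)]
    have : z + HpV_m ≤ 55 := by linarith [hz'.2]
    calc (z + HpV_m) * |bj 10 (z * s)| ≤ 55 * 1 := mul_le_mul this a1 (abs_nonneg _) (by norm_num)
      _ = _ := by ring
  have hmsq : HpV_m ^ 2 ≤ 729 := by nlinarith
  have a4 : |HpV_m ^ 2 * (bj 10 (z * s) - bj 10 (HpV_m * s))| ≤ 729 * (1 / 20 * (1 / 1000000000000)) := by
    rw [abs_mul, abs_of_nonneg (by positivity)]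
    exact mul_le_mul hmsq a2 (abs_nonneg _) (by norm_num)
  rw [abs_le] at a3 a4 ht ⊢
  have e : z ^ 2 / 192 * bj 10 (z * s) = HpV_m ^ 2 / 192 * bj 10 (HpV_m * s) +
      ((z - HpV_m) * ((z + HpV_m) * bj 10 (z * s)) + HpV_m ^ 2 * (bj 10 (z * s) - bj 10 (HpV_m * s))) / 192 := by ring
  rw [e]
  constructor <;> linarith [a3.1, a3.2, a4.1, a4.2, ht.1, ht.2]

/-- the difference -/
noncomputable def HpV_D (s : ℝ) : ℝ := bj 6 (bz 6 * s) - (1 - s) * pev tmv.p s / 1000000000000000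

theorem HpV_hD (s : ℝ) : HasDerivAt HpV_D (HpV_D1 s) s := by
  have h1 := PrC_hasDerivAt 6 (by norm_num) s
  have h2 : HasDerivAt (fun t : ℝ => (1 - t) * pev tmv.p t / 1000000000000000)
      (pev HpV_L1 s / 1000000000000000) s := by
    have h3 : HasDerivAt (fun t : ℝ => 1 - t) (-1) s := by
      simpa using (hasDerivAt_id s).const_sub 1
    refine ((h3.mul (HpV_d1 s)).div_const 1000000000000000).congr_deriv ?_
    rw [HpV_pevL1]
    ring
  exact h1.sub h2

theorem HpV_hD1 (s : ℝ) : HasDerivAt HpV_D1 (HpV_D2 s) s := by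
  have h1 : HasDerivAt (PrC_der 6) (bz 6 ^ 2 / 192 * bj 10 (bz 6 * s)) s := by
    have e : PrC_der 6 = fun t => -(bz 6 * bj 8 (bz 6 * t)) / 12 := funext HpV_der_eq
    rw [e]
    have h3 := hasDerivAt_bj 8 (by norm_num) (bz 6 * s)
    have h4 : HasDerivAt (fun t : ℝ => bz 6 * t) (bz 6) s := by
      simpa using (hasDerivAt_id s).const_mul (bz 6)
    have h5 := ((h3.comp s h4).const_mul (bz 6)).neg.div_const 12
    refine h5.congr_deriv ?_
    rw [show (8 : ℝ) + 2 = 10 by norm_num]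
    ring
  have h2 : HasDerivAt (fun t : ℝ => pev HpV_L1 t / 1000000000000000)
      (pev HpV_L2 s / 1000000000000000) s := by
    have e : (fun t : ℝ => pev HpV_L1 t / 1000000000000000) =
        fun t => (-pev tmv.p t + (1 - t) * pev tmdv.p t) / 1000000000000000 := by
      funext t
      rw [HpV_pevL1]
    rw [e]
    have h3 : HasDerivAt (fun t : ℝ => 1 - t) (-1) s := by
      simpa using (hasDerivAt_id s).const_sub 1
    refine (((HpV_d1 s).neg.add (h3.mul (HpV_d2 s))).div_const 1000000000000000).congr_deriv ?_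
    rw [HpV_pevL2]
    ring
  exact h1.sub h2

theorem HpV_D_one : HpV_D 1 = 0 := by
  unfold HpV_D
  rw [mul_one, bj_bz 6 (by norm_num)]
  ring

theorem HpV_D_eq (s : ℝ) : HpV_D s = (1 - s) * (uh 6 s - pev tmv.p s / 1000000000000000) := by
  unfold HpV_D
  rw [uh_mul 6 (by norm_num)]
  ring

theorem HpV_e {s : ℝ} (h0 : 0 ≤ s) (h1 : s < 1) : |uh 6 s - pev tmv.p s / 1000000000000000| ≤ 3 / 100000000000 := by
  have h := Convex.norm_image_sub_le_of_norm_hasDerivWithin_le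
    (f := HpV_D) (f' := HpV_D1) (s := Set.Icc (0 : ℝ) 1) (C := 3 / 100000000000)
    (fun t _ => (HpV_hD t).hasDerivWithinAt)
    (fun t ht => by
      rw [Real.norm_eq_abs]
      exact HpV_D1_le ht.1 ht.2)
    (convex_Icc 0 1) (Set.right_mem_Icc.2 (by norm_num)) ⟨h0, h1.le⟩
  have ht1 : 0 < 1 - s := by linarith
  rw [HpV_D_one, sub_zero, HpV_D_eq, Real.norm_eq_abs, Real.norm_eq_abs, abs_mul, abs_of_pos ht1, abs_sub_comm s 1,
    abs_of_pos ht1, mul_comm (3 / 100000000000 : ℝ)] at h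
  exact le_of_mul_le_mul_left h ht1

theorem HpV_e1 {s : ℝ} (h0 : 0 ≤ s) (h1 : s < 1) :
    |deriv (uh 6) s - pev tmdv.p s / 1000000000000000| ≤ 3 / 100000000000 := by
  have ht1 : 0 < 1 - s := by linarith
  -- the identity `D' = -e + (1 - s) e'`
  have hu : HasDerivAt (uh 6) (deriv (uh 6) s) s :=
    ((contDiff_uh 6 (by norm_num) 1).differentiable (by norm_num) s).hasDerivAt
  have hd : HasDerivAt HpV_D (-(uh 6 s - pev tmv.p s / 1000000000000000) +
      (1 - s) * (deriv (uh 6) s - pev tmdv.p s / 1000000000000000)) s := by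
    have e : HpV_D = fun t => (1 - t) * (uh 6 t - pev tmv.p t / 1000000000000000) := funext HpV_D_eq
    rw [e]
    have h3 : HasDerivAt (fun t : ℝ => 1 - t) (-1) s := by
      simpa using (hasDerivAt_id s).const_sub 1
    refine (h3.mul (hu.sub ((HpV_d1 s).div_const 1000000000000000))).congr_deriv ?_
    simp only [Pi.sub_apply]
    ring
  have hid := (HpV_hD s).unique hd
  -- Taylor
  have hg : ∀ t : ℝ, HasDerivAt (fun t => HpV_D t + HpV_D1 t * (1 - t)) (HpV_D2 t * (1 - t)) t := by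
    intro t
    have h3 : HasDerivAt (fun t : ℝ => 1 - t) (-1) t := by
      simpa using (hasDerivAt_id t).const_sub 1
    refine ((HpV_hD t).add ((HpV_hD1 t).mul h3)).congr_deriv ?_
    ring
  have h := Convex.norm_image_sub_le_of_norm_hasDerivWithin_le
    (f := fun t => HpV_D t + HpV_D1 t * (1 - t)) (f' := fun t => HpV_D2 t * (1 - t)) (s := Set.Icc s 1)
    (C := 3 / 100000000000 * (1 - s))
    (fun t _ => (hg t).hasDerivWithinAt)
    (fun t ht => by
      have ha := HpV_D2_le (h0.trans ht.1) ht.2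
      have hb : 0 ≤ 1 - t := by linarith [ht.2]
      rw [Real.norm_eq_abs, abs_mul, abs_of_nonneg hb]
      exact mul_le_mul ha (by linarith [ht.1]) hb (by norm_num))
    (convex_Icc s 1) (Set.right_mem_Icc.2 h1.le) (Set.left_mem_Icc.2 h1.le)
  have e1 : HpV_D s + HpV_D1 s * (1 - s) =
      (1 - s) * ((1 - s) * (deriv (uh 6) s - pev tmdv.p s / 1000000000000000)) := by
    rw [hid, HpV_D_eq]
    ring
  simp only [HpV_D_one, sub_self, mul_zero, add_zero, sub_zero] at h
  rw [e1, Real.norm_eq_abs, Real.norm_eq_abs, abs_mul, abs_mul, abs_of_pos ht1, abs_sub_comm s 1,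
    abs_of_pos ht1] at h
  have h2 : (1 - s) * (1 - s) * |deriv (uh 6) s - pev tmdv.p s / 1000000000000000| ≤
      (1 - s) * (1 - s) * (3 / 100000000000) := by linarith
  exact le_of_mul_le_mul_left h2 (mul_pos ht1 ht1)

theorem HpV_pev_cont (l : List ℤ) : Continuous (pev l) :=
  continuous_iff_continuousAt.2 fun s => (HpV_pev_deriv l s).continuousAt

theorem HpV_ext {f g : ℝ → ℝ} (hf : Continuous f) (hg : Continuous g) {C : ℝ}
    (h : ∀ s, 0 ≤ s → s < 1 → |f s - g s| ≤ C) (s : ℝ) (h0 : 0 ≤ s) (h1 : s ≤ 1) : |f s - g s| ≤ C := by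
  have hc : IsClosed {t : ℝ | |f t - g t| ≤ C} := isClosed_le (hf.sub hg).abs continuous_const
  have h2 : closure (Set.Ico (0 : ℝ) 1) ⊆ {t : ℝ | |f t - g t| ≤ C} :=
    hc.closure_subset_iff.2 fun t ht => h t ht.1 ht.2
  rw [closure_Ico (by norm_num)] at h2
  exact h2 ⟨h0, h1⟩

theorem ok_v : tmv.ok DD (uh 6) := by
  intro s h0 h1
  have h := HpV_ext (f := uh 6) (g := fun s => pev tmv.p s / 1000000000000000)
    (contDiff_uh 6 (by norm_num) 0).continuous ((HpV_pev_cont _).div_const _)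
    (fun s h0 h1 => HpV_e h0 h1) s h0 h1
  have hD : ((DD : ℕ) : ℝ) = 1000000000000000 := by norm_num [DD]
  have he : ((tmv.e : ℕ) : ℝ) = 100000 := by norm_num [tmv]
  rw [hD, he]
  have e : 1000000000000000 * uh 6 s - pev tmv.p s =
      1000000000000000 * (uh 6 s - pev tmv.p s / 1000000000000000) := by ring
  rw [e, abs_mul, abs_of_pos (by norm_num : (0 : ℝ) < 1000000000000000)]
  linarith

theorem ok_dv : tmdv.ok DD (deriv (uh 6)) := by
  intro s h0 h1
  have h := HpV_ext (f := deriv (uh 6)) (g := fun s => pev tmdv.p s / 1000000000000000)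
    ((contDiff_uh 6 (by norm_num) 1).continuous_deriv (by norm_num)) ((HpV_pev_cont _).div_const _)
    (fun s h0 h1 => HpV_e1 h0 h1) s h0 h1
  have hD : ((DD : ℕ) : ℝ) = 1000000000000000 := by norm_num [DD]
  have he : ((tmdv.e : ℕ) : ℝ) = 200000 := by norm_num [tmdv]
  rw [hD, he]
  have e : 1000000000000000 * deriv (uh 6) s - pev tmdv.p s =
      1000000000000000 * (deriv (uh 6) s - pev tmdv.p s / 1000000000000000) := by ring
  rw [e, abs_mul, abs_of_pos (by norm_num : (0 : ℝ) < 1000000000000000)]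
  linarith

end Pool.Agent.H94.GP
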