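import Pool.Agent.H94.GP.HpU
import Pool.Agent.H94.GP.HpV
import Pool.Agent.H94.SP.NF

/-!
# HpF: Taylor models of the quotients
-/

set_option autoImplicit false

open Pool.Agent.H94.ER Pool.Agent.H94.SP

namespace Pool.Agent.H94.GP

theorem TM.ok_const (D : ℕ) (t : TM) (f : ℝ → ℝ) (h : t.ok D f) (n : ℕ)
    (hn : t.p.length = n) :
    (⟨[t.p.sum], t.e⟩ : TM).ok D (fun _ => f 1) := by
  intro s _ _
  have h1 := h 1 zero_le_one le_rfl
  have e : pev t.p 1 = ((t.p.sum : ℤ) : ℝ) := by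
    clear h h1 hn
    induction t.p with
    | nil => simp [pev]
    | cons a l ih => simp [pev, ih]
  rw [e] at h1
  simpa [pev] using h1

/-- division -/
theorem TM.ok_div (D m : ℕ) (hD : 0 < D) (hm : 0 < m) (a b q : TM) (f g : ℝ → ℝ) (ha : a.ok D f)
    (hb : b.ok D g) (hg : ∀ s, 0 ≤ s → s ≤ 1 → (m : ℝ) ≤ D * g s)
    (hc : (sabs (a.add ((b.mul D ⟨q.p, 0⟩).smul (-1))).p + (a.add ((b.mul D ⟨q.p, 0⟩).smul (-1))).e) * D
      ≤ m * q.e) :
    q.ok D (fun s => f s / g s) := by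
  intro s h0 h1
  have hD' : (0 : ℝ) < D := by exact_mod_cast hD
  have hm' : (0 : ℝ) < m := by exact_mod_cast hm
  have hgs := hg s h0 h1
  have hgp : 0 < g s := by
    by_contra hn
    have : D * g s ≤ 0 := mul_nonpos_of_nonneg_of_nonpos hD'.le (not_lt.1 hn)
    linarith
  set r := a.add ((b.mul D ⟨q.p, 0⟩).smul (-1)) with hr
  have hq : (⟨q.p, 0⟩ : TM).ok D (fun s => pev q.p s / D) := by
    intro t _ _
    have : (D : ℝ) * (pev q.p t / D) - pev q.p t = 0 := by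
      rw [mul_div_cancel₀ _ hD'.ne']; ring
    simp [this]
  have k := TM.ok_add D _ _ _ _ ha (TM.ok_smul D (-1) _ _ (TM.ok_mul D hD _ _ _ _ hb hq)) s h0 h1
  rw [← hr] at k
  have k2 := abs_pev_le r.p s h0 h1
  have k3 : |(D : ℝ) * (f s + ((-1 : ℤ) : ℝ) * (g s * (pev q.p s / D)))| ≤ sabs r.p + r.e := by
    have e : (D : ℝ) * (f s + ((-1 : ℤ) : ℝ) * (g s * (pev q.p s / D)))
        = ((D : ℝ) * (f s + ((-1 : ℤ) : ℝ) * (g s * (pev q.p s / D))) - pev r.p s) + pev r.p s := by ring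
    rw [e]
    have k5 := (abs_add_le _ _).trans (add_le_add k k2)
    rw [add_comm (r.e : ℝ)] at k5
    exact k5
  have e2 : (D : ℝ) * (f s + ((-1 : ℤ) : ℝ) * (g s * (pev q.p s / D)))
      = g s * (D * (f s / g s) - pev q.p s) := by
    push_cast
    field_simp
    ring
  rw [e2, abs_mul, abs_of_pos hgp] at k3
  have k4 : ((sabs r.p + r.e : ℕ) : ℝ) * D ≤ m * q.e := by exact_mod_cast hc
  push_cast at k4
  have k5 : (m : ℝ) * |D * (f s / g s) - pev q.p s| ≤ (m : ℝ) * q.e := by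
    calc (m : ℝ) * |D * (f s / g s) - pev q.p s| ≤ D * g s * |D * (f s / g s) - pev q.p s| :=
          mul_le_mul_of_nonneg_right hgs (abs_nonneg _)
      _ = (g s * |D * (f s / g s) - pev q.p s|) * D := by ring
      _ ≤ (sabs r.p + r.e) * D := mul_le_mul_of_nonneg_right k3 hD'.le
      _ ≤ _ := k4
  exact le_of_mul_le_mul_left k5 hm'

/-- lower bound from a Taylor model by Bernstein coefficients -/
theorem TM.lower (D m : ℕ) (t : TM) (f : ℝ → ℝ) (h : t.ok D f)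
    (hc : (bernL (padd t.p [-((m : ℤ) + t.e)])).all (fun x => decide (0 ≤ x)) = true) (s : ℝ)
    (h0 : 0 ≤ s) (h1 : s ≤ 1) : (m : ℝ) ≤ D * f s := by
  have k1 := bern_pos _ hc s h0 h1
  rw [pev_padd] at k1
  simp only [pev] at k1
  push_cast at k1
  have k2 := (abs_le.1 (h s h0 h1)).1
  linarith

theorem TM.ok_congr (D : ℕ) (t : TM) (f g : ℝ → ℝ) (h : t.ok D f) (hfg : ∀ s, 0 ≤ s → s ≤ 1 → f s = g s) :
    t.ok D g := by
  intro s h0 h1
  rw [← hfg s h0 h1]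
  exact h s h0 h1

theorem ok_u_low (s : ℝ) (h0 : 0 ≤ s) (h1 : s ≤ 1) : ((624 * 10 ^ 12 : ℕ) : ℝ) ≤ DD * uh 2 s :=
  TM.lower DD (624 * 10 ^ 12) tmu (uh 2) ok_u (by decide +kernel) s h0 h1

theorem ok_rho : tmrho.ok DD (fun _ => F0 2 2 1) := by
  have h := TM.ok_div DD (624 * 10 ^ 12) (by decide +kernel) (by norm_num) ⟨[tmv.p.sum], tmv.e⟩
    ⟨[tmu.p.sum], tmu.e⟩ tmrho (fun _ => uh 6 1) (fun _ => uh 2 1)
    (TM.ok_const DD tmv _ ok_v _ rfl) (TM.ok_const DD tmu _ ok_u _ rfl)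
    (fun s _ _ => ok_u_low 1 zero_le_one le_rfl) (by decide +kernel)
  refine TM.ok_congr DD _ _ _ h fun s _ _ => ?_
  exact (NF_F0 1).symm

theorem ok_iu : tmiu.ok DD (fun s => 1 / uh 2 s) := by
  have h := TM.ok_div DD (624 * 10 ^ 12) (by decide +kernel) (by norm_num) ⟨[DD], 0⟩
    tmu tmiu (fun _ => 1) (uh 2) (by
      intro s _ _
      simp [pev]) ok_u ok_u_low (by decide +kernel)
  exact h

/-- model of `ρ u` -/
def tmru : TM := tmrho.mul DD tmu

theorem ok_ru : tmru.ok DD (fun s => F0 2 2 1 * uh 2 s) :=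
  TM.ok_mul DD (by decide +kernel) _ _ _ _ ok_rho ok_u

theorem ok_ru_low (s : ℝ) (h0 : 0 ≤ s) (h1 : s ≤ 1) :
    ((264 * 10 ^ 12 : ℕ) : ℝ) ≤ DD * (F0 2 2 1 * uh 2 s) :=
  TM.lower DD (264 * 10 ^ 12) tmru (fun s => F0 2 2 1 * uh 2 s) ok_ru (by decide +kernel) s h0 h1

theorem ok_F : tmF.ok DD nF := by
  have h := TM.ok_div DD (264 * 10 ^ 12) (by decide +kernel) (by norm_num) tmv
    tmru tmF (uh 6) (fun s => F0 2 2 1 * uh 2 s) ok_v ok_ru ok_ru_low (by decide +kernel)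
  refine TM.ok_congr DD _ _ _ h fun s _ h1 => ?_
  unfold nF
  rw [NF_F0 s, div_div, mul_comm (uh 2 s)]

theorem HpF_dF (s : ℝ) (h1 : s ≤ 1) :
    deriv nF s = (deriv (uh 6) s - F0 2 2 1 * nF s * deriv (uh 2) s) / (F0 2 2 1 * uh 2 s) := by
  have hu : HasDerivAt (uh 2) (deriv (uh 2) s) s :=
    ((contDiff_uh 2 le_rfl 1).differentiable (by norm_num) s).hasDerivAt
  have hv : HasDerivAt (uh 6) (deriv (uh 6) s) s :=
    ((contDiff_uh 6 (by norm_num) 1).differentiable (by norm_num) s).hasDerivAt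
  have hup := NF_u_pos s h1
  have hr := NF_rho_pos
  have e : nF = fun t => uh 6 t / uh 2 t / F0 2 2 1 := by
    funext t
    unfold nF
    rw [NF_F0 t]
  have h2 := ((hv.div hu hup.ne').div_const (F0 2 2 1)).deriv
  rw [e]
  have h3 : (fun t => uh 6 t / uh 2 t / F0 2 2 1) = fun x => (uh 6 / uh 2) x / F0 2 2 1 := rfl
  rw [h3, h2]
  simp only [Pi.div_apply]
  field_simp

theorem ok_dF : tmdF.ok DD (deriv nF) := by
  have ha := TM.ok_add DD _ _ _ _ ok_dv (TM.ok_smul DD (-1) _ _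
    (TM.ok_mul DD (by decide +kernel) _ _ _ _
      (TM.ok_mul DD (by decide +kernel) _ _ _ _ ok_rho ok_F) ok_du))
  have h := TM.ok_div DD (264 * 10 ^ 12) (by decide +kernel) (by norm_num) _
    tmru tmdF _ (fun s => F0 2 2 1 * uh 2 s) ha ok_ru ok_ru_low (by decide +kernel)
  refine TM.ok_congr DD _ _ _ h fun s _ h1 => ?_
  rw [HpF_dF s h1]
  push_cast
  ring

end Pool.Agent.H94.GP
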