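import Pool.Agent.H94.GP.HpA
import Pool.Agent.H94.GP.HpF

/-!
# HpK: Taylor models of the constants
-/

set_option autoImplicit false

open Pool.Agent.H94.ER Pool.Agent.H94.SP

namespace Pool.Agent.H94.GP

theorem HpK_eight : (15 : ℝ) ≤ bz (4 + 4) := by
  refine NB_low (by norm_num) fun s h0 h1 => ?_
  have h := (abs_le.1 (bj_taylor (4 + 4) (by norm_num) 3 s h0)).1
  norm_num [Finset.sum_range_succ, Finset.prod_range_succ, BjA_c, Nat.factorial] at h ⊢
  obtain ⟨t, rfl⟩ : ∃ t, s = 15 - t := ⟨15 - s, by ring⟩
  have ht : 0 ≤ t := by linarith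
  nlinarith [pow_nonneg ht 2, pow_nonneg ht 3]

theorem bz4_lo' : (14681970642123393 : ℝ) / 1000000000000000 < bz 4 := by
  refine NB_lo (by norm_num) ?_ (le_trans (by norm_num) HpK_eight)
  have h := (abs_le.1 (bj_taylor 4 (by norm_num) 16 (14681970642123393 / 1000000000000000) (by norm_num))).1
  norm_num [Finset.sum_range_succ, Finset.prod_range_succ, BjA_c, Nat.factorial] at h ⊢
  linarith

theorem bz4_hi' : bz 4 < (14681970642124393 : ℝ) / 1000000000000000 := by
  refine NB_hi (by norm_num) ?_
  have h := (abs_le.1 (bj_taylor 4 (by norm_num) 16 (14681970642124393 / 1000000000000000) (by norm_num))).2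
  norm_num [Finset.sum_range_succ, Finset.prod_range_succ, BjA_c, Nat.factorial] at h ⊢
  linarith

/-- `bz 2` -/
def tmlam : TM := ⟨[5783185962946784], 500⟩

/-- `gam` -/
def tmgam : TM := ⟨[20591430464216606], 1000⟩

/-- `kap` -/
def tmkap : TM := ⟨[4605699508738923], 5000⟩

theorem ok_lam : tmlam.ok DD (fun _ => bz 2) := by
  intro s _ _
  have h1 := bz2_lo'
  have h2 := bz2_hi'
  simp only [tmlam, pev, DD]
  rw [abs_le]
  push_cast
  constructor <;> linarith

theorem ok_gam : tmgam.ok DD (fun _ => gam) := by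
  intro s _ _
  have h1 := bz2_lo'
  have h2 := bz2_hi'
  have h3 := bz6_lo'
  have h4 := bz6_hi'
  simp only [tmgam, pev, DD, gam]
  rw [abs_le]
  push_cast
  constructor <;> linarith

theorem ok_kap : tmkap.ok DD (fun _ => kap) := by
  intro s _ _
  have h1 := bz2_lo'
  have h2 := bz2_hi'
  have h3 := bz6_lo'
  have h4 := bz6_hi'
  have h5 := bz4_lo'
  have h6 := bz4_hi'
  have h7 : bz 6 * bz 2 / bz 4 ≤ 10388885471687708 / 1000000000000000 := by
    rw [div_le_iff₀ (by linarith)]
    calc bz 6 * bz 2 ≤ (26374616427163890 / 1000000000000000) * (5783185962947284 / 1000000000000000) :=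
          mul_le_mul h4.le h2.le (by linarith) (by norm_num)
      _ ≤ (10388885471687708 / 1000000000000000) * (14681970642123393 / 1000000000000000) := by norm_num
      _ ≤ _ := mul_le_mul_of_nonneg_left h5.le (by norm_num)
  have h8 : 10388885471683708 / 1000000000000000 ≤ bz 6 * bz 2 / bz 4 := by
    rw [le_div_iff₀ (by linarith)]
    calc (10388885471683708 / 1000000000000000) * bz 4
        ≤ (10388885471683708 / 1000000000000000) * (14681970642124393 / 1000000000000000) :=
          mul_le_mul_of_nonneg_left h6.le (by norm_num)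
      _ ≤ (26374616427162890 / 1000000000000000) * (5783185962946284 / 1000000000000000) := by norm_num
      _ ≤ _ := mul_le_mul h3.le h1.le (by norm_num) (by linarith)
  simp only [tmkap, pev, DD, kap]
  rw [abs_le]
  push_cast
  constructor <;> linarith

end Pool.Agent.H94.GP
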