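import Pool.Agent.H94.SP.NF
import Pool.Agent.H94.GP.HpK

/-!
# HpG: `gg s / (1-s)^3` and `gg' s / (1-s)^2` to `10^-9`

Same proof as `SP/NE.lean` (`enc_g`, `enc_dg`), with more precise constants. Let `P s = pev tmGb.p s / 10^15`, `D s = gg s - (1-s)^3 P s`.
`D 1 = D' 1 = D'' 1 = 0` (`NE_gg_one`, `NE_g1_one`, `NE_g2_one` for `gg`; the factor `(1-s)^3` for the other term).
`D''' = NE_g3 (F0 2 2 1) (bz 2) (bz 6) s - ((1-s)^3 P)'''`. Replace `F0 2 2 1` by `ρ0 = .423816783462329` (`ok_rho` at any point: error `3e-10`, factor `l^3/384 ≤ .51`),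
`bz 2` by `5.783185962946784` and `bz 6` by `26.374616427163390` (`bz2_lo'`, .. in `HpA`: errors `5e-13`; use `NE_rep` or the Lipschitz bound of `bj` as in
`SP/NE` or `HpV`), `bj_taylor` with 14 to 16 terms for `bj 8 (l s)`, `bj 10 (m s)`, `bj 12 (m s)`; the difference of the two polynomials has coefficients of absolute sum
`≤ 2e-11`. So `|D'''| ≤ 1e-9`, hence (`NE_int` three times) `|D''| ≤ 1e-9 (1-s)`, `|D'| ≤ 1e-9 (1-s)^2 / 2`, `|D| ≤ 1e-9 (1-s)^3 / 6`.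
`tmGt.p` is exactly the list of `-3 P + (1-s) P'` (`((1-s)^3 P)' = (1-s)^2 (-3P + (1-s)P')`), so `HpG_dg` is the bound of `D'`.
(The coefficient computations can be done on lists by `decide +kernel` / `norm_num` as in `HpU.lean` (`HpU_pol`, `HpU_chk`) or `HpV.lean` (`HpV_close`, `HpV_c1`).)
-/

set_option autoImplicit false

open Pool.Agent.H94.ER Pool.Agent.H94.SP

namespace Pool.Agent.H94.GP

/-- `gg s / (1-s)^3` -/
def tmGb : TM :=
  ⟨[423816783462329, -341302467858162, 124005916879107, -27348778497030, 4147125779134, -463880169297,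
  40074269662, -2762907847, 155840458, -7333226, 292484, -10019, 298, -8], 1000000⟩

/-- `deriv gg s / (1-s)^2` -/
def tmGt : TM :=
  ⟨[-1612752818245149, 1613221705190862, -702075919886625, 180681174098716, -31349281300423,
  3951486972348, -380008781887, 28875802134, -1780244072, 90923552, -3912501, 143842, -4574, 128], 1000000⟩

/-! ### Auxiliary facts -/

/-- coefficients of `(1 - s)^3 P` -/
def HpG_Q : List ℤ := pmul [1, -3, 3, -1] tmGb.p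

/-- coefficients of the first derivative -/
def HpG_L1 : List ℤ := HpU_der HpG_Q

/-- coefficients of the second derivative -/
def HpG_L2 : List ℤ := HpU_der HpG_L1

/-- coefficients of the third derivative -/
def HpG_L3 : List ℤ := HpU_der HpG_L2

theorem HpG_Q_eval (s : ℝ) : pev HpG_Q s = (1 - s) ^ 3 * pev tmGb.p s := by
  rw [HpG_Q, pev_pmul]
  congr 1
  simp only [pev]
  push_cast
  ring

theorem HpG_L1_list : HpG_L1 = pmul [1, -2, 1] tmGt.p ++ [0] := by decide +kernel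

theorem HpG_L1_eval (s : ℝ) : pev HpG_L1 s = (1 - s) ^ 2 * pev tmGt.p s := by
  rw [HpG_L1_list, pev_append, pev_pmul]
  simp only [pev]
  push_cast
  ring

theorem HpG_pev_one (l : List ℤ) : pev l 1 = ((l.sum : ℤ) : ℝ) := by
  induction l with
  | nil => simp [pev]
  | cons a l ih => simp [pev, ih]

theorem HpG_L2_sum : HpG_L2.sum = 0 := by decide +kernel

theorem HpG_L3_len : HpG_L3.length ≤ 17 := by decide +kernel

/-- approximate value of `bz 6` -/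
def HpG_m : ℚ := 26374616427163390 / 10 ^ 15

/-- approximate value of `F0 2 2 1` -/
def HpG_r : ℚ := 423816783462329 / 10 ^ 15

/-- the coefficients of the Taylor polynomial of the third derivative of `gg` -/
def HpG_a : ℕ → ℚ
  | 0 => -(HpG_r * HpU_l ^ 3 / 384 * HpU_t HpU_l 8 0) - HpG_m ^ 2 / 64 * HpU_t HpG_m 10 0
  | k + 1 => -(HpG_r * HpU_l ^ 3 / 384 * HpU_t HpU_l 8 (k + 1)) -
      HpG_m ^ 2 / 64 * HpU_t HpG_m 10 (k + 1) + HpG_m ^ 3 / 3840 * HpU_t HpG_m 12 k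

theorem HpG_chk : ∑ k ∈ Finset.range 17, |HpG_a k - (HpG_L3.getD k 0 : ℚ) / 10 ^ 15| ≤
    2 / 10 ^ 11 := by
  decide +kernel

theorem HpG_tay (l d : ℚ) (n : ℕ) (s : ℝ) :
    ∑ k ∈ Finset.range n, BjA_c (d : ℝ) k * (-((l : ℝ) * s)) ^ k =
      ∑ k ∈ Finset.range n, ((HpU_t l d k : ℚ) : ℝ) * s ^ k := by
  refine Finset.sum_congr rfl fun k _ => ?_
  rw [HpU_t_eq, ← neg_mul, mul_pow]
  ring

theorem HpG_pol (s : ℝ) (h0 : 0 ≤ s) (h1 : s ≤ 1) :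
    |-((HpG_r : ℝ) * (HpU_l : ℝ) ^ 3 / 384 *
        ∑ k ∈ Finset.range 17, BjA_c 8 k * (-((HpU_l : ℝ) * s)) ^ k) -
      (HpG_m : ℝ) ^ 2 / 64 * ∑ k ∈ Finset.range 17, BjA_c 10 k * (-((HpG_m : ℝ) * s)) ^ k +
      s * ((HpG_m : ℝ) ^ 3 / 3840 *
        ∑ k ∈ Finset.range 16, BjA_c 12 k * (-((HpG_m : ℝ) * s)) ^ k) -
      pev HpG_L3 s / 10 ^ 15| ≤ 2 / 10 ^ 11 := by
  have t8 := HpG_tay HpU_l 8 17 s
  have t10 := HpG_tay HpG_m 10 17 s
  have t12 := HpG_tay HpG_m 12 16 s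
  push_cast at t8 t10 t12
  rw [t8, t10, t12]
  have e1 : -((HpG_r : ℝ) * (HpU_l : ℝ) ^ 3 / 384 *
        ∑ k ∈ Finset.range 17, ((HpU_t HpU_l 8 k : ℚ) : ℝ) * s ^ k) -
      (HpG_m : ℝ) ^ 2 / 64 * ∑ k ∈ Finset.range 17, ((HpU_t HpG_m 10 k : ℚ) : ℝ) * s ^ k +
      s * ((HpG_m : ℝ) ^ 3 / 3840 *
        ∑ k ∈ Finset.range 16, ((HpU_t HpG_m 12 k : ℚ) : ℝ) * s ^ k) =
      ∑ k ∈ Finset.range 17, ((HpG_a k : ℚ) : ℝ) * s ^ k := by
    rw [Finset.sum_range_succ' _ 16, Finset.sum_range_succ' _ 16, Finset.sum_range_succ' _ 16]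
    have e2 : ∑ k ∈ Finset.range 16, ((HpG_a (k + 1) : ℚ) : ℝ) * s ^ (k + 1) =
        -((HpG_r : ℝ) * (HpU_l : ℝ) ^ 3 / 384 *
          ∑ k ∈ Finset.range 16, ((HpU_t HpU_l 8 (k + 1) : ℚ) : ℝ) * s ^ (k + 1)) -
        (HpG_m : ℝ) ^ 2 / 64 *
          ∑ k ∈ Finset.range 16, ((HpU_t HpG_m 10 (k + 1) : ℚ) : ℝ) * s ^ (k + 1) +
        s * ((HpG_m : ℝ) ^ 3 / 3840 *
          ∑ k ∈ Finset.range 16, ((HpU_t HpG_m 12 k : ℚ) : ℝ) * s ^ k) := by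
      rw [Finset.mul_sum, Finset.mul_sum, Finset.mul_sum, Finset.mul_sum,
        ← Finset.sum_neg_distrib, ← Finset.sum_sub_distrib, ← Finset.sum_add_distrib]
      refine Finset.sum_congr rfl fun k _ => ?_
      simp only [HpG_a]
      push_cast
      ring
    rw [e2]
    simp only [HpG_a]
    push_cast
    ring
  rw [e1, HpU_pev_sum HpG_L3 17 HpG_L3_len, Finset.sum_div, ← Finset.sum_sub_distrib]
  refine (Finset.abs_sum_le_sum_abs _ _).trans ?_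
  have e3 : ∑ k ∈ Finset.range 17, |((HpG_a k : ℚ) : ℝ) * s ^ k -
      ((HpG_L3.getD k 0 : ℤ) : ℝ) * s ^ k / 10 ^ 15| ≤
      ((∑ k ∈ Finset.range 17, |HpG_a k - (HpG_L3.getD k 0 : ℚ) / 10 ^ 15| : ℚ) : ℝ) := by
    rw [Rat.cast_sum]
    refine Finset.sum_le_sum fun k _ => ?_
    have e4 : ((HpG_a k : ℚ) : ℝ) * s ^ k - ((HpG_L3.getD k 0 : ℤ) : ℝ) * s ^ k / 10 ^ 15 =
        ((HpG_a k - (HpG_L3.getD k 0 : ℚ) / 10 ^ 15 : ℚ) : ℝ) * s ^ k := by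
      push_cast
      ring
    rw [e4, Rat.cast_abs, abs_mul, abs_of_nonneg (pow_nonneg h0 k)]
    exact mul_le_of_le_one_right (abs_nonneg _) (pow_le_one₀ h0 h1)
  refine e3.trans ?_
  have e5 : ((∑ k ∈ Finset.range 17, |HpG_a k - (HpG_L3.getD k 0 : ℚ) / 10 ^ 15| : ℚ) : ℝ) ≤
      ((2 / 10 ^ 11 : ℚ) : ℝ) := Rat.cast_le.2 HpG_chk
  refine e5.trans (le_of_eq ?_)
  push_cast
  rfl

theorem HpG_rho : |F0 2 2 1 - (HpG_r : ℝ)| ≤ 3 / 10 ^ 10 := by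
  have h := ok_rho 0 le_rfl zero_le_one
  simp only [tmrho, pev, DD] at h
  push_cast at h
  unfold HpG_r
  push_cast
  rw [abs_le] at h ⊢
  constructor <;> linarith [h.1, h.2]

theorem HpG_bz6 : |bz 6 - (HpG_m : ℝ)| ≤ 1 / 10 ^ 12 := by
  have h1 := bz6_lo'
  have h2 := bz6_hi'
  unfold HpG_m
  push_cast
  rw [abs_le]
  constructor <;> linarith

/-- replacement of one coefficient -/
theorem HpG_rep (A A0 B S α β γ : ℝ) (hA : |A - A0| ≤ α) (hB : |B| ≤ 1) (hBS : |B - S| ≤ β)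
    (hA0 : 0 ≤ A0) (hA1 : A0 ≤ γ) : |A * B - A0 * S| ≤ α + γ * β := by
  have e : A * B - A0 * S = (A - A0) * B + A0 * (B - S) := by ring
  rw [e]
  refine (abs_add_le _ _).trans (add_le_add ?_ ?_)
  · rw [abs_mul]
    calc |A - A0| * |B| ≤ |A - A0| * 1 := mul_le_mul_of_nonneg_left hB (abs_nonneg _)
      _ ≤ α := by rw [mul_one]; exact hA
  · rw [abs_mul, abs_of_nonneg hA0]
    exact mul_le_mul hA1 hBS (abs_nonneg _) (hA0.trans hA1)

theorem HpG_D3 (s : ℝ) (h0 : 0 ≤ s) (h1 : s ≤ 1) :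
    |NE_g3 (F0 2 2 1) (bz 2) (bz 6) s - pev HpG_L3 s / 10 ^ 15| ≤ 1 / 10 ^ 9 := by
  have hlv : (HpU_l : ℝ) = 5783185962946784 / 10 ^ 15 := by
    unfold HpU_l
    push_cast
    rfl
  have hmv : (HpG_m : ℝ) = 26374616427163390 / 10 ^ 15 := by
    unfold HpG_m
    push_cast
    rfl
  have hrv : (HpG_r : ℝ) = 423816783462329 / 10 ^ 15 := by
    unfold HpG_r
    push_cast
    rfl
  have hl1 := bz2_lo'
  have hl2 := bz2_hi'
  have hm1 := bz6_lo'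
  have hm2 := bz6_hi'
  have hr := abs_le.1 HpG_rho
  have hbl := HpU_bz
  have hbm := HpG_bz6
  have hp := HpG_pol s h0 h1
  have hl : 0 ≤ bz 2 := by linarith
  have hm : 0 ≤ bz 6 := by linarith
  have b8 := HpU_bj 8 (by norm_num) 17 (bz 2) HpU_l (1 / 10 ^ 12) s hl (by rw [hlv]; norm_num) hbl
    h0 h1
  have b10 := HpU_bj 10 (by norm_num) 17 (bz 6) HpG_m (1 / 10 ^ 12) s hm (by rw [hmv]; norm_num)
    hbm h0 h1
  have b12 := HpU_bj 12 (by norm_num) 16 (bz 6) HpG_m (1 / 10 ^ 12) s hm (by rw [hmv]; norm_num)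
    hbm h0 h1
  have c8 : BjA_c 8 17 * (HpU_l : ℝ) ^ 17 ≤ 1 / 10 ^ 12 := by
    rw [hlv]
    simp only [BjA_c, Nat.factorial, Finset.prod_range_succ, Finset.prod_range_zero]
    norm_num
  have c10 : BjA_c 10 17 * (HpG_m : ℝ) ^ 17 ≤ 1 / 10 ^ 12 := by
    rw [hmv]
    simp only [BjA_c, Nat.factorial, Finset.prod_range_succ, Finset.prod_range_zero]
    norm_num
  have c12 : BjA_c 12 16 * (HpG_m : ℝ) ^ 16 ≤ 1 / 10 ^ 12 := by
    rw [hmv]
    simp only [BjA_c, Nat.factorial, Finset.prod_range_succ, Finset.prod_range_zero]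
    norm_num
  have n8 := bj_abs_le_one 8 (by norm_num) (bz 2 * s) (by positivity)
  have n10 := bj_abs_le_one 10 (by norm_num) (bz 6 * s) (by positivity)
  have n12 := bj_abs_le_one 12 (by norm_num) (bz 6 * s) (by positivity)
  have d8 := b8.trans (add_le_add_right c8 _)
  have d10 := b10.trans (add_le_add_right c10 _)
  have d12 := b12.trans (add_le_add_right c12 _)
  have hr1 : F0 2 2 1 ≤ 42381708 / 10 ^ 8 + 3 / 10 ^ 10 := by
    rw [hrv] at hr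
    linarith [hr.2]
  have hrlo : 423816783462329 / 10 ^ 15 - 3 / 10 ^ 10 ≤ F0 2 2 1 := by
    rw [hrv] at hr
    linarith [hr.1]
  have hrhi : F0 2 2 1 ≤ 423816783462329 / 10 ^ 15 + 3 / 10 ^ 10 := by
    rw [hrv] at hr
    linarith [hr.2]
  have hr0 : 0 ≤ F0 2 2 1 := by
    refine le_trans ?_ hrlo
    norm_num
  have a8 : |F0 2 2 1 * bz 2 ^ 3 / 384 - (HpG_r : ℝ) * (HpU_l : ℝ) ^ 3 / 384| ≤ 2 / 10 ^ 10 := by
    have a : F0 2 2 1 * bz 2 ^ 3 / 384 ≤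
        (423816783462329 / 10 ^ 15 + 3 / 10 ^ 10) * (5783185962947284 / 1000000000000000) ^ 3 / 384 := by
      gcongr
    have b : (423816783462329 / 10 ^ 15 - 3 / 10 ^ 10) *
        (5783185962946284 / 1000000000000000) ^ 3 / 384 ≤ F0 2 2 1 * bz 2 ^ 3 / 384 := by
      gcongr
    rw [hlv, hrv, abs_le]
    constructor <;> norm_num at a b ⊢ <;> linarith
  have a10 : |bz 6 ^ 2 / 64 - (HpG_m : ℝ) ^ 2 / 64| ≤ 1 / 10 ^ 11 := by
    have a : bz 6 ^ 2 / 64 ≤ (26374616427163890 / 1000000000000000) ^ 2 / 64 := by gcongr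
    have b : (26374616427162890 / 1000000000000000) ^ 2 / 64 ≤ bz 6 ^ 2 / 64 := by gcongr
    rw [hmv, abs_le]
    constructor <;> norm_num at a b ⊢ <;> linarith
  have a12 : |bz 6 ^ 3 / 3840 - (HpG_m : ℝ) ^ 3 / 3840| ≤ 1 / 10 ^ 11 := by
    have a : bz 6 ^ 3 / 3840 ≤ (26374616427163890 / 1000000000000000) ^ 3 / 3840 := by gcongr
    have b : (26374616427162890 / 1000000000000000) ^ 3 / 3840 ≤ bz 6 ^ 3 / 3840 := by gcongr
    rw [hmv, abs_le]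
    constructor <;> norm_num at a b ⊢ <;> linarith
  have g8 := HpG_rep _ _ _ _ _ _ 1 a8 n8 d8 (by rw [hlv, hrv]; positivity)
    (by rw [hlv, hrv]; norm_num)
  have g10 := HpG_rep _ _ _ _ _ _ 11 a10 n10 d10 (by rw [hmv]; positivity)
    (by rw [hmv]; norm_num)
  have g12 := HpG_rep _ _ _ _ _ _ 5 a12 n12 d12 (by rw [hmv]; positivity)
    (by rw [hmv]; norm_num)
  unfold NE_g3
  set T8 := ∑ k ∈ Finset.range 17, BjA_c 8 k * (-((HpU_l : ℝ) * s)) ^ k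
  set T10 := ∑ k ∈ Finset.range 17, BjA_c 10 k * (-((HpG_m : ℝ) * s)) ^ k
  set T12 := ∑ k ∈ Finset.range 16, BjA_c 12 k * (-((HpG_m : ℝ) * s)) ^ k
  have g12' : |s * (bz 6 ^ 3 / 3840 * bj 12 (bz 6 * s)) - s * ((HpG_m : ℝ) ^ 3 / 3840 * T12)| ≤
      1 / 10 ^ 11 + 5 * (1 / (2 * 12) * (1 / 10 ^ 12) + 1 / 10 ^ 12) := by
    rw [← mul_sub, abs_mul, abs_of_nonneg h0]
    exact (mul_le_of_le_one_left (abs_nonneg _) h1).trans g12
  rw [abs_le] at g8 g10 g12' hp ⊢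
  constructor <;> linarith [g8.1, g8.2, g10.1, g10.2, g12'.1, g12'.2, hp.1, hp.2]

theorem HpG_D2 (s : ℝ) (h0 : 0 ≤ s) (h1 : s ≤ 1) :
    |NE_g2 (F0 2 2 1) (bz 2) (bz 6) s - pev HpG_L2 s / 10 ^ 15| ≤ 1 / 10 ^ 9 * (1 - s) := by
  have h := NE_int (fun t => NE_g2 (F0 2 2 1) (bz 2) (bz 6) t - pev HpG_L2 t / 10 ^ 15)
    (fun t => NE_g3 (F0 2 2 1) (bz 2) (bz 6) t - pev HpG_L3 t / 10 ^ 15) (1 / 10 ^ 9) 0
    (fun t => (NE_gg3 _ _ _ t).sub ((HpU_hasDerivAt HpG_L2 t).div_const _)) ?_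
    (fun t ht0 ht1 => by simpa using HpG_D3 t ht0 ht1) s h0 h1
  · simpa using h
  · simp only [NE_g2_one, HpG_pev_one, HpG_L2_sum]
    norm_num

theorem HpG_D1 (s : ℝ) (h0 : 0 ≤ s) (h1 : s ≤ 1) :
    |NE_g1 (F0 2 2 1) (bz 2) (bz 6) s - pev HpG_L1 s / 10 ^ 15| ≤
      1 / (2 * 10 ^ 9) * (1 - s) ^ 2 := by
  have h := NE_int (fun t => NE_g1 (F0 2 2 1) (bz 2) (bz 6) t - pev HpG_L1 t / 10 ^ 15)
    (fun t => NE_g2 (F0 2 2 1) (bz 2) (bz 6) t - pev HpG_L2 t / 10 ^ 15) (1 / 10 ^ 9) 1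
    (fun t => (NE_gg2 _ _ _ t).sub ((HpU_hasDerivAt HpG_L1 t).div_const _)) ?_
    (fun t ht0 ht1 => by simpa using HpG_D2 t ht0 ht1) s h0 h1
  · refine h.trans (le_of_eq ?_)
    norm_num
  · simp only [NE_g1_one, HpG_L1_eval]
    norm_num

theorem HpG_D0 (s : ℝ) (h0 : 0 ≤ s) (h1 : s ≤ 1) :
    |gg s - pev HpG_Q s / 10 ^ 15| ≤ 1 / (6 * 10 ^ 9) * (1 - s) ^ 3 := by
  have h := NE_int (fun t => gg t - pev HpG_Q t / 10 ^ 15)
    (fun t => NE_g1 (F0 2 2 1) (bz 2) (bz 6) t - pev HpG_L1 t / 10 ^ 15) (1 / (2 * 10 ^ 9)) 2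
    (fun t => (NE_gg1 t).sub ((HpU_hasDerivAt HpG_Q t).div_const _)) ?_
    (fun t ht0 ht1 => HpG_D1 t ht0 ht1) s h0 h1
  · refine h.trans (le_of_eq ?_)
    norm_num
  · simp only [NE_gg_one, HpG_Q_eval]
    norm_num

theorem HpG_DD : ((DD : ℕ) : ℝ) = 10 ^ 15 := by
  norm_num [DD]

theorem HpG_fin (X Y t : ℝ) (n : ℕ) (ht : 0 < t) (h : |X - t ^ n * Y / 10 ^ 15| ≤ 1 / 10 ^ 9 * t ^ n) :
    |(DD : ℝ) * (X / t ^ n) - Y| ≤ 1000000 := by
  have hn : 0 < t ^ n := pow_pos ht n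
  rw [HpG_DD]
  have e : (10 : ℝ) ^ 15 * (X / t ^ n) - Y = 10 ^ 15 * (X - t ^ n * Y / 10 ^ 15) / t ^ n := by
    field_simp
  rw [e, abs_div, abs_of_pos hn, div_le_iff₀ hn, abs_mul, abs_of_pos (by positivity)]
  calc (10 : ℝ) ^ 15 * |X - t ^ n * Y / 10 ^ 15| ≤ 10 ^ 15 * (1 / 10 ^ 9 * t ^ n) :=
        mul_le_mul_of_nonneg_left h (by positivity)
    _ = 1000000 * t ^ n := by ring

theorem HpG_g (s : ℝ) (h0 : 0 ≤ s) (h1 : s < 1) :
    |(DD : ℝ) * (gg s / (1 - s) ^ 3) - pev tmGb.p s| ≤ (tmGb.e : ℝ) := by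
  have ht : 0 < 1 - s := by linarith
  have h := HpG_D0 s h0 h1.le
  rw [HpG_Q_eval] at h
  have h2 := HpG_fin (gg s) (pev tmGb.p s) (1 - s) 3 ht (h.trans (by
    refine mul_le_mul_of_nonneg_right (by norm_num) (by positivity)))
  have he : ((tmGb.e : ℕ) : ℝ) = 1000000 := by
    simp [tmGb]
  rw [he]
  exact h2

theorem HpG_dg (s : ℝ) (h0 : 0 ≤ s) (h1 : s < 1) :
    |(DD : ℝ) * (deriv gg s / (1 - s) ^ 2) - pev tmGt.p s| ≤ (tmGt.e : ℝ) := by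
  have ht : 0 < 1 - s := by linarith
  have h := HpG_D1 s h0 h1.le
  rw [HpG_L1_eval] at h
  have h2 := HpG_fin (NE_g1 (F0 2 2 1) (bz 2) (bz 6) s) (pev tmGt.p s) (1 - s) 2 ht (h.trans (by
    refine mul_le_mul_of_nonneg_right (by norm_num) (by positivity)))
  have he : ((tmGt.e : ℕ) : ℝ) = 1000000 := by
    simp [tmGt]
  rw [he, (NE_gg1 s).deriv]
  exact h2

end Pool.Agent.H94.GP
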