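import Pool.Agent.H94.GP.HpA
import Pool.Agent.H94.GP.HpD
import Pool.Agent.H94.SP.NC

/-!
# HpU: Taylor models of `uh 2` and its derivative, error `1e-10` resp. `2e-10`

Let `q s = pev tmu.p s / 10^15` (a polynomial of degree 10), `U s = bj 2 (bz 2 * s) = (1 - s) uh 2 s` (`uh_mul`), `P s = (1 - s) q s`, `e = uh 2 - q`, `D = U - P = (1 - s) e`,
`D 1 = 0`. `l = bz 2`, `l0 = 5783185962946784/10^15`, `|l - l0| ≤ 1e-12` (HpA).
1. `U' = -(l/4) bj 4 (l s)`, `U'' = (l^2/32) bj 6 (l s)` (`uder`, `hasDerivAt_bj`). Replace `l` by `l0` (`|bj| ≤ 1`, `|bj d x - bj d y| ≤ |x-y|/(2d)` for `x, y ≥ 0`; cost `≤ 1e-11`) and use `bj_taylor` with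
   `n = 13` at `l0 s` (error `≤ 1e-13`); the difference to `P'`, `P''` is a polynomial whose coefficients have absolute sum `≤ 1e-12`. So `|D'| ≤ 5e-11`, `|D''| ≤ 5e-11` on `[0,1]`.
2. `|(1-s) e| = |D| ≤ 5e-11 (1 - s)` gives `|e| ≤ 5e-11` for `s < 1`. Taylor at `s`: `|D 1 - D s - D' s (1-s)| ≤ 5e-11 (1-s)^2/2`, i.e. `|e + D'| ≤ 2.5e-11 (1-s)`, and
   `D' = -e + (1-s) e'`, so `(1-s) |e'| = |D' + e| ≤ 2.5e-11 (1-s)`. `s = 1` by continuity (`contDiff_uh`).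
The theorems are `|10^15 f s - pev .. s| ≤ 100000` etc. (`TM.ok`, `DD = 10^15`); the second list is the derivative of the first.
-/

set_option autoImplicit false

open Pool.Agent.H94.ER Pool.Agent.H94.SP

namespace Pool.Agent.H94.GP

/-! ### Auxiliary facts on coefficient lists -/

/-- derivative of a coefficient list -/
def HpU_der : List ℤ → List ℤ
  | [] => []
  | _ :: m => padd m (0 :: HpU_der m)

theorem HpU_hasDerivAt (l : List ℤ) (s : ℝ) : HasDerivAt (pev l) (pev (HpU_der l) s) s := by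
  induction l with
  | nil =>
    have h : pev [] = fun _ => 0 := rfl
    rw [h]
    exact hasDerivAt_const s 0
  | cons a l ih =>
    have h : pev (a :: l) = fun s => (a : ℝ) + s * pev l s := rfl
    rw [h]
    have h1 := ((hasDerivAt_id s).mul ih).const_add (a : ℝ)
    refine h1.congr_deriv ?_
    simp only [HpU_der, pev_padd, pev, id]
    push_cast
    ring

theorem HpU_pev_sum (l : List ℤ) (n : ℕ) (h : l.length ≤ n) (s : ℝ) :
    pev l s = ∑ k ∈ Finset.range n, ((l.getD k 0 : ℤ) : ℝ) * s ^ k := by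
  induction l generalizing n with
  | nil =>
    rw [Finset.sum_eq_zero]
    · rfl
    · intro k _
      simp
  | cons a l ih =>
    obtain ⟨m, rfl⟩ : ∃ m, n = m + 1 := ⟨n - 1, by
      simp only [List.length_cons] at h
      omega⟩
    rw [Finset.sum_range_succ']
    have h1 : l.length ≤ m := by
      simp only [List.length_cons] at h
      omega
    simp only [pev, ih m h1, List.getD_cons_succ, List.getD_cons_zero, pow_zero, mul_one]
    rw [Finset.mul_sum, add_comm]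
    congr 1
    refine Finset.sum_congr rfl fun k _ => ?_
    ring

/-- the coefficients of the Taylor polynomial of `bj d (l s)` -/
def HpU_t (l d : ℚ) : ℕ → ℚ
  | 0 => 1
  | k + 1 => HpU_t l d k * (-l) / (4 * (k + 1) * (d / 2 + k))

theorem HpU_t_eq (l d : ℚ) (k : ℕ) :
    ((HpU_t l d k : ℚ) : ℝ) = BjA_c (d : ℝ) k * (-(l : ℝ)) ^ k := by
  induction k with
  | zero => simp [HpU_t, BjA_c]
  | succ k ih =>
    simp only [HpU_t]
    push_cast
    rw [ih]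
    unfold BjA_c
    rw [Finset.prod_range_succ, Nat.factorial_succ, pow_succ, pow_succ]
    push_cast
    rw [div_eq_mul_inv, one_div, one_div]
    simp only [mul_inv]
    ring

/-- sum of the absolute values of the coefficients of the difference -/
def HpU_chk (c l d : ℚ) (L : List ℤ) (n : ℕ) : ℚ :=
  ∑ k ∈ Finset.range n, |c * HpU_t l d k - (L.getD k 0 : ℚ) / 10 ^ 15|

theorem HpU_pol (c l d : ℚ) (L : List ℤ) (n : ℕ) (E : ℚ) (hL : L.length ≤ n)
    (h : HpU_chk c l d L n ≤ E) (s : ℝ) (h0 : 0 ≤ s) (h1 : s ≤ 1) :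
    |(c : ℝ) * ∑ k ∈ Finset.range n, BjA_c (d : ℝ) k * (-((l : ℝ) * s)) ^ k - pev L s / 10 ^ 15| ≤
      (E : ℝ) := by
  have e1 : (c : ℝ) * ∑ k ∈ Finset.range n, BjA_c (d : ℝ) k * (-((l : ℝ) * s)) ^ k -
      pev L s / 10 ^ 15 =
      ∑ k ∈ Finset.range n, ((c * HpU_t l d k - (L.getD k 0 : ℚ) / 10 ^ 15 : ℚ) : ℝ) * s ^ k := by
    rw [HpU_pev_sum L n hL, Finset.mul_sum, Finset.sum_div, ← Finset.sum_sub_distrib]
    refine Finset.sum_congr rfl fun k _ => ?_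
    push_cast
    rw [HpU_t_eq, ← neg_mul, mul_pow]
    ring
  rw [e1]
  refine (Finset.abs_sum_le_sum_abs _ _).trans ?_
  have e2 : ∑ k ∈ Finset.range n,
      |((c * HpU_t l d k - (L.getD k 0 : ℚ) / 10 ^ 15 : ℚ) : ℝ) * s ^ k| ≤
      ((HpU_chk c l d L n : ℚ) : ℝ) := by
    unfold HpU_chk
    rw [Rat.cast_sum]
    refine Finset.sum_le_sum fun k _ => ?_
    rw [Rat.cast_abs, abs_mul, abs_of_nonneg (pow_nonneg h0 k)]
    exact mul_le_of_le_one_right (abs_nonneg _) (pow_le_one₀ h0 h1)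
  exact e2.trans (by exact_mod_cast h)

theorem HpU_lip (d : ℝ) (hd : 1 ≤ d) (x y : ℝ) (hx : 0 ≤ x) (hy : 0 ≤ y) :
    |bj d y - bj d x| ≤ 1 / (2 * d) * |y - x| := by
  have hd0 : 0 < d := by linarith
  have h := Convex.norm_image_sub_le_of_norm_hasDerivWithin_le (f := bj d)
    (f' := fun s => -(bj (d + 2) s) / (2 * d)) (s := Set.Ici (0 : ℝ)) (C := 1 / (2 * d)) (x := x)
    (y := y) (fun s _ => (hasDerivAt_bj d hd0 s).hasDerivWithinAt) (fun s hs => by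
      have h1 := bj_abs_le_one (d + 2) (by linarith) s hs
      rw [Real.norm_eq_abs, abs_div, abs_neg, abs_of_pos (by positivity : (0 : ℝ) < 2 * d)]
      exact div_le_div_of_nonneg_right h1 (by positivity)) (convex_Ici 0) hx hy
  simpa [Real.norm_eq_abs] using h

/-- approximation of `bj d (z s)` by the Taylor polynomial at `l s` -/
theorem HpU_bj (d : ℝ) (hd : 1 ≤ d) (n : ℕ) (z l δ s : ℝ) (hz : 0 ≤ z) (hl : 0 ≤ l)
    (hzl : |z - l| ≤ δ) (h0 : 0 ≤ s) (h1 : s ≤ 1) :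
    |bj d (z * s) - ∑ k ∈ Finset.range n, BjA_c d k * (-(l * s)) ^ k| ≤
      1 / (2 * d) * δ + BjA_c d n * l ^ n := by
  have hd0 : 0 < d := by linarith
  have e1 := HpU_lip d hd (l * s) (z * s) (by positivity) (by positivity)
  have e2 := bj_taylor d hd n (l * s) (by positivity)
  have e3 : |z * s - l * s| ≤ δ := by
    rw [← sub_mul, abs_mul, abs_of_nonneg h0]
    exact (mul_le_of_le_one_right (abs_nonneg _) h1).trans hzl
  have e4 : 1 / (2 * d) * |z * s - l * s| ≤ 1 / (2 * d) * δ :=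
    mul_le_mul_of_nonneg_left e3 (by positivity)
  have e5 : BjA_c d n * (l * s) ^ n ≤ BjA_c d n * l ^ n := by
    have hc : 0 ≤ BjA_c d n := by
      unfold BjA_c
      have : 0 ≤ ∏ i ∈ Finset.range n, (d / 2 + i) := Finset.prod_nonneg fun i _ => by positivity
      positivity
    refine mul_le_mul_of_nonneg_left ?_ hc
    exact pow_le_pow_left₀ (by positivity) (mul_le_of_le_one_right hl h1) n
  calc |bj d (z * s) - ∑ k ∈ Finset.range n, BjA_c d k * (-(l * s)) ^ k|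
      = |(bj d (z * s) - bj d (l * s)) +
          (bj d (l * s) - ∑ k ∈ Finset.range n, BjA_c d k * (-(l * s)) ^ k)| := by
        rw [sub_add_sub_cancel]
    _ ≤ |bj d (z * s) - bj d (l * s)| +
          |bj d (l * s) - ∑ k ∈ Finset.range n, BjA_c d k * (-(l * s)) ^ k| := abs_add_le _ _
    _ ≤ _ := add_le_add (e1.trans e4) (e2.trans e5)

/-! ### The function `uh 2` -/

/-- the approximation of `bz 2` -/
def HpU_l : ℚ := 5783185962946784 / 10 ^ 15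

/-- `(1 - s) q s`, first derivative -/
def HpU_L1 : List ℤ :=
  padd (tmu.p.map ((-1) * ·)) (padd tmdu.p (0 :: tmdu.p.map ((-1) * ·)))

theorem HpU_L1_eval (s : ℝ) : pev HpU_L1 s = - pev tmu.p s + (1 - s) * pev tmdu.p s := by
  have h := pev_map (-1) tmu.p s
  have h' := pev_map (-1) tmdu.p s
  simp only [HpU_L1, pev_padd, pev, h, h']
  push_cast
  ring

theorem HpU_bz : |bz 2 - (HpU_l : ℝ)| ≤ 1 / 10 ^ 12 := by
  have h1 := bz2_lo'
  have h2 := bz2_hi'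
  unfold HpU_l
  push_cast
  rw [abs_le]
  constructor <;> linarith

theorem HpU_D1 (s : ℝ) (h0 : 0 ≤ s) (h1 : s ≤ 1) :
    |PrC_der 2 s - pev HpU_L1 s / 10 ^ 15| ≤ 4 / 10 ^ 11 := by
  have hb := HpU_bz
  have hlv : (HpU_l : ℝ) = 5783185962946784 / 10 ^ 15 := by
    unfold HpU_l
    push_cast
    rfl
  have hz : 0 ≤ bz 2 := by
    have := bz2_lo'
    linarith
  have e1 := HpU_bj 4 (by norm_num) 11 (bz 2) HpU_l (1 / 10 ^ 12) s hz (by rw [hlv]; norm_num) hb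
    h0 h1
  have e2 : BjA_c 4 11 * (HpU_l : ℝ) ^ 11 ≤ 1 / 10 ^ 13 := by
    rw [hlv]
    simp only [BjA_c, Nat.factorial, Finset.prod_range_succ, Finset.prod_range_zero]
    norm_num
  have e3 := HpU_pol (-HpU_l / 4) HpU_l 4 HpU_L1 11 (1 / 10 ^ 11) (by decide) (by decide +kernel)
    s h0 h1
  have e4 := bj_abs_le_one 4 (by norm_num) (bz 2 * s) (by positivity)
  have hder : PrC_der 2 s = -(bz 2 * bj 4 (bz 2 * s)) / 4 := by
    unfold PrC_der
    norm_num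
  rw [hder]
  push_cast at e1 e3
  set S := ∑ k ∈ Finset.range 11, BjA_c 4 k * (-((HpU_l : ℝ) * s)) ^ k with hS
  set B := bj 4 (bz 2 * s) with hB
  have e5 : -(bz 2 * B) / 4 - pev HpU_L1 s / 10 ^ 15 =
      -((bz 2 - HpU_l) * B) / 4 - (HpU_l : ℝ) / 4 * (B - S) +
        (-(HpU_l : ℝ) / 4 * S - pev HpU_L1 s / 10 ^ 15) := by ring
  have e6 : |(bz 2 - HpU_l) * B| ≤ 1 / 10 ^ 12 := by
    rw [abs_mul]
    calc |bz 2 - (HpU_l : ℝ)| * |B| ≤ 1 / 10 ^ 12 * 1 :=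
          mul_le_mul hb e4 (abs_nonneg _) (by positivity)
      _ = 1 / 10 ^ 12 := by ring
  have e7 : |(HpU_l : ℝ) / 4 * (B - S)| ≤ 2 * (1 / (2 * 4) * (1 / 10 ^ 12) + 1 / 10 ^ 13) := by
    rw [abs_mul, abs_of_nonneg (by rw [hlv]; norm_num : (0 : ℝ) ≤ (HpU_l : ℝ) / 4)]
    refine mul_le_mul (by rw [hlv]; norm_num) (e1.trans (add_le_add le_rfl e2)) (abs_nonneg _)
      (by norm_num)
  rw [e5]
  rw [abs_le] at *
  constructor <;> linarith [e6.1, e6.2, e7.1, e7.2, e3.1, e3.2]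

theorem HpU_der2 (s : ℝ) : HasDerivAt (PrC_der 2) (bz 2 ^ 2 / 32 * bj 6 (bz 2 * s)) s := by
  have h1 := hasDerivAt_bj 4 (by norm_num) (bz 2 * s)
  have h2 : HasDerivAt (fun t : ℝ => bz 2 * t) (bz 2) s := by
    simpa using (hasDerivAt_id s).const_mul (bz 2)
  have h3 := HasDerivAt.comp s h1 h2
  have h4 := ((h3.const_mul (bz 2)).neg).div_const (2 * 2)
  have h5 : PrC_der 2 = fun t => -(bz 2 * (bj 4 ∘ fun t : ℝ => bz 2 * t) t) / (2 * 2) := by
    funext t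
    unfold PrC_der
    norm_num
  rw [h5]
  refine h4.congr_deriv ?_
  rw [show (4 : ℝ) + 2 = 6 by norm_num]
  ring

theorem HpU_D2 (s : ℝ) (h0 : 0 ≤ s) (h1 : s ≤ 1) :
    |bz 2 ^ 2 / 32 * bj 6 (bz 2 * s) - pev (HpU_der HpU_L1) s / 10 ^ 15| ≤ 4 / 10 ^ 11 := by
  have hb := HpU_bz
  have hlv : (HpU_l : ℝ) = 5783185962946784 / 10 ^ 15 := by
    unfold HpU_l
    push_cast
    rfl
  have hz1 := bz2_lo'
  have hz2 := bz2_hi'
  have hz : 0 ≤ bz 2 := by linarith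
  have e1 := HpU_bj 6 (by norm_num) 11 (bz 2) HpU_l (1 / 10 ^ 12) s hz (by rw [hlv]; norm_num) hb
    h0 h1
  have e2 : BjA_c 6 11 * (HpU_l : ℝ) ^ 11 ≤ 1 / 10 ^ 13 := by
    rw [hlv]
    simp only [BjA_c, Nat.factorial, Finset.prod_range_succ, Finset.prod_range_zero]
    norm_num
  have e3 := HpU_pol (HpU_l ^ 2 / 32) HpU_l 6 (HpU_der HpU_L1) 11 (1 / 10 ^ 11) (by decide)
    (by decide +kernel) s h0 h1
  have e4 := bj_abs_le_one 6 (by norm_num) (bz 2 * s) (by positivity)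
  push_cast at e1 e3
  set S := ∑ k ∈ Finset.range 11, BjA_c 6 k * (-((HpU_l : ℝ) * s)) ^ k with hS
  set B := bj 6 (bz 2 * s) with hB
  have e5 : bz 2 ^ 2 / 32 * B - pev (HpU_der HpU_L1) s / 10 ^ 15 =
      (bz 2 + HpU_l) / 32 * ((bz 2 - HpU_l) * B) + (HpU_l : ℝ) ^ 2 / 32 * (B - S) +
        ((HpU_l : ℝ) ^ 2 / 32 * S - pev (HpU_der HpU_L1) s / 10 ^ 15) := by ring
  have e6 : |(bz 2 + HpU_l) / 32 * ((bz 2 - HpU_l) * B)| ≤ 1 / 10 ^ 12 := by
    have hp : 0 ≤ (bz 2 + (HpU_l : ℝ)) / 32 := by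
      rw [hlv]
      positivity
    have hp1 : (bz 2 + (HpU_l : ℝ)) / 32 ≤ 1 := by
      rw [hlv]
      linarith
    rw [abs_mul, abs_of_nonneg hp, abs_mul]
    calc (bz 2 + (HpU_l : ℝ)) / 32 * (|bz 2 - (HpU_l : ℝ)| * |B|) ≤ 1 * (1 / 10 ^ 12 * 1) :=
          mul_le_mul hp1 (mul_le_mul hb e4 (abs_nonneg _) (by positivity)) (by positivity)
            zero_le_one
      _ = 1 / 10 ^ 12 := by ring
  have e7 : |(HpU_l : ℝ) ^ 2 / 32 * (B - S)| ≤ 2 * (1 / (2 * 6) * (1 / 10 ^ 12) + 1 / 10 ^ 13) := by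
    rw [abs_mul, abs_of_nonneg (by rw [hlv]; norm_num : (0 : ℝ) ≤ (HpU_l : ℝ) ^ 2 / 32)]
    refine mul_le_mul (by rw [hlv]; norm_num) (e1.trans (add_le_add le_rfl e2)) (abs_nonneg _)
      (by norm_num)
  rw [e5]
  rw [abs_le] at *
  constructor <;> linarith [e6.1, e6.2, e7.1, e7.2, e3.1, e3.2]

/-- the error of `U s = bj 2 (bz 2 * s)` -/
noncomputable def HpU_D (s : ℝ) : ℝ := bj 2 (bz 2 * s) - (1 - s) * pev tmu.p s / 10 ^ 15

theorem HpU_tmdu (s : ℝ) : pev (HpU_der tmu.p) s = pev tmdu.p s := by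
  have h : HpU_der tmu.p = tmdu.p ++ [0] := by decide
  rw [h, pev_append]
  simp [pev]

theorem HpU_D_hasDerivAt (s : ℝ) :
    HasDerivAt HpU_D (PrC_der 2 s - pev HpU_L1 s / 10 ^ 15) s := by
  have h1 := PrC_hasDerivAt 2 le_rfl s
  have h2 : HasDerivAt (fun t : ℝ => (1 - t) * pev tmu.p t / 10 ^ 15)
      (pev HpU_L1 s / 10 ^ 15) s := by
    have h3 := (((hasDerivAt_id s).const_sub 1).mul (HpU_hasDerivAt tmu.p s)).div_const (10 ^ 15)
    refine h3.congr_deriv ?_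
    rw [HpU_L1_eval, HpU_tmdu]
    simp only [id]
    ring
  exact h1.sub h2

theorem HpU_D_one : HpU_D 1 = 0 := by
  unfold HpU_D
  rw [uh_mul 2 le_rfl 1]
  ring

theorem HpU_D_eq (s : ℝ) : HpU_D s = (1 - s) * (uh 2 s - pev tmu.p s / 10 ^ 15) := by
  unfold HpU_D
  rw [uh_mul 2 le_rfl s]
  ring

/-- bound of `D` -/
theorem HpU_D_le (s : ℝ) (h0 : 0 ≤ s) (h1 : s ≤ 1) : |HpU_D s| ≤ 4 / 10 ^ 11 * (1 - s) := by
  have h := Convex.norm_image_sub_le_of_norm_hasDerivWithin_le (f := HpU_D)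
    (f' := fun s => PrC_der 2 s - pev HpU_L1 s / 10 ^ 15) (s := Set.Icc (0 : ℝ) 1)
    (C := 4 / 10 ^ 11) (x := 1) (y := s)
    (fun t _ => (HpU_D_hasDerivAt t).hasDerivWithinAt) (fun t ht => HpU_D1 t ht.1 ht.2)
    (convex_Icc 0 1) ⟨zero_le_one, le_rfl⟩ ⟨h0, h1⟩
  rw [HpU_D_one, sub_zero, Real.norm_eq_abs, Real.norm_eq_abs, abs_sub_comm,
    abs_of_nonneg (by linarith : 0 ≤ 1 - s)] at h
  exact h

/-- the second order bound -/
theorem HpU_F_le (s : ℝ) (h0 : 0 ≤ s) (h1 : s ≤ 1) :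
    |HpU_D s + (PrC_der 2 s - pev HpU_L1 s / 10 ^ 15) * (1 - s)| ≤
      4 / 10 ^ 11 * (1 - s) * (1 - s) := by
  have hF : ∀ t : ℝ, HasDerivAt
      (fun t => HpU_D t + (PrC_der 2 t - pev HpU_L1 t / 10 ^ 15) * (1 - t))
      ((bz 2 ^ 2 / 32 * bj 6 (bz 2 * t) - pev (HpU_der HpU_L1) t / 10 ^ 15) * (1 - t)) t := by
    intro t
    have e1 := HpU_D_hasDerivAt t
    have e2 := (HpU_der2 t).sub ((HpU_hasDerivAt HpU_L1 t).div_const (10 ^ 15))
    have e3 := e2.mul ((hasDerivAt_id t).const_sub 1)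
    have e4 := e1.add e3
    refine e4.congr_deriv ?_
    simp only [id, Pi.sub_apply]
    ring
  have h := Convex.norm_image_sub_le_of_norm_hasDerivWithin_le
    (f := fun t => HpU_D t + (PrC_der 2 t - pev HpU_L1 t / 10 ^ 15) * (1 - t))
    (f' := fun t => (bz 2 ^ 2 / 32 * bj 6 (bz 2 * t) - pev (HpU_der HpU_L1) t / 10 ^ 15) * (1 - t))
    (s := Set.Icc s 1) (C := 4 / 10 ^ 11 * (1 - s)) (x := 1) (y := s)
    (fun t _ => (hF t).hasDerivWithinAt) (fun t ht => by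
      rw [Real.norm_eq_abs, abs_mul, abs_of_nonneg (by linarith [ht.2] : 0 ≤ 1 - t)]
      exact mul_le_mul (HpU_D2 t (h0.trans ht.1) ht.2) (by linarith [ht.1]) (by linarith [ht.2])
        (by norm_num)) (convex_Icc s 1) ⟨h1, le_rfl⟩ ⟨le_rfl, h1⟩
  simp only [HpU_D_one, sub_self, mul_zero, add_zero, sub_zero] at h
  rw [Real.norm_eq_abs, Real.norm_eq_abs, abs_sub_comm s 1,
    abs_of_nonneg (by linarith : 0 ≤ 1 - s)] at h
  exact h

theorem HpU_e_lt (s : ℝ) (h0 : 0 ≤ s) (h1 : s < 1) :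
    |uh 2 s - pev tmu.p s / 10 ^ 15| ≤ 4 / 10 ^ 11 := by
  have h := HpU_D_le s h0 h1.le
  have hp : 0 < 1 - s := by linarith
  rw [HpU_D_eq, abs_mul, abs_of_pos hp, mul_comm] at h
  exact le_of_mul_le_mul_right h hp

theorem HpU_de_lt (s : ℝ) (h0 : 0 ≤ s) (h1 : s < 1) :
    |deriv (uh 2) s - pev tmdu.p s / 10 ^ 15| ≤ 4 / 10 ^ 11 := by
  have hp : 0 < 1 - s := by linarith
  have hF := HpU_F_le s h0 h1.le
  have hud : HasDerivAt (uh 2) (deriv (uh 2) s) s := by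
    have h2 := contDiff_uh 2 le_rfl 1
    exact ((h2.differentiable (by norm_num)) s).hasDerivAt
  have e1 : HasDerivAt HpU_D (-(uh 2 s - pev tmu.p s / 10 ^ 15) +
      (1 - s) * (deriv (uh 2) s - pev tmdu.p s / 10 ^ 15)) s := by
    have e2 : HpU_D = fun s => (1 - s) * (uh 2 s - pev tmu.p s / 10 ^ 15) := by
      funext t
      exact HpU_D_eq t
    rw [e2]
    have e3 := ((hasDerivAt_id s).const_sub 1).mul
      (hud.sub ((HpU_hasDerivAt tmu.p s).div_const (10 ^ 15)))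
    refine e3.congr_deriv ?_
    rw [HpU_tmdu]
    simp only [id, Pi.sub_apply]
    ring
  have e4 := e1.unique (HpU_D_hasDerivAt s)
  have e5 : HpU_D s + (PrC_der 2 s - pev HpU_L1 s / 10 ^ 15) * (1 - s) =
      (deriv (uh 2) s - pev tmdu.p s / 10 ^ 15) * ((1 - s) * (1 - s)) := by
    rw [← e4, HpU_D_eq]
    ring
  rw [e5, abs_mul, abs_of_pos (mul_pos hp hp), mul_assoc] at hF
  exact le_of_mul_le_mul_right hF (mul_pos hp hp)

theorem HpU_close {f g : ℝ → ℝ} (hf : Continuous f) (hg : Continuous g) {E : ℝ}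
    (h : ∀ s, 0 ≤ s → s < 1 → |f s - g s| ≤ E) (s : ℝ) (h0 : 0 ≤ s) (h1 : s ≤ 1) :
    |f s - g s| ≤ E := by
  have hc : IsClosed {s : ℝ | |f s - g s| ≤ E} :=
    isClosed_le (hf.sub hg).abs continuous_const
  have hsub : Set.Ico (0 : ℝ) 1 ⊆ {s : ℝ | |f s - g s| ≤ E} := fun t ht => h t ht.1 ht.2
  have h2 := hc.closure_subset_iff.2 hsub
  rw [closure_Ico (by norm_num)] at h2
  exact h2 ⟨h0, h1⟩

theorem HpU_pev_cont (l : List ℤ) : Continuous (pev l) :=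
  continuous_iff_continuousAt.2 fun s => (HpU_hasDerivAt l s).continuousAt

theorem ok_u : tmu.ok DD (uh 2) := by
  intro s h0 h1
  have h := HpU_close (contDiff_uh 2 le_rfl 1).continuous
    ((HpU_pev_cont tmu.p).div_const (10 ^ 15)) HpU_e_lt s h0 h1
  have e1 : ((DD : ℕ) : ℝ) * uh 2 s - pev tmu.p s = 10 ^ 15 * (uh 2 s - pev tmu.p s / 10 ^ 15) := by
    unfold DD
    push_cast
    ring
  rw [e1, abs_mul, abs_of_pos (by positivity : (0 : ℝ) < 10 ^ 15)]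
  have e2 : ((tmu.e : ℕ) : ℝ) = 100000 := by
    simp [tmu]
  rw [e2]
  linarith

theorem ok_du : tmdu.ok DD (deriv (uh 2)) := by
  intro s h0 h1
  have h := HpU_close ((contDiff_uh 2 le_rfl 1).continuous_deriv (by norm_num))
    ((HpU_pev_cont tmdu.p).div_const (10 ^ 15)) HpU_de_lt s h0 h1
  have e1 : ((DD : ℕ) : ℝ) * deriv (uh 2) s - pev tmdu.p s =
      10 ^ 15 * (deriv (uh 2) s - pev tmdu.p s / 10 ^ 15) := by
    unfold DD
    push_cast
    ring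
  rw [e1, abs_mul, abs_of_pos (by positivity : (0 : ℝ) < 10 ^ 15)]
  have e2 : ((tmdu.e : ℕ) : ℝ) = 200000 := by
    simp [tmdu]
  rw [e2]
  linarith

end Pool.Agent.H94.GP
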