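import Pool.Agent.H94.SP.Psi
import Pool.Agent.H94.ER.TrE

/-!
# LcA: choice of the cutting level

`u ∈ C^1_c(R^2)`, `∫ u^2 = 1`, `w ∈ C^1` with `|w| ≤ M`, `|∇w|^2 ≤ M^2`, `⟨f⟩ = ∫ u^2 f`, `A = ⟨|∇w|^2⟩`, `c0 = ⟨w⟩`, `V = ⟨w^2⟩ - ⟨w⟩^2 = ⟨(w - c0)^2⟩`.
Hypothesis `A + η < K V`. For `χ = chi δ`, `χ' = deriv (chi δ)` put
`A₊ c = ⟨χ'(w - c)^2 |∇w|^2⟩`, `B₊ c = ⟨χ(w - c)^2⟩`, `A₋ c = ⟨χ'(c - w)^2 |∇w|^2⟩`, `B₋ c = ⟨χ(c - w)^2⟩`.
Choose `δ = min (η/(64 M K)) ((η/(4MK))^2/(32 M))`, `β = min (½ (η/(4MK))^2) (η/(2K))`.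
0. `χ` is monotone, `χ τ = 0` for `τ ≤ 0`, `0 ≤ χ' ≤ 1`, `χ' τ = 0` for `τ ≤ 0` (`chi_zero` near `τ`, `δ > 0`), `max 0 τ ^2 - 4 δ max 0 τ ≤ χ τ ^2`
   (`chi_ge`, `chi_nonneg`). So for `|c| ≤ 3M`: `A₊ c + A₋ c ≤ A`, `B₊ c + B₋ c ≥ ⟨(w-c)^2⟩ - 32 M δ ≥ V - η/(2K)` (`⟨(w-c)^2⟩ = V + (c-c0)^2`), hence
   (*) `K (B₊ + B₋) - (A₊ + A₋) ≥ K V - η/2 - A > η/2`.
   All four are continuous in `c` (dominated convergence: `u` has compact support, `χ, χ'` continuous and bounded on bounded sets).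
1. `B₊ c0 ≥ β` and `B₋ c0 ≥ β`: `V ≤ 2M ⟨|w - c0|⟩ = 4M ⟨max 0 (w - c0)⟩` (`⟨w - c0⟩ = 0`), `⟨max 0 (w-c0)⟩^2 ≤ ⟨max 0 (w - c0)^2⟩` (Cauchy-Schwarz, mass 1),
   `V ≥ η/K`: `B₊ c0 ≥ (V/(4M))^2 - 16 M δ ≥ ½ (η/(4MK))^2`; the same for `B₋`.
2. If `A₊ c0 ≤ K B₊ c0` and `A₋ c0 ≤ K B₋ c0` take `c = c0`. By the symmetry `w → -w` (`c → -c`) assume now `A₊ c0 > K B₊ c0`. The set
   `S = {c ∈ [-3M, c0] : A₊ c ≤ K B₊ c}` is compact and contains `-3M` (there `c - w < 0`, so `A₋ = B₋ = 0`, use (*)). Let `c*` be its maximum, `c* < c0`.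
   For `c ∈ (c*, c0]`: `A₊ > K B₊`, so by (*) `K B₋ c - A₋ c > η/2`; by continuity `K B₋ c* - A₋ c* ≥ η/2`, so `A₋ c* ≤ K B₋ c*` and `B₋ c* ≥ η/(2K) ≥ β`
   (`A₋ ≥ 0`); `B₊ c* ≥ B₊ c0 ≥ β` (`χ` monotone, nonnegative).
-/

set_option autoImplicit false

open MeasureTheory Pool.Agent.H94.ER Pool.Agent.H94.SP

namespace Pool.Agent.H94.GP

theorem LcA_cont (u : E 2 → ℝ) (hu : ContDiff ℝ 1 u) (hc : HasCompactSupport u) (G : ℝ → E 2 → ℝ)
    (hG : Continuous (Function.uncurry G)) : Continuous (fun c => ∫ x, u x ^ 2 * G c x) := by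
  have h1 : (fun c => ∫ x, u x ^ 2 * G c x) = fun c => ∫ x in tsupport u, u x ^ 2 * G c x := by
    funext c
    rw [setIntegral_eq_integral_of_forall_compl_eq_zero]
    intro x hx
    rw [image_eq_zero_of_notMem_tsupport hx]
    simp
  rw [h1]
  refine continuous_parametric_integral_of_continuous (f := fun (c : ℝ) (x : E 2) => u x ^ 2 * G c x) ?_ hc
  exact ((hu.continuous.comp continuous_snd).pow 2).mul hG

theorem LcA_const (u : E 2 → ℝ) (hm : mass u = 1) (a : ℝ) : ∫ x, u x ^ 2 * a = a := by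
  rw [integral_mul_const]
  unfold mass at hm
  rw [hm, one_mul]

theorem LcA_mono (u : E 2 → ℝ) (hu : ContDiff ℝ 1 u) (hc : HasCompactSupport u) {f g : E 2 → ℝ}
    (hf : Continuous f) (hg : Continuous g) (h : ∀ x, f x ≤ g x) :
    ∫ x, u x ^ 2 * f x ≤ ∫ x, u x ^ 2 * g x :=
  integral_mono (TrE_integrable u hu hc _ hf) (TrE_integrable u hu hc _ hg)
    (fun x => mul_le_mul_of_nonneg_left (h x) (sq_nonneg _))

theorem LcA_lin (u : E 2 → ℝ) (hu : ContDiff ℝ 1 u) (hc : HasCompactSupport u) {f g : E 2 → ℝ}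
    (hf : Continuous f) (hg : Continuous g) (a b : ℝ) :
    ∫ x, u x ^ 2 * (a * f x + b * g x) = a * (∫ x, u x ^ 2 * f x) + b * ∫ x, u x ^ 2 * g x := by
  rw [← integral_const_mul, ← integral_const_mul,
    ← integral_add ((TrE_integrable u hu hc _ hf).const_mul a) ((TrE_integrable u hu hc _ hg).const_mul b)]
  congr 1
  ext x
  ring

theorem LcA_nonneg (u : E 2 → ℝ) {f : E 2 → ℝ} (h : ∀ x, 0 ≤ f x) : 0 ≤ ∫ x, u x ^ 2 * f x :=
  integral_nonneg fun x => mul_nonneg (sq_nonneg _) (h x)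

/-- `⟨(w - c)^2⟩` -/
theorem LcA_var (u : E 2 → ℝ) (hu : ContDiff ℝ 1 u) (hc : HasCompactSupport u) (hm : mass u = 1) {w : E 2 → ℝ}
    (hw : Continuous w) (c : ℝ) :
    ∫ x, u x ^ 2 * (w x - c) ^ 2 = (∫ x, u x ^ 2 * w x ^ 2) - 2 * c * (∫ x, u x ^ 2 * w x) + c ^ 2 := by
  have h1 := LcA_lin u hu hc (f := fun x => w x ^ 2) (g := w) (hw.pow 2) hw 1 (-(2 * c))
  have h2 := LcA_lin u hu hc (f := fun x => 1 * w x ^ 2 + -(2 * c) * w x) (g := fun _ => (1 : ℝ)) (by fun_prop)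
    continuous_const 1 (c ^ 2)
  rw [h1, LcA_const u hm] at h2
  have h3 : (fun x => u x ^ 2 * (w x - c) ^ 2) =
      fun x => u x ^ 2 * (1 * (1 * w x ^ 2 + -(2 * c) * w x) + c ^ 2 * 1) := by
    ext x
    ring
  rw [h3, h2]
  ring

theorem LcA_jensen (u : E 2 → ℝ) (hu : ContDiff ℝ 1 u) (hc : HasCompactSupport u) (hm : mass u = 1) {w : E 2 → ℝ}
    (hw : Continuous w) : (∫ x, u x ^ 2 * w x) ^ 2 ≤ ∫ x, u x ^ 2 * w x ^ 2 := by
  have h1 := LcA_var u hu hc hm hw (∫ x, u x ^ 2 * w x)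
  have h2 : 0 ≤ ∫ x, u x ^ 2 * (w x - ∫ x, u x ^ 2 * w x) ^ 2 := LcA_nonneg u fun x => sq_nonneg _
  rw [h1] at h2
  nlinarith

theorem LcA_dz (δ τ : ℝ) (hδ : 0 < δ) (hτ : τ ≤ 0) : deriv (chi δ) τ = 0 := by
  rw [(Psi_chi δ hδ τ).deriv]
  unfold Psi_dchi
  rw [max_eq_left (by linarith)]
  simp

theorem LcA_sum_d (δ τ : ℝ) (hδ : 0 < δ) : deriv (chi δ) τ ^ 2 + deriv (chi δ) (-τ) ^ 2 ≤ 1 := by
  obtain ⟨h1, h2⟩ := chi_deriv δ τ hδ
  obtain ⟨h3, h4⟩ := chi_deriv δ (-τ) hδ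
  rcases le_total τ 0 with h | h
  · rw [LcA_dz δ τ hδ h]
    nlinarith
  · rw [LcA_dz δ (-τ) hδ (by linarith)]
    nlinarith

theorem LcA_chi_sq (δ τ : ℝ) (hδ : 0 < δ) : max 0 τ ^ 2 - 4 * δ * max 0 τ ≤ chi δ τ ^ 2 := by
  have h0 := chi_nonneg δ τ hδ
  rcases le_total τ 0 with h | h
  · rw [max_eq_left h]
    have := sq_nonneg (chi δ τ)
    linarith
  · rw [max_eq_right h]
    rcases le_total τ (2 * δ) with h2 | h2
    · nlinarith [sq_nonneg (chi δ τ)]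
    · have h3 := chi_ge δ τ hδ
      have h4 : (τ - 2 * δ) ^ 2 ≤ chi δ τ ^ 2 := by
        apply pow_le_pow_left₀ (by linarith) h3
      nlinarith

theorem LcA_sum_c (δ τ T : ℝ) (hδ : 0 < δ) (hT : |τ| ≤ T) : τ ^ 2 - 4 * δ * T ≤ chi δ τ ^ 2 + chi δ (-τ) ^ 2 := by
  have h1 := LcA_chi_sq δ τ hδ
  have h2 := LcA_chi_sq δ (-τ) hδ
  obtain ⟨h3, h4⟩ := abs_le.1 hT
  rcases le_total τ 0 with h | h
  · rw [max_eq_left h] at h1
    rw [max_eq_right (by linarith : 0 ≤ -τ)] at h2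
    have h5 : δ * (-τ) ≤ δ * T := mul_le_mul_of_nonneg_left (by linarith) hδ.le
    nlinarith
  · rw [max_eq_right h] at h1
    rw [max_eq_left (by linarith : -τ ≤ 0)] at h2
    have h5 : δ * τ ≤ δ * T := mul_le_mul_of_nonneg_left (by linarith) hδ.le
    nlinarith

theorem LcA_chi_mono (δ : ℝ) (hδ : 0 < δ) : Monotone (chi δ) :=
  monotone_of_deriv_nonneg (fun τ => (Psi_chi δ hδ τ).differentiableAt) fun τ => (chi_deriv δ τ hδ).1

theorem LcA_low (u : E 2 → ℝ) (hu : ContDiff ℝ 1 u) (hc : HasCompactSupport u) (hm : mass u = 1) {f : E 2 → ℝ}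
    (hf : Continuous f) {M δ : ℝ} (hM : 1 ≤ M) (hδ : 0 < δ) (hfM : ∀ x, |f x| ≤ 2 * M)
    (h0 : ∫ x, u x ^ 2 * f x = 0) :
    ((∫ x, u x ^ 2 * f x ^ 2) / (4 * M)) ^ 2 - 8 * M * δ ≤ ∫ x, u x ^ 2 * chi δ (f x) ^ 2 := by
  have hmx : Continuous (fun x => max 0 (f x)) := by fun_prop
  have hchi : Continuous (chi δ) := (chi_contDiff δ hδ).continuous
  set m := ∫ x, u x ^ 2 * max 0 (f x) with hmd
  set V := ∫ x, u x ^ 2 * f x ^ 2 with hV
  have h1 : V ≤ 4 * M * m := by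
    have h2 := LcA_lin u hu hc (f := fun x => max 0 (f x)) (g := f) hmx hf (4 * M) (-(2 * M))
    rw [h0, mul_zero, add_zero] at h2
    rw [← h2]
    refine LcA_mono u hu hc (hf.pow 2) (by fun_prop) (fun x => ?_)
    obtain ⟨h3, h4⟩ := abs_le.1 (hfM x)
    rcases le_total (f x) 0 with h | h
    · rw [max_eq_left h]
      nlinarith
    · rw [max_eq_right h]
      nlinarith
  have hV0 : 0 ≤ V := LcA_nonneg u fun x => sq_nonneg _
  have h5 : V / (4 * M) ≤ m := by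
    rw [div_le_iff₀ (by positivity)]
    linarith
  have h6 : (V / (4 * M)) ^ 2 ≤ m ^ 2 := pow_le_pow_left₀ (by positivity) h5 2
  have h7 := LcA_jensen u hu hc hm hmx
  have h8 : (∫ x, u x ^ 2 * max 0 (f x) ^ 2) - 8 * M * δ ≤ ∫ x, u x ^ 2 * chi δ (f x) ^ 2 := by
    have h9 := LcA_lin u hu hc (f := fun x => max 0 (f x) ^ 2) (g := fun _ => (1 : ℝ)) (hmx.pow 2)
      continuous_const 1 (-(8 * M * δ))
    rw [LcA_const u hm] at h9
    have h10 : (∫ x, u x ^ 2 * max 0 (f x) ^ 2) - 8 * M * δ =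
        ∫ x, u x ^ 2 * (1 * max 0 (f x) ^ 2 + -(8 * M * δ) * 1) := by
      rw [h9]
      ring
    rw [h10]
    refine LcA_mono u hu hc (by fun_prop) ((hchi.comp hf).pow 2) (fun x => ?_)
    have h11 := LcA_chi_sq δ (f x) hδ
    have h12 : max 0 (f x) ≤ 2 * M := max_le (by linarith) ((abs_le.1 (hfM x)).2)
    have h13 : 4 * δ * max 0 (f x) ≤ 4 * δ * (2 * M) := mul_le_mul_of_nonneg_left h12 (by positivity)
    linarith
  linarith

theorem LcA_half {Ap Bp Am Bm : ℝ → ℝ} {M K η β c0 : ℝ} (cAp : Continuous Ap) (cBp : Continuous Bp)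
    (cAm : Continuous Am) (cBm : Continuous Bm) (hM : 1 ≤ M) (hK : 0 < K) (hη : 0 < η)
    (star : ∀ c, |c| ≤ 3 * M → η / 2 < K * (Bp c + Bm c) - (Ap c + Am c)) (hAm : ∀ c, 0 ≤ Am c)
    (hb1 : Am (-(3 * M)) = 0) (hb2 : Bm (-(3 * M)) = 0) (hanti : Antitone Bp) (hc0 : |c0| ≤ M)
    (hβ1 : β ≤ Bp c0) (hβ2 : β ≤ η / (2 * K)) (h : K * Bp c0 < Ap c0) :
    ∃ c, |c| ≤ 3 * M ∧ Ap c ≤ K * Bp c ∧ Am c ≤ K * Bm c ∧ β ≤ Bp c ∧ β ≤ Bm c := by
  obtain ⟨hl, hr⟩ := abs_le.1 hc0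
  have hclosed : IsClosed {c : ℝ | Ap c ≤ K * Bp c} := isClosed_le cAp (continuous_const.mul cBp)
  have hcomp : IsCompact (Set.Icc (-(3 * M)) c0 ∩ {c : ℝ | Ap c ≤ K * Bp c}) := isCompact_Icc.inter_right hclosed
  have hne : (Set.Icc (-(3 * M)) c0 ∩ {c : ℝ | Ap c ≤ K * Bp c}).Nonempty := by
    refine ⟨-(3 * M), ⟨le_rfl, by linarith⟩, ?_⟩
    have h1 := star (-(3 * M)) (by rw [abs_neg, abs_of_nonneg (by linarith)])
    rw [hb1, hb2] at h1
    show Ap (-(3 * M)) ≤ K * Bp (-(3 * M))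
    linarith
  obtain ⟨c, ⟨⟨hc1, hc2⟩, hc3⟩, hmax⟩ := hcomp.exists_isGreatest hne
  have hc3' : Ap c ≤ K * Bp c := hc3
  have hlt : c < c0 := by
    rcases lt_or_eq_of_le hc2 with h1 | h1
    · exact h1
    · rw [h1] at hc3'
      linarith
  have habs : |c| ≤ 3 * M := abs_le.2 ⟨hc1, by linarith⟩
  have hcl : IsClosed {c : ℝ | η / 2 ≤ K * Bm c - Am c} :=
    isClosed_le continuous_const ((continuous_const.mul cBm).sub cAm)
  have hsub : Set.Ioc c c0 ⊆ {c : ℝ | η / 2 ≤ K * Bm c - Am c} := by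
    intro t ht
    have ht3 : |t| ≤ 3 * M := abs_le.2 ⟨by linarith [ht.1], by linarith [ht.2]⟩
    have h1 := star t ht3
    have h2 : K * Bp t < Ap t := by
      by_contra hcon
      push Not at hcon
      have := hmax ⟨⟨by linarith [ht.1], ht.2⟩, hcon⟩
      linarith [ht.1]
    show η / 2 ≤ K * Bm t - Am t
    nlinarith
  have hmem : c ∈ {c : ℝ | η / 2 ≤ K * Bm c - Am c} := by
    have h1 := closure_minimal hsub hcl
    rw [closure_Ioc hlt.ne] at h1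
    exact h1 (Set.left_mem_Icc.2 hlt.le)
  have hmem' : η / 2 ≤ K * Bm c - Am c := hmem
  refine ⟨c, habs, hc3', by linarith, hβ1.trans (hanti hlt.le), ?_⟩
  refine hβ2.trans ?_
  rw [div_le_iff₀ (by positivity)]
  have := hAm c
  linarith

theorem LcA_choice {Ap Bp Am Bm : ℝ → ℝ} {M K η β c0 : ℝ} (cAp : Continuous Ap) (cBp : Continuous Bp)
    (cAm : Continuous Am) (cBm : Continuous Bm) (hM : 1 ≤ M) (hK : 0 < K) (hη : 0 < η)
    (star : ∀ c, |c| ≤ 3 * M → η / 2 < K * (Bp c + Bm c) - (Ap c + Am c)) (hAp : ∀ c, 0 ≤ Ap c) (hAm : ∀ c, 0 ≤ Am c)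
    (hb1 : Am (-(3 * M)) = 0) (hb2 : Bm (-(3 * M)) = 0) (hb3 : Ap (3 * M) = 0) (hb4 : Bp (3 * M) = 0)
    (hanti : Antitone Bp) (hmon : Monotone Bm) (hc0 : |c0| ≤ M)
    (hβ1 : β ≤ Bp c0) (hβ1' : β ≤ Bm c0) (hβ2 : β ≤ η / (2 * K)) :
    ∃ c, |c| ≤ 3 * M ∧ Ap c ≤ K * Bp c ∧ Am c ≤ K * Bm c ∧ β ≤ Bp c ∧ β ≤ Bm c := by
  by_cases h : K * Bp c0 < Ap c0
  · exact LcA_half cAp cBp cAm cBm hM hK hη star hAm hb1 hb2 hanti hc0 hβ1 hβ2 h
  by_cases h' : K * Bm c0 < Am c0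
  · obtain ⟨c, e1, e2, e3, e4, e5⟩ := LcA_half (Ap := fun c => Am (-c)) (Bp := fun c => Bm (-c))
      (Am := fun c => Ap (-c)) (Bm := fun c => Bp (-c)) (M := M) (K := K) (η := η) (β := β) (c0 := -c0)
      (cAm.comp continuous_neg) (cBm.comp continuous_neg) (cAp.comp continuous_neg) (cBp.comp continuous_neg)
      hM hK hη (fun c hc => by
        have := star (-c) (by rwa [abs_neg])
        show η / 2 < K * (Bm (-c) + Bp (-c)) - (Am (-c) + Ap (-c))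
        linarith)
      (fun c => hAp _) (by rw [neg_neg]; exact hb3) (by rw [neg_neg]; exact hb4)
      (fun a b hab => hmon (neg_le_neg hab)) (by rwa [abs_neg]) (by rw [neg_neg]; exact hβ1') hβ2
      (by rw [neg_neg]; exact h')
    exact ⟨-c, by rwa [abs_neg], e3, e2, e5, e4⟩
  · push Not at h h'
    exact ⟨c0, by linarith, h, h', hβ1, hβ1'⟩

theorem cut_level (M K η : ℝ) (hM : 1 ≤ M) (hK : 0 < K) (hη : 0 < η) :
    ∃ β δ : ℝ, 0 < β ∧ 0 < δ ∧ ∀ u w : E 2 → ℝ, ContDiff ℝ 1 u → HasCompactSupport u → mass u = 1 →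
      ContDiff ℝ 1 w → (∀ x, |w x| ≤ M) → (∀ x, dot w w x ≤ M ^ 2) →
      (∫ x, u x ^ 2 * dot w w x) + η < K * ((∫ x, u x ^ 2 * w x ^ 2) - (∫ x, u x ^ 2 * w x) ^ 2) →
      ∃ c : ℝ, |c| ≤ 3 * M ∧
        ∫ x, u x ^ 2 * (deriv (chi δ) (w x - c) ^ 2 * dot w w x) ≤ K * ∫ x, u x ^ 2 * chi δ (w x - c) ^ 2 ∧
        ∫ x, u x ^ 2 * (deriv (chi δ) (c - w x) ^ 2 * dot w w x) ≤ K * ∫ x, u x ^ 2 * chi δ (c - w x) ^ 2 ∧
        β ≤ ∫ x, u x ^ 2 * chi δ (w x - c) ^ 2 ∧ β ≤ ∫ x, u x ^ 2 * chi δ (c - w x) ^ 2 := by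
  set q : ℝ := (η / (4 * M * K)) ^ 2 with hq
  have hM0 : 0 < M := by linarith
  have hq0 : 0 < q := by positivity
  set δ : ℝ := min (η / (64 * M * K)) (q / (32 * M)) with hδd
  set β : ℝ := min (q / 2) (η / (2 * K)) with hβd
  have hδ : 0 < δ := lt_min (by positivity) (by positivity)
  have hβ : 0 < β := lt_min (by positivity) (by positivity)
  have hδ1 : δ ≤ η / (64 * M * K) := min_le_left _ _
  have hδ2 : δ ≤ q / (32 * M) := min_le_right _ _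
  have hβ1 : β ≤ q / 2 := min_le_left _ _
  have hβ2 : β ≤ η / (2 * K) := min_le_right _ _
  refine ⟨β, δ, hβ, hδ, ?_⟩
  intro u w hu hc hm hw hwM hdM hyp
  have hwc : Continuous w := hw.continuous
  have hdc : Continuous (dot w w) := continuous_dot w w hw hw
  have hd0 : ∀ x, 0 ≤ dot w w x := by
    intro x
    unfold dot
    exact Finset.sum_nonneg fun i _ => mul_self_nonneg _
  have hchi : Continuous (chi δ) := (chi_contDiff δ hδ).continuous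
  have hdchi : Continuous (deriv (chi δ)) := (chi_contDiff δ hδ).continuous_deriv le_rfl
  set c0 : ℝ := ∫ x, u x ^ 2 * w x with hc0
  set V : ℝ := (∫ x, u x ^ 2 * w x ^ 2) - c0 ^ 2 with hV
  set A : ℝ := ∫ x, u x ^ 2 * dot w w x with hA
  have hA0 : 0 ≤ A := LcA_nonneg u hd0
  have hVη : η / K ≤ V := by
    rw [div_le_iff₀ hK]
    nlinarith
  have hc0M : |c0| ≤ M := by
    rw [abs_le]
    constructor
    · have h1 := LcA_mono u hu hc (f := fun _ => -M) (g := w) continuous_const hwc (fun x => (abs_le.1 (hwM x)).1)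
      rw [LcA_const u hm] at h1
      exact h1
    · have h1 := LcA_mono u hu hc (f := w) (g := fun _ => M) hwc continuous_const (fun x => (abs_le.1 (hwM x)).2)
      rw [LcA_const u hm] at h1
      exact h1
  -- values at the mean
  have hvar0 : ∫ x, u x ^ 2 * (w x - c0) ^ 2 = V := by
    rw [LcA_var u hu hc hm hwc c0, ← hc0, hV]
    ring
  have hvar0' : ∫ x, u x ^ 2 * (c0 - w x) ^ 2 = V := by
    rw [← hvar0]
    congr 1
    ext x
    ring
  have hmean : ∫ x, u x ^ 2 * (w x - c0) = 0 := by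
    have h1 := LcA_lin u hu hc (f := w) (g := fun _ => (1 : ℝ)) hwc continuous_const 1 (-c0)
    rw [LcA_const u hm, ← hc0] at h1
    have h2 : (fun x => u x ^ 2 * (w x - c0)) = fun x => u x ^ 2 * (1 * w x + -c0 * 1) := by
      ext x
      ring
    rw [h2, h1]
    ring
  have hmean' : ∫ x, u x ^ 2 * (c0 - w x) = 0 := by
    have h2 : (fun x => u x ^ 2 * (c0 - w x)) = fun x => -(u x ^ 2 * (w x - c0)) := by
      ext x
      ring
    rw [h2, integral_neg, hmean, neg_zero]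
  have hbnd : ∀ x, |w x - c0| ≤ 2 * M := by
    intro x
    calc |w x - c0| ≤ |w x| + |c0| := abs_sub _ _
      _ ≤ 2 * M := by linarith [hwM x]
  have hqV : q / 2 ≤ (V / (4 * M)) ^ 2 - 8 * M * δ := by
    have h1 : q ≤ (V / (4 * M)) ^ 2 := by
      rw [hq]
      apply pow_le_pow_left₀ (by positivity)
      rw [div_le_div_iff₀ (by positivity) (by positivity)]
      rw [div_le_iff₀ hK] at hVη
      nlinarith
    have h2 : 8 * M * δ ≤ q / 4 := by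
      calc 8 * M * δ ≤ 8 * M * (q / (32 * M)) := mul_le_mul_of_nonneg_left hδ2 (by positivity)
        _ = q / 4 := by
            field_simp
            norm_num
    linarith
  have hBp0 : β ≤ ∫ x, u x ^ 2 * chi δ (w x - c0) ^ 2 := by
    have h1 := LcA_low u hu hc hm (f := fun x => w x - c0) (hwc.sub continuous_const) hM hδ hbnd hmean
    rw [hvar0] at h1
    linarith
  have hBm0 : β ≤ ∫ x, u x ^ 2 * chi δ (c0 - w x) ^ 2 := by
    have h1 := LcA_low u hu hc hm (f := fun x => c0 - w x) (continuous_const.sub hwc) hM hδ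
      (fun x => by rw [abs_sub_comm]; exact hbnd x) hmean'
    rw [hvar0'] at h1
    linarith
  -- the inequality (*)
  have star : ∀ c, |c| ≤ 3 * M → η / 2 < K * ((∫ x, u x ^ 2 * chi δ (w x - c) ^ 2) + ∫ x, u x ^ 2 * chi δ (c - w x) ^ 2)
      - ((∫ x, u x ^ 2 * (deriv (chi δ) (w x - c) ^ 2 * dot w w x)) +
        ∫ x, u x ^ 2 * (deriv (chi δ) (c - w x) ^ 2 * dot w w x)) := by
    intro c hc3
    have cB1 : Continuous (fun x => chi δ (w x - c) ^ 2) := by fun_prop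
    have cB2 : Continuous (fun x => chi δ (c - w x) ^ 2) := by fun_prop
    have cA1 : Continuous (fun x => deriv (chi δ) (w x - c) ^ 2 * dot w w x) := by fun_prop
    have cA2 : Continuous (fun x => deriv (chi δ) (c - w x) ^ 2 * dot w w x) := by fun_prop
    have hB := LcA_lin u hu hc cB1 cB2 1 1
    have hAA := LcA_lin u hu hc cA1 cA2 1 1
    have hB2 : (∫ x, u x ^ 2 * (w x - c) ^ 2) - 16 * M * δ ≤
        ∫ x, u x ^ 2 * (1 * chi δ (w x - c) ^ 2 + 1 * chi δ (c - w x) ^ 2) := by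
      have h1 := LcA_lin u hu hc (f := fun x => (w x - c) ^ 2) (g := fun _ => (1 : ℝ)) (by fun_prop)
        continuous_const 1 (-(16 * M * δ))
      rw [LcA_const u hm] at h1
      have h2 : (∫ x, u x ^ 2 * (w x - c) ^ 2) - 16 * M * δ =
          ∫ x, u x ^ 2 * (1 * (w x - c) ^ 2 + -(16 * M * δ) * 1) := by
        rw [h1]
        ring
      rw [h2]
      refine LcA_mono u hu hc (by fun_prop) (by fun_prop) (fun x => ?_)
      have h3 := LcA_sum_c δ (w x - c) (4 * M) hδ (by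
        calc |w x - c| ≤ |w x| + |c| := abs_sub _ _
          _ ≤ 4 * M := by linarith [hwM x])
      rw [neg_sub] at h3
      linarith
    have hA2 : (∫ x, u x ^ 2 * (1 * (deriv (chi δ) (w x - c) ^ 2 * dot w w x) +
        1 * (deriv (chi δ) (c - w x) ^ 2 * dot w w x))) ≤ A := by
      refine LcA_mono u hu hc (by fun_prop) hdc (fun x => ?_)
      have h3 := LcA_sum_d δ (w x - c) hδ
      rw [neg_sub] at h3
      have h4 := mul_le_mul_of_nonneg_right h3 (hd0 x)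
      linarith
    have hv : V ≤ ∫ x, u x ^ 2 * (w x - c) ^ 2 := by
      rw [LcA_var u hu hc hm hwc c, ← hc0, hV]
      nlinarith [sq_nonneg (c - c0)]
    rw [hB] at hB2
    rw [hAA] at hA2
    have h16 : K * (16 * M * δ) ≤ η / 4 := by
      calc K * (16 * M * δ) ≤ K * (16 * M * (η / (64 * M * K))) := by
            apply mul_le_mul_of_nonneg_left _ hK.le
            exact mul_le_mul_of_nonneg_left hδ1 (by positivity)
        _ = η / 4 := by
            field_simp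
            norm_num
    have hKB : K * (V - 16 * M * δ) ≤ K * ((∫ x, u x ^ 2 * chi δ (w x - c) ^ 2) + ∫ x, u x ^ 2 * chi δ (c - w x) ^ 2) := by
      apply mul_le_mul_of_nonneg_left _ hK.le
      linarith
    nlinarith
  obtain ⟨c, e1, e2, e3, e4, e5⟩ := LcA_choice
    (Ap := fun c => ∫ x, u x ^ 2 * (deriv (chi δ) (w x - c) ^ 2 * dot w w x))
    (Bp := fun c => ∫ x, u x ^ 2 * chi δ (w x - c) ^ 2)
    (Am := fun c => ∫ x, u x ^ 2 * (deriv (chi δ) (c - w x) ^ 2 * dot w w x))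
    (Bm := fun c => ∫ x, u x ^ 2 * chi δ (c - w x) ^ 2) (M := M) (K := K) (η := η) (β := β) (c0 := c0)
    (LcA_cont u hu hc (fun c x => deriv (chi δ) (w x - c) ^ 2 * dot w w x) (by
      show Continuous fun p : ℝ × E 2 => deriv (chi δ) (w p.2 - p.1) ^ 2 * dot w w p.2
      fun_prop))
    (LcA_cont u hu hc (fun c x => chi δ (w x - c) ^ 2) (by
      show Continuous fun p : ℝ × E 2 => chi δ (w p.2 - p.1) ^ 2
      fun_prop))
    (LcA_cont u hu hc (fun c x => deriv (chi δ) (c - w x) ^ 2 * dot w w x) (by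
      show Continuous fun p : ℝ × E 2 => deriv (chi δ) (p.1 - w p.2) ^ 2 * dot w w p.2
      fun_prop))
    (LcA_cont u hu hc (fun c x => chi δ (c - w x) ^ 2) (by
      show Continuous fun p : ℝ × E 2 => chi δ (p.1 - w p.2) ^ 2
      fun_prop))
    hM hK hη star
    (fun c => LcA_nonneg u fun x => mul_nonneg (sq_nonneg _) (hd0 x))
    (fun c => LcA_nonneg u fun x => mul_nonneg (sq_nonneg _) (hd0 x))
    (by
      have h1 : ∀ x, deriv (chi δ) (-(3 * M) - w x) = 0 := fun x =>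
        LcA_dz δ _ hδ (by linarith [(abs_le.1 (hwM x)).1])
      simp [h1])
    (by
      have h1 : ∀ x, chi δ (-(3 * M) - w x) = 0 := fun x =>
        chi_zero δ _ (by linarith [(abs_le.1 (hwM x)).1])
      simp [h1])
    (by
      have h1 : ∀ x, deriv (chi δ) (w x - 3 * M) = 0 := fun x =>
        LcA_dz δ _ hδ (by linarith [(abs_le.1 (hwM x)).2])
      simp [h1])
    (by
      have h1 : ∀ x, chi δ (w x - 3 * M) = 0 := fun x =>
        chi_zero δ _ (by linarith [(abs_le.1 (hwM x)).2])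
      simp [h1])
    (fun a b hab => by
      refine LcA_mono u hu hc (by fun_prop) (by fun_prop) (fun x => ?_)
      exact pow_le_pow_left₀ (chi_nonneg δ _ hδ) (LcA_chi_mono δ hδ (by linarith)) 2)
    (fun a b hab => by
      refine LcA_mono u hu hc (by fun_prop) (by fun_prop) (fun x => ?_)
      exact pow_le_pow_left₀ (chi_nonneg δ _ hδ) (LcA_chi_mono δ hδ (by linarith)) 2)
    hc0M hBp0 hBm0 hβ2
  exact ⟨c, e1, e2, e3, e4, e5⟩

end Pool.Agent.H94.GP
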