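import Pool.Agent.H94.GP.RgC

/-!
# LocA: restriction of Taylor models to small intervals, with few coefficients and a smaller scale
-/

set_option autoImplicit false

open Pool.Agent.H94.ER Pool.Agent.H94.SP

namespace Pool.Agent.H94.GP

/-- restriction to `x = (A + B τ)/C`, `n` coefficients, scale divided by `q` -/
def TM.loc (q n : ℕ) (A B C : ℤ) (t : TM) : TM :=
  ⟨((aff A B C t.p).take n).map (· / ((q : ℤ) * C ^ (t.p.length - 1))),
    sabs ((aff A B C t.p).drop n) / (q * C.natAbs ^ (t.p.length - 1)) + t.e / q + n + 2⟩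

theorem LocA_aff (A B C : ℤ) (l : List ℤ) (τ s : ℝ) (hs : (C : ℝ) * s = A + B * τ) :
    pev (aff A B C l) τ = (C : ℝ) ^ (l.length - 1) * pev l s := by
  rcases l with _ | ⟨a, l⟩
  · simp [aff, pev]
  · rw [pev_aff A B C l τ s hs a]
    simp

theorem TM.ok_loc (D D2 q n : ℕ) (hD : D = D2 * q) (hq : 0 < q) (A B C : ℤ) (hC : 0 < C) (hA : 0 ≤ A)
    (hB : 0 ≤ B) (hABC : A + B ≤ C) (t : TM) (f : ℝ → ℝ) (h : t.ok D f) :
    (t.loc q n A B C).ok D2 (fun τ => f ((A + B * τ) / C)) := by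
  intro τ h0 h1
  have hC' : (0 : ℝ) < C := by exact_mod_cast hC
  have hA' : (0 : ℝ) ≤ A := by exact_mod_cast hA
  have hB' : (0 : ℝ) ≤ B := by exact_mod_cast hB
  have hABC' : (A : ℝ) + B ≤ C := by exact_mod_cast hABC
  set s : ℝ := (A + B * τ) / C with hs
  have hs1 : (C : ℝ) * s = A + B * τ := by
    rw [hs]
    field_simp
  have hs0 : 0 ≤ s := by positivity
  have hs2 : s ≤ 1 := by
    rw [hs, div_le_one hC']
    nlinarith
  have e1 := h s hs0 hs2
  have e2 := LocA_aff A B C t.p τ s hs1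
  set L := aff A B C t.p with hL
  set k := t.p.length - 1 with hk
  set Q : ℕ := q * C.natAbs ^ k with hQ
  have hQ0 : 0 < Q := by
    have : 0 < C.natAbs := Int.natAbs_pos.2 hC.ne'
    positivity
  have hQz : ((Q : ℕ) : ℤ) = (q : ℤ) * C ^ k := by
    rw [hQ]
    push_cast
    rw [abs_of_pos hC]
  have hQr : ((Q : ℕ) : ℝ) = (q : ℝ) * (C : ℝ) ^ k := by
    have := congrArg (fun z : ℤ => (z : ℝ)) hQz
    push_cast at this
    exact_mod_cast this
  have hQpos : (0 : ℝ) < Q := by exact_mod_cast hQ0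
  have hqpos : (0 : ℝ) < q := by exact_mod_cast hq
  have e3 : pev L τ = pev (L.take n) τ + τ ^ (L.take n).length * pev (L.drop n) τ := by
    conv_lhs => rw [← List.take_append_drop n L]
    rw [pev_append]
  have e4 := pev_rdiv Q hQ0 (L.take n) τ h0 h1
  have e5 := abs_pev_le (L.drop n) τ h0 h1
  have e6 : |τ ^ (L.take n).length * pev (L.drop n) τ| ≤ sabs (L.drop n) := by
    rw [abs_mul, abs_of_nonneg (by positivity : 0 ≤ τ ^ (L.take n).length)]
    have : τ ^ (L.take n).length ≤ 1 := pow_le_one₀ h0 h1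
    nlinarith [abs_nonneg (pev (L.drop n) τ)]
  have e7 : ((L.take n).length : ℝ) ≤ n := by
    have := List.length_take_le n L
    exact_mod_cast this
  -- combine
  have e8 : (t.loc q n A B C).p = rdiv Q (L.take n) := by
    simp only [TM.loc, rdiv]
    rw [hQz]
  have e9 : (t.loc q n A B C).e = sabs (L.drop n) / Q + t.e / q + n + 2 := rfl
  rw [e8, e9]
  have d1 : ((sabs (L.drop n) : ℕ) : ℝ) ≤ Q * (((sabs (L.drop n) / Q : ℕ) : ℝ) + 1) := by
    have := Nat.lt_mul_div_succ (sabs (L.drop n)) hQ0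
    have h2 : sabs (L.drop n) ≤ Q * (sabs (L.drop n) / Q + 1) := this.le
    exact_mod_cast h2
  have d2 : ((t.e : ℕ) : ℝ) ≤ q * (((t.e / q : ℕ) : ℝ) + 1) := by
    have := Nat.lt_mul_div_succ t.e hq
    have h2 : t.e ≤ q * (t.e / q + 1) := this.le
    exact_mod_cast h2
  have m1 : |(Q : ℝ) * (D2 * f s - pev (rdiv Q (L.take n)) τ)|
      ≤ Q * (((sabs (L.drop n) / Q + t.e / q + n + 2 : ℕ) : ℝ)) := by
    have e10 : (Q : ℝ) * (D2 * f s - pev (rdiv Q (L.take n)) τ)
        = (C : ℝ) ^ k * (D * f s - pev t.p s) + ((pev (L.take n) τ - Q * pev (rdiv Q (L.take n)) τ)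
          + τ ^ (L.take n).length * pev (L.drop n) τ) := by
      have : (C : ℝ) ^ k * pev t.p s = pev (L.take n) τ + τ ^ (L.take n).length * pev (L.drop n) τ := by
        rw [← e2, e3]
      have hD' : (D : ℝ) = D2 * q := by rw [hD]; push_cast; ring
      rw [hD']
      rw [hQr] at *
      linear_combination this
    rw [e10]
    have a1 : |(C : ℝ) ^ k * (D * f s - pev t.p s)| ≤ (C : ℝ) ^ k * (q * (((t.e / q : ℕ) : ℝ) + 1)) := by
      rw [abs_mul, abs_of_nonneg (by positivity : (0 : ℝ) ≤ (C : ℝ) ^ k)]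
      exact mul_le_mul_of_nonneg_left (e1.trans d2) (by positivity)
    have a2 : (C : ℝ) ^ k * (q * (((t.e / q : ℕ) : ℝ) + 1)) = Q * (((t.e / q : ℕ) : ℝ) + 1) := by
      rw [hQr]; ring
    have a3 : |(pev (L.take n) τ - Q * pev (rdiv Q (L.take n)) τ)
          + τ ^ (L.take n).length * pev (L.drop n) τ| ≤ Q * n + Q * (((sabs (L.drop n) / Q : ℕ) : ℝ) + 1) := by
      refine (abs_add_le _ _).trans (add_le_add ?_ (e6.trans d1))
      exact e4.trans (mul_le_mul_of_nonneg_left e7 hQpos.le)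
    refine (abs_add_le _ _).trans ?_
    have : (Q : ℝ) * (((sabs (L.drop n) / Q + t.e / q + n + 2 : ℕ) : ℝ))
        = Q * (((t.e / q : ℕ) : ℝ) + 1) + (Q * n + Q * (((sabs (L.drop n) / Q : ℕ) : ℝ) + 1)) := by
      push_cast
      ring
    rw [this]
    exact add_le_add (a1.trans a2.le) a3
  rw [abs_mul, abs_of_pos hQpos] at m1
  exact le_of_mul_le_mul_left m1 hQpos

/-- model of `r ^ k f(r^2)` -/
def lft (k : ℕ) (t : TM) : TM := ⟨List.replicate k 0 ++ pil t.p, t.e⟩

theorem pev_replicate (k : ℕ) (s : ℝ) : pev (List.replicate k 0) s = 0 := by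
  induction k with
  | zero => simp [pev]
  | succ k ih => simp [List.replicate_succ, pev, ih]

theorem ok_lft (D k : ℕ) (t : TM) (f : ℝ → ℝ) (h : t.ok D f) :
    (lft k t).ok D (fun r => r ^ k * f (r ^ 2)) := by
  intro r h0 h1
  have e := h (r ^ 2) (by positivity) (pow_le_one₀ h0 h1)
  simp only [lft, pev_append, pev_replicate, pev_pil, List.length_replicate, zero_add]
  have e2 : (D : ℝ) * (r ^ k * f (r ^ 2)) - r ^ k * pev t.p (r ^ 2)
      = r ^ k * (D * f (r ^ 2) - pev t.p (r ^ 2)) := by ring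
  rw [e2, abs_mul, abs_of_nonneg (by positivity : 0 ≤ r ^ k)]
  have : r ^ k ≤ 1 := pow_le_one₀ h0 h1
  have h3 := abs_nonneg ((D : ℝ) * f (r ^ 2) - pev t.p (r ^ 2))
  nlinarith

/-- exact model of `pf l` -/
def po (l : List ℤ) : TM := ⟨l.map (1000000000 * ·), 0⟩

/-- exact model of `pf l / 2` -/
def ph (l : List ℤ) : TM := ⟨l.map (500000000 * ·), 0⟩

theorem ok_po (l : List ℤ) : (po l).ok DD (pf l) := by
  intro s _ _
  have e : ((DD : ℕ) : ℝ) = 1000000000000000 := by norm_num [DD]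
  simp only [po, pev_map, pf]
  rw [e]
  push_cast
  rw [abs_le]
  constructor <;> linarith

theorem ok_ph (l : List ℤ) : (ph l).ok DD (fun s => 1 / 2 * pf l s) := by
  intro s _ _
  have e : ((DD : ℕ) : ℝ) = 1000000000000000 := by norm_num [DD]
  simp only [ph, pev_map, pf]
  rw [e]
  push_cast
  rw [abs_le]
  constructor <;> linarith

theorem pf_cons_zero (l : List ℤ) (s : ℝ) : pf (0 :: l) s = s * pf l s := by
  simp only [pf, pev]
  push_cast
  ring

theorem pf_nil (s : ℝ) : pf [] s = 0 := by simp [pf, pev]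

end Pool.Agent.H94.GP
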