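import Pool.Agent.H94.GP.Psd

/-!
# Positive semidefiniteness of a symmetric matrix of expressions on `[0,1]`

`mat_pos`: if `mchk D n N m env E = true` (by `decide +kernel`) then the quadratic form with the entries `E` (upper triangular rows) is
nonnegative for all `s ∈ [0,1]`. `D` scale, `n` number of coefficients kept in products, `N` (at least the number of coefficients of all
entries) fixes the Bernstein degree, `m` number of subintervals.
-/

set_option autoImplicit false

open Pool.Agent.H94.SP

namespace Pool.Agent.H94.GP

/-- pad with zeros to length `n` -/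
def pad (n : ℕ) (l : List ℤ) : List ℤ := l ++ List.replicate (n - l.length) 0

/-- `C^(length - 1) p((A + B τ)/C)`, padded with one zero -/
def aff (A B C : ℤ) : List ℤ → List ℤ
  | [] => [0]
  | a :: l => padd [a * C ^ l.length] (pmul [A, B] (aff A B C l))

/-- first coefficients -/
def heads (B : List (List (List ℤ))) : List (List ℤ) := B.map (List.map (fun l => l.headD 0))

/-- other coefficients -/
def tails (B : List (List (List ℤ))) : List (List (List ℤ)) := B.map (List.map List.tail)

/-- all Bernstein coefficient matrices pass the check -/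
def bchk : ℕ → List (List (List ℤ)) → Bool
  | 0, _ => true
  | k + 1, B => psd B.length (heads B) && bchk k (tails B)

/-- all lists have length `k` -/
def lenk (k : ℕ) (B : List (List (List ℤ))) : Bool :=
  B.all (fun row => row.all (fun l => decide (l.length = k)))

/-- subtract `m` from the constant coefficients on the diagonal -/
def pdsub (m : ℤ) : List (List (List ℤ)) → List (List (List ℤ))
  | [] => []
  | row :: rows => (match row with
    | [] => []
    | a :: b => padd [-m] a :: b) :: pdsub m rows

/-- largest error -/
def maxe (T : List (List TM)) : ℕ := (T.map (fun row => (row.map TM.e).foldr max 0)).foldr max 0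

/-- shape for any type -/
def shapeG {α : Type} : List (List α) → Bool
  | [] => true
  | row :: rows => decide (row.length = rows.length + 1) && shapeG rows

/-- the polynomial matrix after subtraction of the error -/
def pmat (N : ℕ) (T : List (List TM)) : List (List (List ℤ)) :=
  (pdsub (T.length * maxe T) (T.map (List.map TM.p))).map (List.map (pad N))

/-- Bernstein coefficients on one subinterval -/
def bmat (A B C : ℤ) (P : List (List (List ℤ))) : List (List (List ℤ)) :=
  P.map (List.map (fun l => bernL (aff A B C l)))

/-- check on the subintervals `[i/m, (i+1)/m]`, `i < k` -/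
def ichk (N m : ℕ) (P : List (List (List ℤ))) : ℕ → Bool
  | 0 => true
  | i + 1 => (lenk (N + 1) (bmat i 1 m P) && bchk (N + 1) (bmat i 1 m P)) && ichk N m P i

/-- full check -/
def mchk (D n N m : ℕ) (env : ℕ → TM) (E : List (List Ex)) : Bool :=
  shapeG E && lenk N (pmat N (E.map (List.map (Ex.tm D n env))))
    && ichk N m (pmat N (E.map (List.map (Ex.tm D n env)))) m

theorem pev_pad (n : ℕ) (l : List ℤ) (s : ℝ) : pev (pad n l) s = pev l s := by
  have h : ∀ k : ℕ, pev (List.replicate k 0) s = 0 := by
    intro k
    induction k with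
    | zero => simp [pev]
    | succ k ih => simp [List.replicate_succ, pev, ih]
  rw [pad, pev_append, h]
  ring

theorem pev_aff (A B C : ℤ) (l : List ℤ) (τ s : ℝ) (hs : (C : ℝ) * s = A + B * τ) (a : ℤ) :
    pev (aff A B C (a :: l)) τ = (C : ℝ) ^ l.length * pev (a :: l) s := by
  induction l generalizing a with
  | nil =>
    simp [aff, pev_padd, pev_pmul, pev]
  | cons b l ih =>
    have h := ih b
    rw [aff, pev_padd, pev_pmul, h]
    simp only [pev, List.length_cons]
    push_cast
    have h2 : (A : ℝ) + τ * (B + τ * 0) = C * s := by rw [hs]; ring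
    rw [h2]
    ring

theorem qf_lin {α : Type} (B : List (List α)) (g1 g2 : α → ℝ) (c s : ℝ) (xs : List ℝ) :
    qf (B.map (List.map (fun l => c * g1 l + s * g2 l))) xs
      = c * qf (B.map (List.map g1)) xs + s * qf (B.map (List.map g2)) xs := by
  have hd : ∀ (r : List α) (ys : List ℝ), dotl (r.map (fun l => c * g1 l + s * g2 l)) ys
      = c * dotl (r.map g1) ys + s * dotl (r.map g2) ys := by
    intro r
    induction r with
    | nil => intro ys; simp [dotl]
    | cons a r ih =>
      intro ys
      rcases ys with _ | ⟨y, ys⟩
      · simp [dotl]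
      · simp only [List.map_cons, dotl, ih]
        ring
  induction B generalizing xs with
  | nil => simp [qf]
  | cons row rows ih =>
    rcases xs with _ | ⟨x, xs⟩
    · simp [qf]
    · rcases row with _ | ⟨a, b⟩
      · simp only [List.map_cons, List.map_nil, qf, rowv, ih]
        ring
      · simp only [List.map_cons, qf, rowv, ih, hd]
        ring

theorem qf_congr {α : Type} (B : List (List α)) (g1 g2 : α → ℝ) (xs : List ℝ)
    (h : ∀ row ∈ B, ∀ l ∈ row, g1 l = g2 l) :
    qf (B.map (List.map g1)) xs = qf (B.map (List.map g2)) xs := by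
  congr 1
  refine List.map_congr_left fun row hr => List.map_congr_left fun l hl => h row hr l hl

theorem qf_zero {α : Type} (B : List (List α)) (xs : List ℝ) :
    qf (B.map (List.map (fun _ => (0 : ℝ)))) xs = 0 := by
  have h := qf_lin B (fun _ => 0) (fun _ => 0) 0 0 xs
  simpa using h

theorem bchk_sound (k : ℕ) (B : List (List (List ℤ))) (h : bchk k B = true) (hl : lenk k B = true)
    (hs : shapeG B = true) (xs : List ℝ) (hx : xs.length = B.length) (s t : ℝ) (h0 : 0 ≤ s)
    (h1 : 0 ≤ t) : 0 ≤ qf (B.map (List.map (fun l => hev l s t))) xs := by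
  induction k generalizing B with
  | zero =>
    have : qf (B.map (List.map (fun l => hev l s t))) xs = 0 := by
      rw [← qf_zero B xs]
      refine qf_congr B _ _ xs fun row hr l hll => ?_
      simp only [lenk, List.all_eq_true, decide_eq_true_eq] at hl
      have : l = [] := List.length_eq_zero_iff.1 (hl row hr l hll)
      rw [this]
      rfl
    rw [this]
  | succ k ih =>
    simp only [bchk, Bool.and_eq_true] at h
    simp only [lenk, List.all_eq_true, decide_eq_true_eq] at hl
    have e1 : qf (B.map (List.map (fun l => hev l s t))) xs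
        = qf (B.map (List.map (fun l : List ℤ => t ^ k * ((l.headD 0 : ℤ) : ℝ) + s * hev l.tail s t))) xs := by
      refine qf_congr B _ _ xs fun row hr l hll => ?_
      have := hl row hr l hll
      rcases l with _ | ⟨a, l⟩
      · simp at this
      · have hk : l.length = k := by simpa using this
        simp only [hev, List.headD_cons, List.tail_cons, hk]
        ring
    rw [e1, qf_lin]
    have hsh : ∀ (C : List (List (List ℤ))) (g : List ℤ → ℤ), shapeG C = true →
        shape (C.map (List.map g)) = true := by
      intro C g hC
      induction C with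
      | nil => rfl
      | cons row rows ihC =>
        simp only [shapeG, Bool.and_eq_true, decide_eq_true_eq] at hC
        simp [shape, hC.1, ihC hC.2]
    have hsh2 : ∀ (C : List (List (List ℤ))), shapeG C = true → shapeG (tails C) = true := by
      intro C hC
      induction C with
      | nil => rfl
      | cons row rows ihC =>
        simp only [shapeG, Bool.and_eq_true, decide_eq_true_eq] at hC
        have i := ihC hC.2
        simp only [tails] at i ⊢
        simp [shapeG, hC.1, i]
    have q1 := psd_sound B.length (heads B) h.1 (hsh B _ hs) xs (by simp [heads, hx])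
    have q2 := ih (tails B) h.2 (by
      simp only [lenk, List.all_eq_true, decide_eq_true_eq, tails, List.mem_map,
        forall_exists_index, and_imp]
      rintro _ row hr rfl _ hl'
      rw [List.mem_map] at hl'
      obtain ⟨l, hll, rfl⟩ := hl'
      have := hl row hr l hll
      simp [this]) (hsh2 B hs) (by simp [tails, hx])
    have e2 : qf (castM (heads B)) xs
        = qf (B.map (List.map (fun l : List ℤ => ((l.headD 0 : ℤ) : ℝ)))) xs := by
      simp [castM, heads, List.map_map, Function.comp_def]
    have e3 : qf ((tails B).map (List.map (fun l => hev l s t))) xs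
        = qf (B.map (List.map (fun l : List ℤ => hev l.tail s t))) xs := by
      simp [tails, List.map_map, Function.comp_def]
    rw [e2] at q1
    rw [e3] at q2
    positivity

theorem qf_abs {α : Type} (B : List (List α)) (g : α → ℝ) (e : ℝ) (he : 0 ≤ e) (xs : List ℝ)
    (h : ∀ row ∈ B, ∀ l ∈ row, |g l| ≤ e) :
    |qf (B.map (List.map g)) xs| ≤ e * sabsr xs ^ 2 := by
  have hd : ∀ (r : List α) (ys : List ℝ), (∀ l ∈ r, |g l| ≤ e) →
      |dotl (r.map g) ys| ≤ e * sabsr ys := by
    intro r
    induction r with
    | nil => intro ys _; simp only [List.map_nil, dotl, abs_zero]; have := sabsr_nonneg ys; positivity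
    | cons a r ih =>
      intro ys hr
      rcases ys with _ | ⟨y, ys⟩
      · simp [dotl, sabsr]
      · simp only [List.map_cons, dotl, sabsr]
        have h1 := ih ys fun l hl => hr l (List.mem_cons_of_mem _ hl)
        have h2 := hr a (List.mem_cons_self ..)
        calc |g a * y + dotl (r.map g) ys| ≤ |g a * y| + |dotl (r.map g) ys| := abs_add_le _ _
          _ ≤ e * |y| + e * sabsr ys := by
              rw [abs_mul]
              exact add_le_add (mul_le_mul_of_nonneg_right h2 (abs_nonneg _)) h1
          _ = _ := by ring
  induction B generalizing xs with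
  | nil => simp only [List.map_nil, qf, abs_zero]; positivity
  | cons row rows ih =>
    rcases xs with _ | ⟨x, xs⟩
    · simp [qf, sabsr]
    · have i := ih xs fun row' hr => h row' (List.mem_cons_of_mem _ hr)
      rcases row with _ | ⟨a, b⟩
      · simp only [List.map_cons, List.map_nil, qf, rowv, sabsr, zero_add]
        have h2 := sabsr_nonneg xs
        have h3 := abs_nonneg x
        nlinarith [mul_nonneg he (mul_nonneg h3 h2), mul_nonneg he (sq_nonneg |x|)]
      · simp only [List.map_cons, qf, rowv, sabsr]
        have h1 := h (a :: b) (List.mem_cons_self ..)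
        have h2 := h1 a (List.mem_cons_self ..)
        have h3 := hd b xs fun l hl => h1 l (List.mem_cons_of_mem _ hl)
        have k1 : |g a * x ^ 2| ≤ e * |x| ^ 2 := by
          rw [abs_mul, abs_of_nonneg (sq_nonneg x), sq_abs]
          exact mul_le_mul_of_nonneg_right h2 (sq_nonneg _)
        have k2 : |2 * x * dotl (b.map g) xs| ≤ 2 * |x| * (e * sabsr xs) := by
          rw [abs_mul, abs_mul, abs_two]
          exact mul_le_mul_of_nonneg_left h3 (by positivity)
        calc |g a * x ^ 2 + 2 * x * dotl (b.map g) xs + qf (rows.map (List.map g)) xs|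
            ≤ |g a * x ^ 2| + |2 * x * dotl (b.map g) xs| + |qf (rows.map (List.map g)) xs| :=
              abs_add_three _ _ _
          _ ≤ e * |x| ^ 2 + 2 * |x| * (e * sabsr xs) + e * sabsr xs ^ 2 := by linarith
          _ = _ := by ring

theorem qf_pdsub (m : ℤ) (P : List (List (List ℤ))) (xs : List ℝ) (h : shapeG P = true)
    (hx : xs.length = P.length) (s : ℝ) :
    qf ((pdsub m P).map (List.map (fun l => pev l s))) xs
      = qf (P.map (List.map (fun l => pev l s))) xs - m * ssq xs := by
  induction P generalizing xs with
  | nil =>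
    have : xs = [] := List.length_eq_zero_iff.1 (by simpa using hx)
    subst this
    simp [pdsub, qf, ssq]
  | cons row rows ih =>
    rcases xs with _ | ⟨x, xs⟩
    · simp at hx
    · simp only [shapeG, Bool.and_eq_true, decide_eq_true_eq] at h
      have hx' : xs.length = rows.length := by simpa using hx
      have i1 := ih xs h.2 hx'
      rcases row with _ | ⟨a, b⟩
      · simp at h
      · simp only [pdsub, List.map_cons, qf, rowv, ssq, pev_padd, pev] at i1 ⊢
        rw [i1]
        push_cast
        ring

theorem shapeG_map {α β : Type} (g : α → β) (M : List (List α)) (h : shapeG M = true) :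
    shapeG (M.map (List.map g)) = true := by
  induction M with
  | nil => rfl
  | cons row rows ih =>
    simp only [shapeG, Bool.and_eq_true, decide_eq_true_eq] at h
    simp [shapeG, h.1, ih h.2]

theorem shapeG_pdsub (m : ℤ) (M : List (List (List ℤ))) (h : shapeG M = true) :
    shapeG (pdsub m M) = true ∧ (pdsub m M).length = M.length := by
  induction M with
  | nil => simp [pdsub, shapeG]
  | cons row rows ih =>
    simp only [shapeG, Bool.and_eq_true, decide_eq_true_eq] at h
    obtain ⟨i1, i2⟩ := ih h.2
    rcases row with _ | ⟨a, b⟩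
    · simp at h
    · have : b.length = rows.length := by simpa using h.1
      simp [pdsub, shapeG, i1, i2, this]

theorem le_maxe (T : List (List TM)) (row : List TM) (hr : row ∈ T) (t : TM) (ht : t ∈ row) :
    t.e ≤ maxe T := by
  have h1 : ∀ (l : List ℕ) (a : ℕ), a ∈ l → a ≤ l.foldr max 0 := by
    intro l
    induction l with
    | nil => intro a ha; simp at ha
    | cons b l ih =>
      intro a ha
      rcases List.mem_cons.1 ha with rfl | ha
      · simp
      · simp [ih a ha]
  exact (h1 _ _ (List.mem_map_of_mem (f := TM.e) ht)).trans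
    (h1 _ _ (List.mem_map_of_mem (f := fun row => (row.map TM.e).foldr max 0) hr))

theorem ichk_get (N m : ℕ) (P : List (List (List ℤ))) (k : ℕ) (h : ichk N m P k = true) (i : ℕ)
    (hi : i < k) : lenk (N + 1) (bmat i 1 m P) = true ∧ bchk (N + 1) (bmat i 1 m P) = true := by
  induction k with
  | zero => omega
  | succ k ih =>
    simp only [ichk, Bool.and_eq_true] at h
    rcases Nat.lt_succ_iff_lt_or_eq.1 hi with h1 | h1
    · exact ih h.2 h1
    · subst h1
      exact h.1

theorem mat_pos (D n N m : ℕ) (hD : 0 < D) (hN : 0 < N) (hm : 0 < m) (env : ℕ → TM) (f : ℕ → ℝ → ℝ)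
    (hf : ∀ i, (env i).ok D (f i)) (E : List (List Ex)) (h : mchk D n N m env E = true) (s : ℝ)
    (h0 : 0 ≤ s) (h1 : s ≤ 1) (xs : List ℝ) (hx : xs.length = E.length) :
    0 ≤ qf (E.map (List.map (fun x => x.ev D f s))) xs := by
  simp only [mchk, Bool.and_eq_true] at h
  obtain ⟨⟨hsh, hlen⟩, hi⟩ := h
  set T := E.map (List.map (Ex.tm D n env)) with hT
  set P := pmat N T with hP
  have hD' : (0 : ℝ) < D := by exact_mod_cast hD
  have hm' : (0 : ℝ) < m := by exact_mod_cast hm
  have hshT : shapeG T = true := shapeG_map _ _ hsh
  have hshP0 : shapeG (T.map (List.map TM.p)) = true := shapeG_map _ _ hshT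
  obtain ⟨hsh1, hlen1⟩ := shapeG_pdsub (T.length * maxe T) _ hshP0
  have hshP : shapeG P = true := shapeG_map _ _ hsh1
  have hTlen : T.length = E.length := by simp [hT]
  have hPlen : P.length = E.length := by
    rw [hP, pmat, List.length_map, hlen1, List.length_map, hTlen]
  -- the interval
  obtain ⟨i, him, τ, hτ0, hτ1, hτ⟩ : ∃ i : ℕ, i < m ∧ ∃ τ : ℝ, 0 ≤ τ ∧ τ ≤ 1 ∧ (m : ℝ) * s = i + τ := by
    rcases lt_or_eq_of_le h1 with h2 | h2
    · have hms : 0 ≤ (m : ℝ) * s := by positivity
      refine ⟨⌊(m : ℝ) * s⌋₊, ?_, (m : ℝ) * s - ⌊(m : ℝ) * s⌋₊, ?_, ?_, by ring⟩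
      · rw [Nat.floor_lt hms]
        nlinarith
      · linarith [Nat.floor_le hms]
      · linarith [Nat.lt_floor_add_one ((m : ℝ) * s)]
    · refine ⟨m - 1, by omega, 1, by norm_num, le_rfl, ?_⟩
      rw [h2, Nat.cast_sub (by omega)]
      push_cast
      ring
  obtain ⟨l1, b1⟩ := ichk_get N m P m hi i him
  have hshB : shapeG (bmat i 1 m P) = true := shapeG_map _ _ hshP
  have hb := bchk_sound (N + 1) (bmat i 1 m P) b1 l1 hshB xs
    (by simp [bmat, hPlen, hx]) τ (1 - τ) hτ0 (by linarith)
  have e1 : qf ((bmat i 1 m P).map (List.map (fun l => hev l τ (1 - τ)))) xs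
      = (m : ℝ) ^ (N - 1) * qf (P.map (List.map (fun l => pev l s))) xs := by
    have e2 := qf_lin P (fun l => pev l s) (fun _ => 0) ((m : ℝ) ^ (N - 1)) 0 xs
    simp only [zero_mul, add_zero] at e2
    rw [← e2]
    have e3 : (bmat i 1 m P).map (List.map (fun l => hev l τ (1 - τ)))
        = P.map (List.map (fun l => hev (bernL (aff i 1 m l)) τ (1 - τ))) := by
      simp [bmat, List.map_map, Function.comp_def]
    rw [e3]
    refine qf_congr P _ _ xs fun row hr l hl => ?_
    simp only [lenk, List.all_eq_true, decide_eq_true_eq] at hlen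
    have hll := hlen row hr l hl
    rcases l with _ | ⟨a, l⟩
    · simp at hll; omega
    · have hN1 : l.length = N - 1 := by
        simp only [List.length_cons] at hll
        omega
      rw [hev_bernL _ _ _ (by ring), pev_aff i 1 m l τ s (by push_cast; linarith) a, hN1]
      push_cast
      ring
  rw [e1] at hb
  have hb2 : 0 ≤ qf (P.map (List.map (fun l => pev l s))) xs :=
    nonneg_of_mul_nonneg_right hb (by positivity)
  have e4 : qf (P.map (List.map (fun l => pev l s))) xs
      = qf ((T.map (List.map TM.p)).map (List.map (fun l => pev l s))) xs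
        - (((T.length * maxe T : ℕ) : ℤ) : ℝ) * ssq xs := by
    have e5 := qf_pdsub (T.length * maxe T) (T.map (List.map TM.p)) xs hshP0
      (by simp [hTlen, hx]) s
    have e6 : P.map (List.map (fun l => pev l s))
        = (pdsub (T.length * maxe T) (T.map (List.map TM.p))).map (List.map (fun l => pev l s)) := by
      rw [hP, pmat]
      simp [List.map_map, Function.comp_def, pev_pad]
    rw [e6, e5]
    push_cast
    ring
  rw [e4] at hb2
  -- the error
  have e7 := qf_lin E (fun x => x.ev D f s)
    (fun x => (pev (Ex.tm D n env x).p s - D * x.ev D f s)) D 1 xs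
  have e8 : (T.map (List.map TM.p)).map (List.map (fun l => pev l s))
      = E.map (List.map (fun x => (D : ℝ) * x.ev D f s
        + 1 * (pev (Ex.tm D n env x).p s - D * x.ev D f s))) := by
    rw [hT]
    simp [List.map_map, Function.comp_def]
  rw [e8, e7] at hb2
  have e9 := qf_abs E (fun x => (pev (Ex.tm D n env x).p s - D * x.ev D f s)) (maxe T)
    (by positivity) xs (by
      intro row hr x hxr
      have h3 := Ex.ok D n hD env f hf x s h0 h1
      rw [abs_sub_comm]
      refine h3.trans ?_
      exact_mod_cast le_maxe T (row.map (Ex.tm D n env)) (List.mem_map_of_mem hr) _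
        (List.mem_map_of_mem hxr))
  have e10 := (abs_le.1 e9).2
  have e11 := sabsr_sq_le xs
  have e12 : (maxe T : ℝ) * sabsr xs ^ 2 ≤ maxe T * (xs.length * ssq xs) :=
    mul_le_mul_of_nonneg_left e11 (by positivity)
  have e13 : ((T.length * maxe T : ℕ) : ℤ) = ((T.length : ℤ) * (maxe T : ℤ)) := by push_cast; ring
  rw [e13] at hb2
  push_cast at hb2
  rw [hTlen, ← hx] at hb2
  have : 0 ≤ (D : ℝ) * qf (E.map (List.map (fun x => x.ev D f s))) xs := by linarith
  exact nonneg_of_mul_nonneg_right this hD'

end Pool.Agent.H94.GP
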