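import Pool.Agent.H94.GP.ZiA

/-!
# QtA: models of the coefficients `Q_j` inside the disk, for `φ = pf lphi`
-/

set_option autoImplicit false

open Pool.Agent.H94.ER Pool.Agent.H94.SP

namespace Pool.Agent.H94.GP

/-- the profile inside the disk: `1 - 1.3 s + .23 s^2 + .25 s^3` -/
def lphi : List ℤ := [1000000, -1300000, 230000, 250000]

/-- model -/
def tQ0 : TM :=
  ⟨[0, -44538304976991532, 215128628644732385, -271326774418035064, 164532946070783785,
  -59247676065656804, 14186542761329318, -2426814003963592, 311731674288612, -31194844836015,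
  2501415549314, -164404170791, 9014743171, -419594711, 16624623, -598202, 13596, -1184, -153, -220,
  323, -194],
  13000000000⟩

/-- model -/
def tQ1 : TM :=
  ⟨[97171378141266357, -73081447997871027, 19586160960011479, -2711289722019297, 230695696480401,
  -13181713591411, 559849278577, -15178655529, 810813396, 65326437, 14119667, 2652423, 503790,
  95627, 18162, 3459, 659, 124, 41],
  1000000000⟩

/-- model -/
def tQ2 : TM :=
  ⟨[-18876081156212808, 167543906323539278, -284632152618495643, 162071317013751514,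
  -5656391433454809, -18726188133277259, 5703031484508294, -798031935249085, 67163544315710,
  -3809132337782, 155896879043, -4956181322, 83444202, -11317082, -2145649, -504509, -112671,
  -24662, -5377, -973, -330, -94],
  7000000000⟩

/-- model -/
def tQ3 : TM :=
  ⟨[128808522703049548, -258030511597448693, 158052327170344328, -7600923196015961,
  -17956963772336650, 5585105467775873, -787561725834530, 66552392991636, -3782814108337,
  155182216406, -4916936786, 86675599, -10621517, -2014949, -479685, -107961, -23768, -5203, -945,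
  -322, -92, 10],
  6000000000⟩

/-- model -/
def tQ6 : TM :=
  ⟨[41182860928433212, -53537719206963176, 9472058013539639, 10295715232108303],
  100000⟩

/-- model -/
def tQ10 : TM :=
  ⟨[-2000000000000000, 30991430464216606, -73197719206963176, 49839575498065703, 10906639814506773,
  -16435143130183735, -756985496615090, 1286964404013538],
  100000⟩

/-- model -/
def tQ12 : TM :=
  ⟨[51582860928433212, -137795438413926351, 99287150996131406, 19424879629013545,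
  -32410286260367471, -1263970993230181, 2573928808027076],
  100000⟩


/-- environment -/
def envQ : ℕ → TM
  | 0 => tmF
  | 1 => tmdF
  | 2 => tmgam
  | 3 => po lphi
  | _ => po (pder lphi)

/-- functions -/
noncomputable def fQ : ℕ → ℝ → ℝ
  | 0 => nF
  | 1 => deriv nF
  | 2 => fun _ => gam
  | 3 => pf lphi
  | _ => pf (pder lphi)

theorem envQ_ok (i : ℕ) : (envQ i).ok DD (fQ i) := by
  rcases i with _ | _ | _ | _ | i
  · exact ok_F
  · exact ok_dF
  · exact ok_gam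
  · exact ok_po _
  · exact ok_po _

/-- `F + s F'` -/
def xH : Ex := .add (.atm 0) (.mul .var (.atm 1))
/-- `φ + 2 s φ'` -/
def xT : Ex := .add (.atm 3) (.smul 2 (.mul .var (.atm 4)))

/-- the expressions -/
def xQ0 : Ex := .add (.mul (.atm 2) (.mul (.mul .var .var) (.mul (.atm 0) (.atm 0))))
  (.add (.smul (-4) (.mul .var (.mul xH xH))) (.smul (-4) (.mul .var (.mul (.atm 0) (.atm 0)))))
/-- expression -/
def xQ1 : Ex := .smul 2 (.mul (.atm 2) (.atm 0))
/-- expression -/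
def xQ2 : Ex := .add (.smul 2 (.mul (.atm 2) (.mul .var (.mul (.atm 0) (.atm 3)))))
  (.add (.smul (-4) (.mul xH xT)) (.smul (-4) (.mul (.atm 0) (.atm 3))))
/-- expression -/
def xQ3 : Ex := .add (.smul 2 (.mul (.atm 2) (.mul (.atm 0) (.atm 3))))
  (.add (.smul (-4) (.mul (.atm 1) (.atm 3))) (.smul (-8) (.mul xH (.atm 4))))
/-- expression -/
def xQ6 : Ex := .smul 2 (.mul (.atm 2) (.atm 3))
/-- expression -/
def xQ10 : Ex := .add (.mul (.atm 2) (.mul .var (.mul (.atm 3) (.atm 3))))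
  (.add (.smul (-1) (.mul xT xT)) (.smul (-1) (.mul (.atm 3) (.atm 3))))
/-- expression -/
def xQ12 : Ex := .add (.smul 2 (.mul (.atm 2) (.mul (.atm 3) (.atm 3))))
  (.add (.smul (-8) (.mul (.atm 3) (.atm 4))) (.smul (-8) (.mul .var (.mul (.atm 4) (.atm 4)))))

/-- comparison with a given model -/
def cmp (x : Ex) (c : TM) : Bool :=
  decide (sabs (padd (x.tm DD 24 envQ).p (c.p.map (fun z => (-((1 : ℕ) : ℤ)) * z))) + (x.tm DD 24 envQ).e ≤ 1 * c.e)

theorem cmp_ok (x : Ex) (c : TM) (h : cmp x c = true) : c.ok DD (x.ev DD fQ) :=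
  TM.cand DD DD 1 (by norm_num) (by norm_num) _ c _ (Ex.ok DD 24 DD_pos envQ fQ envQ_ok x)
    (by simpa [cmp] using h)

theorem cmp0 : cmp xQ0 tQ0 = true := by decide +kernel
theorem cmp1 : cmp xQ1 tQ1 = true := by decide +kernel
theorem cmp2 : cmp xQ2 tQ2 = true := by decide +kernel
theorem cmp3 : cmp xQ3 tQ3 = true := by decide +kernel
theorem cmp6 : cmp xQ6 tQ6 = true := by decide +kernel
theorem cmp10 : cmp xQ10 tQ10 = true := by decide +kernel
theorem cmp12 : cmp xQ12 tQ12 = true := by decide +kernel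

/-- the models of `Q_j` -/
def tQ : Fin 16 → TM :=
  ![tQ0, tQ1, tQ2, tQ3, tmgam, ⟨[], 0⟩, tQ6, ⟨[], 0⟩, tQ6, ⟨[], 0⟩, tQ10, ⟨[], 0⟩, tQ12, ⟨[], 0⟩, tQ10, ⟨[], 0⟩]

/-- the functions `Q_j` -/
noncomputable def fQj (j : Fin 16) (s : ℝ) : ℝ := Qj gam s (nF s) (deriv nF s) (pf lphi s) (pf (pder lphi) s) j

theorem ok_zero (D : ℕ) : (⟨[], 0⟩ : TM).ok D (fun _ => 0) := by
  intro s _ _
  simp [pev]

theorem ok_tQ (j : Fin 16) : (tQ j).ok DD (fQj j) := by
  have h0 := cmp_ok _ _ cmp0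
  have h1 := cmp_ok _ _ cmp1
  have h2 := cmp_ok _ _ cmp2
  have h3 := cmp_ok _ _ cmp3
  have h6 := cmp_ok _ _ cmp6
  have h10 := cmp_ok _ _ cmp10
  have h12 := cmp_ok _ _ cmp12
  fin_cases j
  · refine TM.ok_congr _ _ _ _ h0 fun s _ _ => ?_
    simp [fQj, Qj, xQ0, xH, Ex.ev, fQ]
    ring
  · refine TM.ok_congr _ _ _ _ h1 fun s _ _ => ?_
    simp [fQj, Qj, xQ1, Ex.ev, fQ]
    ring
  · refine TM.ok_congr _ _ _ _ h2 fun s _ _ => ?_
    simp [fQj, Qj, xQ2, xH, xT, Ex.ev, fQ]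
    ring
  · refine TM.ok_congr _ _ _ _ h3 fun s _ _ => ?_
    simp [fQj, Qj, xQ3, xH, Ex.ev, fQ]
    ring
  · exact TM.ok_congr _ _ _ _ ok_gam fun s _ _ => by simp [fQj, Qj]
  · exact TM.ok_congr _ _ _ _ (ok_zero DD) fun s _ _ => by simp [fQj, Qj]
  · refine TM.ok_congr _ _ _ _ h6 fun s _ _ => ?_
    simp [fQj, Qj, xQ6, Ex.ev, fQ]
    ring
  · exact TM.ok_congr _ _ _ _ (ok_zero DD) fun s _ _ => by simp [fQj, Qj]
  · refine TM.ok_congr _ _ _ _ h6 fun s _ _ => ?_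
    simp [fQj, Qj, xQ6, Ex.ev, fQ]
    ring
  · exact TM.ok_congr _ _ _ _ (ok_zero DD) fun s _ _ => by simp [fQj, Qj]
  · refine TM.ok_congr _ _ _ _ h10 fun s _ _ => ?_
    simp [fQj, Qj, xQ10, xT, Ex.ev, fQ]
    ring
  · exact TM.ok_congr _ _ _ _ (ok_zero DD) fun s _ _ => by simp [fQj, Qj]
  · refine TM.ok_congr _ _ _ _ h12 fun s _ _ => ?_
    simp [fQj, Qj, xQ12, Ex.ev, fQ]
    ring
  · exact TM.ok_congr _ _ _ _ (ok_zero DD) fun s _ _ => by simp [fQj, Qj]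
  · refine TM.ok_congr _ _ _ _ h10 fun s _ _ => ?_
    simp [fQj, Qj, xQ10, xT, Ex.ev, fQ]
    ring
  · exact TM.ok_congr _ _ _ _ (ok_zero DD) fun s _ _ => by simp [fQj, Qj]

/-- constant `z / 10^6` -/
def cc (z : ℤ) : TM := ⟨[1000000000 * z], 0⟩

theorem ok_cc (z : ℤ) : (cc z).ok DD (fun _ => (z : ℝ) / 1000000) := by
  have h := ok_po [z]
  refine TM.ok_congr _ _ _ _ h fun s _ _ => ?_
  simp [pf, pev]

/-- `gc` on `[0, 1]` -/
def tmgc : TM := ⟨[1000000000000000], 10000000⟩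

theorem ok_gc : tmgc.ok DD gc := by
  intro s h0 h1
  have e : ((DD : ℕ) : ℝ) = 1000000000000000 := by norm_num [DD]
  have hg := gc_pos s h0
  have hg2 := gc_sq s h0
  have h2 : 1 - s / 100000000 ≤ 1 / (1 + s / 100000000) := by
    rw [le_div_iff₀ (by positivity)]
    nlinarith
  have h3 : 1 / (1 + s / 100000000) ≤ 1 := by
    rw [div_le_one (by positivity)]
    linarith [show 0 ≤ s / 100000000 by positivity]
  have h4 : gc s ≤ 1 := by nlinarith
  have h5 : 1 - 1 / 100000000 ≤ gc s := by nlinarith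
  simp only [tmgc, pev, e]
  push_cast
  rw [abs_le]
  constructor <;> nlinarith

/-- the models of the terms `E_j` (integers over `10^6`), with the additional terms `w0`, `w1` -/
def tE (m c2 c6 c8 μ0 μ1 μ2 μ3 w0 w1 : ℤ) : Fin 16 → TM :=
  ![cc w0, ⟨[], 0⟩, (tmgc.mul DD (cc c2)).smul (-1), ⟨[], 0⟩,
    (cc (-m)).add ((tmkap.mul DD ((tmgc.mul DD tmgc).mul DD (po [0, μ0]))).add ((cc μ0).smul (-2))), ⟨[], 0⟩,
    (tmgc.mul DD (cc c6)).smul (-1), ⟨[], 0⟩, (tmgc.mul DD (cc c8)).smul (-1), ⟨[], 0⟩,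
    (cc (-m)).add ((tmkap.mul DD ((tmgc.mul DD tmgc).mul DD (po [0, μ1]))).add ((cc μ1).smul (-2))), ⟨[], 0⟩,
    (tmkap.mul DD ((tmgc.mul DD tmgc).mul DD (cc μ3))).smul 2, ⟨[], 0⟩,
    ((cc (-m)).add (cc w1)).add ((tmkap.mul DD ((tmgc.mul DD tmgc).mul DD (po [0, μ2]))).add
      ((cc μ2).smul (-2))), ⟨[], 0⟩]

/-- terms of the bound on `|q|/σ` (integers over `10^6`) -/
noncomputable def Spz (w0 w1 : ℤ) (j : Fin 16) : ℝ :=
  if j = 0 then (w0 : ℝ) / 1000000 else if j = 14 then (w1 : ℝ) / 1000000 else 0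

/-- the functions `E_j` -/
noncomputable def fE (m c2 c6 c8 μ0 μ1 μ2 μ3 w0 w1 : ℤ) (j : Fin 16) (s : ℝ) : ℝ :=
  Ec (m / 1000000) (c2 / 1000000) (c6 / 1000000) (c8 / 1000000) (μ0 / 1000000) (μ1 / 1000000) (μ2 / 1000000)
    (μ3 / 1000000) (gc s) s j + Spz w0 w1 j

theorem ok_tE (m c2 c6 c8 μ0 μ1 μ2 μ3 w0 w1 : ℤ) (j : Fin 16) :
    (tE m c2 c6 c8 μ0 μ1 μ2 μ3 w0 w1 j).ok DD (fE m c2 c6 c8 μ0 μ1 μ2 μ3 w0 w1 j) := by
  have hg2 := TM.ok_mul DD DD_pos _ _ _ _ ok_gc ok_gc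
  have hc : ∀ z, ((tmgc.mul DD (cc z)).smul (-1)).ok DD (fun s => ((-1 : ℤ) : ℝ) * (gc s * ((z : ℝ) / 1000000))) :=
    fun z => TM.ok_smul _ _ _ _ (TM.ok_mul DD DD_pos _ _ _ _ ok_gc (ok_cc z))
  have hk : ∀ z, ((tmkap.mul DD ((tmgc.mul DD tmgc).mul DD (po [0, z]))).add ((cc z).smul (-2))).ok DD
      (fun s => kap * (gc s * gc s * pf [0, z] s) + ((-2 : ℤ) : ℝ) * ((z : ℝ) / 1000000)) :=
    fun z => TM.ok_add _ _ _ _ _ (TM.ok_mul DD DD_pos _ _ _ _ ok_kap (TM.ok_mul DD DD_pos _ _ _ _ hg2 (ok_po _)))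
      (TM.ok_smul _ _ _ _ (ok_cc z))
  have hp : ∀ (z : ℤ) (s : ℝ), pf [0, z] s = z / 1000000 * s := by
    intro z s
    simp [pf, pev]
    ring
  fin_cases j
  · exact TM.ok_congr _ _ _ _ (ok_cc w0) fun s _ _ => by simp [fE, Ec, Spz]
  · exact TM.ok_congr _ _ _ _ (ok_zero DD) fun s _ _ => by simp [fE, Ec, Spz]
  · exact TM.ok_congr _ _ _ _ (hc c2) fun s _ _ => by simp [fE, Ec, Spz]
  · exact TM.ok_congr _ _ _ _ (ok_zero DD) fun s _ _ => by simp [fE, Ec, Spz]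
  · refine TM.ok_congr _ _ _ _ (TM.ok_add _ _ _ _ _ (ok_cc (-m)) (hk μ0)) fun s _ _ => ?_
    simp only [hp]
    simp [fE, Ec, Spz]
    ring
  · exact TM.ok_congr _ _ _ _ (ok_zero DD) fun s _ _ => by simp [fE, Ec, Spz]
  · exact TM.ok_congr _ _ _ _ (hc c6) fun s _ _ => by simp [fE, Ec, Spz]
  · exact TM.ok_congr _ _ _ _ (ok_zero DD) fun s _ _ => by simp [fE, Ec, Spz]
  · exact TM.ok_congr _ _ _ _ (hc c8) fun s _ _ => by simp [fE, Ec, Spz]
  · exact TM.ok_congr _ _ _ _ (ok_zero DD) fun s _ _ => by simp [fE, Ec, Spz]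
  · refine TM.ok_congr _ _ _ _ (TM.ok_add _ _ _ _ _ (ok_cc (-m)) (hk μ1)) fun s _ _ => ?_
    simp only [hp]
    simp [fE, Ec, Spz]
    ring
  · exact TM.ok_congr _ _ _ _ (ok_zero DD) fun s _ _ => by simp [fE, Ec, Spz]
  · refine TM.ok_congr _ _ _ _ (TM.ok_smul _ 2 _ _ (TM.ok_mul DD DD_pos _ _ _ _ ok_kap
      (TM.ok_mul DD DD_pos _ _ _ _ hg2 (ok_cc μ3)))) fun s _ _ => ?_
    simp [fE, Ec, Spz]
    ring
  · exact TM.ok_congr _ _ _ _ (ok_zero DD) fun s _ _ => by simp [fE, Ec, Spz]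
  · refine TM.ok_congr _ _ _ _ (TM.ok_add _ _ _ _ _ (TM.ok_add _ _ _ _ _ (ok_cc (-m)) (ok_cc w1)) (hk μ2))
      fun s _ _ => ?_
    simp only [hp]
    simp [fE, Ec, Spz]
    ring
  · exact TM.ok_congr _ _ _ _ (ok_zero DD) fun s _ _ => by simp [fE, Ec, Spz]

end Pool.Agent.H94.GP
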