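import Pool.Agent.H94.GP.LpB
import Pool.Agent.H94.GP.QtA

/-!
# PhA: the trial profile `φ` (`f = r φ(r^2)` is constant outside the disk)
-/

set_option autoImplicit false

open MeasureTheory Pool.Agent.H94.ER Pool.Agent.H94.SP

namespace Pool.Agent.H94.GP

/-- the profile: `pf lphi` on `s ≤ 1`, `.18/√s` on `s > 1` -/
noncomputable def phf (s : ℝ) : ℝ := if s ≤ 1 then pf lphi s else (180000 : ℤ) / 1000000 / √s

/-- its derivative -/
noncomputable def phd (s : ℝ) : ℝ :=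
  if s ≤ 1 then pf (pder lphi) s else -((180000 : ℤ) / 1000000 / (2 * √s ^ 3))

theorem phf_in (s : ℝ) (h : s ≤ 1) : phf s = pf lphi s := if_pos h

theorem phf_out (s : ℝ) (h : 1 < s) : phf s = (180000 : ℤ) / 1000000 / √s := if_neg (not_le.2 h)

theorem PhA_out (s : ℝ) (h : 0 < s) : HasDerivAt (fun s : ℝ => ((180000 : ℤ) : ℝ) / 1000000 / √s)
    (-(((180000 : ℤ) : ℝ) / 1000000 / (2 * √s ^ 3))) s := by
  have hs : 0 < √s := Real.sqrt_pos.2 h
  have h1 := (Real.hasDerivAt_sqrt h.ne').inv hs.ne'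
  have h2 := h1.const_mul (((180000 : ℤ) : ℝ) / 1000000)
  have e : (fun s : ℝ => ((180000 : ℤ) : ℝ) / 1000000 / √s)
      = fun s : ℝ => ((180000 : ℤ) : ℝ) / 1000000 * (√s)⁻¹ := by
    funext t
    rw [div_eq_mul_inv]
  rw [e]
  refine h2.congr_deriv ?_
  field_simp

theorem PhA_lphi (s : ℝ) : pf lphi s = 1 - 13 / 10 * s + 23 / 100 * s ^ 2 + 1 / 4 * s ^ 3 := by
  simp only [pf, lphi, pev]
  push_cast
  ring

theorem PhA_dlphi (s : ℝ) : pf (pder lphi) s = -(13 / 10) + 23 / 50 * s + 3 / 4 * s ^ 2 := by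
  simp only [pf, lphi, pder, pdaux, pev]
  push_cast
  ring

theorem phf_hasDerivAt_in (s : ℝ) (h : s < 1) : HasDerivAt phf (pf (pder lphi) s) s := by
  refine (pf_hasDerivAt lphi s).congr_of_eventuallyEq ?_
  filter_upwards [gt_mem_nhds h] with t ht
  exact phf_in t ht.le

theorem phf_hasDerivAt_out (s : ℝ) (h : 1 < s) :
    HasDerivAt phf (-(((180000 : ℤ) : ℝ) / 1000000 / (2 * √s ^ 3))) s := by
  refine (PhA_out s (by linarith)).congr_of_eventuallyEq ?_
  filter_upwards [lt_mem_nhds h] with t ht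
  exact phf_out t ht

theorem phf_hasDerivAt (s : ℝ) : HasDerivAt phf (phd s) s := by
  rcases lt_trichotomy s 1 with h | h | h
  · have e : phd s = pf (pder lphi) s := if_pos h.le
    rw [e]
    exact phf_hasDerivAt_in s h
  · subst h
    have e : phd 1 = pf (pder lphi) 1 := if_pos le_rfl
    rw [e]
    have h1 := pf_hasDerivAt lphi 1
    have h2 := PhA_out 1 one_pos
    have e2 : -(((180000 : ℤ) : ℝ) / 1000000 / (2 * √1 ^ 3)) = pf (pder lphi) 1 := by
      rw [PhA_dlphi, Real.sqrt_one]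
      norm_num
    rw [e2] at h2
    have e3 : pf lphi 1 = ((180000 : ℤ) : ℝ) / 1000000 / √1 := by
      rw [PhA_lphi, Real.sqrt_one]
      norm_num
    have a1 : HasDerivWithinAt phf (pf (pder lphi) 1) (Set.Iic 1) 1 :=
      h1.hasDerivWithinAt.congr (fun t ht => phf_in t ht) (phf_in 1 le_rfl)
    have a2 : HasDerivWithinAt phf (pf (pder lphi) 1) (Set.Ici 1) 1 := by
      refine h2.hasDerivWithinAt.congr (fun t ht => ?_) ?_
      · rcases (Set.mem_Ici.1 ht).lt_or_eq with h | h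
        · exact phf_out t h
        · rw [← h, phf_in 1 le_rfl, e3]
      · rw [phf_in 1 le_rfl, e3]
    have := a1.union a2
    rw [Set.Iic_union_Ici] at this
    exact this.hasDerivAt Filter.univ_mem
  · have e : phd s = -(((180000 : ℤ) : ℝ) / 1000000 / (2 * √s ^ 3)) := if_neg (not_le.2 h)
    rw [e]
    exact phf_hasDerivAt_out s h

theorem phd_cont : Continuous phd := by
  have e : phd = fun s => if s ≤ 1 then pf (pder lphi) s else -(((180000 : ℤ) : ℝ) / 1000000 / (2 * √s ^ 3)) := rfl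
  rw [e]
  refine continuous_if_le continuous_id continuous_const ?_ ?_ ?_
  · exact (contDiff_pf (pder lphi) 1).continuous.continuousOn
  · refine ContinuousOn.neg (ContinuousOn.div continuousOn_const ?_ ?_)
    · exact (continuous_const.mul (Real.continuous_sqrt.pow 3)).continuousOn
    · intro s hs
      have h1 : (1 : ℝ) ≤ s := hs
      have : 0 < √s := Real.sqrt_pos.2 (by linarith)
      positivity
  · intro s hs
    have h1 : s = 1 := hs
    subst h1
    rw [PhA_dlphi, Real.sqrt_one]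
    norm_num

theorem contDiff_phf : ContDiff ℝ 1 phf := by
  rw [contDiff_one_iff_deriv]
  refine ⟨fun s => (phf_hasDerivAt s).differentiableAt, ?_⟩
  have e : deriv phf = phd := funext fun s => (phf_hasDerivAt s).deriv
  rw [e]
  exact phd_cont

/-- bounds of the trial functions -/
theorem phf_bound (j : Fin 2) (x : E 2) : |tf phf j x| ≤ 10 ∧ ∀ i, |pd i (tf phf j) x| ≤ 10 := by
  have hs : 0 ≤ ‖x‖ ^ 2 := by positivity
  have hc : ∀ i : Fin 2, |x i| ≤ ‖x‖ := by
    intro i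
    have := EuclideanSpace.norm_eq x
    have h2 : |x i| ^ 2 ≤ ‖x‖ ^ 2 := by
      rw [nsq2 x, sq_abs]
      fin_cases i
      · simp; positivity
      · simp; positivity
    exact le_of_sq_le_sq h2 (norm_nonneg x)
  have hpd : ∀ i, pd i (tf phf j) x = phf (‖x‖ ^ 2) * (if i = j then 1 else 0) + 2 * phd (‖x‖ ^ 2) * x i * x j := by
    intro i
    have h := pd_mul i (fun y : E 2 => phf (‖y‖ ^ 2)) (fun y : E 2 => y j) x
      (differentiableAt_rad _ _ x (phf_hasDerivAt _)) (differentiable_coord j x)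
    rw [pd_rad phf _ x (phf_hasDerivAt _), HmA_coord] at h
    exact h
  have key : |phf (‖x‖ ^ 2)| ≤ 3 ∧ |phf (‖x‖ ^ 2)| * ‖x‖ ≤ 3 ∧ |phd (‖x‖ ^ 2)| * ‖x‖ ^ 2 ≤ 3 := by
    rcases le_or_gt (‖x‖ ^ 2) 1 with h | h
    · have h1 : ‖x‖ ≤ 1 := by nlinarith [norm_nonneg x]
      have e1 : |phf (‖x‖ ^ 2)| ≤ 3 := by
        rw [phf_in _ h, PhA_lphi, abs_le]
        constructor <;> nlinarith [pow_nonneg hs 2, pow_nonneg hs 3, pow_le_one₀ hs h (n := 2), pow_le_one₀ hs h (n := 3)]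
      have e2 : |phd (‖x‖ ^ 2)| ≤ 3 := by
        have : phd (‖x‖ ^ 2) = pf (pder lphi) (‖x‖ ^ 2) := if_pos h
        rw [this, PhA_dlphi, abs_le]
        constructor <;> nlinarith [pow_nonneg hs 2, pow_le_one₀ hs h (n := 2)]
      refine ⟨e1, ?_, ?_⟩
      · calc |phf (‖x‖ ^ 2)| * ‖x‖ ≤ 3 * 1 := mul_le_mul e1 h1 (norm_nonneg x) (by norm_num)
          _ = 3 := by norm_num
      · calc |phd (‖x‖ ^ 2)| * ‖x‖ ^ 2 ≤ 3 * 1 := mul_le_mul e2 h hs (by norm_num)
          _ = 3 := by norm_num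
    · have h1 : 1 < ‖x‖ := by nlinarith [norm_nonneg x]
      have h0 : 0 < ‖x‖ := by linarith
      have hsq : √(‖x‖ ^ 2) = ‖x‖ := Real.sqrt_sq (norm_nonneg x)
      have e1 : phf (‖x‖ ^ 2) = 18 / 100 / ‖x‖ := by
        rw [phf_out _ h, hsq]
        norm_num
      have e2 : phd (‖x‖ ^ 2) = -(18 / 100 / (2 * ‖x‖ ^ 3)) := by
        have : phd (‖x‖ ^ 2) = -(((180000 : ℤ) : ℝ) / 1000000 / (2 * √(‖x‖ ^ 2) ^ 3)) := if_neg (not_le.2 h)
        rw [this, hsq]
        norm_num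
      rw [e1, e2, abs_neg, abs_of_pos (by positivity), abs_of_pos (by positivity)]
      refine ⟨?_, ?_, ?_⟩
      · rw [div_le_iff₀ h0]
        linarith
      · rw [div_mul_cancel₀ _ h0.ne']
        norm_num
      · have : 18 / 100 / (2 * ‖x‖ ^ 3) * ‖x‖ ^ 2 = 9 / 100 / ‖x‖ := by field_simp; norm_num
        rw [this, div_le_iff₀ h0]
        linarith
  obtain ⟨k1, k2, k3⟩ := key
  constructor
  · unfold tf
    rw [abs_mul]
    have := mul_le_mul_of_nonneg_left (hc j) (abs_nonneg (phf (‖x‖ ^ 2)))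
    linarith
  · intro i
    rw [hpd i]
    have a1 : |phf (‖x‖ ^ 2) * (if i = j then 1 else 0)| ≤ 3 := by
      rw [abs_mul]
      split_ifs
      · simpa using k1
      · simp
    have a2 : |2 * phd (‖x‖ ^ 2) * x i * x j| ≤ 6 := by
      rw [abs_mul, abs_mul, abs_mul, abs_of_pos (by norm_num : (0 : ℝ) < 2)]
      have h5 : |x i| * |x j| ≤ ‖x‖ ^ 2 := by
        rw [sq]
        exact mul_le_mul (hc i) (hc j) (abs_nonneg _) (norm_nonneg x)
      have h6 := mul_le_mul_of_nonneg_left h5 (abs_nonneg (phd (‖x‖ ^ 2)))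
      calc 2 * |phd (‖x‖ ^ 2)| * |x i| * |x j| = 2 * (|phd (‖x‖ ^ 2)| * (|x i| * |x j|)) := by ring
        _ ≤ 2 * (|phd (‖x‖ ^ 2)| * ‖x‖ ^ 2) := by linarith
        _ ≤ 6 := by linarith
    refine (abs_add_le _ _).trans (by linarith)

end Pool.Agent.H94.GP
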