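import Pool.Agent.H94.GP.Tm

/-!
# Positive semidefiniteness of a symmetric matrix of functions on `[0,1]`, checked by the kernel

A symmetric matrix is given by the list of the rows of its upper triangular part (row `i` starts at the diagonal).
`qf rows x = ∑ m_ii x_i^2 + 2 ∑_{i<j} m_ij x_i x_j`.
-/

set_option autoImplicit false

open Pool.Agent.H94.SP

namespace Pool.Agent.H94.GP

/-- `∑ b_i x_i` -/
noncomputable def dotl : List ℝ → List ℝ → ℝ
  | b :: bs, x :: xs => b * x + dotl bs xs
  | _, _ => 0

/-- `∑ |x_i|` -/
noncomputable def sabsr : List ℝ → ℝ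
  | [] => 0
  | x :: xs => |x| + sabsr xs

/-- `∑ x_i^2` -/
noncomputable def ssq : List ℝ → ℝ
  | [] => 0
  | x :: xs => x ^ 2 + ssq xs

/-- first entry and rest of a row, times `x` and `xs` -/
noncomputable def rowv (row : List ℝ) (x : ℝ) (xs : List ℝ) : ℝ :=
  match row with
  | [] => 0
  | a :: b => a * x ^ 2 + 2 * x * dotl b xs

/-- quadratic form of an upper triangular list of rows -/
noncomputable def qf : List (List ℝ) → List ℝ → ℝ
  | row :: rows, x :: xs => rowv row x xs + qf rows xs
  | _, _ => 0

/-- integer matrix as a real one -/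
noncomputable def castM (M : List (List ℤ)) : List (List ℝ) := M.map (List.map (fun z : ℤ => (z : ℝ)))

/-- shape of an upper triangular list of rows -/
def shape : List (List ℤ) → Bool
  | [] => true
  | row :: rows => decide (row.length = rows.length + 1) && shape rows

/-- one elimination step on a row -/
def erow (a bi : ℤ) (bt row : List ℤ) : List ℤ := List.zipWith (fun c b => c - bi * b / a) row bt

/-- elimination of the first variable -/
def elim (a : ℤ) : List ℤ → List (List ℤ) → List (List ℤ)
  | bi :: bt, row :: rows => erow a bi (bi :: bt) row :: elim a bt rows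
  | _, _ => []

/-- subtract `m` on the diagonal -/
def dsub (m : ℤ) : List (List ℤ) → List (List ℤ)
  | [] => []
  | row :: rows => (match row with
    | [] => []
    | a :: b => (a - m) :: b) :: dsub m rows

/-- the check -/
def psd : ℕ → List (List ℤ) → Bool
  | 0, rows => rows.isEmpty
  | _ + 1, [] => true
  | n + 1, row :: rows =>
    match row with
    | [] => false
    | a :: b => decide (0 < a) && psd n (dsub rows.length (elim a b rows))

theorem sabsr_nonneg (x : List ℝ) : 0 ≤ sabsr x := by
  induction x with
  | nil => simp [sabsr]
  | cons a l ih => simp only [sabsr]; positivity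

theorem ssq_nonneg (x : List ℝ) : 0 ≤ ssq x := by
  induction x with
  | nil => simp [ssq]
  | cons a l ih => simp only [ssq]; positivity

theorem sabsr_sq_le (x : List ℝ) : sabsr x ^ 2 ≤ x.length * ssq x := by
  induction x with
  | nil => simp [sabsr, ssq]
  | cons a l ih =>
    simp only [sabsr, ssq, List.length_cons]
    push_cast
    have h1 := ssq_nonneg l
    have h2 := sabsr_nonneg l
    have h3 : 2 * (|a| * sabsr l) ≤ l.length * a ^ 2 + ssq l := by
      rcases Nat.eq_zero_or_pos l.length with h | h
      · have : l = [] := List.length_eq_zero_iff.1 h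
        subst this
        simp [sabsr, ssq]
      · have hn : (0 : ℝ) < l.length := by exact_mod_cast h
        have h4 : 0 ≤ (l.length * |a| - sabsr l) ^ 2 := sq_nonneg _
        have h5 : |a| ^ 2 = a ^ 2 := sq_abs a
        have h7 : (l.length * |a|) ^ 2 = (l.length : ℝ) ^ 2 * a ^ 2 := by rw [mul_pow, sq_abs]
        have h6 : l.length * (2 * (|a| * sabsr l)) ≤ l.length * (l.length * a ^ 2 + ssq l) := by
          have e : ((l.length : ℝ) * |a| - sabsr l) ^ 2
              = (l.length * |a|) ^ 2 - 2 * (l.length * (|a| * sabsr l)) + sabsr l ^ 2 := by ring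
          rw [e, h7] at h4
          linarith
        exact le_of_mul_le_mul_left h6 hn
    have h5 : |a| ^ 2 = a ^ 2 := sq_abs a
    nlinarith

theorem erow_dot (a bi : ℤ) (ha : 0 < a) (bt r : List ℤ) (xs : List ℝ) (hl : bt.length = r.length) :
    |dotl (r.map (fun z : ℤ => (z : ℝ))) xs - bi * dotl (bt.map (fun z : ℤ => (z : ℝ))) xs / a
      - dotl ((erow a bi bt r).map (fun z : ℤ => (z : ℝ))) xs| ≤ sabsr xs := by
  have ha' : (0 : ℝ) < a := by exact_mod_cast ha
  induction r generalizing bt xs with
  | nil =>
    have : bt = [] := List.length_eq_zero_iff.1 (by simpa using hl)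
    subst this
    simp [erow, dotl, sabsr_nonneg]
  | cons c r ih =>
    rcases bt with _ | ⟨b, bt⟩
    · simp at hl
    · rcases xs with _ | ⟨x, xs⟩
      · simp [erow, dotl, sabsr]
      · have hl' : bt.length = r.length := by simpa using hl
        have h1 := ih bt xs hl'
        simp only [erow] at h1
        simp only [erow, List.zipWith_cons_cons, List.map_cons, dotl, sabsr]
        have h2 : |((c : ℤ) : ℝ) - bi * b / a - ((c - bi * b / a : ℤ) : ℝ)| ≤ 1 := by
          have h3 := Int.mul_ediv_add_emod (bi * b) a
          have h4 := Int.emod_nonneg (bi * b) ha.ne'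
          have h5 := Int.emod_lt_of_pos (bi * b) ha
          have h6 : (a : ℝ) * ((bi * b / a : ℤ) : ℝ) + ((bi * b % a : ℤ) : ℝ) = bi * b := by
            exact_mod_cast h3
          have h7 : (0 : ℝ) ≤ ((bi * b % a : ℤ) : ℝ) := by exact_mod_cast h4
          have h8 : ((bi * b % a : ℤ) : ℝ) ≤ a := by exact_mod_cast h5.le
          have h9 : ((c : ℤ) : ℝ) - bi * b / a - ((c - bi * b / a : ℤ) : ℝ)
              = -(((bi * b % a : ℤ) : ℝ) / a) := by
            rw [Int.cast_sub]
            field_simp
            linarith
          rw [h9, abs_neg, abs_of_nonneg (by positivity), div_le_one ha']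
          exact h8
        set A := dotl (r.map (fun z : ℤ => (z : ℝ))) xs
        set B := dotl (bt.map (fun z : ℤ => (z : ℝ))) xs
        set C := dotl ((List.zipWith (fun c b => c - bi * b / a) r bt).map (fun z : ℤ => (z : ℝ))) xs
        have e : (c : ℝ) * x + A - bi * (b * x + B) / a - (((c - bi * b / a : ℤ) : ℝ) * x + C)
            = ((c : ℝ) - bi * b / a - ((c - bi * b / a : ℤ) : ℝ)) * x + (A - bi * B / a - C) := by
          ring
        rw [e]
        refine (abs_add_le _ _).trans (add_le_add ?_ h1)
        rw [abs_mul]
        have := abs_nonneg x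
        nlinarith

theorem elim_bound (a : ℤ) (ha : 0 < a) (b : List ℤ) (rows : List (List ℤ)) (xs : List ℝ)
    (hs : shape rows = true) (hb : b.length = rows.length) :
    |qf (castM rows) xs - dotl (b.map (fun z : ℤ => (z : ℝ))) xs ^ 2 / a - qf (castM (elim a b rows)) xs|
      ≤ sabsr xs ^ 2 := by
  have ha' : (0 : ℝ) < a := by exact_mod_cast ha
  induction rows generalizing b xs with
  | nil =>
    have : b = [] := List.length_eq_zero_iff.1 (by simpa using hb)
    subst this
    simp only [castM, List.map_nil, qf, dotl, elim]
    simp
    positivity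
  | cons row rows ih =>
    rcases b with _ | ⟨bi, bt⟩
    · simp at hb
    · simp only [shape, Bool.and_eq_true, decide_eq_true_eq] at hs
      have hb' : bt.length = rows.length := by simpa using hb
      rcases row with _ | ⟨c, r⟩
      · simp at hs
      · have hr : r.length = rows.length := by simpa using hs.1
        rcases xs with _ | ⟨x, xs⟩
        · simp [castM, qf, dotl, elim, sabsr]
        · have h1 := ih bt xs hs.2 hb'
          have h2 := erow_dot a bi ha (bi :: bt) (c :: r) (x :: xs) (by simp [hb', hr])
          have h3 := erow_dot a bi ha bt r xs (by rw [hb', hr])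
          simp only [castM, List.map_cons, qf, rowv, elim, erow, List.zipWith_cons_cons, dotl,
            sabsr] at h1 h3 ⊢
          have h4 : |((c : ℤ) : ℝ) - bi * bi / a - ((c - bi * bi / a : ℤ) : ℝ)| ≤ 1 := by
            have h3 := Int.mul_ediv_add_emod (bi * bi) a
            have h4 := Int.emod_nonneg (bi * bi) ha.ne'
            have h5 := Int.emod_lt_of_pos (bi * bi) ha
            have h6 : (a : ℝ) * ((bi * bi / a : ℤ) : ℝ) + ((bi * bi % a : ℤ) : ℝ) = bi * bi := by
              exact_mod_cast h3
            have h7 : (0 : ℝ) ≤ ((bi * bi % a : ℤ) : ℝ) := by exact_mod_cast h4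
            have h8 : ((bi * bi % a : ℤ) : ℝ) ≤ a := by exact_mod_cast h5.le
            have h9 : ((c : ℤ) : ℝ) - bi * bi / a - ((c - bi * bi / a : ℤ) : ℝ)
                = -(((bi * bi % a : ℤ) : ℝ) / a) := by
              rw [Int.cast_sub]
              field_simp
              linarith
            rw [h9, abs_neg, abs_of_nonneg (by positivity), div_le_one ha']
            exact h8
          set A := dotl (r.map (fun z : ℤ => (z : ℝ))) xs
          set B := dotl (bt.map (fun z : ℤ => (z : ℝ))) xs
          set C := dotl ((List.zipWith (fun c b => c - bi * b / a) r bt).map (fun z : ℤ => (z : ℝ))) xs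
          set Q := qf (List.map (List.map fun z : ℤ => (z : ℝ)) rows) xs
          set Q' := qf (List.map (List.map fun z : ℤ => (z : ℝ)) (elim a bt rows)) xs
          have e : (c : ℝ) * x ^ 2 + 2 * x * A + Q - (bi * x + B) ^ 2 / a
              - (((c - bi * bi / a : ℤ) : ℝ) * x ^ 2 + 2 * x * C + Q')
              = ((c : ℝ) - bi * bi / a - ((c - bi * bi / a : ℤ) : ℝ)) * x ^ 2
                + (2 * x) * (A - bi * B / a - C) + (Q - B ^ 2 / a - Q') := by
            ring
          rw [e]
          have h5 : |((c : ℝ) - bi * bi / a - ((c - bi * bi / a : ℤ) : ℝ)) * x ^ 2| ≤ |x| ^ 2 := by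
            rw [abs_mul, abs_of_nonneg (sq_nonneg x), sq_abs]
            have := sq_nonneg x
            nlinarith
          have h6 : |(2 * x) * (A - bi * B / a - C)| ≤ 2 * |x| * sabsr xs := by
            rw [abs_mul, abs_mul, abs_two]
            exact mul_le_mul_of_nonneg_left h3 (by positivity)
          calc _ ≤ |((c : ℝ) - bi * bi / a - ((c - bi * bi / a : ℤ) : ℝ)) * x ^ 2|
                + |(2 * x) * (A - bi * B / a - C)| + |Q - B ^ 2 / a - Q'| := abs_add_three _ _ _
            _ ≤ |x| ^ 2 + 2 * |x| * sabsr xs + sabsr xs ^ 2 := by linarith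
            _ = (|x| + sabsr xs) ^ 2 := by ring

theorem shape_dsub (m : ℤ) (M : List (List ℤ)) (h : shape M = true) : shape (dsub m M) = true
    ∧ (dsub m M).length = M.length := by
  induction M with
  | nil => simp [dsub, shape]
  | cons row rows ih =>
    simp only [shape, Bool.and_eq_true, decide_eq_true_eq] at h
    obtain ⟨i1, i2⟩ := ih h.2
    rcases row with _ | ⟨a, b⟩
    · simp at h
    · have : b.length = rows.length := by simpa using h.1
      simp [dsub, shape, i1, i2, this]

theorem shape_elim (a : ℤ) (b : List ℤ) (M : List (List ℤ)) (h : shape M = true)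
    (hb : b.length = M.length) : shape (elim a b M) = true ∧ (elim a b M).length = M.length := by
  induction M generalizing b with
  | nil =>
    have : b = [] := List.length_eq_zero_iff.1 (by simpa using hb)
    subst this
    simp [elim, shape]
  | cons row rows ih =>
    rcases b with _ | ⟨bi, bt⟩
    · simp at hb
    · simp only [shape, Bool.and_eq_true, decide_eq_true_eq] at h
      have hb' : bt.length = rows.length := by simpa using hb
      obtain ⟨i1, i2⟩ := ih bt h.2 hb'
      simp [elim, shape, erow, i1, i2, h.1, hb']

theorem qf_dsub (m : ℤ) (M : List (List ℤ)) (xs : List ℝ) (h : shape M = true)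
    (hx : xs.length = M.length) :
    qf (castM (dsub m M)) xs = qf (castM M) xs - m * ssq xs := by
  induction M generalizing xs with
  | nil =>
    have : xs = [] := List.length_eq_zero_iff.1 (by simpa using hx)
    subst this
    simp [dsub, castM, qf, ssq]
  | cons row rows ih =>
    rcases xs with _ | ⟨x, xs⟩
    · simp at hx
    · simp only [shape, Bool.and_eq_true, decide_eq_true_eq] at h
      have hx' : xs.length = rows.length := by simpa using hx
      have i1 := ih xs h.2 hx'
      rcases row with _ | ⟨a, b⟩
      · simp at h
      · simp only [dsub, castM, List.map_cons, qf, rowv, ssq] at i1 ⊢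
        rw [i1]
        push_cast
        ring

theorem psd_sound (n : ℕ) (M : List (List ℤ)) (h : psd n M = true) (hs : shape M = true)
    (xs : List ℝ) (hx : xs.length = M.length) : 0 ≤ qf (castM M) xs := by
  induction n generalizing M xs with
  | zero =>
    simp only [psd, List.isEmpty_iff] at h
    subst h
    simp [castM, qf]
  | succ n ih =>
    rcases M with _ | ⟨row, rows⟩
    · simp [castM, qf]
    · rcases row with _ | ⟨a, b⟩
      · simp [psd] at h
      · simp only [psd, Bool.and_eq_true, decide_eq_true_eq] at h
        simp only [shape, Bool.and_eq_true, decide_eq_true_eq] at hs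
        have hb : b.length = rows.length := by simpa using hs.1
        rcases xs with _ | ⟨x, xs⟩
        · simp at hx
        · have hx' : xs.length = rows.length := by simpa using hx
          obtain ⟨s1, s2⟩ := shape_elim a b rows hs.2 hb
          obtain ⟨s3, s4⟩ := shape_dsub rows.length (elim a b rows) s1
          have h1 := ih _ h.2 s3 xs (by rw [s4, s2, hx'])
          rw [qf_dsub _ _ _ s1 (by rw [s2, hx'])] at h1
          have h2 := elim_bound a h.1 b rows xs hs.2 hb
          have h3 := (abs_le.1 h2).1
          have h4 := sabsr_sq_le xs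
          rw [hx'] at h4
          have ha' : (0 : ℝ) < a := by exact_mod_cast h.1
          have e : qf (castM ((a :: b) :: rows)) (x :: xs)
              = a * (x + dotl (b.map (fun z : ℤ => (z : ℝ))) xs / a) ^ 2
                + (qf (castM rows) xs - dotl (b.map (fun z : ℤ => (z : ℝ))) xs ^ 2 / a) := by
            simp only [castM, List.map_cons, qf, rowv]
            field_simp
            ring
          rw [e]
          have h5 : 0 ≤ a * (x + dotl (b.map (fun z : ℤ => (z : ℝ))) xs / a) ^ 2 := by positivity
          push_cast at h1
          linarith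

end Pool.Agent.H94.GP
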