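import Pool.Agent.H94.GP.CtA

/-!
# PtA: the pointwise form of the certificate in local coordinates
-/

set_option autoImplicit false

open MeasureTheory Pool.Agent.H94.ER Pool.Agent.H94.SP

namespace Pool.Agent.H94.GP

/-- coefficients of margin, centring and second moment terms -/
noncomputable def Ec (m c2 c6 c8 μ0 μ1 μ2 μ3 g s : ℝ) : Fin 16 → ℝ :=
  ![0, 0, -(g * c2), 0, -m - (2 - kap * (g ^ 2 * s)) * μ0, 0, -(g * c6), 0, -(g * c8), 0,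
    -m - (2 - kap * (g ^ 2 * s)) * μ1, 0, 2 * μ3 * (kap * g ^ 2), 0,
    -m - (2 - kap * (g ^ 2 * s)) * μ2, 0]

theorem qfun_eq (φ : ℝ → ℝ) (m c2 c6 c8 μ0 μ1 μ2 μ3 : ℝ) (F' φ' : ℝ) (x : E 2)
    (hF : HasDerivAt nFp F' (‖x‖ ^ 2)) (hφ : HasDerivAt φ φ' (‖x‖ ^ 2)) (σ : ℝ) (α p q : ℂ) :
    qfun φ m c2 c6 c8 μ0 μ1 μ2 μ3 σ α p q x
      = ∑ j, (Qj gam (‖x‖ ^ 2) (nFp (‖x‖ ^ 2)) F' (φ (‖x‖ ^ 2)) φ' j
          + Ec m c2 c6 c8 μ0 μ1 μ2 μ3 (gc (‖x‖ ^ 2)) (‖x‖ ^ 2) j) * hM (Cj σ α p q j) (kj j) x := by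
  have h1 := Qf_main gam nFp φ F' φ' x hF hφ σ α p q
  have h2 : ∑ j, Ec m c2 c6 c8 μ0 μ1 μ2 μ3 (gc (‖x‖ ^ 2)) (‖x‖ ^ 2) j * hM (Cj σ α p q j) (kj j) x
      = - m * (‖α‖ ^ 2 + ‖p‖ ^ 2 + ‖q‖ ^ 2)
    - gc (‖x‖ ^ 2) * (c2 * hM (Cj σ α p q 2) 1 x + c6 * hM (Cj σ α p q 6) 1 x + c8 * hM (Cj σ α p q 8) 1 x)
    - ((2 - kap * (gc (‖x‖ ^ 2) ^ 2 * ‖x‖ ^ 2)) * (μ0 * ‖α‖ ^ 2 + μ1 * ‖p‖ ^ 2 + μ2 * ‖q‖ ^ 2)
        - 2 * μ3 * (kap * (gc (‖x‖ ^ 2) ^ 2 * hM ((starRingEnd ℂ) p * q) 2 x))) := by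
    have n4 : hM (Cj σ α p q 4) (kj 4) x = ‖α‖ ^ 2 := by
      rw [← Complex.normSq_eq_norm_sq, Complex.normSq_apply]
      simp [hM, Cj, kj]
    have n10 : hM (Cj σ α p q 10) (kj 10) x = ‖p‖ ^ 2 := by
      rw [← Complex.normSq_eq_norm_sq, Complex.normSq_apply]
      simp [hM, Cj, kj]
    have n14 : hM (Cj σ α p q 14) (kj 14) x = ‖q‖ ^ 2 := by
      rw [← Complex.normSq_eq_norm_sq, Complex.normSq_apply]
      simp [hM, Cj, kj]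
    have n12 : hM (Cj σ α p q 12) (kj 12) x = hM ((starRingEnd ℂ) p * q) 2 x := by
      simp [Cj, kj]
    have n2 : kj 2 = 1 := rfl
    have n6 : kj 6 = 1 := rfl
    have n8 : kj 8 = 1 := rfl
    rw [sum16, n4, n10, n14, n12, n2, n6, n8]
    simp only [Ec, Fin.isValue, Matrix.cons_val, Matrix.cons_val_zero, Matrix.cons_val_one]
    ring
  simp only [add_mul]
  rw [Finset.sum_add_distrib, ← h1, h2]
  unfold qfun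
  ring

theorem pt_gen (φ : ℝ → ℝ) (m c2 c6 c8 μ0 μ1 μ2 μ3 : ℝ) (X A D : Fin 16 → ℝ → ℝ) (x : E 2)
    (hx : x ≠ 0) (X' A' D' : Fin 16 → ℝ) (hX : ∀ j, HasDerivAt (X j) (X' j) (‖x‖ ^ 2))
    (hA : ∀ j, HasDerivAt (A j) (A' j) (‖x‖ ^ 2)) (hD : ∀ j, HasDerivAt (D j) (D' j) (‖x‖ ^ 2))
    (F' φ' : ℝ) (hF : HasDerivAt nFp F' (‖x‖ ^ 2)) (hφ : HasDerivAt φ φ' (‖x‖ ^ 2))
    (σ : ℝ) (α p q : ℂ) (a : ℝ) (b : Fin 2 → ℝ) :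
    ∃ (ξ η : ℝ) (α' p' q' : ℂ), ‖α'‖ = ‖α‖ ∧ ‖p'‖ = ‖p‖ ∧ ‖q'‖ = ‖q‖ ∧
      a ^ 2 * (qfun φ m c2 c6 c8 μ0 μ1 μ2 μ3 σ α p q x
            - bz 2 * (∑ j, X j (‖x‖ ^ 2) * hM (Cj σ α p q j) (kj j) x)
            - ∑ i, pd i (fun y => (∑ j, fld (A j) (D j) (Cj σ α p q j) (kj j) y : E 2) i) x)
          - 2 * a * (∑ i, b i * ((∑ j, fld (A j) (D j) (Cj σ α p q j) (kj j) x : E 2) i
            - 1 / 2 * pd i (fun y : E 2 => ∑ j, X j (‖y‖ ^ 2) * hM (Cj σ α p q j) (kj j) y) x))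
          + (∑ i, b i ^ 2) * (∑ j, X j (‖x‖ ^ 2) * hM (Cj σ α p q j) (kj j) x)
      = floc (fun j => (Qj gam (‖x‖ ^ 2) (nFp (‖x‖ ^ 2)) F' (φ (‖x‖ ^ 2)) φ' j
            + Ec m c2 c6 c8 μ0 μ1 μ2 μ3 (gc (‖x‖ ^ 2)) (‖x‖ ^ 2) j - bz 2 * X j (‖x‖ ^ 2)
            - (2 * kj j * A' j + 2 * ‖x‖ ^ 2 * D' j + (kj j + 2) * D j (‖x‖ ^ 2))) * ‖x‖ ^ kj j)
          (fun j => (kj j * A j (‖x‖ ^ 2) + ‖x‖ ^ 2 * D j (‖x‖ ^ 2) - ‖x‖ ^ 2 * X' j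
            - 1 / 2 * kj j * X j (‖x‖ ^ 2)) * ‖x‖ ^ kj j / ‖x‖)
          (fun j => kj j * (A j (‖x‖ ^ 2) - 1 / 2 * X j (‖x‖ ^ 2)) * ‖x‖ ^ kj j / ‖x‖)
          (fun j => X j (‖x‖ ^ 2) * ‖x‖ ^ kj j) a ξ η σ α' p' q' := by
  obtain ⟨ξ, η, α', p', q', n1, n2, n3, h⟩ := frame x hx σ α p q
    (fun j => Qj gam (‖x‖ ^ 2) (nFp (‖x‖ ^ 2)) F' (φ (‖x‖ ^ 2)) φ' j
            + Ec m c2 c6 c8 μ0 μ1 μ2 μ3 (gc (‖x‖ ^ 2)) (‖x‖ ^ 2) j - bz 2 * X j (‖x‖ ^ 2)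
            - (2 * kj j * A' j + 2 * ‖x‖ ^ 2 * D' j + (kj j + 2) * D j (‖x‖ ^ 2)))
    (fun j => A j (‖x‖ ^ 2)) (fun j => D j (‖x‖ ^ 2)) (fun j => X j (‖x‖ ^ 2)) X' a b
  refine ⟨ξ, η, α', p', q', n1, n2, n3, ?_⟩
  rw [← h]
  -- divergence
  have hdiv : ∑ i, pd i (fun y => (∑ j, fld (A j) (D j) (Cj σ α p q j) (kj j) y : E 2) i) x
      = ∑ j, (2 * kj j * A' j + 2 * ‖x‖ ^ 2 * D' j + (kj j + 2) * D j (‖x‖ ^ 2))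
        * hM (Cj σ α p q j) (kj j) x := by
    have e1 : ∀ i, pd i (fun y => (∑ j, fld (A j) (D j) (Cj σ α p q j) (kj j) y : E 2) i) x
        = ∑ j, pd i (fun y => fld (A j) (D j) (Cj σ α p q j) (kj j) y i) x := by
      intro i
      have e2 : (fun y => (∑ j, fld (A j) (D j) (Cj σ α p q j) (kj j) y : E 2) i)
          = fun y => ∑ j, fld (A j) (D j) (Cj σ α p q j) (kj j) y i := by
        funext y
        simp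
      rw [e2]
      exact pd_sum Finset.univ i (fun j y => fld (A j) (D j) (Cj σ α p q j) (kj j) y i) x
        fun j _ => fld_differentiable _ _ _ _ _ _ x (hA j) (hD j) i
    simp only [e1]
    rw [Finset.sum_comm]
    exact Finset.sum_congr rfl fun j _ => fld_div _ _ _ _ _ _ x (hA j) (hD j)
  have hg0 : pd 0 (fun y : E 2 => ∑ j, X j (‖y‖ ^ 2) * hM (Cj σ α p q j) (kj j) y) x
      = ∑ j, (X j (‖x‖ ^ 2) * (kj j * hM (Cj σ α p q j) (kj j - 1) x)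
        + 2 * X' j * x 0 * hM (Cj σ α p q j) (kj j) x) := by
    rw [pd_sum Finset.univ 0 (fun j y => X j (‖y‖ ^ 2) * hM (Cj σ α p q j) (kj j) y) x
      fun j _ => (differentiableAt_rad _ _ x (hX j)).mul (differentiable_hM _ _ x)]
    exact Finset.sum_congr rfl fun j _ => pd0_term _ _ _ _ x (hX j)
  have hg1 : pd 1 (fun y : E 2 => ∑ j, X j (‖y‖ ^ 2) * hM (Cj σ α p q j) (kj j) y) x
      = ∑ j, (X j (‖x‖ ^ 2) * (kj j * hN (Cj σ α p q j) (kj j - 1) x)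
        + 2 * X' j * x 1 * hM (Cj σ α p q j) (kj j) x) := by
    rw [pd_sum Finset.univ 1 (fun j y => X j (‖y‖ ^ 2) * hM (Cj σ α p q j) (kj j) y) x
      fun j _ => (differentiableAt_rad _ _ x (hX j)).mul (differentiable_hM _ _ x)]
    exact Finset.sum_congr rfl fun j _ => pd1_term _ _ _ _ x (hX j)
  have hv0 : (∑ j, fld (A j) (D j) (Cj σ α p q j) (kj j) x : E 2) 0
      = ∑ j, (A j (‖x‖ ^ 2) * (kj j * hM (Cj σ α p q j) (kj j - 1) x)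
        + D j (‖x‖ ^ 2) * hM (Cj σ α p q j) (kj j) x * x 0) := by
    have : (∑ j, fld (A j) (D j) (Cj σ α p q j) (kj j) x : E 2) 0
        = ∑ j, fld (A j) (D j) (Cj σ α p q j) (kj j) x 0 := by simp
    rw [this]
    exact Finset.sum_congr rfl fun j _ => fld_0 _ _ _ _ x
  have hv1 : (∑ j, fld (A j) (D j) (Cj σ α p q j) (kj j) x : E 2) 1
      = ∑ j, (A j (‖x‖ ^ 2) * (kj j * hN (Cj σ α p q j) (kj j - 1) x)
        + D j (‖x‖ ^ 2) * hM (Cj σ α p q j) (kj j) x * x 1) := by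
    have : (∑ j, fld (A j) (D j) (Cj σ α p q j) (kj j) x : E 2) 1
        = ∑ j, fld (A j) (D j) (Cj σ α p q j) (kj j) x 1 := by simp
    rw [this]
    exact Finset.sum_congr rfl fun j _ => fld_1 _ _ _ _ x
  rw [Fin.sum_univ_two (f := fun i => b i * _), hdiv, hg0, hg1, hv0, hv1, qfun_eq φ m c2 c6 c8 μ0 μ1 μ2 μ3 F' φ' x hF hφ σ α p q,
    Fin.sum_univ_two (f := fun i => b i ^ 2), Finset.mul_sum (a := bz 2), ← Finset.sum_sub_distrib,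
    ← Finset.sum_sub_distrib]
  congr 3
  refine Finset.sum_congr rfl fun j _ => ?_
  ring

end Pool.Agent.H94.GP
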