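import Pool.Agent.H94.GP.PtA
import Pool.Agent.H94.ER.PrC

/-!
# PtB: change of variables in the local form

`floc_shift`: `ξ = ξ' + g a`; `floc_scale`: `ξ, η` multiplied by `w`; `floc_rho`: the field `V = Z + (∇u0/u0) Ψ` inside the disk.
-/

set_option autoImplicit false

open MeasureTheory Pool.Agent.H94.ER Pool.Agent.H94.SP

namespace Pool.Agent.H94.GP

theorem floc_shift (T R S X : Fin 16 → ℝ) (a ξ η σ : ℝ) (α p q : ℂ) (g : ℝ) :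
    floc T R S X a (ξ + g * a) η σ α p q
      = floc (fun j => T j - 2 * g * R j + g ^ 2 * X j) (fun j => R j - g * X j) S X a ξ η σ α p q := by
  unfold floc
  refine Finset.sum_congr rfl fun j _ => ?_
  ring

theorem floc_scale (T R S X : Fin 16 → ℝ) (a ξ η σ : ℝ) (α p q : ℂ) (w : ℝ) :
    floc T R S X a (w * ξ) (w * η) σ α p q
      = floc T (fun j => w * R j) (fun j => w * S j) (fun j => w ^ 2 * X j) a ξ η σ α p q := by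
  unfold floc
  refine Finset.sum_congr rfl fun j _ => ?_
  ring

theorem floc_congr (T R S X T' R' S' X' : Fin 16 → ℝ) (a ξ η σ : ℝ) (α p q : ℂ) (hT : ∀ j, T j = T' j)
    (hR : ∀ j, R j = R' j) (hS : ∀ j, S j = S' j) (hX : ∀ j, X j = X' j) :
    floc T R S X a ξ η σ α p q = floc T' R' S' X' a ξ η σ α p q := by
  rw [funext hT, funext hR, funext hS, funext hX]

/-- the inside form with `V = Z + (∇u0/u0) Ψ` -/
theorem floc_rho (Q X X' A A' Z Z' : Fin 16 → ℝ) (r g lam a ξ η σ : ℝ) (α p q : ℂ) (hr : r ≠ 0) :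
    floc (fun j => (Q j - lam * X j
            - (2 * kj j * A' j + 2 * r ^ 2 * (Z' j + 2 * ((-(4 * g + lam) / (4 * r ^ 2) - g ^ 2) * X j + g * X' j))
              + (kj j + 2) * (Z j + 2 * g * X j))) * r ^ kj j)
          (fun j => (kj j * A j + r ^ 2 * (Z j + 2 * g * X j) - r ^ 2 * X' j
            - 1 / 2 * kj j * X j) * r ^ kj j / r)
          (fun j => kj j * (A j - 1 / 2 * X j) * r ^ kj j / r)
          (fun j => X j * r ^ kj j) a ξ η σ α p q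
      = floc (fun j => (Q j - (2 * kj j * A' j + 2 * r ^ 2 * Z' j + (kj j + 2) * Z j)
            - 4 * g * (kj j * A j + r ^ 2 * Z j)) * r ^ kj j)
          (fun j => (kj j * A j + r ^ 2 * Z j - r ^ 2 * X' j - 1 / 2 * kj j * X j) * r ^ kj j / r)
          (fun j => kj j * (A j - 1 / 2 * X j) * r ^ kj j / r)
          (fun j => X j * r ^ kj j) a (ξ - 2 * r * g * a) η σ α p q := by
  have e : ξ = (ξ - 2 * r * g * a) + (2 * r * g) * a := by ring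
  conv_lhs => rw [e, floc_shift]
  refine floc_congr _ _ _ _ _ _ _ _ _ _ _ _ _ _ _ (fun j => ?_) (fun j => ?_) (fun j => rfl)
    (fun j => rfl)
  · field_simp
    ring
  · field_simp
    ring

theorem g1_hasDerivAt (s : ℝ) (h0 : 0 < s) (h1 : s < 1) :
    HasDerivAt g1 (-(4 * g1 s + bz 2) / (4 * s) - g1 s ^ 2) s := by
  obtain ⟨u2, hu2, eu2⟩ := hasDerivAt_uder 2 le_rfl s
  have hU : HasDerivAt (fun t => bj 2 (bz 2 * t)) (uder 2 s) s := by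
    have := hasDerivAt_U 2 le_rfl s
    simpa using this
  have hUp : 0 < bj 2 (bz 2 * s) := by
    rw [uh_mul 2 le_rfl]
    exact mul_pos (by linarith) (uh_pos 2 le_rfl s h1.le)
  have h := hu2.div hU hUp.ne'
  have e : g1 = fun s => uder 2 s / bj 2 (bz 2 * s) := rfl
  have e2 : (fun s => uder 2 s / bj 2 (bz 2 * s)) = (uder 2 / fun t => bj 2 (bz 2 * t)) := rfl
  rw [e2] at e
  rw [e]
  refine h.congr_deriv ?_
  norm_num at eu2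
  have hu2' : u2 = -(4 * uder 2 s + bz 2 * bj 2 (bz 2 * s)) / (4 * s) := by
    rw [eq_div_iff (by positivity)]
    linarith
  simp only [Pi.div_apply]
  rw [hu2']
  field_simp

/-- the inside form, `V = ∑ fld (A j) (Z j + 2 g1 X j)` -/
theorem pt_rho (φ : ℝ → ℝ) (m c2 c6 c8 μ0 μ1 μ2 μ3 : ℝ) (X A D Z : Fin 16 → ℝ → ℝ) (x : E 2)
    (hx : x ≠ 0) (hx1 : ‖x‖ < 1) (X' A' Z' : Fin 16 → ℝ)
    (hX : ∀ j, HasDerivAt (X j) (X' j) (‖x‖ ^ 2))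
    (hA : ∀ j, HasDerivAt (A j) (A' j) (‖x‖ ^ 2)) (hZ : ∀ j, HasDerivAt (Z j) (Z' j) (‖x‖ ^ 2))
    (hD : ∀ j, D j =ᶠ[nhds (‖x‖ ^ 2)] fun s => Z j s + 2 * (g1 s * X j s))
    (F' φ' : ℝ) (hF : HasDerivAt nFp F' (‖x‖ ^ 2)) (hφ : HasDerivAt φ φ' (‖x‖ ^ 2))
    (σ : ℝ) (α p q : ℂ) (a : ℝ) (b : Fin 2 → ℝ) :
    ∃ (ξ η : ℝ) (α' p' q' : ℂ), ‖α'‖ = ‖α‖ ∧ ‖p'‖ = ‖p‖ ∧ ‖q'‖ = ‖q‖ ∧
      a ^ 2 * (qfun φ m c2 c6 c8 μ0 μ1 μ2 μ3 σ α p q x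
            - bz 2 * (∑ j, X j (‖x‖ ^ 2) * hM (Cj σ α p q j) (kj j) x)
            - ∑ i, pd i (fun y => (∑ j, fld (A j) (D j) (Cj σ α p q j) (kj j) y : E 2) i) x)
          - 2 * a * (∑ i, b i * ((∑ j, fld (A j) (D j) (Cj σ α p q j) (kj j) x : E 2) i
            - 1 / 2 * pd i (fun y : E 2 => ∑ j, X j (‖y‖ ^ 2) * hM (Cj σ α p q j) (kj j) y) x))
          + (∑ i, b i ^ 2) * (∑ j, X j (‖x‖ ^ 2) * hM (Cj σ α p q j) (kj j) x)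
      = floc (fun j => ((Qj gam (‖x‖ ^ 2) (nFp (‖x‖ ^ 2)) F' (φ (‖x‖ ^ 2)) φ' j
            + Ec m c2 c6 c8 μ0 μ1 μ2 μ3 (gc (‖x‖ ^ 2)) (‖x‖ ^ 2) j)
            - (2 * kj j * A' j + 2 * ‖x‖ ^ 2 * Z' j + (kj j + 2) * Z j (‖x‖ ^ 2))
            - 4 * g1 (‖x‖ ^ 2) * (kj j * A j (‖x‖ ^ 2) + ‖x‖ ^ 2 * Z j (‖x‖ ^ 2))) * ‖x‖ ^ kj j)
          (fun j => (kj j * A j (‖x‖ ^ 2) + ‖x‖ ^ 2 * Z j (‖x‖ ^ 2) - ‖x‖ ^ 2 * X' j
            - 1 / 2 * kj j * X j (‖x‖ ^ 2)) * ‖x‖ ^ kj j / ‖x‖)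
          (fun j => kj j * (A j (‖x‖ ^ 2) - 1 / 2 * X j (‖x‖ ^ 2)) * ‖x‖ ^ kj j / ‖x‖)
          (fun j => X j (‖x‖ ^ 2) * ‖x‖ ^ kj j) a ξ η σ α' p' q' := by
  have hr : 0 < ‖x‖ := norm_pos_iff.2 hx
  have hs0 : 0 < ‖x‖ ^ 2 := by positivity
  have hs1 : ‖x‖ ^ 2 < 1 := by nlinarith
  have hg := g1_hasDerivAt (‖x‖ ^ 2) hs0 hs1
  have hD' : ∀ j, HasDerivAt (D j) (Z' j + 2 * ((-(4 * g1 (‖x‖ ^ 2) + bz 2) / (4 * ‖x‖ ^ 2)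
      - g1 (‖x‖ ^ 2) ^ 2) * X j (‖x‖ ^ 2) + g1 (‖x‖ ^ 2) * X' j)) (‖x‖ ^ 2) := by
    intro j
    exact ((hZ j).add ((hg.mul (hX j)).const_mul 2)).congr_of_eventuallyEq (hD j)
  have hDv : ∀ j, D j (‖x‖ ^ 2) = Z j (‖x‖ ^ 2) + 2 * g1 (‖x‖ ^ 2) * X j (‖x‖ ^ 2) := by
    intro j
    rw [(hD j).eq_of_nhds]
    ring
  obtain ⟨ξ, η, α', p', q', n1, n2, n3, h⟩ := pt_gen φ m c2 c6 c8 μ0 μ1 μ2 μ3 X A D x hx X' A' _ hX
    hA hD' F' φ' hF hφ σ α p q a b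
  refine ⟨ξ - 2 * ‖x‖ * g1 (‖x‖ ^ 2) * a, η, α', p', q', n1, n2, n3, ?_⟩
  rw [h, ← floc_rho _ (fun j => X j (‖x‖ ^ 2)) X' (fun j => A j (‖x‖ ^ 2)) A'
    (fun j => Z j (‖x‖ ^ 2)) Z' ‖x‖ (g1 (‖x‖ ^ 2)) (bz 2) a ξ η σ α' p' q' hr.ne']
  refine floc_congr _ _ _ _ _ _ _ _ _ _ _ _ _ _ _ (fun j => ?_) (fun j => ?_) (fun j => rfl)
    (fun j => rfl)
  · rw [hDv j]
  · rw [hDv j]

end Pool.Agent.H94.GP
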