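import Pool.Agent.H94.GP.Frm

/-!
# Qf: `γ |W|^2 - |∇W|^2` for `W = σ F(s) z^2 + α + φ(s) (p z + q zb)` in the sixteen harmonics
-/

set_option autoImplicit false

open Pool.Agent.H94.ER

namespace Pool.Agent.H94.GP

/-- real part of `W` -/
noncomputable def Wre (F φ : ℝ → ℝ) (σ : ℝ) (α p q : ℂ) (x : E 2) : ℝ :=
  σ * (F (‖x‖ ^ 2) * (x 0 ^ 2 - x 1 ^ 2)) + α.re + (p.re + q.re) * tf φ 0 x + (q.im - p.im) * tf φ 1 x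

/-- imaginary part of `W` -/
noncomputable def Wim (F φ : ℝ → ℝ) (σ : ℝ) (α p q : ℂ) (x : E 2) : ℝ :=
  σ * (F (‖x‖ ^ 2) * (2 * x 0 * x 1)) + α.im + (p.im + q.im) * tf φ 0 x + (p.re - q.re) * tf φ 1 x

/-- coefficients of the form -/
noncomputable def Qj (γ s F F' φ φ' : ℝ) : Fin 16 → ℝ :=
  ![γ * s ^ 2 * F ^ 2 - 4 * s * (F + s * F') ^ 2 - 4 * s * F ^ 2, 2 * γ * F,
    2 * γ * s * F * φ - 4 * (F + s * F') * (φ + 2 * s * φ') - 4 * F * φ,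
    2 * γ * F * φ - 4 * F' * φ - 8 * (F + s * F') * φ', γ, 0, 2 * γ * φ, 0, 2 * γ * φ, 0,
    γ * s * φ ^ 2 - (φ + 2 * s * φ') ^ 2 - φ ^ 2, 0, 2 * γ * φ ^ 2 - 8 * φ * φ' - 8 * s * φ' ^ 2, 0,
    γ * s * φ ^ 2 - (φ + 2 * s * φ') ^ 2 - φ ^ 2, 0]

/-- gradient of a function `c (F(s) P) + d + e φ(s) x_0 + g φ(s) x_1`, `P` polynomial -/
theorem Qf_pd (F φ : ℝ → ℝ) (F' φ' : ℝ) (x : E 2) (hF : HasDerivAt F F' (‖x‖ ^ 2))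
    (hφ : HasDerivAt φ φ' (‖x‖ ^ 2)) (P : E 2 → ℝ) (hP : DifferentiableAt ℝ P x) (c d e g : ℝ)
    (i : Fin 2) :
    pd i (fun y : E 2 => c * (F (‖y‖ ^ 2) * P y) + d + e * tf φ 0 y + g * tf φ 1 y) x
      = c * (F (‖x‖ ^ 2) * pd i P x + 2 * F' * x i * P x)
        + e * (φ (‖x‖ ^ 2) * (if i = 0 then 1 else 0) + 2 * φ' * x i * x 0)
        + g * (φ (‖x‖ ^ 2) * (if i = 1 then 1 else 0) + 2 * φ' * x i * x 1) := by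
  have dF := differentiableAt_rad F F' x hF
  have dφ := differentiableAt_rad φ φ' x hφ
  have d0 : DifferentiableAt ℝ (fun y : E 2 => tf φ 0 y) x := dφ.mul (differentiable_coord 0 x)
  have d1 : DifferentiableAt ℝ (fun y : E 2 => tf φ 1 y) x := dφ.mul (differentiable_coord 1 x)
  have dFP : DifferentiableAt ℝ (fun y : E 2 => F (‖y‖ ^ 2) * P y) x := dF.mul hP
  have e0 : pd i (fun y : E 2 => tf φ 0 y) x
      = φ (‖x‖ ^ 2) * (if i = 0 then 1 else 0) + 2 * φ' * x i * x 0 := by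
    have h := pd_mul i (fun y : E 2 => φ (‖y‖ ^ 2)) (fun y : E 2 => y 0) x dφ (differentiable_coord 0 x)
    rw [pd_rad φ φ' x hφ, HmA_coord] at h
    exact h
  have e1 : pd i (fun y : E 2 => tf φ 1 y) x
      = φ (‖x‖ ^ 2) * (if i = 1 then 1 else 0) + 2 * φ' * x i * x 1 := by
    have h := pd_mul i (fun y : E 2 => φ (‖y‖ ^ 2)) (fun y : E 2 => y 1) x dφ (differentiable_coord 1 x)
    rw [pd_rad φ φ' x hφ, HmA_coord] at h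
    exact h
  have e2 : pd i (fun y : E 2 => F (‖y‖ ^ 2) * P y) x = F (‖x‖ ^ 2) * pd i P x + 2 * F' * x i * P x := by
    have h := pd_mul i (fun y : E 2 => F (‖y‖ ^ 2)) P x dF hP
    rw [pd_rad F F' x hF] at h
    exact h
  have a1 := pd_add i (fun y : E 2 => c * (F (‖y‖ ^ 2) * P y) + d + e * tf φ 0 y)
    (fun y : E 2 => g * tf φ 1 y) x (((dFP.const_mul c).add_const d).add (d0.const_mul e))
    (d1.const_mul g)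
  have a2 := pd_add i (fun y : E 2 => c * (F (‖y‖ ^ 2) * P y) + d)
    (fun y : E 2 => e * tf φ 0 y) x ((dFP.const_mul c).add_const d) (d0.const_mul e)
  have a3 := pd_add i (fun y : E 2 => c * (F (‖y‖ ^ 2) * P y))
    (fun _ : E 2 => d) x (dFP.const_mul c) (differentiableAt_const d)
  rw [a1, a2, a3, pd_const_mul, pd_const_mul, pd_const_mul, e0, e1, e2, pd_const]
  ring

theorem Qf_P1 (x : E 2) (i : Fin 2) : DifferentiableAt ℝ (fun y : E 2 => y 0 ^ 2 - y 1 ^ 2) x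
    ∧ pd i (fun y : E 2 => y 0 ^ 2 - y 1 ^ 2) x
      = 2 * x 0 * (if i = 0 then 1 else 0) - 2 * x 1 * (if i = 1 then 1 else 0) := by
  have d0 := differentiable_coord 0 x
  have d1 := differentiable_coord 1 x
  have e : (fun y : E 2 => y 0 ^ 2 - y 1 ^ 2) = fun y : E 2 => y 0 * y 0 + (-1) * (y 1 * y 1) := by
    funext y; ring
  refine ⟨(d0.pow 2).sub (d1.pow 2), ?_⟩
  rw [e, pd_add i (fun y : E 2 => y 0 * y 0) (fun y : E 2 => (-1) * (y 1 * y 1)) x (d0.mul d0)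
    ((d1.mul d1).const_mul _), pd_const_mul, pd_mul i (fun y : E 2 => y 0) (fun y : E 2 => y 0) x d0 d0,
    pd_mul i (fun y : E 2 => y 1) (fun y : E 2 => y 1) x d1 d1, HmA_coord, HmA_coord]
  fin_cases i <;> simp <;> ring

theorem Qf_P2 (x : E 2) (i : Fin 2) : DifferentiableAt ℝ (fun y : E 2 => 2 * y 0 * y 1) x
    ∧ pd i (fun y : E 2 => 2 * y 0 * y 1) x
      = 2 * x 1 * (if i = 0 then 1 else 0) + 2 * x 0 * (if i = 1 then 1 else 0) := by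
  have d0 := differentiable_coord 0 x
  have d1 := differentiable_coord 1 x
  have e : (fun y : E 2 => 2 * y 0 * y 1) = fun y : E 2 => 2 * (y 0 * y 1) := by
    funext y; ring
  refine ⟨(d0.const_mul 2).mul d1, ?_⟩
  rw [e, pd_const_mul, pd_mul i (fun y : E 2 => y 0) (fun y : E 2 => y 1) x d0 d1, HmA_coord, HmA_coord]
  fin_cases i <;> simp <;> ring

theorem Qf_main (γ : ℝ) (F φ : ℝ → ℝ) (F' φ' : ℝ) (x : E 2) (hF : HasDerivAt F F' (‖x‖ ^ 2))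
    (hφ : HasDerivAt φ φ' (‖x‖ ^ 2)) (σ : ℝ) (α p q : ℂ) :
    γ * (Wre F φ σ α p q x ^ 2 + Wim F φ σ α p q x ^ 2) - dot (Wre F φ σ α p q) (Wre F φ σ α p q) x
        - dot (Wim F φ σ α p q) (Wim F φ σ α p q) x
      = ∑ j, Qj γ (‖x‖ ^ 2) (F (‖x‖ ^ 2)) F' (φ (‖x‖ ^ 2)) φ' j * hM (Cj σ α p q j) (kj j) x := by
  obtain ⟨hP1, _⟩ := Qf_P1 x 0
  obtain ⟨hP2, _⟩ := Qf_P2 x 0
  have r : ∀ i, pd i (Wre F φ σ α p q) x = _ := fun i =>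
    Qf_pd F φ F' φ' x hF hφ (fun y : E 2 => y 0 ^ 2 - y 1 ^ 2) hP1 σ α.re (p.re + q.re) (q.im - p.im) i
  have m : ∀ i, pd i (Wim F φ σ α p q) x = _ := fun i =>
    Qf_pd F φ F' φ' x hF hφ (fun y : E 2 => 2 * y 0 * y 1) hP2 σ α.im (p.im + q.im) (p.re - q.re) i
  rw [dot, dot, Fin.sum_univ_two, Fin.sum_univ_two, r 0, r 1, m 0, m 1, (Qf_P1 x 0).2, (Qf_P1 x 1).2,
    (Qf_P2 x 0).2, (Qf_P2 x 1).2]
  unfold Wre Wim tf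
  rw [sum16]
  rcases α with ⟨α1, α2⟩
  rcases p with ⟨p1, p2⟩
  rcases q with ⟨q1, q2⟩
  set F0 := F (‖x‖ ^ 2)
  set φ0 := φ (‖x‖ ^ 2)
  rw [nsq2]
  set X := x 0 with hX
  set Y := x 1 with hY
  simp only [Fin.isValue, reduceIte, one_ne_zero, zero_ne_one, mul_zero, mul_one, sub_zero, zero_sub,
    add_zero, zero_add]
  have h0 : hM (Cj σ ⟨α1, α2⟩ ⟨p1, p2⟩ ⟨q1, q2⟩ 0) (kj 0) x = σ ^ 2 := by
    simp [hM, Cj, kj, sq]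
  have h1 : hM (Cj σ ⟨α1, α2⟩ ⟨p1, p2⟩ ⟨q1, q2⟩ 1) (kj 1) x
      = σ * (α1 * (X ^ 2 - Y ^ 2) + α2 * (2 * X * Y)) := by
    simp [hM, Cj, kj, zb, pow_succ]; ring
  have h2 : hM (Cj σ ⟨α1, α2⟩ ⟨p1, p2⟩ ⟨q1, q2⟩ 2) (kj 2) x = σ * (p1 * X + p2 * Y) := by
    simp [hM, Cj, kj, zb]; ring
  have h3 : hM (Cj σ ⟨α1, α2⟩ ⟨p1, p2⟩ ⟨q1, q2⟩ 3) (kj 3) x
      = σ * (q1 * (X ^ 3 - 3 * X * Y ^ 2) + q2 * (3 * X ^ 2 * Y - Y ^ 3)) := by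
    simp [hM, Cj, kj, zb, pow_succ]; ring
  have h4 : hM (Cj σ ⟨α1, α2⟩ ⟨p1, p2⟩ ⟨q1, q2⟩ 4) (kj 4) x = α1 ^ 2 + α2 ^ 2 := by
    simp [hM, Cj, kj]; ring
  have h6 : hM (Cj σ ⟨α1, α2⟩ ⟨p1, p2⟩ ⟨q1, q2⟩ 6) (kj 6) x
      = (α1 * p1 + α2 * p2) * X + (α2 * p1 - α1 * p2) * Y := by
    simp [hM, Cj, kj, zb]; ring
  have h8 : hM (Cj σ ⟨α1, α2⟩ ⟨p1, p2⟩ ⟨q1, q2⟩ 8) (kj 8) x
      = (α1 * q1 + α2 * q2) * X + (α1 * q2 - α2 * q1) * Y := by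
    simp [hM, Cj, kj, zb]; ring
  have h10 : hM (Cj σ ⟨α1, α2⟩ ⟨p1, p2⟩ ⟨q1, q2⟩ 10) (kj 10) x = p1 ^ 2 + p2 ^ 2 := by
    simp [hM, Cj, kj]; ring
  have h12 : hM (Cj σ ⟨α1, α2⟩ ⟨p1, p2⟩ ⟨q1, q2⟩ 12) (kj 12) x
      = (p1 * q1 + p2 * q2) * (X ^ 2 - Y ^ 2) + (p1 * q2 - p2 * q1) * (2 * X * Y) := by
    simp [hM, Cj, kj, zb, pow_succ]; ring
  have h14 : hM (Cj σ ⟨α1, α2⟩ ⟨p1, p2⟩ ⟨q1, q2⟩ 14) (kj 14) x = q1 ^ 2 + q2 ^ 2 := by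
    simp [hM, Cj, kj]; ring
  rw [h0, h1, h2, h3, h4, h6, h8, h10, h12, h14]
  simp only [Qj, Fin.isValue, Matrix.cons_val, Matrix.cons_val_zero, Matrix.cons_val_one]
  ring

end Pool.Agent.H94.GP
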