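import Pool.Agent.H94.GP.Blk
import Pool.Agent.H94.GP.HpF

/-!
# RgA: positivity of the local form on `[0,1]` by the kernel

`rg_pos`: the functions `T j, R j, S j, X j, K j` of `τ ∈ [0,1]` have Taylor models (scale `D`) `tT j, ..`, and the two matrices pass the check.
`rg_pos_tail`: the same if the first row of the even block vanishes identically.
`TM.cand`: change of scale and of the polynomial.
-/

set_option autoImplicit false

open Pool.Agent.H94.SP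

namespace Pool.Agent.H94.GP

theorem TM.cand (D D2 q : ℕ) (hD : D = D2 * q) (hq : 0 < q) (t c : TM) (f : ℝ → ℝ) (ht : t.ok D f)
    (h : sabs (padd t.p (c.p.map (fun z => (-(q : ℤ)) * z))) + t.e ≤ q * c.e) : c.ok D2 f := by
  intro s h0 h1
  have h2 := ht s h0 h1
  have h3 := abs_pev_le (padd t.p (c.p.map (fun z => (-(q : ℤ)) * z))) s h0 h1
  rw [pev_padd, pev_map] at h3
  have hq' : (0 : ℝ) < q := by exact_mod_cast hq
  have h4 : ((sabs (padd t.p (c.p.map (fun z => (-(q : ℤ)) * z))) + t.e : ℕ) : ℝ) ≤ q * c.e := by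
    exact_mod_cast h
  push_cast at h3 h4
  have h5 : |(q : ℝ) * (D2 * f s - pev c.p s)| ≤ q * c.e := by
    have e : (q : ℝ) * (D2 * f s - pev c.p s) = (D * f s - pev t.p s) + (pev t.p s + -(q : ℝ) * pev c.p s) := by
      rw [hD]
      push_cast
      ring
    rw [e]
    exact (abs_add_le _ _).trans (by linarith)
  rw [abs_mul, abs_of_pos hq'] at h5
  exact le_of_mul_le_mul_left h5 hq'

/-- atoms -/
def aT (j : Fin 16) : Ex := .atm j.val
/-- atoms -/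
def aR (j : Fin 16) : Ex := .atm (16 + j.val)
/-- atoms -/
def aS (j : Fin 16) : Ex := .atm (32 + j.val)
/-- atoms -/
def aX (j : Fin 16) : Ex := .atm (48 + j.val)
/-- atoms -/
def aK (j : Fin 33) : Ex := .atm (64 + j.val)

/-- environment -/
def envL (tT tR tS tX : Fin 16 → TM) (tK : Fin 33 → TM) (i : ℕ) : TM :=
  if h : i < 16 then tT ⟨i, h⟩ else if h : i - 16 < 16 then tR ⟨i - 16, h⟩
    else if h : i - 32 < 16 then tS ⟨i - 32, h⟩ else if h : i - 48 < 16 then tX ⟨i - 48, h⟩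
      else if h : i - 64 < 33 then tK ⟨i - 64, h⟩ else ⟨[], 0⟩

/-- the functions -/
noncomputable def envF (T R S X : Fin 16 → ℝ → ℝ) (K : Fin 33 → ℝ → ℝ) (i : ℕ) : ℝ → ℝ :=
  if h : i < 16 then T ⟨i, h⟩ else if h : i - 16 < 16 then R ⟨i - 16, h⟩
    else if h : i - 32 < 16 then S ⟨i - 32, h⟩ else if h : i - 48 < 16 then X ⟨i - 48, h⟩
      else if h : i - 64 < 33 then K ⟨i - 64, h⟩ else fun _ => 0

theorem envL_ok (D : ℕ) (T R S X : Fin 16 → ℝ → ℝ) (K : Fin 33 → ℝ → ℝ) (tT tR tS tX : Fin 16 → TM)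
    (tK : Fin 33 → TM) (hT : ∀ j, (tT j).ok D (T j)) (hR : ∀ j, (tR j).ok D (R j))
    (hS : ∀ j, (tS j).ok D (S j)) (hX : ∀ j, (tX j).ok D (X j)) (hK : ∀ j, (tK j).ok D (K j)) (i : ℕ) :
    (envL tT tR tS tX tK i).ok D (envF T R S X K i) := by
  unfold envL envF
  split_ifs
  · exact hT _
  · exact hR _
  · exact hS _
  · exact hX _
  · exact hK _
  · intro s _ _
    simp [pev]

theorem ev_aT (D : ℕ) (T R S X : Fin 16 → ℝ → ℝ) (K : Fin 33 → ℝ → ℝ) (j : Fin 16) (τ : ℝ) :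
    (aT j).ev D (envF T R S X K) τ = T j τ := by
  have h := j.2
  simp only [aT, Ex.ev, envF, h, dite_true, Fin.eta]

theorem ev_aR (D : ℕ) (T R S X : Fin 16 → ℝ → ℝ) (K : Fin 33 → ℝ → ℝ) (j : Fin 16) (τ : ℝ) :
    (aR j).ev D (envF T R S X K) τ = R j τ := by
  have h := j.2
  have h1 : ¬ (16 + j.val < 16) := by omega
  have h2 : 16 + j.val - 16 < 16 := by omega
  simp only [aR, Ex.ev, envF, h, h1, dite_true, dite_false, Nat.add_sub_cancel_left, Fin.eta]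

theorem ev_aS (D : ℕ) (T R S X : Fin 16 → ℝ → ℝ) (K : Fin 33 → ℝ → ℝ) (j : Fin 16) (τ : ℝ) :
    (aS j).ev D (envF T R S X K) τ = S j τ := by
  have h := j.2
  have h1 : ¬ (32 + j.val < 16) := by omega
  have h2 : ¬ (32 + j.val - 16 < 16) := by omega
  have h3 : 32 + j.val - 32 < 16 := by omega
  simp only [aS, Ex.ev, envF, h, h1, h2, dite_true, dite_false, Nat.add_sub_cancel_left, Fin.eta]

theorem ev_aX (D : ℕ) (T R S X : Fin 16 → ℝ → ℝ) (K : Fin 33 → ℝ → ℝ) (j : Fin 16) (τ : ℝ) :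
    (aX j).ev D (envF T R S X K) τ = X j τ := by
  have h := j.2
  have h1 : ¬ (48 + j.val < 16) := by omega
  have h2 : ¬ (48 + j.val - 16 < 16) := by omega
  have h3 : ¬ (48 + j.val - 32 < 16) := by omega
  have h4 : 48 + j.val - 48 < 16 := by omega
  simp only [aX, Ex.ev, envF, h, h1, h2, h3, dite_true, dite_false, Nat.add_sub_cancel_left, Fin.eta]

theorem ev_aK (D : ℕ) (T R S X : Fin 16 → ℝ → ℝ) (K : Fin 33 → ℝ → ℝ) (j : Fin 33) (τ : ℝ) :
    (aK j).ev D (envF T R S X K) τ = K j τ := by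
  have h := j.2
  have h1 : ¬ (64 + j.val < 16) := by omega
  have h2 : ¬ (64 + j.val - 16 < 16) := by omega
  have h3 : ¬ (64 + j.val - 32 < 16) := by omega
  have h4 : ¬ (64 + j.val - 48 < 16) := by omega
  have h5 : 64 + j.val - 64 < 33 := by omega
  simp only [aK, Ex.ev, envF, h, h1, h2, h3, h4, dite_true, dite_false, Nat.add_sub_cancel_left,
    Fin.eta]

theorem B1_ev (D : ℕ) (T R S X : Fin 16 → ℝ → ℝ) (K : Fin 33 → ℝ → ℝ) (τ : ℝ) :
    (X1 aT aR aS aX aK).map (List.map (fun x => x.ev D (envF T R S X K) τ))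
      = B1 (fun j => T j τ) (fun j => R j τ) (fun j => S j τ) (fun j => X j τ) (fun j => K j τ) := by
  rw [X1_ev]
  simp only [ev_aT, ev_aR, ev_aS, ev_aX, ev_aK]

theorem B2_ev (D : ℕ) (T R S X : Fin 16 → ℝ → ℝ) (K : Fin 33 → ℝ → ℝ) (τ : ℝ) :
    (X2 aT aR aS aX aK).map (List.map (fun x => x.ev D (envF T R S X K) τ))
      = B2 (fun j => T j τ) (fun j => R j τ) (fun j => S j τ) (fun j => X j τ) (fun j => K j τ) := by
  rw [X2_ev]
  simp only [ev_aT, ev_aR, ev_aS, ev_aX, ev_aK]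

/-- positivity of the local form -/
theorem rg_pos (D n N m : ℕ) (hD : 0 < D) (hN : 0 < N) (hm : 0 < m) (T R S X : Fin 16 → ℝ → ℝ)
    (K : Fin 33 → ℝ → ℝ) (tT tR tS tX : Fin 16 → TM)
    (tK : Fin 33 → TM) (hT : ∀ j, (tT j).ok D (T j)) (hR : ∀ j, (tR j).ok D (R j))
    (hS : ∀ j, (tS j).ok D (S j)) (hX : ∀ j, (tX j).ok D (X j)) (hK : ∀ j, (tK j).ok D (K j))
    (h1 : mchk D n N m (envL tT tR tS tX tK) (X1 aT aR aS aX aK) = true)
    (h2 : mchk D n N m (envL tT tR tS tX tK) (X2 aT aR aS aX aK) = true)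
    (τ : ℝ) (h0 : 0 ≤ τ) (h01 : τ ≤ 1) (a ξ η σ : ℝ) (α p q : ℂ) :
    0 ≤ floc (fun j => T j τ) (fun j => R j τ) (fun j => S j τ) (fun j => X j τ) a ξ η σ α p q := by
  have e := blk_id (fun j => T j τ) (fun j => R j τ) (fun j => S j τ) (fun j => X j τ)
    (fun j => K j τ) a ξ η σ α p q
  have p1 := mat_pos D n N m hD hN hm (envL tT tR tS tX tK) (envF T R S X K)
    (envL_ok D T R S X K tT tR tS tX tK hT hR hS hX hK) (X1 aT aR aS aX aK) h1 τ h0 h01
    (v1 a ξ η σ α p q) rfl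
  have p2 := mat_pos D n N m hD hN hm (envL tT tR tS tX tK) (envF T R S X K)
    (envL_ok D T R S X K tT tR tS tX tK hT hR hS hX hK) (X2 aT aR aS aX aK) h2 τ h0 h01
    (v2 a ξ η σ α p q) rfl
  rw [B1_ev] at p1
  rw [B2_ev] at p2
  linarith

/-- the same when the first row of the even block is zero -/
theorem rg_pos_tail (D n N m : ℕ) (hD : 0 < D) (hN : 0 < N) (hm : 0 < m) (T R S X : Fin 16 → ℝ → ℝ)
    (K : Fin 33 → ℝ → ℝ) (tT tR tS tX : Fin 16 → TM)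
    (tK : Fin 33 → TM) (hT : ∀ j, (tT j).ok D (T j)) (hR : ∀ j, (tR j).ok D (R j))
    (hS : ∀ j, (tS j).ok D (S j)) (hX : ∀ j, (tX j).ok D (X j)) (hK : ∀ j, (tK j).ok D (K j))
    (h1 : mchk D n N m (envL tT tR tS tX tK) (X1 aT aR aS aX aK).tail = true)
    (h2 : mchk D n N m (envL tT tR tS tX tK) (X2 aT aR aS aX aK) = true)
    (τ : ℝ) (h0 : 0 ≤ τ) (h01 : τ ≤ 1)
    (hz : T 0 τ = 0 ∧ T 1 τ = 0 ∧ T 2 τ = 0 ∧ T 3 τ = 0 ∧ R 0 τ = 0)
    (hK1 : K 0 τ = R 1 τ ∧ K 1 τ = R 2 τ ∧ K 2 τ = R 3 τ)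
    (hK2 : K 9 τ = S 1 τ ∧ K 10 τ = S 2 τ ∧ K 11 τ = S 3 τ)
    (a ξ η σ : ℝ) (α p q : ℂ) :
    0 ≤ floc (fun j => T j τ) (fun j => R j τ) (fun j => S j τ) (fun j => X j τ) a ξ η σ α p q := by
  have e := blk_id (fun j => T j τ) (fun j => R j τ) (fun j => S j τ) (fun j => X j τ)
    (fun j => K j τ) a ξ η σ α p q
  have p1 := mat_pos D n N m hD hN hm (envL tT tR tS tX tK) (envF T R S X K)
    (envL_ok D T R S X K tT tR tS tX tK hT hR hS hX hK) (X1 aT aR aS aX aK).tail h1 τ h0 h01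
    (v1 a ξ η σ α p q).tail rfl
  have p2 := mat_pos D n N m hD hN hm (envL tT tR tS tX tK) (envF T R S X K)
    (envL_ok D T R S X K tT tR tS tX tK hT hR hS hX hK) (X2 aT aR aS aX aK) h2 τ h0 h01
    (v2 a ξ η σ α p q) rfl
  rw [List.map_tail, B1_ev] at p1
  rw [B2_ev] at p2
  obtain ⟨z0, z1, z2, z3, z4⟩ := hz
  obtain ⟨k0, k1, k2⟩ := hK1
  obtain ⟨k9, k10, k11⟩ := hK2
  have e3 : qf (B1 (fun j => T j τ) (fun j => R j τ) (fun j => S j τ) (fun j => X j τ) (fun j => K j τ))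
      (v1 a ξ η σ α p q)
      = qf (B1 (fun j => T j τ) (fun j => R j τ) (fun j => S j τ) (fun j => X j τ) (fun j => K j τ)).tail
        (v1 a ξ η σ α p q).tail := by
    simp only [B1, v1, List.tail_cons, qf, rowv, dotl, z0, z1, z2, z3, z4, k0, k1, k2, k9, k10, k11]
    ring
  rw [e3] at e
  linarith

end Pool.Agent.H94.GP
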