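import Pool.Agent.H94.GP.RgA
import Pool.Agent.H94.GP.PtB

/-!
# RgB: reduced blocks (inside the disk, exact column)

`blk_red`: if `T 0 = 2 g R 0 - g^2 X 0`, `R 0 = g X 0`, `T i = 2 g R i - g^2 X i` (`i = 1, 2, 3`), the first row can be removed and the variables `ξ σ`, `η σ` replaced by
`(ξ - g a) σ / w`, `η σ / w`.
-/

set_option autoImplicit false

open Pool.Agent.H94.SP

namespace Pool.Agent.H94.GP

/-- products, even block, reduced -/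
noncomputable def v1r (a ξ η σ : ℝ) (α p q : ℂ) (g w : ℝ) : List ℝ :=
  [a * α.re, a * p.re, a * q.re, (ξ - g * a) * σ / w, ξ * α.re, ξ * p.re, ξ * q.re, η * α.im, η * p.im,
    η * q.im]

/-- products, odd block, reduced -/
noncomputable def v2r (a ξ η σ : ℝ) (α p q : ℂ) (w : ℝ) : List ℝ :=
  [a * α.im, a * p.im, a * q.im, ξ * α.im, ξ * p.im, ξ * q.im, η * σ / w, η * α.re, η * p.re, η * q.re]

theorem blk_red (T R S X T' R' S' X' : Fin 16 → ℝ) (K' : Fin 33 → ℝ) (g w a ξ η σ : ℝ) (α p q : ℂ)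
    (hw : w ≠ 0) (hT0 : T 0 = 2 * g * R 0 - g ^ 2 * X 0) (hR0 : R 0 = g * X 0)
    (hT1 : T 1 = 2 * g * R 1 - g ^ 2 * X 1) (hT2 : T 2 = 2 * g * R 2 - g ^ 2 * X 2)
    (hT3 : T 3 = 2 * g * R 3 - g ^ 2 * X 3)
    (hX0 : X' 0 = w ^ 2 * X 0) (hX1 : X' 1 = w * X 1) (hX2 : X' 2 = w * X 2) (hX3 : X' 3 = w * X 3)
    (hR1 : R' 1 = w * (2 * R 1 - g * X 1)) (hR2 : R' 2 = w * (2 * R 2 - g * X 2))
    (hR3 : R' 3 = w * (2 * R 3 - g * X 3))
    (hS1 : S' 1 = 2 * w * S 1 - g * K' 21) (hS2 : S' 2 = 2 * w * S 2 - g * K' 22)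
    (hS3 : S' 3 = 2 * w * S 3 - g * K' 23)
    (hK : K' 0 = 0 ∧ K' 1 = 0 ∧ K' 2 = 0 ∧ K' 9 = 0 ∧ K' 10 = 0 ∧ K' 11 = 0)
    (hT : ∀ j, 4 ≤ j → T' j = T j) (hR : ∀ j, 4 ≤ j → R' j = R j)
    (hS : ∀ j, 4 ≤ j → S' j = S j) (hX : ∀ j, 4 ≤ j → X' j = X j) :
    2 * floc T R S X a ξ η σ α p q
      = qf (B1 T' R' S' X' K').tail (v1r a ξ η σ α p q g w)
        + qf (B2 T' R' S' X' K') (v2r a ξ η σ α p q w) := by
  have e := blk_id T R S X (fun _ => 0) a ξ η σ α p q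
  obtain ⟨k0, k1, k2, k9, k10, k11⟩ := hK
  rw [e]
  simp only [B1, B2, v1, v2, v1r, v2r, qf, rowv, dotl, List.tail_cons]
  rw [hX0, hX1, hX2, hX3, hR1, hR2, hR3, hS1, hS2, hS3, k0, k1, k2, k9, k10, k11, hT0, hT1, hT2, hT3, hR0]
  simp only [hT 4 (by decide), hT 5 (by decide), hT 6 (by decide), hT 7 (by decide), hT 8 (by decide), hT 9 (by decide), hT 10 (by decide), hT 11 (by decide), hT 12 (by decide), hT 13 (by decide), hT 14 (by decide), hT 15 (by decide)]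
  simp only [hR 4 (by decide), hR 5 (by decide), hR 6 (by decide), hR 7 (by decide), hR 8 (by decide), hR 9 (by decide), hR 10 (by decide), hR 11 (by decide), hR 12 (by decide), hR 13 (by decide), hR 14 (by decide), hR 15 (by decide)]
  simp only [hS 4 (by decide), hS 5 (by decide), hS 6 (by decide), hS 7 (by decide), hS 8 (by decide), hS 9 (by decide), hS 10 (by decide), hS 11 (by decide), hS 12 (by decide), hS 13 (by decide), hS 14 (by decide), hS 15 (by decide)]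
  simp only [hX 4 (by decide), hX 5 (by decide), hX 6 (by decide), hX 7 (by decide), hX 8 (by decide), hX 9 (by decide), hX 10 (by decide), hX 11 (by decide), hX 12 (by decide), hX 13 (by decide), hX 14 (by decide), hX 15 (by decide)]
  field_simp
  ring

/-- positivity of the local form by the reduced blocks -/
theorem rg_pos_red (Dd n N m : ℕ) (hD : 0 < Dd) (hN : 0 < N) (hm : 0 < m)
    (T' R' S' X' : Fin 16 → ℝ → ℝ)
    (K' : Fin 33 → ℝ → ℝ) (tT tR tS tX : Fin 16 → TM)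
    (tK : Fin 33 → TM) (okT : ∀ j, (tT j).ok Dd (T' j)) (okR : ∀ j, (tR j).ok Dd (R' j))
    (okS : ∀ j, (tS j).ok Dd (S' j)) (okX : ∀ j, (tX j).ok Dd (X' j)) (okK : ∀ j, (tK j).ok Dd (K' j))
    (h1 : mchk Dd n N m (envL tT tR tS tX tK) (X1 aT aR aS aX aK).tail = true)
    (h2 : mchk Dd n N m (envL tT tR tS tX tK) (X2 aT aR aS aX aK) = true)
    (τ : ℝ) (h0 : 0 ≤ τ) (h01 : τ ≤ 1) (T R S X : Fin 16 → ℝ) (g w a ξ η σ : ℝ) (α p q : ℂ)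
    (hw : w ≠ 0) (hT0 : T 0 = 2 * g * R 0 - g ^ 2 * X 0) (hR0 : R 0 = g * X 0)
    (hT1 : T 1 = 2 * g * R 1 - g ^ 2 * X 1) (hT2 : T 2 = 2 * g * R 2 - g ^ 2 * X 2)
    (hT3 : T 3 = 2 * g * R 3 - g ^ 2 * X 3)
    (hX0 : X' 0 τ = w ^ 2 * X 0) (hX1 : X' 1 τ = w * X 1) (hX2 : X' 2 τ = w * X 2)
    (hX3 : X' 3 τ = w * X 3)
    (hR1 : R' 1 τ = w * (2 * R 1 - g * X 1)) (hR2 : R' 2 τ = w * (2 * R 2 - g * X 2))
    (hR3 : R' 3 τ = w * (2 * R 3 - g * X 3))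
    (hS1 : S' 1 τ = 2 * w * S 1 - g * K' 21 τ) (hS2 : S' 2 τ = 2 * w * S 2 - g * K' 22 τ)
    (hS3 : S' 3 τ = 2 * w * S 3 - g * K' 23 τ)
    (hK : K' 0 τ = 0 ∧ K' 1 τ = 0 ∧ K' 2 τ = 0 ∧ K' 9 τ = 0 ∧ K' 10 τ = 0 ∧ K' 11 τ = 0)
    (hT : ∀ j, 4 ≤ j → T' j τ = T j) (hR : ∀ j, 4 ≤ j → R' j τ = R j)
    (hS : ∀ j, 4 ≤ j → S' j τ = S j) (hX : ∀ j, 4 ≤ j → X' j τ = X j) :
    0 ≤ floc T R S X a ξ η σ α p q := by
  have e := blk_red T R S X (fun j => T' j τ) (fun j => R' j τ) (fun j => S' j τ) (fun j => X' j τ)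
    (fun j => K' j τ) g w a ξ η σ α p q hw hT0 hR0 hT1 hT2 hT3 hX0 hX1 hX2 hX3 hR1 hR2 hR3 hS1 hS2 hS3
    hK hT hR hS hX
  have p1 := mat_pos Dd n N m hD hN hm (envL tT tR tS tX tK) (envF T' R' S' X' K')
    (envL_ok Dd T' R' S' X' K' tT tR tS tX tK okT okR okS okX okK) (X1 aT aR aS aX aK).tail h1 τ h0 h01
    (v1r a ξ η σ α p q g w) rfl
  have p2 := mat_pos Dd n N m hD hN hm (envL tT tR tS tX tK) (envF T' R' S' X' K')
    (envL_ok Dd T' R' S' X' K' tT tR tS tX tK okT okR okS okX okK) (X2 aT aR aS aX aK) h2 τ h0 h01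
    (v2r a ξ η σ α p q w) rfl
  rw [List.map_tail, B1_ev] at p1
  rw [B2_ev] at p2
  linarith

end Pool.Agent.H94.GP
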