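import Pool.Agent.H94.GP.RgB
import Pool.Agent.H94.GP.HpK
import Pool.Agent.H94.GP.GcA

/-!
# RgC: polynomials with integer coefficients (scale `10^6`), expressions, Taylor models in `r`
-/

set_option autoImplicit false

open Pool.Agent.H94.ER Pool.Agent.H94.SP

namespace Pool.Agent.H94.GP

/-- polynomial with coefficients `z / 10^6` -/
noncomputable def pf (l : List ℤ) (s : ℝ) : ℝ := pev l s / 1000000

/-- auxiliary for the derivative -/
def pdaux : ℕ → List ℤ → List ℤ
  | _, [] => []
  | n, a :: l => (n : ℤ) * a :: pdaux (n + 1) l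

/-- derivative -/
def pder : List ℤ → List ℤ
  | [] => []
  | _ :: l => pdaux 1 l

theorem pdaux_succ (n : ℕ) (l : List ℤ) (s : ℝ) :
    pev (pdaux (n + 1) l) s = pev (pdaux n l) s + pev l s := by
  induction l generalizing n with
  | nil => simp [pdaux, pev]
  | cons a l ih =>
    simp only [pdaux, pev]
    rw [ih (n + 1)]
    push_cast
    ring

theorem pev_hasDerivAt (l : List ℤ) (s : ℝ) : HasDerivAt (pev l) (pev (pder l) s) s := by
  induction l with
  | nil => exact hasDerivAt_const s 0
  | cons a l ih =>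
    have h : HasDerivAt (fun t => (a : ℝ) + t * pev l t) (0 + (1 * pev l s + s * pev (pder l) s)) s :=
      (hasDerivAt_const s (a : ℝ)).add ((hasDerivAt_id s).mul ih)
    have e : pev (pder (a :: l)) s = 0 + (1 * pev l s + s * pev (pder l) s) := by
      simp only [pder]
      rcases l with _ | ⟨b, l⟩
      · simp [pdaux, pev, pder]
      · simp only [pdaux, pev, pder]
        rw [show (1 + 1 : ℕ) = 1 + 1 from rfl, pdaux_succ 1 l]
        push_cast
        ring
    rw [e]
    exact h

theorem pf_hasDerivAt (l : List ℤ) (s : ℝ) : HasDerivAt (pf l) (pf (pder l) s) s :=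
  (pev_hasDerivAt l s).div_const _

theorem contDiff_pev (l : List ℤ) (n : ℕ) : ContDiff ℝ n (pev l) := by
  induction l with
  | nil => exact contDiff_const
  | cons a l ih => exact contDiff_const.add (contDiff_id.mul ih)

theorem contDiff_pf (l : List ℤ) (n : ℕ) : ContDiff ℝ n (pf l) := (contDiff_pev l n).div_const _

/-- expression for `pf l` at the value of `x` (scale `DD = 10^15`) -/
def pex (x : Ex) : List ℤ → Ex
  | [] => .int 0
  | a :: l => .add (.cst (a * 1000000000)) (.mul x (pex x l))

theorem pex_ev (f : ℕ → ℝ → ℝ) (x : Ex) (l : List ℤ) (s : ℝ) :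
    (pex x l).ev DD f s = pf l (x.ev DD f s) := by
  induction l with
  | nil => simp [pex, Ex.ev, pf, pev]
  | cons a l ih =>
    have e : ((DD : ℕ) : ℝ) = 1000000000000000 := by norm_num [DD]
    simp only [pex, Ex.ev, ih, pf, pev]
    rw [e]
    push_cast
    ring

/-- interleave with zeros -/
def pil : List ℤ → List ℤ
  | [] => []
  | a :: l => a :: 0 :: pil l

theorem pev_pil (l : List ℤ) (r : ℝ) : pev (pil l) r = pev l (r ^ 2) := by
  induction l with
  | nil => simp [pil, pev]
  | cons a l ih =>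
    simp only [pil, pev, ih]
    push_cast
    ring

/-- Taylor model of `f (r^2)` -/
def TM.sq (t : TM) : TM := ⟨pil t.p, t.e⟩

theorem TM.ok_sq (D : ℕ) (t : TM) (f : ℝ → ℝ) (h : t.ok D f) : t.sq.ok D (fun r => f (r ^ 2)) := by
  intro r h0 h1
  simp only [TM.sq, pev_pil]
  exact h (r ^ 2) (by positivity) (pow_le_one₀ h0 h1)

/-- powers of an expression -/
def Ex.pw (x : Ex) : ℕ → Ex
  | 0 => .int 1
  | n + 1 => .mul x (Ex.pw x n)

theorem Ex.pw_ev (D : ℕ) (f : ℕ → ℝ → ℝ) (x : Ex) (n : ℕ) (s : ℝ) :
    (x.pw n).ev D f s = x.ev D f s ^ n := by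
  induction n with
  | zero => simp [Ex.pw, Ex.ev]
  | succ n ih =>
    simp only [Ex.pw, Ex.ev, ih]
    ring

end Pool.Agent.H94.GP
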