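import Pool.Agent.H94.SP.Bern

/-!
# Taylor models on `[0,1]` and positivity of matrices of functions

A Taylor model `(p, e)` (integers, common scale `D`) of a function `f` on `[0,1]`:
`|D f(s) - p(s)| ≤ e` for `0 ≤ s ≤ 1`. Everything is computed by the kernel (`decide +kernel`).
-/

set_option autoImplicit false

open Pool.Agent.H94.SP

namespace Pool.Agent.H94.GP

/-- polynomial with integer coefficients and error bound -/
structure TM where
  p : List ℤ
  e : ℕ

/-- sum of the absolute values -/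
def sabs : List ℤ → ℕ
  | [] => 0
  | a :: l => a.natAbs + sabs l

/-- sum of two coefficient lists -/
def padd : List ℤ → List ℤ → List ℤ
  | [], m => m
  | a :: l, [] => a :: l
  | a :: l, b :: m => (a + b) :: padd l m

/-- product of two coefficient lists -/
def pmul : List ℤ → List ℤ → List ℤ
  | [], _ => []
  | a :: l, m => padd (m.map (a * ·)) (0 :: pmul l m)

theorem abs_pev_le (l : List ℤ) (s : ℝ) (h0 : 0 ≤ s) (h1 : s ≤ 1) : |pev l s| ≤ sabs l := by
  induction l with
  | nil => simp [pev, sabs]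
  | cons a l ih =>
    simp only [pev, sabs, Nat.cast_add]
    have h2 : |(a : ℝ)| = ((a.natAbs : ℕ) : ℝ) := by
      rw [Nat.cast_natAbs, Int.cast_abs]
    calc |(a : ℝ) + s * pev l s| ≤ |(a : ℝ)| + |s * pev l s| := abs_add_le _ _
      _ = ((a.natAbs : ℕ) : ℝ) + s * |pev l s| := by rw [h2, abs_mul, abs_of_nonneg h0]
      _ ≤ _ := by
        have := abs_nonneg (pev l s)
        nlinarith

theorem pev_padd (l m : List ℤ) (s : ℝ) : pev (padd l m) s = pev l s + pev m s := by
  induction l generalizing m with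
  | nil => simp [padd, pev]
  | cons a l ih =>
    rcases m with _ | ⟨b, m⟩
    · simp [padd, pev]
    · simp only [padd, pev, ih]
      push_cast
      ring

theorem pev_map (a : ℤ) (m : List ℤ) (s : ℝ) : pev (m.map (a * ·)) s = a * pev m s := by
  induction m with
  | nil => simp [pev]
  | cons b m ih =>
    simp only [List.map_cons, pev, ih]
    push_cast
    ring

theorem pev_pmul (l m : List ℤ) (s : ℝ) : pev (pmul l m) s = pev l s * pev m s := by
  induction l with
  | nil => simp [pmul, pev]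
  | cons a l ih =>
    simp only [pmul, pev_padd, pev_map, pev, ih]
    push_cast
    ring

theorem pev_append (l m : List ℤ) (s : ℝ) : pev (l ++ m) s = pev l s + s ^ l.length * pev m s := by
  induction l with
  | nil => simp [pev]
  | cons a l ih =>
    simp only [List.cons_append, pev, ih, List.length_cons]
    ring

/-- division of all coefficients by `D`, rounded -/
def rdiv (D : ℕ) (l : List ℤ) : List ℤ := l.map (· / (D : ℤ))

theorem pev_rdiv (D : ℕ) (hD : 0 < D) (l : List ℤ) (s : ℝ) (h0 : 0 ≤ s) (h1 : s ≤ 1) :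
    |pev l s - D * pev (rdiv D l) s| ≤ D * l.length := by
  have hD' : (0 : ℝ) < D := by exact_mod_cast hD
  induction l with
  | nil => simp [rdiv, pev]
  | cons a l ih =>
    have e1 : rdiv D (a :: l) = (a / (D : ℤ)) :: rdiv D l := rfl
    rw [e1]
    simp only [pev, List.length_cons, Nat.cast_add, Nat.cast_one]
    have h2 : (a : ℝ) - D * ((a / (D : ℤ) : ℤ) : ℝ) = ((a % (D : ℤ) : ℤ) : ℝ) := by
      have := Int.mul_ediv_add_emod a D
      have h3 : (a : ℝ) = (D : ℝ) * ((a / (D : ℤ) : ℤ) : ℝ) + ((a % (D : ℤ) : ℤ) : ℝ) := by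
        exact_mod_cast this.symm
      linarith
    have hDz : (0 : ℤ) < D := by exact_mod_cast hD
    have h4 : (0 : ℝ) ≤ ((a % (D : ℤ) : ℤ) : ℝ) := by
      exact_mod_cast Int.emod_nonneg a hDz.ne'
    have h5 : ((a % (D : ℤ) : ℤ) : ℝ) ≤ D := by
      exact_mod_cast (Int.emod_lt_of_pos a hDz).le
    have h6 : (a : ℝ) + s * pev l s - D * (((a / (D : ℤ) : ℤ) : ℝ) + s * pev (rdiv D l) s)
        = ((a % (D : ℤ) : ℤ) : ℝ) + s * (pev l s - D * pev (rdiv D l) s) := by
      rw [← h2]; ring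
    rw [h6]
    have h7 := abs_nonneg (pev l s - D * pev (rdiv D l) s)
    calc |((a % (D : ℤ) : ℤ) : ℝ) + s * (pev l s - D * pev (rdiv D l) s)|
        ≤ |((a % (D : ℤ) : ℤ) : ℝ)| + |s * (pev l s - D * pev (rdiv D l) s)| := abs_add_le _ _
      _ = ((a % (D : ℤ) : ℤ) : ℝ) + s * |pev l s - D * pev (rdiv D l) s| := by
          rw [abs_of_nonneg h4, abs_mul, abs_of_nonneg h0]
      _ ≤ _ := by nlinarith

/-- `t` is a Taylor model of `f` with scale `D` -/
def TM.ok (D : ℕ) (t : TM) (f : ℝ → ℝ) : Prop :=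
  ∀ s, 0 ≤ s → s ≤ 1 → |D * f s - pev t.p s| ≤ t.e

/-- sum -/
def TM.add (a b : TM) : TM := ⟨padd a.p b.p, a.e + b.e⟩

/-- product with rounding -/
def TM.mul (D : ℕ) (a b : TM) : TM :=
  ⟨rdiv D (pmul a.p b.p), (a.e * sabs b.p + b.e * sabs a.p + a.e * b.e) / D + 1 + (pmul a.p b.p).length⟩

/-- keep `n` coefficients -/
def TM.trim (n : ℕ) (a : TM) : TM := ⟨a.p.take n, a.e + sabs (a.p.drop n)⟩

/-- multiplication by the integer `z` -/
def TM.smul (z : ℤ) (a : TM) : TM := ⟨a.p.map (z * ·), z.natAbs * a.e⟩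

theorem TM.ok_add (D : ℕ) (a b : TM) (f g : ℝ → ℝ) (ha : a.ok D f) (hb : b.ok D g) :
    (a.add b).ok D (fun s => f s + g s) := by
  intro s h0 h1
  simp only [TM.add, pev_padd, Nat.cast_add]
  have h2 := ha s h0 h1
  have h3 := hb s h0 h1
  have e : (D : ℝ) * (f s + g s) - (pev a.p s + pev b.p s)
      = (D * f s - pev a.p s) + (D * g s - pev b.p s) := by ring
  rw [e]
  exact (abs_add_le _ _).trans (add_le_add h2 h3)

theorem TM.ok_smul (D : ℕ) (z : ℤ) (a : TM) (f : ℝ → ℝ) (ha : a.ok D f) :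
    (a.smul z).ok D (fun s => z * f s) := by
  intro s h0 h1
  simp only [TM.smul, pev_map, Nat.cast_mul]
  have h2 := ha s h0 h1
  have e : (D : ℝ) * (z * f s) - z * pev a.p s = z * (D * f s - pev a.p s) := by ring
  have h3 : |(z : ℝ)| = ((z.natAbs : ℕ) : ℝ) := by
    rw [Nat.cast_natAbs, Int.cast_abs]
  rw [e, abs_mul, h3]
  exact mul_le_mul_of_nonneg_left h2 (by positivity)

theorem TM.ok_trim (D n : ℕ) (a : TM) (f : ℝ → ℝ) (ha : a.ok D f) : (a.trim n).ok D f := by
  intro s h0 h1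
  have h2 := ha s h0 h1
  have e : pev a.p s = pev (a.p.take n) s + s ^ (a.p.take n).length * pev (a.p.drop n) s := by
    rw [← pev_append, List.take_append_drop]
  have h3 := abs_pev_le (a.p.drop n) s h0 h1
  have h4 : |s ^ (a.p.take n).length * pev (a.p.drop n) s| ≤ sabs (a.p.drop n) := by
    rw [abs_mul, abs_of_nonneg (pow_nonneg h0 _)]
    calc s ^ (a.p.take n).length * |pev (a.p.drop n) s| ≤ 1 * |pev (a.p.drop n) s| :=
          mul_le_mul_of_nonneg_right (pow_le_one₀ h0 h1) (abs_nonneg _)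
      _ ≤ _ := by rw [one_mul]; exact h3
  simp only [TM.trim, Nat.cast_add]
  have e2 : (D : ℝ) * f s - pev (a.p.take n) s
      = (D * f s - pev a.p s) + s ^ (a.p.take n).length * pev (a.p.drop n) s := by rw [e]; ring
  rw [e2]
  exact (abs_add_le _ _).trans (add_le_add h2 h4)

theorem TM.ok_mul (D : ℕ) (hD : 0 < D) (a b : TM) (f g : ℝ → ℝ) (ha : a.ok D f) (hb : b.ok D g) :
    (a.mul D b).ok D (fun s => f s * g s) := by
  intro s h0 h1
  have hD' : (0 : ℝ) < D := by exact_mod_cast hD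
  have h2 := ha s h0 h1
  have h3 := hb s h0 h1
  have h4 := abs_pev_le a.p s h0 h1
  have h5 := abs_pev_le b.p s h0 h1
  have h6 := pev_rdiv D hD (pmul a.p b.p) s h0 h1
  rw [pev_pmul] at h6
  set A := pev a.p s
  set B := pev b.p s
  have k1 : |(D * f s) * (D * g s) - A * B| ≤ a.e * sabs b.p + b.e * sabs a.p + a.e * b.e := by
    have e : (D * f s) * (D * g s) - A * B
        = (D * f s - A) * B + A * (D * g s - B) + (D * f s - A) * (D * g s - B) := by ring
    rw [e]
    refine (abs_add_le _ _).trans (add_le_add ((abs_add_le _ _).trans (add_le_add ?_ ?_)) ?_)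
    · rw [abs_mul]
      exact mul_le_mul h2 h5 (abs_nonneg _) (by positivity)
    · rw [abs_mul, mul_comm]
      exact mul_le_mul h3 h4 (abs_nonneg _) (by positivity)
    · rw [abs_mul]
      exact mul_le_mul h2 h3 (abs_nonneg _) (by positivity)
  set R := pev (rdiv D (pmul a.p b.p)) s
  have k2 : |D * (D * (f s * g s) - R)| ≤ (a.e * sabs b.p + b.e * sabs a.p + a.e * b.e : ℝ)
      + D * (pmul a.p b.p).length := by
    have e : (D : ℝ) * (D * (f s * g s) - R) = ((D * f s) * (D * g s) - A * B) + (A * B - D * R) := by ring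
    rw [e]
    exact (abs_add_le _ _).trans (add_le_add k1 h6)
  rw [abs_mul, abs_of_pos hD'] at k2
  simp only [TM.mul, Nat.cast_add, Nat.cast_one]
  have k3 : ((a.e * sabs b.p + b.e * sabs a.p + a.e * b.e : ℕ) : ℝ)
      ≤ D * (((a.e * sabs b.p + b.e * sabs a.p + a.e * b.e) / D : ℕ) : ℝ) + D := by
    have h7 : a.e * sabs b.p + b.e * sabs a.p + a.e * b.e
        < D * ((a.e * sabs b.p + b.e * sabs a.p + a.e * b.e) / D + 1) :=
      Nat.lt_mul_div_succ _ hD
    have h8 : ((a.e * sabs b.p + b.e * sabs a.p + a.e * b.e : ℕ) : ℝ)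
        < ((D * ((a.e * sabs b.p + b.e * sabs a.p + a.e * b.e) / D + 1) : ℕ) : ℝ) := by
      exact_mod_cast h7
    push_cast at h8 ⊢
    linarith
  push_cast at k3
  have k4 : D * |D * (f s * g s) - R|
      ≤ D * ((((a.e * sabs b.p + b.e * sabs a.p + a.e * b.e) / D : ℕ) : ℝ) + 1
        + (pmul a.p b.p).length) := by
    linarith
  exact le_of_mul_le_mul_left k4 hD'

/-- expressions in `s` and atoms; `cst z` is the constant `z / D`, `int z` the integer `z` -/
inductive Ex where
  | var : Ex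
  | cst : ℤ → Ex
  | int : ℤ → Ex
  | atm : ℕ → Ex
  | add : Ex → Ex → Ex
  | mul : Ex → Ex → Ex
  | smul : ℤ → Ex → Ex

/-- value -/
noncomputable def Ex.ev (D : ℕ) (f : ℕ → ℝ → ℝ) : Ex → ℝ → ℝ
  | .var => fun s => s
  | .cst z => fun _ => z / D
  | .int z => fun _ => z
  | .atm i => f i
  | .add a b => fun s => a.ev D f s + b.ev D f s
  | .mul a b => fun s => a.ev D f s * b.ev D f s
  | .smul z a => fun s => z * a.ev D f s

/-- Taylor model of an expression, `n` = number of coefficients kept -/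
def Ex.tm (D n : ℕ) (env : ℕ → TM) : Ex → TM
  | .var => ⟨[0, D], 0⟩
  | .cst z => ⟨[z], 0⟩
  | .int z => ⟨[z * D], 0⟩
  | .atm i => env i
  | .add a b => (a.tm D n env).add (b.tm D n env)
  | .mul a b => ((a.tm D n env).mul D (b.tm D n env)).trim n
  | .smul z a => (a.tm D n env).smul z

theorem Ex.ok (D n : ℕ) (hD : 0 < D) (env : ℕ → TM) (f : ℕ → ℝ → ℝ) (h : ∀ i, (env i).ok D (f i))
    (x : Ex) : (x.tm D n env).ok D (x.ev D f) := by
  have hD' : (D : ℝ) ≠ 0 := by exact_mod_cast hD.ne'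
  induction x with
  | var =>
    intro s _ _
    simp only [Ex.tm, Ex.ev, pev]
    push_cast
    have : (D : ℝ) * s - (0 + s * ((D : ℝ) + s * 0)) = 0 := by ring
    rw [this]
    simp
  | cst z =>
    intro s _ _
    simp only [Ex.tm, Ex.ev, pev]
    have : (D : ℝ) * ((z : ℝ) / D) - ((z : ℝ) + s * 0) = 0 := by
      rw [mul_div_cancel₀ _ hD']
      ring
    rw [this]
    simp
  | int z =>
    intro s _ _
    simp only [Ex.tm, Ex.ev, pev]
    push_cast
    have : (D : ℝ) * (z : ℝ) - ((z : ℝ) * D + s * 0) = 0 := by ring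
    rw [this]
    simp
  | atm i => exact h i
  | add a b iha ihb => exact TM.ok_add D _ _ _ _ iha ihb
  | mul a b iha ihb => exact TM.ok_trim D n _ _ (TM.ok_mul D hD _ _ _ _ iha ihb)
  | smul z a iha => exact TM.ok_smul D z _ _ iha

end Pool.Agent.H94.GP
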