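import Pool.Agent.H94.GP.LocA

/-!
# ZiA: a zone inside the disk, all fields polynomials in `s = r^2`

`zi_pos`: kernel check on `r ∈ [a/c, (a+b)/c]` implies the positivity of the local form.
-/

set_option autoImplicit false

open Pool.Agent.H94.ER Pool.Agent.H94.SP

namespace Pool.Agent.H94.GP

/-- coefficient of `a^2`, in the variable `s` -/
noncomputable def ziT (Q E : ℝ → ℝ) (k : ℕ) (X A Z : List ℤ) (s : ℝ) : ℝ :=
  (Q s + E s) + (((-1 : ℤ) : ℝ) * (bz 2 * pf X s) + (((-(2 * (k : ℤ)) : ℤ) : ℝ) * pf (pder A) s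
    + (((-2 : ℤ) : ℝ) * pf (0 :: pder Z) s + ((-((k : ℤ) + 2) : ℤ) : ℝ) * pf Z s)))

/-- its model -/
def tiT (Q E : TM) (k : ℕ) (X A Z : List ℤ) : TM :=
  (Q.add E).add (((tmlam.mul DD (po X)).smul (-1)).add (((po (pder A)).smul (-(2 * (k : ℤ)))).add
    (((po (0 :: pder Z)).smul (-2)).add ((po Z).smul (-((k : ℤ) + 2))))))

theorem DD_pos : 0 < DD := by norm_num [DD]

theorem ok_tiT (tQ tE : TM) (Q E : ℝ → ℝ) (hQ : tQ.ok DD Q) (hE : tE.ok DD E) (k : ℕ) (X A Z : List ℤ) :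
    (tiT tQ tE k X A Z).ok DD (ziT Q E k X A Z) :=
  TM.ok_add _ _ _ _ _ (TM.ok_add _ _ _ _ _ hQ hE)
    (TM.ok_add _ _ _ _ _ (TM.ok_smul _ _ _ _ (TM.ok_mul _ DD_pos _ _ _ _ ok_lam (ok_po X)))
      (TM.ok_add _ _ _ _ _ (TM.ok_smul _ _ _ _ (ok_po _))
        (TM.ok_add _ _ _ _ _ (TM.ok_smul _ _ _ _ (ok_po _)) (TM.ok_smul _ _ _ _ (ok_po _)))))

/-- coefficient of `a ξ`, as function of `r` -/
noncomputable def ziR (k : ℕ) (X A Z : List ℤ) (r : ℝ) : ℝ :=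
  match k with
  | 0 => r ^ 1 * (pf Z (r ^ 2) + ((-1 : ℤ) : ℝ) * pf (pder X) (r ^ 2))
  | k + 1 => r ^ k * ((((k : ℤ) + 1 : ℤ) : ℝ) * pf A (r ^ 2) + (pf (0 :: Z) (r ^ 2)
      + (((-1 : ℤ) : ℝ) * pf (0 :: pder X) (r ^ 2) + ((-((k : ℤ) + 1) : ℤ) : ℝ) * (1 / 2 * pf X (r ^ 2)))))

/-- its model -/
def tiR (k : ℕ) (X A Z : List ℤ) : TM :=
  match k with
  | 0 => lft 1 ((po Z).add ((po (pder X)).smul (-1)))
  | k + 1 => lft k (((po A).smul ((k : ℤ) + 1)).add ((po (0 :: Z)).add (((po (0 :: pder X)).smul (-1)).add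
      ((ph X).smul (-((k : ℤ) + 1))))))

theorem ok_tiR (k : ℕ) (X A Z : List ℤ) : (tiR k X A Z).ok DD (ziR k X A Z) := by
  rcases k with _ | k
  · exact ok_lft _ _ _ _ (TM.ok_add _ _ _ _ _ (ok_po _) (TM.ok_smul _ _ _ _ (ok_po _)))
  · exact ok_lft _ _ _ _ (TM.ok_add _ _ _ _ _ (TM.ok_smul _ _ _ _ (ok_po _))
      (TM.ok_add _ _ _ _ _ (ok_po _) (TM.ok_add _ _ _ _ _ (TM.ok_smul _ _ _ _ (ok_po _))
        (TM.ok_smul _ _ _ _ (ok_ph _)))))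

/-- coefficient of `a η` -/
noncomputable def ziS (k : ℕ) (X A : List ℤ) (r : ℝ) : ℝ :=
  match k with
  | 0 => r ^ 0 * pf [] (r ^ 2)
  | k + 1 => r ^ k * ((((k : ℤ) + 1 : ℤ) : ℝ) * pf A (r ^ 2)
      + ((-((k : ℤ) + 1) : ℤ) : ℝ) * (1 / 2 * pf X (r ^ 2)))

/-- its model -/
def tiS (k : ℕ) (X A : List ℤ) : TM :=
  match k with
  | 0 => lft 0 (po [])
  | k + 1 => lft k (((po A).smul ((k : ℤ) + 1)).add ((ph X).smul (-((k : ℤ) + 1))))

theorem ok_tiS (k : ℕ) (X A : List ℤ) : (tiS k X A).ok DD (ziS k X A) := by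
  rcases k with _ | k
  · exact ok_lft _ _ _ _ (ok_po _)
  · exact ok_lft _ _ _ _ (TM.ok_add _ _ _ _ _ (TM.ok_smul _ _ _ _ (ok_po _))
      (TM.ok_smul _ _ _ _ (ok_ph _)))

/-- parities of the skew entries -/
def kpar : Fin 33 → ℕ :=
  ![1, 0, 0, 0, 0, 1, 0, 0, 1, 1, 0, 0, 1, 0, 0, 0, 1, 1, 0, 1, 1, 0, 1, 1, 0, 1, 1, 1, 0, 0, 1, 0, 0]

/-- scale of the matrix check -/
def D9 : ℕ := 1000000000

theorem ziR_eq (k : ℕ) (X A Z : List ℤ) (r : ℝ) (hr : 0 < r) :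
    ziR k X A Z r = (k * pf A (r ^ 2) + r ^ 2 * pf Z (r ^ 2) - r ^ 2 * pf (pder X) (r ^ 2)
      - 1 / 2 * k * pf X (r ^ 2)) * r ^ k / r := by
  have hr' := hr.ne'
  rcases k with _ | k
  · simp only [ziR]
    push_cast
    field_simp
    ring
  · simp only [ziR, pf_cons_zero]
    push_cast
    rw [pow_succ]
    field_simp
    ring

theorem ziS_eq (k : ℕ) (X A : List ℤ) (r : ℝ) (hr : 0 < r) :
    ziS k X A r = k * (pf A (r ^ 2) - 1 / 2 * pf X (r ^ 2)) * r ^ k / r := by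
  have hr' := hr.ne'
  rcases k with _ | k
  · simp [ziS, pf_nil]
  · simp only [ziS]
    push_cast
    rw [pow_succ]
    field_simp
    ring

theorem ziT_eq (Q E : ℝ → ℝ) (k : ℕ) (X A Z : List ℤ) (r : ℝ) :
    r ^ k * ziT Q E k X A Z (r ^ 2) = (Q (r ^ 2) + E (r ^ 2) - bz 2 * pf X (r ^ 2)
      - (2 * k * pf (pder A) (r ^ 2) + 2 * r ^ 2 * pf (pder Z) (r ^ 2) + (k + 2) * pf Z (r ^ 2))) * r ^ k := by
  simp only [ziT, pf_cons_zero]
  push_cast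
  ring

/-- check, even block -/
def zic1 (tQ tE : Fin 16 → TM) (X A Z : Fin 16 → List ℤ) (K : Fin 33 → List ℤ) (n : ℕ) (a b c : ℤ) : Bool :=
  mchk D9 n n 1 (envL (fun j => (lft (kj j) (tiT (tQ j) (tE j) (kj j) (X j) (A j) (Z j))).loc 1000000 n a b c)
    (fun j => (tiR (kj j) (X j) (A j) (Z j)).loc 1000000 n a b c)
    (fun j => (tiS (kj j) (X j) (A j)).loc 1000000 n a b c)
    (fun j => (lft (kj j) (po (X j))).loc 1000000 n a b c)
    (fun i => (lft (kpar i) (po (K i))).loc 1000000 n a b c)) (X1 aT aR aS aX aK)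

/-- check, odd block -/
def zic2 (tQ tE : Fin 16 → TM) (X A Z : Fin 16 → List ℤ) (K : Fin 33 → List ℤ) (n : ℕ) (a b c : ℤ) : Bool :=
  mchk D9 n n 1 (envL (fun j => (lft (kj j) (tiT (tQ j) (tE j) (kj j) (X j) (A j) (Z j))).loc 1000000 n a b c)
    (fun j => (tiR (kj j) (X j) (A j) (Z j)).loc 1000000 n a b c)
    (fun j => (tiS (kj j) (X j) (A j)).loc 1000000 n a b c)
    (fun j => (lft (kj j) (po (X j))).loc 1000000 n a b c)
    (fun i => (lft (kpar i) (po (K i))).loc 1000000 n a b c)) (X2 aT aR aS aX aK)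

theorem zi_pos (tQ tE : Fin 16 → TM) (Q E : Fin 16 → ℝ → ℝ) (hQ : ∀ j, (tQ j).ok DD (Q j))
    (hE : ∀ j, (tE j).ok DD (E j)) (X A Z : Fin 16 → List ℤ) (K : Fin 33 → List ℤ) (n : ℕ) (hn : 0 < n)
    (a b c : ℤ) (ha : 0 ≤ a) (hb : 0 < b) (hc : 0 < c) (habc : a + b ≤ c)
    (h1 : zic1 tQ tE X A Z K n a b c = true) (h2 : zic2 tQ tE X A Z K n a b c = true)
    (r : ℝ) (hr0 : 0 < r) (hr1 : (a : ℝ) ≤ c * r) (hr2 : c * r ≤ (a : ℝ) + b)
    (a' ξ η σ : ℝ) (α p q : ℂ) :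
    0 ≤ floc (fun j => (Q j (r ^ 2) + E j (r ^ 2) - bz 2 * pf (X j) (r ^ 2)
            - (2 * kj j * pf (pder (A j)) (r ^ 2) + 2 * r ^ 2 * pf (pder (Z j)) (r ^ 2)
              + (kj j + 2) * pf (Z j) (r ^ 2))) * r ^ kj j)
          (fun j => (kj j * pf (A j) (r ^ 2) + r ^ 2 * pf (Z j) (r ^ 2) - r ^ 2 * pf (pder (X j)) (r ^ 2)
            - 1 / 2 * kj j * pf (X j) (r ^ 2)) * r ^ kj j / r)
          (fun j => kj j * (pf (A j) (r ^ 2) - 1 / 2 * pf (X j) (r ^ 2)) * r ^ kj j / r)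
          (fun j => pf (X j) (r ^ 2) * r ^ kj j) a' ξ η σ α p q := by
  have hbr : (0 : ℝ) < b := by exact_mod_cast hb
  have hcr : (0 : ℝ) < c := by exact_mod_cast hc
  have hDq : DD = D9 * 1000000 := by norm_num [DD, D9]
  have hD9 : 0 < D9 := by norm_num [D9]
  have key := rg_pos D9 n n 1 hD9 hn (by norm_num)
    (fun j τ => ((((a : ℝ) + b * τ) / c)) ^ kj j
      * ziT (Q j) (E j) (kj j) (X j) (A j) (Z j) ((((a : ℝ) + b * τ) / c) ^ 2))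
    (fun j τ => ziR (kj j) (X j) (A j) (Z j) (((a : ℝ) + b * τ) / c))
    (fun j τ => ziS (kj j) (X j) (A j) (((a : ℝ) + b * τ) / c))
    (fun j τ => (((a : ℝ) + b * τ) / c) ^ kj j * pf (X j) ((((a : ℝ) + b * τ) / c) ^ 2))
    (fun i τ => (((a : ℝ) + b * τ) / c) ^ kpar i * pf (K i) ((((a : ℝ) + b * τ) / c) ^ 2))
    _ _ _ _ _
    (fun j => TM.ok_loc DD D9 1000000 n hDq (by norm_num) a b c hc ha hb.le habc _ _
      (ok_lft DD (kj j) _ _ (ok_tiT (tQ j) (tE j) (Q j) (E j) (hQ j) (hE j) (kj j) (X j) (A j) (Z j))))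
    (fun j => TM.ok_loc DD D9 1000000 n hDq (by norm_num) a b c hc ha hb.le habc _ _
      (ok_tiR (kj j) (X j) (A j) (Z j)))
    (fun j => TM.ok_loc DD D9 1000000 n hDq (by norm_num) a b c hc ha hb.le habc _ _
      (ok_tiS (kj j) (X j) (A j)))
    (fun j => TM.ok_loc DD D9 1000000 n hDq (by norm_num) a b c hc ha hb.le habc _ _
      (ok_lft DD (kj j) _ _ (ok_po (X j))))
    (fun i => TM.ok_loc DD D9 1000000 n hDq (by norm_num) a b c hc ha hb.le habc _ _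
      (ok_lft DD (kpar i) _ _ (ok_po (K i))))
    h1 h2 ((c * r - a) / b) (div_nonneg (by linarith) hbr.le) (by rw [div_le_one hbr]; linarith) a' ξ η σ α p q
  have e : ((a : ℝ) + b * ((c * r - a) / b)) / c = r := by
    field_simp
    ring
  simp only [e] at key
  refine key.trans_eq (floc_congr _ _ _ _ _ _ _ _ _ _ _ _ _ _ _ (fun j => ?_) (fun j => ?_)
    (fun j => ?_) (fun j => ?_))
  · exact ziT_eq _ _ _ _ _ _ _
  · exact ziR_eq _ _ _ _ _ hr0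
  · exact ziS_eq _ _ _ _ hr0
  · exact mul_comm _ _

end Pool.Agent.H94.GP
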