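import Pool.Agent.H94.GP.GkA
import Pool.Agent.H94.GP.QtA

/-!
# ZoA: models of the local form outside the disk

Variable `x = r / 2 ∈ [0, 1]`, `s = r^2 = 4 x^2`, `t = (s - 1)/(9/4)`, `e = 1 - t`. Fields `X = e^2 QX`, `A = e QA`, `Z = e QZ`,
`QX = x0 + u t + t^2 oX(t)`, `QA = a0 + t oA(t)`, `QZ = z0 + t oZ(t)`. Rows: `a` multiplied by `r`, `ξ, η` by `1/e`.
-/

set_option autoImplicit false

open Pool.Agent.H94.ER Pool.Agent.H94.SP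

namespace Pool.Agent.H94.GP

/-- the variable `t` -/
noncomputable def tt (x : ℝ) : ℝ := (4 * x ^ 2 - 1) * (4 / 9)

/-- `1 - t` -/
noncomputable def ee (x : ℝ) : ℝ := 1 - tt x

/-- model of `t` -/
def tmt : TM := ⟨[-444444444444444, 0, 1777777777777778], 2⟩
/-- model of `1 - t` -/
def tme : TM := ⟨[1444444444444444, 0, -1777777777777778], 2⟩
/-- model of `s` -/
def tms : TM := ⟨[0, 0, 4000000000000000], 0⟩
/-- model of `4/9` -/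
def c49 : TM := ⟨[444444444444444], 1⟩

theorem ok_tt : tmt.ok DD tt := by
  intro x h0 h1
  have e : ((DD : ℕ) : ℝ) = 1000000000000000 := by norm_num [DD]
  simp only [tmt, pev, tt, e]
  push_cast
  have h2 : 0 ≤ x ^ 2 := by positivity
  have h3 : x ^ 2 ≤ 1 := pow_le_one₀ h0 h1
  rw [abs_le]
  constructor <;> nlinarith

theorem ok_ee : tme.ok DD ee := by
  intro x h0 h1
  have e : ((DD : ℕ) : ℝ) = 1000000000000000 := by norm_num [DD]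
  simp only [tme, pev, ee, tt, e]
  push_cast
  have h2 : 0 ≤ x ^ 2 := by positivity
  have h3 : x ^ 2 ≤ 1 := pow_le_one₀ h0 h1
  rw [abs_le]
  constructor <;> nlinarith

theorem ok_ss : tms.ok DD (fun x => 4 * x ^ 2) := by
  intro x h0 h1
  have e : ((DD : ℕ) : ℝ) = 1000000000000000 := by norm_num [DD]
  simp only [tms, pev, e]
  push_cast
  rw [abs_le]
  constructor <;> nlinarith

theorem ok_c49 : c49.ok DD (fun _ => 4 / 9) := by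
  intro x h0 h1
  have e : ((DD : ℕ) : ℝ) = 1000000000000000 := by norm_num [DD]
  simp only [c49, pev, e]
  push_cast
  rw [abs_le]
  constructor <;> norm_num

/-- model of `pf l (t)` -/
def ptm : List ℤ → TM
  | [] => ⟨[], 0⟩
  | a :: l => (cc a).add (tmt.mul DD (ptm l))

theorem ok_ptm (l : List ℤ) : (ptm l).ok DD (fun x => pf l (tt x)) := by
  induction l with
  | nil => exact TM.ok_congr _ _ _ _ (ok_zero DD) fun s _ _ => by simp [pf, pev]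
  | cons a l ih =>
    refine TM.ok_congr _ _ _ _ (TM.ok_add _ _ _ _ _ (ok_cc a) (TM.ok_mul DD DD_pos _ _ _ _ ok_tt ih)) ?_
    intro s _ _
    simp only [pf, pev]
    ring

/-- model of `(2 x)^k f` -/
def rpw (k : ℕ) (t : TM) : TM := ⟨List.replicate k 0 ++ t.p.map ((2 : ℤ) ^ k * ·), 2 ^ k * t.e⟩

theorem ok_rpw (D k : ℕ) (t : TM) (f : ℝ → ℝ) (h : t.ok D f) :
    (rpw k t).ok D (fun x => (2 * x) ^ k * f x) := by
  intro x h0 h1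
  have e := h x h0 h1
  simp only [rpw, pev_append, pev_replicate, pev_map, List.length_replicate, zero_add]
  have e2 : (D : ℝ) * ((2 * x) ^ k * f x) - x ^ k * (((2 : ℤ) ^ k : ℤ) * pev t.p x)
      = (2 * x) ^ k * (D * f x - pev t.p x) := by
    push_cast
    rw [mul_pow]
    ring
  rw [e2, abs_mul, abs_of_nonneg (by positivity : 0 ≤ (2 * x) ^ k)]
  have h3 : (2 * x) ^ k ≤ 2 ^ k := pow_le_pow_left₀ (by positivity) (by linarith) k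
  push_cast
  exact mul_le_mul h3 e (abs_nonneg _) (by positivity)

/-- `QX` -/
noncomputable def oQX (x0 u : ℝ) (l : List ℤ) (x : ℝ) : ℝ := x0 + (tt x * u + tt x * (tt x * pf l (tt x)))
/-- its derivative in `t` -/
noncomputable def oQXd (u : ℝ) (l : List ℤ) (x : ℝ) : ℝ :=
  u + (((2 : ℤ) : ℝ) * (tt x * pf l (tt x)) + tt x * (tt x * pf (pder l) (tt x)))
/-- `QA` -/
noncomputable def oQA (a0 : ℝ) (l : List ℤ) (x : ℝ) : ℝ := a0 + tt x * pf l (tt x)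
/-- its derivative in `t` -/
noncomputable def oQAd (l : List ℤ) (x : ℝ) : ℝ := pf l (tt x) + tt x * pf (pder l) (tt x)

/-- model -/
def mQX (x0 u : TM) (l : List ℤ) : TM := x0.add ((tmt.mul DD u).add (tmt.mul DD (tmt.mul DD (ptm l))))
/-- model -/
def mQXd (u : TM) (l : List ℤ) : TM :=
  u.add (((tmt.mul DD (ptm l)).smul 2).add (tmt.mul DD (tmt.mul DD (ptm (pder l)))))
/-- model -/
def mQA (a0 : TM) (l : List ℤ) : TM := a0.add (tmt.mul DD (ptm l))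
/-- model -/
def mQAd (l : List ℤ) : TM := (ptm l).add (tmt.mul DD (ptm (pder l)))

theorem ok_mQX (tx tu : TM) (x0 u : ℝ) (hx : tx.ok DD (fun _ => x0)) (hu : tu.ok DD (fun _ => u))
    (l : List ℤ) : (mQX tx tu l).ok DD (oQX x0 u l) :=
  TM.ok_add _ _ _ _ _ hx (TM.ok_add _ _ _ _ _ (TM.ok_mul DD DD_pos _ _ _ _ ok_tt hu)
    (TM.ok_mul DD DD_pos _ _ _ _ ok_tt (TM.ok_mul DD DD_pos _ _ _ _ ok_tt (ok_ptm l))))

theorem ok_mQXd (tu : TM) (u : ℝ) (hu : tu.ok DD (fun _ => u)) (l : List ℤ) :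
    (mQXd tu l).ok DD (oQXd u l) :=
  TM.ok_add _ _ _ _ _ hu (TM.ok_add _ _ _ _ _
    (TM.ok_smul _ 2 _ _ (TM.ok_mul DD DD_pos _ _ _ _ ok_tt (ok_ptm l)))
    (TM.ok_mul DD DD_pos _ _ _ _ ok_tt (TM.ok_mul DD DD_pos _ _ _ _ ok_tt (ok_ptm _))))

theorem ok_mQA (ta : TM) (a0 : ℝ) (ha : ta.ok DD (fun _ => a0)) (l : List ℤ) :
    (mQA ta l).ok DD (oQA a0 l) :=
  TM.ok_add _ _ _ _ _ ha (TM.ok_mul DD DD_pos _ _ _ _ ok_tt (ok_ptm l))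

theorem ok_mQAd (l : List ℤ) : (mQAd l).ok DD (oQAd l) :=
  TM.ok_add _ _ _ _ _ (ok_ptm l) (TM.ok_mul DD DD_pos _ _ _ _ ok_tt (ok_ptm _))

/-- derivative part of a field: `(4/9) (- Q + e Q')` -/
noncomputable def oD (Q Qd : ℝ → ℝ) (x : ℝ) : ℝ := 4 / 9 * (((-1 : ℤ) : ℝ) * Q x + ee x * Qd x)
/-- model -/
def mD (q qd : TM) : TM := c49.mul DD ((q.smul (-1)).add (tme.mul DD qd))

theorem ok_mD (q qd : TM) (Q Qd : ℝ → ℝ) (h : q.ok DD Q) (hd : qd.ok DD Qd) : (mD q qd).ok DD (oD Q Qd) :=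
  TM.ok_mul DD DD_pos _ _ _ _ ok_c49 (TM.ok_add _ _ _ _ _ (TM.ok_smul _ (-1) _ _ h)
    (TM.ok_mul DD DD_pos _ _ _ _ ok_ee hd))

/-- the field part of `r^2 T_j` without `r^(k+2)` -/
noncomputable def oF (k : ℕ) (QX QA QAd QZ QZd : ℝ → ℝ) (x : ℝ) : ℝ :=
  bz 2 * (ee x * (ee x * QX x)) + (((2 * (k : ℤ) : ℤ) : ℝ) * oD QA QAd x
    + (((2 : ℤ) : ℝ) * (4 * x ^ 2 * oD QZ QZd x) + (((k : ℤ) + 2 : ℤ) : ℝ) * (ee x * QZ x)))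
/-- model -/
def mF (k : ℕ) (qx qa qad qz qzd : TM) : TM :=
  (tmlam.mul DD (tme.mul DD (tme.mul DD qx))).add (((mD qa qad).smul (2 * (k : ℤ))).add
    (((tms.mul DD (mD qz qzd)).smul 2).add ((tme.mul DD qz).smul ((k : ℤ) + 2))))

theorem ok_mF (k : ℕ) (qx qa qad qz qzd : TM) (QX QA QAd QZ QZd : ℝ → ℝ) (h1 : qx.ok DD QX)
    (h2 : qa.ok DD QA) (h3 : qad.ok DD QAd) (h4 : qz.ok DD QZ) (h5 : qzd.ok DD QZd) :
    (mF k qx qa qad qz qzd).ok DD (oF k QX QA QAd QZ QZd) :=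
  TM.ok_add _ _ _ _ _ (TM.ok_mul DD DD_pos _ _ _ _ ok_lam (TM.ok_mul DD DD_pos _ _ _ _ ok_ee
      (TM.ok_mul DD DD_pos _ _ _ _ ok_ee h1)))
    (TM.ok_add _ _ _ _ _ (TM.ok_smul _ _ _ _ (ok_mD _ _ _ _ h2 h3))
      (TM.ok_add _ _ _ _ _ (TM.ok_smul _ _ _ _ (TM.ok_mul DD DD_pos _ _ _ _ ok_ss (ok_mD _ _ _ _ h4 h5)))
        (TM.ok_smul _ _ _ _ (TM.ok_mul DD DD_pos _ _ _ _ ok_ee h4))))

/-- `r R_j / e` -/
noncomputable def oR (k : ℕ) (QX QXd QA QZ : ℝ → ℝ) (x : ℝ) : ℝ :=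
  (2 * x) ^ k * (((k : ℤ) : ℝ) * QA x + (4 * x ^ 2 * QZ x
    + (((-1 : ℤ) : ℝ) * (4 / 9 * (4 * x ^ 2 * (((-2 : ℤ) : ℝ) * QX x + ee x * QXd x)))
      + ((-(k : ℤ) : ℤ) : ℝ) * (((500000 : ℤ) : ℝ) / 1000000 * (ee x * QX x)))))
/-- model -/
def mR (k : ℕ) (qx qxd qa qz : TM) : TM :=
  rpw k ((qa.smul (k : ℤ)).add ((tms.mul DD qz).add
    (((c49.mul DD (tms.mul DD ((qx.smul (-2)).add (tme.mul DD qxd)))).smul (-1)).add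
      (((cc 500000).mul DD (tme.mul DD qx)).smul (-(k : ℤ))))))

theorem ok_mR (k : ℕ) (qx qxd qa qz : TM) (QX QXd QA QZ : ℝ → ℝ) (h1 : qx.ok DD QX)
    (h2 : qxd.ok DD QXd) (h3 : qa.ok DD QA) (h4 : qz.ok DD QZ) :
    (mR k qx qxd qa qz).ok DD (oR k QX QXd QA QZ) :=
  ok_rpw DD k _ _ (TM.ok_add _ _ _ _ _ (TM.ok_smul _ _ _ _ h3) (TM.ok_add _ _ _ _ _
    (TM.ok_mul DD DD_pos _ _ _ _ ok_ss h4) (TM.ok_add _ _ _ _ _
      (TM.ok_smul _ (-1) _ _ (TM.ok_mul DD DD_pos _ _ _ _ ok_c49 (TM.ok_mul DD DD_pos _ _ _ _ ok_ss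
        (TM.ok_add _ _ _ _ _ (TM.ok_smul _ (-2) _ _ h1) (TM.ok_mul DD DD_pos _ _ _ _ ok_ee h2)))))
      (TM.ok_smul _ _ _ _ (TM.ok_mul DD DD_pos _ _ _ _ (ok_cc 500000)
        (TM.ok_mul DD DD_pos _ _ _ _ ok_ee h1))))))

/-- `r S_j / e` -/
noncomputable def oS (k : ℕ) (QX QA : ℝ → ℝ) (x : ℝ) : ℝ :=
  (2 * x) ^ k * (((k : ℤ) : ℝ) * QA x
    + ((-(k : ℤ) : ℤ) : ℝ) * (((500000 : ℤ) : ℝ) / 1000000 * (ee x * QX x)))
/-- model -/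
def mS (k : ℕ) (qx qa : TM) : TM :=
  rpw k ((qa.smul (k : ℤ)).add (((cc 500000).mul DD (tme.mul DD qx)).smul (-(k : ℤ))))

theorem ok_mS (k : ℕ) (qx qa : TM) (QX QA : ℝ → ℝ) (h1 : qx.ok DD QX) (h3 : qa.ok DD QA) :
    (mS k qx qa).ok DD (oS k QX QA) :=
  ok_rpw DD k _ _ (TM.ok_add _ _ _ _ _ (TM.ok_smul _ _ _ _ h3) (TM.ok_smul _ _ _ _
    (TM.ok_mul DD DD_pos _ _ _ _ (ok_cc 500000) (TM.ok_mul DD DD_pos _ _ _ _ ok_ee h1))))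

/-- `gc` on `[0, 4]`, variable `x` -/
def tmgo : TM := ⟨[1000000000000000], 40000000⟩

theorem ok_go : tmgo.ok DD (fun x => gc (4 * x ^ 2)) := by
  intro x h0 h1
  have e : ((DD : ℕ) : ℝ) = 1000000000000000 := by norm_num [DD]
  have hs : 0 ≤ 4 * x ^ 2 := by positivity
  have hs1 : 4 * x ^ 2 ≤ 4 := by nlinarith
  have hg := gc_pos _ hs
  have hg2 := gc_sq _ hs
  obtain ⟨s, hsd⟩ : ∃ s, s = 4 * x ^ 2 := ⟨_, rfl⟩
  rw [← hsd] at hs hs1 hg hg2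
  have h2 : 1 - s / 100000000 ≤ 1 / (1 + s / 100000000) := by
    rw [le_div_iff₀ (by positivity)]
    nlinarith
  have h3 : 1 / (1 + s / 100000000) ≤ 1 := by
    rw [div_le_one (by positivity)]
    linarith [show 0 ≤ s / 100000000 by positivity]
  have h4 : gc s ≤ 1 := by nlinarith
  have h5 : 1 - 4 / 100000000 ≤ gc s := by nlinarith
  simp only [tmgo, pev, e]
  rw [← hsd]
  push_cast
  rw [abs_le]
  constructor <;> nlinarith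

/-- `r^(k+2) (Q_j + E_j)` outside, integers over `10^6` -/
noncomputable def oQE (m c2 c6 c8 μ0 μ1 μ2 μ3 w0 w1 f : ℤ) (j : Fin 16) (x : ℝ) : ℝ :=
  (2 * x) ^ 2 * ((Qj gam ((2 * x) ^ 2) (1 / (2 * x) ^ 2) (-(1 / ((2 * x) ^ 2) ^ 2)) ((f / 1000000) / (2 * x))
      (-((f / 1000000) / (2 * (2 * x) ^ 3))) j
    + (Ec (m / 1000000) (c2 / 1000000) (c6 / 1000000) (c8 / 1000000) (μ0 / 1000000) (μ1 / 1000000)
        (μ2 / 1000000) (μ3 / 1000000) (gc ((2 * x) ^ 2)) ((2 * x) ^ 2) j + Spz w0 w1 j)) * (2 * x) ^ kj j)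

/-- model of `g^2` -/
def tmg2 : TM := tmgo.mul DD tmgo

/-- model of `-m - (2 - κ g^2 s) μ` -/
def mEd (m μ : ℤ) : TM :=
  (cc (-m)).add ((tmkap.mul DD (tmg2.mul DD (tms.mul DD (cc μ)))).add ((cc μ).smul (-2)))

/-- models of `oQE` -/
def mQE (m c2 c6 c8 μ0 μ1 μ2 μ3 w0 w1 f : ℤ) : Fin 16 → TM :=
  ![(tms.mul DD (tmgam.add (cc w0))).add ⟨[-4000000000000000], 0⟩,
    (tms.mul DD tmgam).smul 2,
    (((tms.mul DD tmgam).mul DD (cc f)).smul 2).add (((cc f).smul (-4)).add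
      (rpw 1 ((tms.mul DD (tmgo.mul DD (cc c2))).smul (-1)))),
    (((tms.mul DD tmgam).mul DD (cc f)).smul 2).add ((cc f).smul 4),
    tms.mul DD (tmgam.add (mEd m μ0)),
    ⟨[], 0⟩,
    (((tms.mul DD tmgam).mul DD (cc f)).smul 2).add (rpw 1 ((tms.mul DD (tmgo.mul DD (cc c6))).smul (-1))),
    ⟨[], 0⟩,
    (((tms.mul DD tmgam).mul DD (cc f)).smul 2).add (rpw 1 ((tms.mul DD (tmgo.mul DD (cc c8))).smul (-1))),
    ⟨[], 0⟩,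
    (((cc f).mul DD (cc f)).mul DD ((tms.mul DD tmgam).add ⟨[-1000000000000000], 0⟩)).add
      (tms.mul DD (mEd m μ1)),
    ⟨[], 0⟩,
    ((((cc f).mul DD (cc f)).mul DD ((tms.mul DD tmgam).add ⟨[1000000000000000], 0⟩)).smul 2).add
      ((tms.mul DD (tms.mul DD (tmkap.mul DD (tmg2.mul DD (cc μ3))))).smul 2),
    ⟨[], 0⟩,
    (((cc f).mul DD (cc f)).mul DD ((tms.mul DD tmgam).add ⟨[-1000000000000000], 0⟩)).add
      (tms.mul DD ((cc w1).add (mEd m μ2))),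
    ⟨[], 0⟩]

/-- `-m - (2 - κ g^2 s) μ` -/
noncomputable def pEd (m μ : ℤ) (x : ℝ) : ℝ :=
  ((-m : ℤ) : ℝ) / 1000000 + (kap * (gc (4 * x ^ 2) * gc (4 * x ^ 2) * (4 * x ^ 2 * ((μ : ℝ) / 1000000)))
    + ((-2 : ℤ) : ℝ) * ((μ : ℝ) / 1000000))

theorem ok_mEd (m μ : ℤ) : (mEd m μ).ok DD (pEd m μ) :=
  TM.ok_add _ _ _ _ _ (ok_cc (-m)) (TM.ok_add _ _ _ _ _
    (TM.ok_mul DD DD_pos _ _ _ _ ok_kap (TM.ok_mul DD DD_pos _ _ _ _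
      (TM.ok_mul DD DD_pos _ _ _ _ ok_go ok_go) (TM.ok_mul DD DD_pos _ _ _ _ ok_ss (ok_cc μ))))
    (TM.ok_smul _ (-2) _ _ (ok_cc μ)))

/-- polynomial form of `oQE` -/
noncomputable def pQE (m c2 c6 c8 μ0 μ1 μ2 μ3 w0 w1 f : ℤ) (j : Fin 16) (x : ℝ) : ℝ :=
  ![4 * x ^ 2 * (gam + (w0 : ℝ) / 1000000) + (-4),
    ((2 : ℤ) : ℝ) * (4 * x ^ 2 * gam),
    ((2 : ℤ) : ℝ) * (4 * x ^ 2 * gam * ((f : ℝ) / 1000000)) + (((-4 : ℤ) : ℝ) * ((f : ℝ) / 1000000)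
      + (2 * x) ^ 1 * (((-1 : ℤ) : ℝ) * (4 * x ^ 2 * (gc (4 * x ^ 2) * ((c2 : ℝ) / 1000000))))),
    ((2 : ℤ) : ℝ) * (4 * x ^ 2 * gam * ((f : ℝ) / 1000000)) + ((4 : ℤ) : ℝ) * ((f : ℝ) / 1000000),
    4 * x ^ 2 * (gam + pEd m μ0 x),
    0,
    ((2 : ℤ) : ℝ) * (4 * x ^ 2 * gam * ((f : ℝ) / 1000000))
      + (2 * x) ^ 1 * (((-1 : ℤ) : ℝ) * (4 * x ^ 2 * (gc (4 * x ^ 2) * ((c6 : ℝ) / 1000000)))),
    0,
    ((2 : ℤ) : ℝ) * (4 * x ^ 2 * gam * ((f : ℝ) / 1000000))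
      + (2 * x) ^ 1 * (((-1 : ℤ) : ℝ) * (4 * x ^ 2 * (gc (4 * x ^ 2) * ((c8 : ℝ) / 1000000)))),
    0,
    (f : ℝ) / 1000000 * ((f : ℝ) / 1000000) * (4 * x ^ 2 * gam + (-1)) + 4 * x ^ 2 * pEd m μ1 x,
    0,
    ((2 : ℤ) : ℝ) * ((f : ℝ) / 1000000 * ((f : ℝ) / 1000000) * (4 * x ^ 2 * gam + 1))
      + ((2 : ℤ) : ℝ) * (4 * x ^ 2 * (4 * x ^ 2 * (kap * (gc (4 * x ^ 2) * gc (4 * x ^ 2) * ((μ3 : ℝ) / 1000000))))),
    0,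
    (f : ℝ) / 1000000 * ((f : ℝ) / 1000000) * (4 * x ^ 2 * gam + (-1))
      + 4 * x ^ 2 * ((w1 : ℝ) / 1000000 + pEd m μ2 x),
    0] j

theorem ok_const (z : ℤ) (c : ℝ) (h : 1000000000000000 * c = z) : (⟨[z], 0⟩ : TM).ok DD (fun _ => c) := by
  intro s _ _
  have e : ((DD : ℕ) : ℝ) = 1000000000000000 := by norm_num [DD]
  simp only [pev, e]
  rw [h]
  simp

theorem ok_mQE (m c2 c6 c8 μ0 μ1 μ2 μ3 w0 w1 f : ℤ) (j : Fin 16) :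
    (mQE m c2 c6 c8 μ0 μ1 μ2 μ3 w0 w1 f j).ok DD (pQE m c2 c6 c8 μ0 μ1 μ2 μ3 w0 w1 f j) := by
  have hsg := TM.ok_mul DD DD_pos _ _ _ _ ok_ss ok_gam
  have hm4 : (⟨[-4000000000000000], 0⟩ : TM).ok DD (fun _ => (-4 : ℝ)) :=
    ok_const _ _ (by norm_num)
  have hm1 : (⟨[-1000000000000000], 0⟩ : TM).ok DD (fun _ => (-1 : ℝ)) :=
    ok_const _ _ (by norm_num)
  have hp1 : (⟨[1000000000000000], 0⟩ : TM).ok DD (fun _ => (1 : ℝ)) :=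
    ok_const _ _ (by norm_num)
  have hsf := TM.ok_smul DD 2 _ _ (TM.ok_mul DD DD_pos _ _ _ _ hsg (ok_cc f))
  have hc : ∀ z : ℤ, (rpw 1 ((tms.mul DD (tmgo.mul DD (cc z))).smul (-1))).ok DD
      (fun x => (2 * x) ^ 1 * (((-1 : ℤ) : ℝ) * (4 * x ^ 2 * (gc (4 * x ^ 2) * ((z : ℝ) / 1000000))))) :=
    fun z => ok_rpw DD 1 _ _ (TM.ok_smul _ (-1) _ _ (TM.ok_mul DD DD_pos _ _ _ _ ok_ss
      (TM.ok_mul DD DD_pos _ _ _ _ ok_go (ok_cc z))))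
  have hff := TM.ok_mul DD DD_pos _ _ _ _ (ok_cc f) (ok_cc f)
  fin_cases j
  · exact TM.ok_add _ _ _ _ _ (TM.ok_mul DD DD_pos _ _ _ _ ok_ss (TM.ok_add _ _ _ _ _ ok_gam (ok_cc w0))) hm4
  · exact TM.ok_smul _ 2 _ _ hsg
  · exact TM.ok_add _ _ _ _ _ hsf (TM.ok_add _ _ _ _ _ (TM.ok_smul _ (-4) _ _ (ok_cc f)) (hc c2))
  · exact TM.ok_add _ _ _ _ _ hsf (TM.ok_smul _ 4 _ _ (ok_cc f))
  · exact TM.ok_mul DD DD_pos _ _ _ _ ok_ss (TM.ok_add _ _ _ _ _ ok_gam (ok_mEd m μ0))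
  · exact ok_zero DD
  · exact TM.ok_add _ _ _ _ _ hsf (hc c6)
  · exact ok_zero DD
  · exact TM.ok_add _ _ _ _ _ hsf (hc c8)
  · exact ok_zero DD
  · exact TM.ok_add _ _ _ _ _ (TM.ok_mul DD DD_pos _ _ _ _ hff (TM.ok_add _ _ _ _ _ hsg hm1))
      (TM.ok_mul DD DD_pos _ _ _ _ ok_ss (ok_mEd m μ1))
  · exact ok_zero DD
  · exact TM.ok_add _ _ _ _ _ (TM.ok_smul _ 2 _ _ (TM.ok_mul DD DD_pos _ _ _ _ hff
      (TM.ok_add _ _ _ _ _ hsg hp1))) (TM.ok_smul _ 2 _ _ (TM.ok_mul DD DD_pos _ _ _ _ ok_ss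
        (TM.ok_mul DD DD_pos _ _ _ _ ok_ss (TM.ok_mul DD DD_pos _ _ _ _ ok_kap
          (TM.ok_mul DD DD_pos _ _ _ _ (TM.ok_mul DD DD_pos _ _ _ _ ok_go ok_go) (ok_cc μ3))))))
  · exact ok_zero DD
  · exact TM.ok_add _ _ _ _ _ (TM.ok_mul DD DD_pos _ _ _ _ hff (TM.ok_add _ _ _ _ _ hsg hm1))
      (TM.ok_mul DD DD_pos _ _ _ _ ok_ss (TM.ok_add _ _ _ _ _ (ok_cc w1) (ok_mEd m μ2)))
  · exact ok_zero DD

theorem oQE_eq (m c2 c6 c8 μ0 μ1 μ2 μ3 w0 w1 f : ℤ) (j : Fin 16) (x : ℝ) (hx : 0 < x) :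
    oQE m c2 c6 c8 μ0 μ1 μ2 μ3 w0 w1 f j x = pQE m c2 c6 c8 μ0 μ1 μ2 μ3 w0 w1 f j x := by
  have hx' := hx.ne'
  have h4 : (2 * x) ^ 2 = 4 * x ^ 2 := by ring
  unfold oQE
  fin_cases j
  all_goals (simp [Qj, Ec, Spz, kj, pQE, pEd, h4])
  all_goals (try field_simp)
  all_goals (try ring_nf)
  all_goals (try simp)

end Pool.Agent.H94.GP
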