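import Pool.Agent.H94.GP.ZoA

/-!
# ZoB: the zone `1 < r^2 < 13/4`, plain fields
-/

set_option autoImplicit false

open Pool.Agent.H94.ER Pool.Agent.H94.SP

namespace Pool.Agent.H94.GP

/-- outside field `X` -/
noncomputable def fX (x0 u : ℝ) (l : List ℤ) (s : ℝ) : ℝ :=
  (1 - (s - 1) * (4 / 9)) ^ 2 * (x0 + u * ((s - 1) * (4 / 9)) + ((s - 1) * (4 / 9)) ^ 2 * pf l ((s - 1) * (4 / 9)))

/-- its derivative -/
noncomputable def fXd (x0 u : ℝ) (l : List ℤ) (s : ℝ) : ℝ :=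
  4 / 9 * (-2 * (1 - (s - 1) * (4 / 9)) * (x0 + u * ((s - 1) * (4 / 9))
      + ((s - 1) * (4 / 9)) ^ 2 * pf l ((s - 1) * (4 / 9)))
    + (1 - (s - 1) * (4 / 9)) ^ 2 * (u + 2 * ((s - 1) * (4 / 9)) * pf l ((s - 1) * (4 / 9))
      + ((s - 1) * (4 / 9)) ^ 2 * pf (pder l) ((s - 1) * (4 / 9))))

/-- outside fields `A`, `D` -/
noncomputable def fA (a0 : ℝ) (l : List ℤ) (s : ℝ) : ℝ :=
  (1 - (s - 1) * (4 / 9)) * (a0 + (s - 1) * (4 / 9) * pf l ((s - 1) * (4 / 9)))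

/-- derivative -/
noncomputable def fAd (a0 : ℝ) (l : List ℤ) (s : ℝ) : ℝ :=
  4 / 9 * (-(a0 + (s - 1) * (4 / 9) * pf l ((s - 1) * (4 / 9)))
    + (1 - (s - 1) * (4 / 9)) * (pf l ((s - 1) * (4 / 9)) + (s - 1) * (4 / 9) * pf (pder l) ((s - 1) * (4 / 9))))

theorem ZoB_t (s : ℝ) : HasDerivAt (fun s : ℝ => (s - 1) * (4 / 9)) (4 / 9) s := by
  have h := ((hasDerivAt_id' s).sub_const 1).mul_const (4 / 9 : ℝ)
  simpa using h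

theorem ZoB_p (l : List ℤ) (s : ℝ) : HasDerivAt (fun s : ℝ => pf l ((s - 1) * (4 / 9)))
    (pf (pder l) ((s - 1) * (4 / 9)) * (4 / 9)) s := by
  have h := (pf_hasDerivAt l ((s - 1) * (4 / 9))).comp s (ZoB_t s)
  exact h

theorem fX_hasDerivAt (x0 u : ℝ) (l : List ℤ) (s : ℝ) : HasDerivAt (fX x0 u l) (fXd x0 u l s) s := by
  have ht := ZoB_t s
  have hp := ZoB_p l s
  have h := ((ht.const_sub 1).pow 2).mul (((ht.const_mul u).const_add x0).add ((ht.pow 2).mul hp))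
  refine h.congr_deriv ?_
  simp only [fXd, Pi.pow_apply, Pi.mul_apply, Pi.add_apply, Nat.cast_ofNat]
  ring

theorem fA_hasDerivAt (a0 : ℝ) (l : List ℤ) (s : ℝ) : HasDerivAt (fA a0 l) (fAd a0 l s) s := by
  have ht := ZoB_t s
  have hp := ZoB_p l s
  have h := (ht.const_sub 1).mul ((ht.mul hp).const_add a0)
  refine h.congr_deriv ?_
  simp only [fAd, Pi.mul_apply]
  ring

theorem contDiff_fX (x0 u : ℝ) (l : List ℤ) (n : ℕ) : ContDiff ℝ n (fX x0 u l) := by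
  have h1 : ContDiff ℝ n (fun s : ℝ => (s - 1) * (4 / 9)) := (contDiff_id.sub contDiff_const).mul contDiff_const
  have h2 : ContDiff ℝ n (fun s : ℝ => pf l ((s - 1) * (4 / 9))) := (contDiff_pf l n).comp h1
  exact ((contDiff_const.sub h1).pow 2).mul ((contDiff_const.add (contDiff_const.mul h1)).add ((h1.pow 2).mul h2))

theorem contDiff_fA (a0 : ℝ) (l : List ℤ) (n : ℕ) : ContDiff ℝ n (fA a0 l) := by
  have h1 : ContDiff ℝ n (fun s : ℝ => (s - 1) * (4 / 9)) := (contDiff_id.sub contDiff_const).mul contDiff_const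
  have h2 : ContDiff ℝ n (fun s : ℝ => pf l ((s - 1) * (4 / 9))) := (contDiff_pf l n).comp h1
  exact (contDiff_const.sub h1).mul (contDiff_const.add (h1.mul h2))

/-- coefficient of `a^2` (times `r^2`), in the variable `x = r / 2` -/
noncomputable def zoT (m c2 c6 c8 μ0 μ1 μ2 μ3 w0 w1 f : ℤ) (x0 u a0 z0 : ℝ) (lX lA lZ : List ℤ) (j : Fin 16)
    (x : ℝ) : ℝ :=
  pQE m c2 c6 c8 μ0 μ1 μ2 μ3 w0 w1 f j x + ((-1 : ℤ) : ℝ) * ((2 * x) ^ (kj j + 2)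
    * oF (kj j) (oQX x0 u lX) (oQA a0 lA) (oQAd lA) (oQA z0 lZ) (oQAd lZ) x)

/-- model -/
def mT (m c2 c6 c8 μ0 μ1 μ2 μ3 w0 w1 f : ℤ) (tx tu ta tz : TM) (lX lA lZ : List ℤ) (j : Fin 16) : TM :=
  (mQE m c2 c6 c8 μ0 μ1 μ2 μ3 w0 w1 f j).add ((rpw (kj j + 2)
    (mF (kj j) (mQX tx tu lX) (mQA ta lA) (mQAd lA) (mQA tz lZ) (mQAd lZ))).smul (-1))

theorem ok_mT (m c2 c6 c8 μ0 μ1 μ2 μ3 w0 w1 f : ℤ) (tx tu ta tz : TM) (x0 u a0 z0 : ℝ) (lX lA lZ : List ℤ)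
    (hx : tx.ok DD (fun _ => x0)) (hu : tu.ok DD (fun _ => u)) (ha : ta.ok DD (fun _ => a0))
    (hz : tz.ok DD (fun _ => z0)) (j : Fin 16) :
    (mT m c2 c6 c8 μ0 μ1 μ2 μ3 w0 w1 f tx tu ta tz lX lA lZ j).ok DD
      (zoT m c2 c6 c8 μ0 μ1 μ2 μ3 w0 w1 f x0 u a0 z0 lX lA lZ j) :=
  TM.ok_add _ _ _ _ _ (ok_mQE m c2 c6 c8 μ0 μ1 μ2 μ3 w0 w1 f j) (TM.ok_smul _ (-1) _ _
    (ok_rpw DD _ _ _ (ok_mF _ _ _ _ _ _ _ _ _ _ _ (ok_mQX tx tu x0 u hx hu lX) (ok_mQA ta a0 ha lA)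
      (ok_mQAd lA) (ok_mQA tz z0 hz lZ) (ok_mQAd lZ))))

/-- skew entries -/
noncomputable def zoK (oK : Fin 33 → List ℤ) (i : Fin 33) (x : ℝ) : ℝ :=
  (2 * x) ^ (if i.val < 21 then 1 else 0) * pf (oK i) (tt x)

/-- model -/
def mK (oK : Fin 33 → List ℤ) (i : Fin 33) : TM := rpw (if i.val < 21 then 1 else 0) (ptm (oK i))

theorem ok_mK (oK : Fin 33 → List ℤ) (i : Fin 33) : (mK oK i).ok DD (zoK oK i) :=
  ok_rpw DD _ _ _ (ok_ptm _)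

theorem zoT_eq (m c2 c6 c8 μ0 μ1 μ2 μ3 w0 w1 f : ℤ) (x0 u a0 z0 : ℝ) (lX lA lZ : List ℤ) (j : Fin 16)
    (x : ℝ) (hx : 0 < x) :
    (2 * x) ^ 2 * (((Qj gam ((2 * x) ^ 2) (1 / (2 * x) ^ 2) (-(1 / ((2 * x) ^ 2) ^ 2)) ((f / 1000000) / (2 * x))
      (-((f / 1000000) / (2 * (2 * x) ^ 3))) j
    + (Ec (m / 1000000) (c2 / 1000000) (c6 / 1000000) (c8 / 1000000) (μ0 / 1000000) (μ1 / 1000000)
        (μ2 / 1000000) (μ3 / 1000000) (gc ((2 * x) ^ 2)) ((2 * x) ^ 2) j + Spz w0 w1 j))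
      - bz 2 * fX x0 u lX ((2 * x) ^ 2)
      - (2 * kj j * fAd a0 lA ((2 * x) ^ 2) + 2 * (2 * x) ^ 2 * fAd z0 lZ ((2 * x) ^ 2)
        + (kj j + 2) * fA z0 lZ ((2 * x) ^ 2))) * (2 * x) ^ kj j)
      = zoT m c2 c6 c8 μ0 μ1 μ2 μ3 w0 w1 f x0 u a0 z0 lX lA lZ j x := by
  have h := oQE_eq m c2 c6 c8 μ0 μ1 μ2 μ3 w0 w1 f j x hx
  unfold zoT
  rw [← h]
  unfold oQE oF oD oQX oQA oQAd fX fA fAd ee tt
  push_cast
  ring_nf

theorem zoR_eq (x0 u a0 z0 : ℝ) (lX lA lZ : List ℤ) (k : ℕ) (x : ℝ) (hx : 0 < x) (he : ee x ≠ 0) :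
    2 * x * ((k * fA a0 lA ((2 * x) ^ 2) + (2 * x) ^ 2 * fA z0 lZ ((2 * x) ^ 2)
      - (2 * x) ^ 2 * fXd x0 u lX ((2 * x) ^ 2) - 1 / 2 * k * fX x0 u lX ((2 * x) ^ 2)) * (2 * x) ^ k / (2 * x))
      / ee x
      = oR k (oQX x0 u lX) (oQXd u lX) (oQA a0 lA) (oQA z0 lZ) x := by
  have h2 : (2 * x) ≠ 0 := by positivity
  have e1 : (2 * x) ^ 2 = 4 * x ^ 2 := by ring
  have e2 : (1 - ((2 * x) ^ 2 - 1) * (4 / 9)) = ee x := by unfold ee tt; ring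
  have e3 : ((2 * x) ^ 2 - 1) * (4 / 9) = tt x := by unfold tt; ring
  unfold oR oQX oQXd oQA fX fXd fA
  rw [e2, e3, e1]
  field_simp
  push_cast
  ring

theorem zoS_eq (x0 u a0 : ℝ) (lX lA : List ℤ) (k : ℕ) (x : ℝ) (hx : 0 < x) (he : ee x ≠ 0) :
    2 * x * (k * (fA a0 lA ((2 * x) ^ 2) - 1 / 2 * fX x0 u lX ((2 * x) ^ 2)) * (2 * x) ^ k / (2 * x)) / ee x
      = oS k (oQX x0 u lX) (oQA a0 lA) x := by
  have h2 : (2 * x) ≠ 0 := by positivity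
  have e2 : (1 - ((2 * x) ^ 2 - 1) * (4 / 9)) = ee x := by unfold ee tt; ring
  have e3 : ((2 * x) ^ 2 - 1) * (4 / 9) = tt x := by unfold tt; ring
  unfold oS oQX oQA fX fA
  rw [e2, e3]
  field_simp
  push_cast
  ring

theorem zoX_eq (x0 u : ℝ) (lX : List ℤ) (k : ℕ) (x : ℝ) (he : ee x ≠ 0) :
    fX x0 u lX ((2 * x) ^ 2) * (2 * x) ^ k / ee x ^ 2 = (2 * x) ^ k * oQX x0 u lX x := by
  have e2 : (1 - ((2 * x) ^ 2 - 1) * (4 / 9)) = ee x := by unfold ee tt; ring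
  have e3 : ((2 * x) ^ 2 - 1) * (4 / 9) = tt x := by unfold tt; ring
  unfold oQX fX
  rw [e2, e3]
  field_simp
  ring

end Pool.Agent.H94.GP
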